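import Pool.Agent.H75.UB.Rep

set_option autoImplicit false
set_option linter.unusedSectionVars false

/-! The discrete integrals of the blocks. -/

open Finset ComplexConjugate MeasureTheory UnitAddTorus

open scoped Classical

namespace Pool.Agent.H75.UB

open Pool.Agent.H75.MT (ee ee_add ee_norm ee_conj ee_int ee_zero)

noncomputable section

local instance : MeasureSpace UnitAddCircle := ⟨AddCircle.haarAddCircle⟩

local instance : Measure.IsAddHaarMeasure (volume : Measure UnitAddCircle) :=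
  inferInstanceAs (Measure.IsAddHaarMeasure AddCircle.haarAddCircle)

local instance : IsProbabilityMeasure (volume : Measure UnitAddCircle) :=
  inferInstanceAs (IsProbabilityMeasure AddCircle.haarAddCircle)

variable {d : ℕ}

/-- a point of the torus -/
def pt (x : Fin d → ℝ) : TT d := fun i => (x i : UnitAddCircle)

lemma pt_add (x y : Fin d → ℝ) : (pt (x + y) : TT d) = pt x + pt y := by
  funext i
  show ((x i + y i : ℝ) : UnitAddCircle) = _
  rw [AddCircle.coe_add]
  rfl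

/-- the kernel with base point `z` -/
def TK (r : ℝ) (s : Fin d → ℕ) (z : Fin d → ℝ) : C(TT d, ℂ) :=
  tp (rho s) (fun k => conj (crp r k * ex k z))

lemma TK_pt (r : ℝ) (s : Fin d → ℕ) (z x : Fin d → ℝ) :
    ‖TK r s z (pt x)‖ = ‖∑ k ∈ rho s, crp r k * ex k (z - x)‖ := by
  rw [← RCLike.norm_conj (TK r s z (pt x))]
  congr 1
  unfold TK
  rw [tp_apply, map_sum]
  refine Finset.sum_congr rfl (fun k _ => ?_)
  rw [map_mul, Complex.conj_conj, ex_sub, show (pt x : TT d) = fun i => (x i : UnitAddCircle) from rfl,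
    mF_coe, ex_conj]
  ring

lemma TK_trans (r : ℝ) (s : Fin d → ℕ) (z w : Fin d → ℝ) (y : TT d) :
    ‖TK r s z (y + pt w)‖ = ‖TK r s (z - w) y‖ := by
  obtain ⟨x, rfl⟩ := exists_real y
  have h : (fun i => (x i : UnitAddCircle)) = (pt x : TT d) := rfl
  rw [h, ← pt_add, TK_pt, TK_pt]
  congr 1
  refine Finset.sum_congr rfl (fun k _ => ?_)
  congr 2
  funext i
  simp only [Pi.sub_apply, Pi.add_apply]
  ring

lemma TK_avg (r : ℝ) (hr : 0 < r) (l : ℕ) (s : Fin d → ℕ) (hs : s ∈ Sl d l) (z : Fin d → ℝ)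
    (y : TT d) : (∑ ζ ∈ grid s, ‖TK r s (z + gp (NN s) ζ) y‖) / NT s ≤ kap' d r l := by
  obtain ⟨x, rfl⟩ := exists_real y
  have h : (fun i => (x i : UnitAddCircle)) = (pt x : TT d) := rfl
  refine le_trans (le_of_eq ?_) (kernel_avg r hr l s hs (x - z))
  congr 1
  refine Finset.sum_congr rfl (fun ζ _ => ?_)
  rw [h, TK_pt]
  congr 1
  refine Finset.sum_congr rfl (fun k _ => ?_)
  congr 2
  funext i
  simp only [Pi.sub_apply, Pi.add_apply]
  ring

lemma TK_int (r : ℝ) (hr : 0 < r) (l : ℕ) (s : Fin d → ℕ) (hs : s ∈ Sl d l) (z : Fin d → ℝ) :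
    ∫ y, ‖TK r s z y‖ ≤ kap' d r l := by
  have hN0 : (0 : ℝ) < NT s := by exact_mod_cast NT_pos s
  have hc : ∀ z : Fin d → ℝ, Continuous (fun y : TT d => ‖TK r s z y‖) := fun z => by fun_prop
  have h1 : ∀ w : Fin d → ℝ, ∫ y, ‖TK r s (z + w) y‖ = ∫ y, ‖TK r s z y‖ := by
    intro w
    have e1 := integral_add_right_eq_self (μ := (volume : Measure (TT d)))
      (fun y => ‖TK r s (z + w) y‖) (pt w)
    rw [← e1]
    congr 1
    funext y
    rw [TK_trans, add_sub_cancel_right]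
  have h2 : ∫ y, ‖TK r s z y‖ = ∫ y, (∑ ζ ∈ grid s, ‖TK r s (z + gp (NN s) ζ) y‖) / NT s := by
    rw [integral_div, integral_finsetSum _ (fun ζ _ => rint _ (hc _))]
    simp only [h1]
    rw [Finset.sum_const, grid_card, nsmul_eq_mul]
    field_simp
  rw [h2]
  calc _ ≤ ∫ _y : TT d, kap' d r l := by
        refine integral_mono (rint _ ?_) (rint _ continuous_const) (fun y => TK_avg r hr l s hs z y)
        exact (continuous_finsetSum _ (fun ζ _ => hc _)).div_const _
    _ = _ := by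
        rw [integral_const]
        simp

/-- Hölder's inequality with a weight -/
lemma weighted (p : ℝ) (hp : 1 < p) (φ : TT d → ℂ) (hφ : MemLp φ (ENNReal.ofReal p) volume)
    (K : C(TT d, ℂ)) : (∫ y, ‖φ y‖ * ‖K y‖) ^ p
      ≤ (∫ y, ‖φ y‖ ^ p * ‖K y‖) * (∫ y, ‖K y‖) ^ (p - 1) := by
  set q := p / (p - 1) with hq
  have hp0 : 0 < p := by linarith
  have hpq : p.HolderConjugate q := Real.HolderConjugate.conjExponent hp
  have hq0 : 0 < q := hpq.symm.pos
  have hKc : Continuous (fun y : TT d => ‖K y‖) := by fun_prop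
  have hK1 : Continuous (fun y : TT d => ‖K y‖ ^ (1 / p)) :=
    hKc.rpow_const (fun _ => Or.inr (by positivity))
  have hK2 : Continuous (fun y : TT d => ‖K y‖ ^ (1 / q)) :=
    hKc.rpow_const (fun _ => Or.inr (by positivity))
  have hf : MemLp (fun y : TT d => ‖φ y‖ * ‖K y‖ ^ (1 / p)) (ENNReal.ofReal p) volume := by
    refine MemLp.of_le_mul (c := ‖K‖ ^ (1 / p)) hφ ?_ ?_
    · exact (hφ.aestronglyMeasurable.norm).mul hK1.aestronglyMeasurable
    · refine Filter.Eventually.of_forall (fun y => ?_)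
      rw [Real.norm_eq_abs, abs_of_nonneg (by positivity), mul_comm]
      exact mul_le_mul_of_nonneg_right (Real.rpow_le_rpow (norm_nonneg _) (K.norm_coe_le_norm y)
        (by positivity)) (norm_nonneg _)
  have hg : MemLp (fun y : TT d => ‖K y‖ ^ (1 / q)) (ENNReal.ofReal q) volume :=
    hK2.memLp_of_hasCompactSupport (HasCompactSupport.of_compactSpace _)
  have h1 := integral_mul_le_Lp_mul_Lq_of_nonneg hpq
    (Filter.Eventually.of_forall (fun y => by positivity))
    (Filter.Eventually.of_forall (fun y => by positivity)) hf hg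
  have e1 : ∀ y, ‖φ y‖ * ‖K y‖ ^ (1 / p) * ‖K y‖ ^ (1 / q) = ‖φ y‖ * ‖K y‖ := by
    intro y
    rw [mul_assoc, ← Real.rpow_add_of_nonneg (norm_nonneg _) (by positivity) (by positivity)]
    have : 1 / p + 1 / q = 1 := by
      have := hpq.inv_add_inv_eq_one
      rw [one_div, one_div]
      exact this
    rw [this, Real.rpow_one]
  have e2 : ∀ y, (‖φ y‖ * ‖K y‖ ^ (1 / p)) ^ p = ‖φ y‖ ^ p * ‖K y‖ := by
    intro y
    rw [Real.mul_rpow (norm_nonneg _) (by positivity), ← Real.rpow_mul (norm_nonneg _),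
      one_div_mul_cancel hp0.ne', Real.rpow_one]
  have e3 : ∀ y, (‖K y‖ ^ (1 / q)) ^ q = ‖K y‖ := by
    intro y
    rw [← Real.rpow_mul (norm_nonneg _), one_div_mul_cancel hq0.ne', Real.rpow_one]
  simp only [e1, e2, e3] at h1
  have hA : 0 ≤ ∫ y, ‖φ y‖ ^ p * ‖K y‖ := integral_nonneg (fun y => by positivity)
  have hB : 0 ≤ ∫ y, ‖K y‖ := integral_nonneg (fun y => by positivity)
  have h0 : 0 ≤ ∫ y, ‖φ y‖ * ‖K y‖ := integral_nonneg (fun y => by positivity)
  calc (∫ y, ‖φ y‖ * ‖K y‖) ^ p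
      ≤ ((∫ y, ‖φ y‖ ^ p * ‖K y‖) ^ (1 / p) * (∫ y, ‖K y‖) ^ (1 / q)) ^ p :=
        Real.rpow_le_rpow h0 h1 hp0.le
    _ = _ := by
        rw [Real.mul_rpow (by positivity) (by positivity), ← Real.rpow_mul hA, ← Real.rpow_mul hB,
          one_div_mul_cancel hp0.ne', Real.rpow_one]
        congr 2
        rw [hq]
        field_simp

/-- the discrete integrals of a block -/
theorem discrete (r : ℝ) (hr : 0 < r) (p : ℝ) (hp : 1 < p) (φ : TT d → ℂ)
    (hφ : MemLp φ (ENNReal.ofReal p) volume) (hφ1 : ∫ x, ‖φ x‖ ^ p ≤ 1) (l : ℕ) (s : Fin d → ℕ)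
    (hs : s ∈ Sl d l) :
    (∑ ζ ∈ grid s, ‖∑ k ∈ rho s, (crp r k * cf φ k) * ex k (gp (NN s) ζ)‖ ^ p) / NT s
      ≤ kap' d r l ^ p := by
  have hN0 : (0 : ℝ) < NT s := by exact_mod_cast NT_pos s
  have hp0 : 0 < p := by linarith
  have hκ := kap'_pos d r l
  set κ := kap' d r l with hκd
  have hφi : Integrable φ volume :=
    hφ.integrable (by
      rw [← ENNReal.ofReal_one]
      exact ENNReal.ofReal_le_ofReal hp.le)
  have hφp : Integrable (fun y => ‖φ y‖ ^ p) volume := by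
    have := hφ.integrable_norm_rpow (by
      rw [Ne, ENNReal.ofReal_eq_zero, not_le]
      exact hp0) ENNReal.ofReal_ne_top
    rwa [ENNReal.toReal_ofReal hp0.le] at this
  have hKc : ∀ z, Continuous (fun y : TT d => ‖TK r s z y‖) := fun z => by fun_prop
  have hint : ∀ z, Integrable (fun y => ‖φ y‖ ^ p * ‖TK r s z y‖) volume := by
    intro z
    refine hφp.mul_bdd (c := ‖TK r s z‖) (hKc z).aestronglyMeasurable ?_
    refine Filter.Eventually.of_forall (fun y => ?_)
    rw [norm_norm]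
    exact (TK r s z).norm_coe_le_norm y
  have h1 : ∀ ζ ∈ grid s, ‖∑ k ∈ rho s, (crp r k * cf φ k) * ex k (gp (NN s) ζ)‖ ^ p
      ≤ κ ^ (p - 1) * ∫ y, ‖φ y‖ ^ p * ‖TK r s (0 + gp (NN s) ζ) y‖ := by
    intro ζ _
    rw [zero_add]
    have e1 : ∑ k ∈ rho s, (crp r k * cf φ k) * ex k (gp (NN s) ζ)
        = ∫ y, φ y * conj (TK r s (gp (NN s) ζ) y) := by
      unfold TK
      rw [pair_cf φ hφi]
      refine Finset.sum_congr rfl (fun k _ => ?_)
      rw [Complex.conj_conj]
      ring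
    have e2 : ‖∑ k ∈ rho s, (crp r k * cf φ k) * ex k (gp (NN s) ζ)‖
        ≤ ∫ y, ‖φ y‖ * ‖TK r s (gp (NN s) ζ) y‖ := by
      rw [e1]
      refine (norm_integral_le_integral_norm _).trans (le_of_eq ?_)
      congr 1
      funext y
      rw [norm_mul, RCLike.norm_conj]
    refine (Real.rpow_le_rpow (norm_nonneg _) e2 hp0.le).trans ?_
    refine (weighted p hp φ hφ _).trans ?_
    rw [mul_comm]
    have e3 : (∫ y, ‖TK r s (gp (NN s) ζ) y‖) ^ (p - 1) ≤ κ ^ (p - 1) :=
      Real.rpow_le_rpow (integral_nonneg (fun y => by positivity)) (TK_int r hr l s hs _)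
        (by linarith)
    exact mul_le_mul_of_nonneg_right e3 (integral_nonneg (fun y => by positivity))
  have h2 : (∑ ζ ∈ grid s, ∫ y, ‖φ y‖ ^ p * ‖TK r s (0 + gp (NN s) ζ) y‖) / NT s ≤ κ := by
    rw [← integral_finsetSum _ (fun ζ _ => hint _), ← integral_div]
    calc _ ≤ ∫ y, κ * ‖φ y‖ ^ p := by
          refine integral_mono ?_ (hφp.const_mul κ) ?_
          · exact (integrable_finsetSum _ (fun ζ _ => hint _)).div_const _
          · intro y
            show (∑ ζ ∈ grid s, ‖φ y‖ ^ p * ‖TK r s (0 + gp (NN s) ζ) y‖) / NT s ≤ κ * ‖φ y‖ ^ p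
            rw [← Finset.mul_sum, mul_div_assoc, mul_comm]
            exact mul_le_mul_of_nonneg_right (TK_avg r hr l s hs 0 y) (by positivity)
      _ = κ * ∫ y, ‖φ y‖ ^ p := integral_const_mul _ _
      _ ≤ κ * 1 := by gcongr
      _ = κ := mul_one _
  calc _ ≤ (∑ ζ ∈ grid s, κ ^ (p - 1) * ∫ y, ‖φ y‖ ^ p * ‖TK r s (0 + gp (NN s) ζ) y‖) / NT s :=
        div_le_div_of_nonneg_right (Finset.sum_le_sum h1) hN0.le
    _ = κ ^ (p - 1)
        * ((∑ ζ ∈ grid s, ∫ y, ‖φ y‖ ^ p * ‖TK r s (0 + gp (NN s) ζ) y‖) / NT s) := by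
        rw [← Finset.mul_sum]
        ring
    _ ≤ κ ^ (p - 1) * κ := by gcongr
    _ = κ ^ p := by
        nth_rewrite 2 [← Real.rpow_one κ]
        rw [← Real.rpow_add hκ]
        congr 1
        ring

end

end Pool.Agent.H75.UB
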