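import Pool.Agent.H75.UB.Lay2
import Pool.Agent.H75.UB.Disc

set_option autoImplicit false
set_option linter.unusedSectionVars false

/-! The blocks of a function of the class: energies and concentrated samples. -/

open Finset ComplexConjugate MeasureTheory UnitAddTorus

open scoped Classical

namespace Pool.Agent.H75.UB

open Pool.Agent.H75.MT (ee ee_add ee_norm ee_conj ee_int ee_zero cr cr_neg ee_nat_mul)

noncomputable section

local instance : MeasureSpace UnitAddCircle := ⟨AddCircle.haarAddCircle⟩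

local instance : Measure.IsAddHaarMeasure (volume : Measure UnitAddCircle) :=
  inferInstanceAs (Measure.IsAddHaarMeasure AddCircle.haarAddCircle)

local instance : IsProbabilityMeasure (volume : Measure UnitAddCircle) :=
  inferInstanceAs (IsProbabilityMeasure AddCircle.haarAddCircle)

variable {d : ℕ}

/-- the Fourier coefficients of the function -/
def bc (r : ℝ) (φ : TT d → ℂ) (k : Fin d → ℤ) : ℂ := crp r k * cf φ k

lemma cr_le (r : ℝ) (hr : 0 < r) (j : ℕ) (k : ℤ) (hk : k.natAbs.size = j) :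
    ‖cr r k‖ ≤ Wr r j := by
  rcases Nat.eq_zero_or_pos j with h0 | hj
  · rw [h0, Nat.size_eq_zero, Int.natAbs_eq_zero] at hk
    rw [hk, h0]
    have : cr r 0 = 1 := by unfold cr; rw [if_pos rfl]
    rw [this, norm_one]
    exact Wr_zero r hr
  have h1 := (size_iff _ _ hj).1 hk
  have h2 : 0 < 2 ^ (j - 1) := by positivity
  have hk0 : k ≠ 0 := by
    intro h
    rw [h] at h1
    simp at h1
  unfold cr
  rw [if_neg hk0, norm_mul, Complex.norm_exp_ofReal_mul_I, mul_one, Complex.norm_real,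
    Real.norm_eq_abs, abs_of_nonneg (by positivity), ← Wr_eq r j hj]
  refine Real.rpow_le_rpow_of_nonpos (by positivity) ?_ (by linarith)
  have h3 : ((k.natAbs : ℕ) : ℝ) = |(k : ℝ)| := by
    rw [← Int.cast_natCast, Int.natCast_natAbs, Int.cast_abs]
  rw [← h3]
  exact_mod_cast h1.1

lemma prod_Wr (r : ℝ) (l : ℕ) (s : Fin d → ℕ) (hs : s ∈ Sl d l) :
    ∏ i, Wr r (s i) = (2 ^ r) ^ d * ((2 : ℝ) ^ l) ^ (-r) := by
  unfold Wr
  rw [Finset.prod_mul_distrib, Finset.prod_const, Finset.card_univ, Fintype.card_fin,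
    Real.finsetProd_rpow _ _ (fun i _ => by positivity), Finset.prod_pow_eq_pow_sum, mem_Sl.1 hs]

lemma crp_le (r : ℝ) (hr : 0 < r) (l : ℕ) (s : Fin d → ℕ) (hs : s ∈ Sl d l) (k : Fin d → ℤ)
    (hk : k ∈ rho s) : ‖crp r k‖ ≤ (2 ^ r) ^ d * ((2 : ℝ) ^ l) ^ (-r) := by
  rw [← prod_Wr r l s hs]
  unfold crp
  rw [norm_prod]
  refine Finset.prod_le_prod (fun i _ => norm_nonneg _) (fun i _ => ?_)
  exact cr_le r hr (s i) (k i) (congrFun (mem_rho.1 hk) i)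

lemma en_bc (r : ℝ) (hr : 0 < r) (l : ℕ) (s : Fin d → ℕ) (hs : s ∈ Sl d l) (φ : TT d → ℂ) :
    en (bc r φ) s ≤ (2 ^ r) ^ d * ((2 : ℝ) ^ l) ^ (-r) * en (cf φ) s := by
  have hW : (0 : ℝ) ≤ (2 ^ r) ^ d * ((2 : ℝ) ^ l) ^ (-r) := by positivity
  unfold en
  rw [sqrt_aux _ _ hW]
  refine Real.sqrt_le_sqrt ?_
  rw [Finset.mul_sum]
  refine Finset.sum_le_sum (fun k hk => ?_)
  unfold bc
  rw [norm_mul, mul_pow]
  have := crp_le r hr l s hs k hk
  gcongr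

/-- the bound for the energies of a layer -/
def Bl (d : ℕ) (p r CB : ℝ) (l : ℕ) : ℝ :=
  CB * ((2 : ℝ) ^ l) ^ (-(r - (1 / p - 1 / 2))) * (((l : ℝ) + 1) ^ (d - 1)) ^ (1 - 1 / p)

lemma energies_b (d : ℕ) (hd : 0 < d) (p r : ℝ) (hp1 : 1 < p) (hp2 : p < 2) (hr : 0 < r) :
    ∃ CB : ℝ, 1 ≤ CB ∧
    ∀ (φ : TT d → ℂ), MemLp φ (ENNReal.ofReal p) volume → ∫ x, ‖φ x‖ ^ p ≤ 1 → ∀ l : ℕ,
      ∑ s ∈ Sl d l, en (bc r φ) s ≤ Bl d p r CB l := by
  obtain ⟨C, hC, h⟩ := energies d p hp1 hp2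
  refine ⟨max 1 ((2 ^ r) ^ d * C), le_max_left _ _, ?_⟩
  intro φ hφ hφ1 l
  have h1 := h φ hφ hφ1 l
  have hcard : (#(Sl d l) : ℝ) ≤ ((l : ℝ) + 1) ^ (d - 1) := by exact_mod_cast Sl_card hd l
  have hexp : 0 ≤ 1 - 1 / p := by
    have : 1 / p ≤ 1 := by rw [div_le_one (by linarith)]; exact hp1.le
    linarith
  have h2 : (#(Sl d l) : ℝ) ^ (1 - 1 / p) ≤ (((l : ℝ) + 1) ^ (d - 1)) ^ (1 - 1 / p) :=
    Real.rpow_le_rpow (Nat.cast_nonneg _) hcard hexp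
  have h3 : ((2 : ℝ) ^ l) ^ (-r) * ((2 : ℝ) ^ l) ^ (1 / p - 1 / 2)
      = ((2 : ℝ) ^ l) ^ (-(r - (1 / p - 1 / 2))) := by
    rw [← Real.rpow_add (by positivity)]
    congr 1
    ring
  calc ∑ s ∈ Sl d l, en (bc r φ) s
      ≤ ∑ s ∈ Sl d l, (2 ^ r) ^ d * ((2 : ℝ) ^ l) ^ (-r) * en (cf φ) s :=
        Finset.sum_le_sum (fun s hs => en_bc r hr l s hs φ)
    _ = (2 ^ r) ^ d * ((2 : ℝ) ^ l) ^ (-r) * ∑ s ∈ Sl d l, en (cf φ) s := by
        rw [Finset.mul_sum]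
    _ ≤ (2 ^ r) ^ d * ((2 : ℝ) ^ l) ^ (-r)
        * (C * ((2 : ℝ) ^ l) ^ (1 / p - 1 / 2) * (((l : ℝ) + 1) ^ (d - 1)) ^ (1 - 1 / p)) := by
        refine mul_le_mul_of_nonneg_left (h1.trans ?_) (by positivity)
        gcongr
    _ = ((2 ^ r) ^ d * C) * (((2 : ℝ) ^ l) ^ (-r) * ((2 : ℝ) ^ l) ^ (1 / p - 1 / 2))
        * (((l : ℝ) + 1) ^ (d - 1)) ^ (1 - 1 / p) := by ring
    _ ≤ _ := by
        rw [h3]
        unfold Bl
        gcongr
        exact le_max_right _ _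

/-- large and small samples -/
lemma light_heavy (S : Finset (Fin d → ℕ)) (a : (Fin d → ℕ) → ℂ) (N κ h p : ℝ) (hN : 0 < N)
    (hp1 : 0 < p) (hp2 : p < 2) (hh : 0 < h)
    (hs : (∑ ζ ∈ S, ‖a ζ‖ ^ p) / N ≤ κ ^ p) :
    (#(S.filter (fun ζ => h < ‖a ζ‖)) : ℝ) ≤ N * κ ^ p / h ^ p ∧
      (∑ ζ ∈ S \ S.filter (fun ζ => h < ‖a ζ‖), ‖a ζ‖ ^ 2) / N ≤ h ^ (2 - p) * κ ^ p := by
  rw [div_le_iff₀ hN] at hs
  constructor
  · rw [le_div_iff₀ (by positivity)]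
    calc (#(S.filter (fun ζ => h < ‖a ζ‖)) : ℝ) * h ^ p
        = ∑ ζ ∈ S.filter (fun ζ => h < ‖a ζ‖), h ^ p := by
          rw [Finset.sum_const, nsmul_eq_mul]
      _ ≤ ∑ ζ ∈ S.filter (fun ζ => h < ‖a ζ‖), ‖a ζ‖ ^ p :=
          Finset.sum_le_sum (fun ζ hζ => Real.rpow_le_rpow hh.le (mem_filter.1 hζ).2.le hp1.le)
      _ ≤ ∑ ζ ∈ S, ‖a ζ‖ ^ p :=
          Finset.sum_le_sum_of_subset_of_nonneg (Finset.filter_subset _ _)
            (fun _ _ _ => by positivity)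
      _ ≤ κ ^ p * N := hs
      _ = _ := mul_comm _ _
  · rw [div_le_iff₀ hN]
    calc ∑ ζ ∈ S \ S.filter (fun ζ => h < ‖a ζ‖), ‖a ζ‖ ^ 2
        ≤ ∑ ζ ∈ S \ S.filter (fun ζ => h < ‖a ζ‖), h ^ (2 - p) * ‖a ζ‖ ^ p := by
          refine Finset.sum_le_sum (fun ζ hζ => ?_)
          rw [mem_sdiff, mem_filter, not_and, not_lt] at hζ
          have h1 := hζ.2 hζ.1
          rcases (norm_nonneg (a ζ)).eq_or_lt with h0 | h0
          · rw [← h0]
            have : (0 : ℝ) ≤ h ^ (2 - p) * 0 ^ p := by positivity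
            simpa using this
          · have e1 : ‖a ζ‖ ^ 2 = ‖a ζ‖ ^ (2 - p) * ‖a ζ‖ ^ p := by
              rw [← Real.rpow_add h0, ← Real.rpow_natCast]
              congr 1
              push_cast
              ring
            rw [e1]
            have := Real.rpow_le_rpow h0.le h1 (by linarith : (0 : ℝ) ≤ 2 - p)
            gcongr
      _ ≤ ∑ ζ ∈ S, h ^ (2 - p) * ‖a ζ‖ ^ p :=
          Finset.sum_le_sum_of_subset_of_nonneg Finset.sdiff_subset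
            (fun _ _ _ => by positivity)
      _ = h ^ (2 - p) * ∑ ζ ∈ S, ‖a ζ‖ ^ p := by rw [Finset.mul_sum]
      _ ≤ h ^ (2 - p) * (κ ^ p * N) := by gcongr
      _ = _ := by ring

lemma fa_bc (r : ℝ) (φ : TT d → ℂ) (s ζ : Fin d → ℕ) : fa (bc r φ) s ζ
    = ∑ k ∈ rho s, (crp r k * cf φ k) * ex k (gp (NN s) ζ) := rfl

/-- the samples of a block: a small number of large values, and the rest is small -/
lemma samples (p r : ℝ) (hp1 : 1 < p) (hp2 : p < 2) (hr : 0 < r) (cr' ν : ℕ)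
    (hcr : 6 * (2 : ℝ) ^ r ≤ 2 ^ cr') (hν : 2 ≤ (ν : ℝ) * (2 - p)) (φ : TT d → ℂ)
    (hφ : MemLp φ (ENNReal.ofReal p) volume) (hφ1 : ∫ x, ‖φ x‖ ^ p ≤ 1) (l Λ L1 : ℕ)
    (hl : l + 1 ≤ 2 ^ Λ) (s : Fin d → ℕ) (hs : s ∈ Sl d l) (B : ℝ)
    (hB : ((2 : ℝ) ^ l) ^ (-(r - (1 / p - 1 / 2))) ≤ B) :
    ∃ Z ⊆ grid s, #Z ≤ 2 ^ (2 * d + 2 * (d * (cr' + Λ) + ν * (L1 + d * (cr' + Λ))))
      ∧ (∑ ζ ∈ grid s \ Z, ‖fa (bc r φ) s ζ‖ ^ 2) / NT s ≤ (B / 2 ^ L1) ^ 2 := by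
  have hp0 : 0 < p := by linarith
  have hN0 : (0 : ℝ) < NT s := by exact_mod_cast NT_pos s
  set L4 := ν * (L1 + d * (cr' + Λ)) with hL4
  set N : ℝ := (2 : ℝ) ^ l with hN
  have hN1 : 0 < N := by positivity
  set κ := kap' d r l with hκ
  have hκ0 : 0 < κ := kap'_pos d r l
  set E := d * (cr' + Λ) with hE
  have hκ1 : κ ≤ 2 ^ E * N ^ (-r) := by
    rw [hκ]
    unfold kap'
    have h1 : 6 * (2 : ℝ) ^ r * (l + 1) ≤ 2 ^ (cr' + Λ) := by
      rw [pow_add]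
      have : ((l : ℝ) + 1) ≤ 2 ^ Λ := by exact_mod_cast hl
      gcongr
    have h2 : (6 * (2 : ℝ) ^ r * (l + 1)) ^ d ≤ 2 ^ E := by
      rw [hE, mul_comm d, pow_mul]
      exact pow_le_pow_left₀ (by positivity) h1 d
    gcongr
  set h := N ^ (1 / p - r) / 2 ^ L4 with hh
  have hh0 : 0 < h := by positivity
  have hdis := discrete r hr p hp1 φ hφ hφ1 l s hs
  have hlh := light_heavy (grid s) (fa (bc r φ) s) (NT s) κ h p hN0 hp0 hp2 hh0 hdis
  refine ⟨_, Finset.filter_subset _ _, ?_, hlh.2.trans ?_⟩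
  · have h1 : ((#((grid s).filter (fun ζ => h < ‖fa (bc r φ) s ζ‖)) : ℕ) : ℝ)
        ≤ 2 ^ (2 * d + 2 * (E + L4)) := by
      refine hlh.1.trans ?_
      rw [div_le_iff₀ (by positivity)]
      have e0 : ((NT s : ℕ) : ℝ) = 2 ^ (2 * d) * N := by
        rw [NT_eq, mem_Sl.1 hs, hN]
        push_cast
        rw [pow_add]
        ring
      have e1 : κ ^ p ≤ (2 ^ E * N ^ (-r)) ^ p := Real.rpow_le_rpow hκ0.le hκ1 hp0.le
      have e2 : ((2 : ℝ) ^ E * N ^ (-r)) ^ p = (2 ^ E) ^ p * N ^ (-(r * p)) := by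
        rw [Real.mul_rpow (by positivity) (by positivity), ← Real.rpow_mul hN1.le]
        congr 2
        ring
      have e3 : h ^ p = N ^ (1 - r * p) / (2 ^ L4) ^ p := by
        rw [hh, Real.div_rpow (by positivity) (by positivity), ← Real.rpow_mul hN1.le]
        congr 2
        field_simp
      have e4 : N * N ^ (-(r * p)) = N ^ (1 - r * p) := by
        nth_rewrite 1 [← Real.rpow_one N]
        rw [← Real.rpow_add hN1]
        congr 1
      have e5 : ∀ a : ℕ, ((2 : ℝ) ^ a) ^ p ≤ (2 ^ a) ^ 2 := by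
        intro a
        rw [← Real.rpow_natCast ((2 : ℝ) ^ a) 2]
        exact Real.rpow_le_rpow_of_exponent_le (one_le_pow₀ (by norm_num)) (by
          push_cast
          linarith)
      calc (NT s : ℝ) * κ ^ p ≤ (2 ^ (2 * d) * N) * ((2 ^ E) ^ p * N ^ (-(r * p))) := by
            rw [e0, ← e2]
            gcongr
        _ = 2 ^ (2 * d) * (2 ^ E) ^ p * N ^ (1 - r * p) := by
            rw [← e4]
            ring
        _ ≤ 2 ^ (2 * d) * (2 ^ E) ^ 2 * N ^ (1 - r * p) * ((2 ^ L4) ^ 2 / (2 ^ L4) ^ p) := by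
            have f1 : 1 ≤ ((2 : ℝ) ^ L4) ^ 2 / (2 ^ L4) ^ p := by
              rw [le_div_iff₀ (by positivity), one_mul]
              exact e5 L4
            have f2 := e5 E
            calc (2 : ℝ) ^ (2 * d) * (2 ^ E) ^ p * N ^ (1 - r * p)
                = 2 ^ (2 * d) * (2 ^ E) ^ p * N ^ (1 - r * p) * 1 := by ring
              _ ≤ _ := by gcongr
        _ = _ := by
            rw [e3, pow_add, mul_add, pow_add, pow_mul' 2 2 E, pow_mul' 2 2 L4]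
            ring
    exact_mod_cast h1
  · have e1 : κ ^ p ≤ (2 ^ E * N ^ (-r)) ^ p := Real.rpow_le_rpow hκ0.le hκ1 hp0.le
    have e2 : ((2 : ℝ) ^ E * N ^ (-r)) ^ p = (2 ^ E) ^ p * N ^ (-(r * p)) := by
      rw [Real.mul_rpow (by positivity) (by positivity), ← Real.rpow_mul hN1.le]
      congr 2
      ring
    have e3 : h ^ (2 - p) = N ^ ((1 / p - r) * (2 - p)) / (2 ^ L4) ^ (2 - p) := by
      rw [hh, Real.div_rpow (by positivity) (by positivity), ← Real.rpow_mul hN1.le]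
    have e4 : N ^ ((1 / p - r) * (2 - p)) * N ^ (-(r * p))
        = (N ^ (-(r - (1 / p - 1 / 2)))) ^ 2 := by
      rw [← Real.rpow_natCast (N ^ (-(r - (1 / p - 1 / 2)))) 2, ← Real.rpow_mul hN1.le,
        ← Real.rpow_add hN1]
      congr 1
      push_cast
      field_simp
      ring
    have e5 : ((2 : ℝ) ^ E) ^ p ≤ (2 ^ E) ^ 2 := by
      rw [← Real.rpow_natCast ((2 : ℝ) ^ E) 2]
      exact Real.rpow_le_rpow_of_exponent_le (one_le_pow₀ (by norm_num)) (by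
        push_cast
        linarith)
    have e6 : ((2 : ℝ) ^ (L1 + E)) ^ 2 ≤ (2 ^ L4) ^ (2 - p) := by
      rw [← Real.rpow_natCast (2 : ℝ) L4, ← Real.rpow_mul (by norm_num), ← pow_mul,
        ← Real.rpow_natCast 2 ((L1 + E) * 2)]
      refine Real.rpow_le_rpow_of_exponent_le (by norm_num) ?_
      rw [hL4]
      push_cast
      have : (0 : ℝ) ≤ (L1 : ℝ) + E := by positivity
      nlinarith
    calc h ^ (2 - p) * κ ^ p
        ≤ N ^ ((1 / p - r) * (2 - p)) / (2 ^ L4) ^ (2 - p) * ((2 ^ E) ^ p * N ^ (-(r * p))) := by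
          rw [e3, ← e2]
          gcongr
      _ = (N ^ ((1 / p - r) * (2 - p)) * N ^ (-(r * p))) * (2 ^ E) ^ p / (2 ^ L4) ^ (2 - p) := by
          ring
      _ ≤ (N ^ (-(r - (1 / p - 1 / 2)))) ^ 2 * (2 ^ E) ^ 2 / (2 ^ (L1 + E)) ^ 2 := by
          rw [e4]
          gcongr
      _ ≤ B ^ 2 * (2 ^ E) ^ 2 / (2 ^ (L1 + E)) ^ 2 := by gcongr
      _ = (B / 2 ^ L1) ^ 2 := by
          rw [pow_add]
          field_simp

end

end Pool.Agent.H75.UB
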