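import Mathlib

set_option autoImplicit false
set_option linter.unusedSectionVars false

/-! Arcs on the circle, counting of multipliers, and a simultaneous choice with few hits. -/

open Finset

open scoped Classical

namespace Pool.Agent.H75.UB

/-- `t` is within `δ` of an integer -/
def near (t δ : ℝ) : Prop := ∃ m : ℤ, |t - m| ≤ δ

lemma near.mono {t δ δ' : ℝ} (h : near t δ) (hd : δ ≤ δ') : near t δ' := by
  obtain ⟨m, hm⟩ := h
  exact ⟨m, hm.trans hd⟩

lemma near.add {t t' δ δ' : ℝ} (h : near t δ) (h' : near t' δ') : near (t + t') (δ + δ') := by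
  obtain ⟨m, hm⟩ := h
  obtain ⟨m', hm'⟩ := h'
  refine ⟨m + m', ?_⟩
  have : t + t' - ((m + m' : ℤ) : ℝ) = (t - m) + (t' - m') := by
    push_cast
    ring
  rw [this]
  exact (abs_add_le _ _).trans (add_le_add hm hm')

lemma near.neg {t δ : ℝ} (h : near t δ) : near (-t) δ := by
  obtain ⟨m, hm⟩ := h
  refine ⟨-m, ?_⟩
  have : -t - ((-m : ℤ) : ℝ) = -(t - m) := by
    push_cast
    ring
  rw [this, abs_neg]
  exact hm

lemma near.sub {t t' δ δ' : ℝ} (h : near t δ) (h' : near t' δ') : near (t - t') (δ + δ') := by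
  rw [sub_eq_add_neg]
  exact h.add h'.neg

lemma near_of_abs {t δ : ℝ} (h : |t| ≤ δ) : near t δ := ⟨0, by simpa using h⟩

lemma near_add_int (t δ : ℝ) (n : ℤ) : near (t + n) δ ↔ near t δ := by
  constructor
  · rintro ⟨m, hm⟩
    refine ⟨m - n, ?_⟩
    have : t - ((m - n : ℤ) : ℝ) = t + n - m := by
      push_cast
      ring
    rwa [this]
  · rintro ⟨m, hm⟩
    refine ⟨m + n, ?_⟩
    have : t + n - ((m + n : ℤ) : ℝ) = t - m := by
      push_cast
      ring
    rwa [this]

lemma icc_card (a b : ℝ) (hab : a ≤ b) : (#(Finset.Icc ⌈a⌉ ⌊b⌋) : ℝ) ≤ b - a + 1 := by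
  rw [Int.card_Icc]
  have h1 : ((⌊b⌋ + 1 - ⌈a⌉).toNat : ℝ) ≤ max ((⌊b⌋ : ℝ) + 1 - ⌈a⌉) 0 := by
    rcases le_or_gt 0 (⌊b⌋ + 1 - ⌈a⌉) with h | h
    · have h2 : ((⌊b⌋ + 1 - ⌈a⌉).toNat : ℤ) = ⌊b⌋ + 1 - ⌈a⌉ := Int.toNat_of_nonneg h
      have h3 : ((⌊b⌋ + 1 - ⌈a⌉).toNat : ℝ) = (⌊b⌋ : ℝ) + 1 - ⌈a⌉ := by
        exact_mod_cast h2
      rw [h3]
      exact le_max_left _ _
    · have : (⌊b⌋ + 1 - ⌈a⌉).toNat = 0 := by omega
      rw [this]
      simp
  refine h1.trans (max_le ?_ (by linarith))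
  have h2 := Int.floor_le b
  have h3 := Int.le_ceil a
  linarith

lemma arc_count (q : ℕ) (hq : 0 < q) (t δ : ℝ) (hδ : 0 ≤ δ) :
    (#((Finset.range q).filter (fun y : ℕ => near (t + (y : ℝ) / q) δ)) : ℝ) ≤ 2 * δ * q + 1 := by
  have hqr : (0 : ℝ) < q := by exact_mod_cast hq
  set S := (Finset.range q).filter (fun y : ℕ => near (t + (y : ℝ) / q) δ) with hS
  have h1 : #S ≤ #(Finset.Icc ⌈-(t * q) - δ * q⌉ ⌊-(t * q) + δ * q⌋) := by
    set g : ℕ → ℤ := fun y => if h : near (t + (y : ℝ) / q) δ then (y : ℤ) - h.choose * q else 0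
      with hg
    refine Finset.card_le_card_of_injOn g ?_ ?_
    · intro y hy
      simp only [hS, coe_filter, Set.mem_ofPred_eq, mem_range] at hy
      have h2 := hy.2.choose_spec
      simp only [coe_Icc, Set.mem_Icc, hg, dif_pos hy.2]
      set m := hy.2.choose with hm
      rw [abs_le] at h2
      have h3 : t + (y : ℝ) / q - m = (t * q + y - m * q) / q := by
        field_simp
      rw [h3, le_div_iff₀ hqr, div_le_iff₀ hqr] at h2
      constructor
      · rw [Int.ceil_le]
        push_cast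
        linarith
      · rw [Int.le_floor]
        push_cast
        linarith
    · intro y hy y' hy' h
      simp only [hS, coe_filter, Set.mem_ofPred_eq, mem_range] at hy hy'
      simp only [hg, dif_pos hy.2, dif_pos hy'.2] at h
      set m := hy.2.choose
      set m' := hy'.2.choose
      have h4 : (y : ℤ) % q = (y' : ℤ) % q := by
        rw [Int.emod_eq_emod_iff_emod_sub_eq_zero]
        have : (y : ℤ) - y' = (m - m') * q := by linarith
        rw [this]
        exact Int.mul_emod_left _ _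
      have h5 : y % q = y' % q := by exact_mod_cast h4
      rwa [Nat.mod_eq_of_lt hy.1, Nat.mod_eq_of_lt hy'.1] at h5
  have h2 : (#S : ℝ) ≤ #(Finset.Icc ⌈-(t * q) - δ * q⌉ ⌊-(t * q) + δ * q⌋) := by
    exact_mod_cast h1
  refine h2.trans ?_
  refine (icc_card _ _ (by nlinarith)).trans (le_of_eq ?_)
  ring

lemma b_count (q h : ℕ) (hq : 0 < q) (hh : 0 < h) (t δ : ℝ) (hδ : 0 ≤ δ) :
    (#((Finset.range q).filter (fun b : ℕ => near (t + (h : ℝ) * b / q) δ)) : ℝ)
      ≤ 2 * δ * q + Nat.gcd h q := by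
  set g := Nat.gcd h q with hg
  have hg0 : 0 < g := Nat.gcd_pos_of_pos_left _ hh
  obtain ⟨h', hh'⟩ : g ∣ h := Nat.gcd_dvd_left h q
  obtain ⟨q', hq'⟩ : g ∣ q := Nat.gcd_dvd_right h q
  have hq'0 : 0 < q' := by
    rcases Nat.eq_zero_or_pos q' with h0 | h0
    · rw [h0] at hq'
      omega
    · exact h0
  have hcop : Nat.Coprime h' q' := by
    have h1 : Nat.Coprime (h / g) (q / g) := Nat.coprime_div_gcd_div_gcd (by rw [← hg]; exact hg0)
    have e1 : h / g = h' := by
      rw [hh']
      exact Nat.mul_div_cancel_left _ hg0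
    have e2 : q / g = q' := by
      rw [hq']
      exact Nat.mul_div_cancel_left _ hg0
    rwa [e1, e2] at h1
  have hgr : (0 : ℝ) < g := by exact_mod_cast hg0
  have hq'r : (0 : ℝ) < q' := by exact_mod_cast hq'0
  have h1 : #((Finset.range q).filter (fun b : ℕ => near (t + (h : ℝ) * b / q) δ))
      ≤ #((Finset.range g) ×ˢ ((Finset.range q').filter (fun y : ℕ => near (t + (y : ℝ) / q') δ))) := by
    refine Finset.card_le_card_of_injOn (fun b => (b / q', (h' * b) % q')) ?_ ?_
    · intro b hb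
      simp only [coe_filter, Set.mem_ofPred_eq, mem_range] at hb
      simp only [coe_product, coe_filter, Set.mem_prod, coe_range, Set.mem_Iio, Set.mem_ofPred_eq,
        mem_range]
      refine ⟨?_, Nat.mod_lt _ hq'0, ?_⟩
      · refine Nat.div_lt_of_lt_mul ?_
        rw [mul_comm, ← hq']
        exact hb.1
      · have h2 := hb.2
        have h3 : t + (h : ℝ) * b / q = t + (((h' * b) % q' : ℕ) : ℝ) / q'
            + (((h' * b) / q' : ℕ) : ℤ) := by
          have h4 : (h' * b : ℕ) = q' * (h' * b / q') + (h' * b) % q' :=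
            (Nat.div_add_mod _ _).symm
          have h5 : ((h' : ℝ) * b) = q' * ((h' * b / q' : ℕ) : ℝ) + ((h' * b % q' : ℕ) : ℝ) := by
            exact_mod_cast h4
          have h6 : (h : ℝ) * b / q = h' * b / q' := by
            rw [hh', hq']
            push_cast
            field_simp
          rw [h6, h5]
          rw [Int.cast_natCast]
          field_simp
          ring
        rw [h3, near_add_int] at h2
        exact h2
    · intro b hb b' hb' h
      simp only [Prod.mk.injEq] at h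
      have h2 : b % q' = b' % q' := by
        have h3 : (h' * b) ≡ (h' * b') [MOD q'] := h.2
        exact Nat.ModEq.cancel_left_of_coprime (by rw [Nat.gcd_comm]; exact hcop) h3
      have h4 := Nat.div_add_mod b q'
      have h5 := Nat.div_add_mod b' q'
      rw [← h4, ← h5, h.1, h2]
  have h2 : (#((Finset.range q).filter (fun b : ℕ => near (t + (h : ℝ) * b / q) δ)) : ℝ)
      ≤ #((Finset.range g) ×ˢ ((Finset.range q').filter (fun y : ℕ => near (t + (y : ℝ) / q') δ))) := by
    exact_mod_cast h1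
  refine h2.trans ?_
  rw [Finset.card_product, Finset.card_range]
  push_cast
  have h3 := arc_count q' hq'0 t δ hδ
  calc (g : ℝ) * #((Finset.range q').filter (fun y : ℕ => near (t + (y : ℝ) / q') δ))
      ≤ g * (2 * δ * q' + 1) := by gcongr
    _ = 2 * δ * (g * q') + g := by ring
    _ = 2 * δ * q + g := by
        have : (q : ℝ) = g * q' := by exact_mod_cast hq'
        rw [this]

lemma gcd_sum (J H : ℕ) : ∑ h ∈ Finset.Ioc 0 H, Nat.gcd h (2 ^ J) ≤ (J + 1) * H := by
  have h1 : ∀ h ∈ Finset.Ioc 0 H, Nat.gcd h (2 ^ J)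
      ≤ ∑ v ∈ Finset.range (J + 1), (if 2 ^ v ∣ h then 2 ^ v else 0) := by
    intro h _
    obtain ⟨v, hv, he⟩ := (Nat.dvd_prime_pow Nat.prime_two).1 (Nat.gcd_dvd_right h (2 ^ J))
    have h2 : 2 ^ v ∣ h := by
      rw [← he]
      exact Nat.gcd_dvd_left _ _
    have h3 : (if 2 ^ v ∣ h then 2 ^ v else 0)
        ≤ ∑ v ∈ Finset.range (J + 1), (if 2 ^ v ∣ h then 2 ^ v else 0) :=
      Finset.single_le_sum (f := fun v => if 2 ^ v ∣ h then 2 ^ v else 0)
        (fun _ _ => Nat.zero_le _) (mem_range.2 (by omega))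
    rw [if_pos h2] at h3
    rw [he]
    exact h3
  refine (Finset.sum_le_sum h1).trans ?_
  rw [Finset.sum_comm]
  have h4 : ∀ v ∈ Finset.range (J + 1),
      ∑ h ∈ Finset.Ioc 0 H, (if 2 ^ v ∣ h then 2 ^ v else 0) ≤ H := by
    intro v _
    rw [← Finset.sum_filter, Finset.sum_const, smul_eq_mul, Nat.Ioc_filter_dvd_card_eq_div]
    exact Nat.div_mul_le_self _ _
  refine (Finset.sum_le_sum h4).trans ?_
  rw [Finset.sum_const, Finset.card_range, smul_eq_mul]

/-- some frequency `0 < |h| ≤ H` is resonant -/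
def hitB (q H : ℕ) (t δ : ℝ) (b : ℕ) : Prop :=
  ∃ h : ℤ, h ≠ 0 ∧ |h| ≤ H ∧ near (t + h * b / q) δ

lemma hitB.mono {q H : ℕ} {t δ δ' : ℝ} {b : ℕ} (h : hitB q H t δ b) (hd : δ ≤ δ') :
    hitB q H t δ' b := by
  obtain ⟨k, h1, h2, h3⟩ := h
  exact ⟨k, h1, h2, h3.mono hd⟩

lemma hit_count (J H : ℕ) (t κ : ℝ) (hκ : 0 ≤ κ) :
    (#((Finset.range (2 ^ J)).filter (fun b => hitB (2 ^ J) H t (κ / 2 ^ J) b)) : ℝ)
      ≤ 2 * H * (2 * κ + J + 1) := by
  set q : ℕ := 2 ^ J with hq
  have hq0 : 0 < q := by positivity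
  have hqr : ((q : ℕ) : ℝ) = 2 ^ J := by rw [hq]; push_cast; rfl
  have hsub : (Finset.range q).filter (fun b => hitB q H t (κ / 2 ^ J) b)
      ⊆ (Finset.Ioc 0 H).biUnion (fun h =>
        ((Finset.range q).filter (fun b : ℕ => near (t + (h : ℝ) * b / q) (κ / 2 ^ J)))
        ∪ ((Finset.range q).filter (fun b : ℕ => near (-t + (h : ℝ) * b / q) (κ / 2 ^ J)))) := by
    intro b hb
    rw [mem_filter] at hb
    obtain ⟨hb1, h, h0, hH, hn⟩ := hb
    rw [mem_biUnion]
    refine ⟨h.natAbs, ?_, ?_⟩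
    · rw [mem_Ioc]
      constructor
      · exact Int.natAbs_pos.2 h0
      · have : ((h.natAbs : ℕ) : ℤ) ≤ H := by rwa [Int.natCast_natAbs]
        exact_mod_cast this
    · rw [mem_union, mem_filter, mem_filter]
      rcases Int.natAbs_eq h with he | he
      · left
        refine ⟨hb1, ?_⟩
        have : (h : ℝ) = (h.natAbs : ℝ) := by
          have := congrArg (fun z : ℤ => (z : ℝ)) he
          simpa using this
        rw [← this]
        exact hn
      · right
        refine ⟨hb1, ?_⟩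
        have : (h : ℝ) = -(h.natAbs : ℝ) := by
          have := congrArg (fun z : ℤ => (z : ℝ)) he
          simpa using this
        have h2 := hn.neg
        rw [this] at h2
        convert h2 using 1
        ring
  have h1 : (#((Finset.range q).filter (fun b => hitB q H t (κ / 2 ^ J) b)) : ℝ)
      ≤ ∑ h ∈ Finset.Ioc 0 H, (2 * (2 * κ + Nat.gcd h q) : ℝ) := by
    have h2 := (Finset.card_le_card hsub).trans Finset.card_biUnion_le
    have h3 : (#((Finset.range q).filter (fun b => hitB q H t (κ / 2 ^ J) b)) : ℝ)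
        ≤ ∑ h ∈ Finset.Ioc 0 H,
        (#(((Finset.range q).filter (fun b : ℕ => near (t + (h : ℝ) * b / q) (κ / 2 ^ J)))
        ∪ ((Finset.range q).filter (fun b : ℕ => near (-t + (h : ℝ) * b / q) (κ / 2 ^ J)))) : ℝ) := by
      exact_mod_cast h2
    refine h3.trans (Finset.sum_le_sum (fun h hh => ?_))
    rw [mem_Ioc] at hh
    have c1 := b_count q h hq0 hh.1 t (κ / 2 ^ J) (by positivity)
    have c2 := b_count q h hq0 hh.1 (-t) (κ / 2 ^ J) (by positivity)
    have e1 : 2 * (κ / 2 ^ J) * (q : ℝ) = 2 * κ := by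
      rw [hqr]
      field_simp
    rw [e1] at c1 c2
    have c3 := Finset.card_union_le
      ((Finset.range q).filter (fun b : ℕ => near (t + (h : ℝ) * b / q) (κ / 2 ^ J)))
      ((Finset.range q).filter (fun b : ℕ => near (-t + (h : ℝ) * b / q) (κ / 2 ^ J)))
    have c4 : (#(((Finset.range q).filter (fun b : ℕ => near (t + (h : ℝ) * b / q) (κ / 2 ^ J)))
        ∪ ((Finset.range q).filter (fun b : ℕ => near (-t + (h : ℝ) * b / q) (κ / 2 ^ J)))) : ℝ)
        ≤ (#((Finset.range q).filter (fun b : ℕ => near (t + (h : ℝ) * b / q) (κ / 2 ^ J))) : ℝ)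
        + #((Finset.range q).filter (fun b : ℕ => near (-t + (h : ℝ) * b / q) (κ / 2 ^ J))) := by
      exact_mod_cast c3
    linarith
  refine h1.trans ?_
  rw [← Finset.mul_sum, Finset.sum_add_distrib, Finset.sum_const, Nat.card_Ioc, nsmul_eq_mul]
  have h4 : (∑ h ∈ Finset.Ioc 0 H, (Nat.gcd h q : ℝ)) ≤ (J + 1) * H := by
    exact_mod_cast gcd_sum J H
  simp only [Nat.sub_zero]
  nlinarith

/-- simultaneous choice with few hits for every type -/
theorem select {S B Θ : Type*} [Fintype S] [Fintype Θ] (P : S → Finset B)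
    (χ : S → Θ → B → Prop) (p : S → ℝ) (hne : ∀ s, (P s).Nonempty)
    (h : ∀ s θ, (#((P s).filter (fun b => χ s θ b)) : ℝ) ≤ p s * #(P s)) (hp : ∑ s, p s ≤ 1) :
    ∃ b : S → B, (∀ s, b s ∈ P s) ∧ ∀ θ, (2 : ℝ) ^ (#((univ : Finset S).filter
      (fun s => χ s θ (b s)))) ≤ 3 * Fintype.card Θ := by
  have h1 : ∑ b ∈ Fintype.piFinset P, ∑ θ : Θ, (2 : ℝ) ^ (#((univ : Finset S).filter
      (fun s => χ s θ (b s)))) ≤ ∑ b ∈ Fintype.piFinset P, (3 * Fintype.card Θ : ℝ) := by
    rw [Finset.sum_comm]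
    have h2 : ∀ θ ∈ (univ : Finset Θ), ∑ b ∈ Fintype.piFinset P,
        (2 : ℝ) ^ (#((univ : Finset S).filter (fun s => χ s θ (b s))))
        ≤ 3 * ∏ s, (#(P s) : ℝ) := by
      intro θ _
      have h3 : ∀ b ∈ Fintype.piFinset P,
          (2 : ℝ) ^ (#((univ : Finset S).filter (fun s => χ s θ (b s))))
          = ∏ s, (if χ s θ (b s) then 2 else 1) := by
        intro b _
        rw [Finset.prod_ite, Finset.prod_const, Finset.prod_const_one, mul_one]
      rw [Finset.sum_congr rfl h3, ← Finset.prod_univ_sum P (fun s b => if χ s θ b then (2 : ℝ) else 1)]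
      have h4 : ∀ s ∈ (univ : Finset S), ∑ b ∈ P s, (if χ s θ b then (2 : ℝ) else 1)
          ≤ #(P s) * Real.exp (p s) := by
        intro s _
        have h5 : ∑ b ∈ P s, (if χ s θ b then (2 : ℝ) else 1)
            = #(P s) + #((P s).filter (fun b => χ s θ b)) := by
          have : ∀ b ∈ P s, (if χ s θ b then (2 : ℝ) else 1) = 1 + (if χ s θ b then 1 else 0) := by
            intro b _
            split_ifs <;> norm_num
          rw [Finset.sum_congr rfl this, Finset.sum_add_distrib, Finset.sum_boole]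
          simp
        rw [h5]
        have h6 := Real.add_one_le_exp (p s)
        have h7 : (0 : ℝ) ≤ #(P s) := by positivity
        nlinarith [h s θ]
      refine (Finset.prod_le_prod (fun s _ => Finset.sum_nonneg (fun b _ => by
        split_ifs <;> norm_num)) h4).trans ?_
      rw [Finset.prod_mul_distrib, ← Real.exp_sum, mul_comm]
      refine mul_le_mul_of_nonneg_right ?_ (Finset.prod_nonneg (fun s _ => by positivity))
      have h8 := Real.exp_le_exp.2 hp
      have h9 := Real.exp_one_lt_d9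
      linarith
    refine (Finset.sum_le_sum h2).trans (le_of_eq ?_)
    rw [Finset.sum_const, Finset.sum_const, Finset.card_univ, Fintype.card_piFinset,
      nsmul_eq_mul, nsmul_eq_mul]
    push_cast
    ring
  have hne' : (Fintype.piFinset P).Nonempty := Fintype.piFinset_nonempty.2 hne
  obtain ⟨b, hb, hle⟩ := Finset.exists_le_of_sum_le hne' h1
  refine ⟨b, Fintype.mem_piFinset.1 hb, fun θ => ?_⟩
  refine le_trans ?_ hle
  exact Finset.single_le_sum (f := fun θ => (2 : ℝ) ^ (#((univ : Finset S).filter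
      (fun s => χ s θ (b s))))) (fun θ _ => by positivity) (mem_univ θ)

end Pool.Agent.H75.UB
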