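import Pool.Agent.H75.UB.Dual
import Pool.Agent.H75.UB.Arc
import Pool.Agent.H75.MT.Construct

set_option autoImplicit false
set_option linter.unusedSectionVars false

/-! The kernel of a dyadic block. -/

open Finset ComplexConjugate MeasureTheory UnitAddTorus

open scoped Classical

namespace Pool.Agent.H75.UB

open Pool.Agent.H75.MT (ee ee_add ee_norm ee_conj ee_int ee_zero cr cr_neg ee_nat_mul sum_ee)

noncomputable section

variable {d : ℕ}

/-- the univariate block -/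
def rho1 (j : ℕ) : Finset ℤ :=
  (Finset.Ioo (-(2 ^ j : ℤ)) (2 ^ j)).filter (fun k => k.natAbs.size = j)

lemma mem_rho1 {j : ℕ} {k : ℤ} : k ∈ rho1 j ↔ k.natAbs.size = j := by
  unfold rho1
  rw [mem_filter]
  refine ⟨fun h => h.2, fun h => ⟨?_, h⟩⟩
  rw [mem_Ioo]
  have h1 : k.natAbs < 2 ^ j := by
    rw [← h]
    exact Nat.lt_size_self _
  have h2 : (k.natAbs : ℤ) < 2 ^ j := by exact_mod_cast h1
  have h3 : |k| < 2 ^ j := by rwa [Int.natCast_natAbs] at h2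
  exact abs_lt.1 h3

lemma rho_pi (s : Fin d → ℕ) : rho s = Fintype.piFinset (fun i => rho1 (s i)) := by
  ext k
  rw [mem_rho, Fintype.mem_piFinset]
  simp only [mem_rho1]
  constructor
  · rintro rfl i
    rfl
  · intro h
    funext i
    exact h i

lemma size_iff (n j : ℕ) (hj : 1 ≤ j) : n.size = j ↔ 2 ^ (j - 1) ≤ n ∧ n < 2 ^ j := by
  constructor
  · intro h
    refine ⟨?_, ?_⟩
    · have := (Nat.lt_size (m := j - 1) (n := n)).1 (by omega)
      exact this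
    · rw [← h]
      exact Nat.lt_size_self _
  · rintro ⟨h1, h2⟩
    have e1 := (Nat.lt_size (m := j - 1) (n := n)).2 h1
    have e2 := (Nat.size_le (m := n) (n := j)).2 h2
    omega

lemma sum_rho1 (j : ℕ) (hj : 1 ≤ j) (F : ℤ → ℂ) :
    ∑ k ∈ rho1 j, F k
      = ∑ n ∈ Finset.Ico ((2 : ℕ) ^ (j - 1)) (2 ^ j), (F (n : ℤ) + F (-(n : ℤ))) := by
  have hm : ∀ k ∈ rho1 j, k.natAbs ∈ Finset.Ico ((2 : ℕ) ^ (j - 1)) (2 ^ j) := by
    intro k hk
    rw [mem_Ico]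
    exact (size_iff _ _ hj).1 (mem_rho1.1 hk)
  rw [← Finset.sum_fiberwise_of_maps_to hm]
  refine Finset.sum_congr rfl (fun n hn => ?_)
  rw [mem_Ico] at hn
  have hn0 : 0 < n := by
    have : 0 < 2 ^ (j - 1) := by positivity
    omega
  have h1 : (rho1 j).filter (fun k => k.natAbs = n) = {(n : ℤ), -(n : ℤ)} := by
    ext k
    rw [mem_filter, mem_rho1, mem_insert, mem_singleton]
    constructor
    · rintro ⟨_, h⟩
      omega
    · rintro (h | h)
      · rw [h]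
        refine ⟨?_, by omega⟩
        rw [Int.natAbs_natCast]
        exact (size_iff _ _ hj).2 hn
      · rw [h]
        refine ⟨?_, by omega⟩
        rw [Int.natAbs_neg, Int.natAbs_natCast]
        exact (size_iff _ _ hj).2 hn
  rw [h1, Finset.sum_pair (by omega)]

/-- summation by parts -/
lemma abel (w : ℕ → ℝ) (hanti : ∀ n, w (n + 1) ≤ w n) (hw : ∀ n, 0 ≤ w n) (z : ℂ) (hz : ‖z‖ = 1)
    (n : ℕ) : ‖(z - 1) * ∑ k ∈ range n, (w k : ℂ) * z ^ k - w n * z ^ n‖ ≤ 2 * w 0 - w n := by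
  induction n with
  | zero =>
    simp only [range_zero, Finset.sum_empty, mul_zero, pow_zero, mul_one, zero_sub, norm_neg,
      Complex.norm_real, Real.norm_eq_abs, abs_of_nonneg (hw 0)]
    linarith
  | succ n ih =>
    have h1 : (z - 1) * ∑ k ∈ range (n + 1), (w k : ℂ) * z ^ k - w (n + 1) * z ^ (n + 1)
        = ((z - 1) * ∑ k ∈ range n, (w k : ℂ) * z ^ k - w n * z ^ n)
          + ((w n - w (n + 1) : ℝ) : ℂ) * z ^ (n + 1) := by
      rw [Finset.sum_range_succ]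
      push_cast
      ring
    rw [h1]
    refine (norm_add_le _ _).trans ?_
    have h2 : ‖((w n - w (n + 1) : ℝ) : ℂ) * z ^ (n + 1)‖ = w n - w (n + 1) := by
      rw [norm_mul, norm_pow, hz, one_pow, mul_one, Complex.norm_real, Real.norm_eq_abs,
        abs_of_nonneg (by linarith [hanti n])]
    rw [h2]
    linarith

lemma abel' (w : ℕ → ℝ) (hanti : ∀ n, w (n + 1) ≤ w n) (hw : ∀ n, 0 ≤ w n) (z : ℂ) (hz : ‖z‖ = 1)
    (n : ℕ) : ‖z - 1‖ * ‖∑ k ∈ range n, (w k : ℂ) * z ^ k‖ ≤ 2 * w 0 := by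
  have h1 := abel w hanti hw z hz n
  have h2 : ‖(w n : ℂ) * z ^ n‖ = w n := by
    rw [norm_mul, norm_pow, hz, one_pow, mul_one, Complex.norm_real, Real.norm_eq_abs,
      abs_of_nonneg (hw n)]
  rw [← norm_mul]
  have h3 := norm_sub_norm_le ((z - 1) * ∑ k ∈ range n, (w k : ℂ) * z ^ k) ((w n : ℂ) * z ^ n)
  linarith

/-- the univariate kernel of a block -/
def G1 (r : ℝ) (j : ℕ) (t : ℝ) : ℂ := ∑ k ∈ rho1 j, cr r k * ee (k * t)

/-- the size of the coefficients -/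
def Wr (r : ℝ) (j : ℕ) : ℝ := 2 ^ r * ((2 : ℝ) ^ j) ^ (-r)

lemma Wr_pos (r : ℝ) (j : ℕ) : 0 < Wr r j := by unfold Wr; positivity

lemma cr_nat (r : ℝ) (n : ℕ) (hn : 0 < n) : cr r n = (((n : ℝ) ^ (-r) : ℝ) : ℂ) * cr r 1 := by
  have h0 : (0 : ℝ) < n := by exact_mod_cast hn
  unfold cr
  rw [if_neg (by omega), if_neg (by norm_num)]
  simp only [Int.cast_natCast, Int.cast_one, abs_one, Real.one_rpow, abs_of_pos h0, sign_pos h0,
    sign_one, Complex.ofReal_one, one_mul]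

lemma cr_one_norm (r : ℝ) : ‖cr r 1‖ = 1 := by
  unfold cr
  rw [if_neg (by norm_num), norm_mul, Complex.norm_exp_ofReal_mul_I, mul_one, Complex.norm_real]
  simp

lemma G1_split (r : ℝ) (j : ℕ) (hj : 1 ≤ j) (t : ℝ) : ‖G1 r j t‖
    ≤ 2 * ‖∑ k ∈ range (2 ^ (j - 1)), (((2 ^ (j - 1) + k : ℕ) : ℝ) ^ (-r) : ℝ) * ee t ^ k‖ := by
  have h0 : 0 < 2 ^ (j - 1) := by positivity
  set A := ∑ n ∈ Finset.Ico ((2 : ℕ) ^ (j - 1)) (2 ^ j), cr r (n : ℤ) * ee ((n : ℤ) * t) with hA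
  have h1 : G1 r j t = A + conj A := by
    unfold G1
    rw [sum_rho1 j hj, Finset.sum_add_distrib, hA, map_sum]
    congr 1
    refine Finset.sum_congr rfl (fun n _ => ?_)
    rw [map_mul, ee_conj, cr_neg]
    congr 2
    push_cast
    ring
  have h2 : A = cr r 1 * ee t ^ (2 ^ (j - 1))
      * ∑ k ∈ range (2 ^ (j - 1)), (((2 ^ (j - 1) + k : ℕ) : ℝ) ^ (-r) : ℝ) * ee t ^ k := by
    rw [hA, Finset.sum_Ico_eq_sum_range]
    have e0 : 2 ^ j - 2 ^ (j - 1) = 2 ^ (j - 1) := by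
      have : 2 ^ j = 2 ^ (j - 1) * 2 := by rw [← pow_succ, Nat.sub_add_cancel hj]
      omega
    rw [e0, Finset.mul_sum]
    refine Finset.sum_congr rfl (fun k _ => ?_)
    rw [cr_nat r _ (by omega), Int.cast_natCast, ee_nat_mul, pow_add]
    ring
  have h3 : ‖A‖ = ‖∑ k ∈ range (2 ^ (j - 1)),
      (((2 ^ (j - 1) + k : ℕ) : ℝ) ^ (-r) : ℝ) * ee t ^ k‖ := by
    rw [h2, norm_mul, norm_mul, cr_one_norm, norm_pow, ee_norm, one_pow, one_mul, one_mul]
  rw [h1, ← h3]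
  refine (norm_add_le _ _).trans ?_
  rw [RCLike.norm_conj]
  linarith

lemma Wr_eq (r : ℝ) (j : ℕ) (hj : 1 ≤ j) : ((2 ^ (j - 1) + 0 : ℕ) : ℝ) ^ (-r) = Wr r j := by
  unfold Wr
  have h1 : (2 : ℝ) ^ j = 2 ^ (j - 1) * 2 := by rw [← pow_succ, Nat.sub_add_cancel hj]
  rw [h1, Real.mul_rpow (by positivity) (by norm_num), add_zero]
  push_cast
  have h2 : (2 : ℝ) ^ r * (2 : ℝ) ^ (-r) = 1 := by
    rw [← Real.rpow_add (by norm_num), add_neg_cancel, Real.rpow_zero]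
  linear_combination (-((2 : ℝ) ^ (j - 1)) ^ (-r)) * h2

lemma w_anti (r : ℝ) (hr : 0 < r) (a : ℕ) (ha : 0 < a) (n : ℕ) :
    ((a + (n + 1) : ℕ) : ℝ) ^ (-r) ≤ ((a + n : ℕ) : ℝ) ^ (-r) := by
  refine Real.rpow_le_rpow_of_nonpos ?_ ?_ (by linarith)
  · have : 0 < a + n := by omega
    exact_mod_cast this
  · have : a + n ≤ a + (n + 1) := by omega
    exact_mod_cast this

lemma G1_zero (r : ℝ) (t : ℝ) : G1 r 0 t = 1 := by
  unfold G1
  have : rho1 0 = {0} := by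
    ext k
    rw [mem_rho1, mem_singleton, Nat.size_eq_zero, Int.natAbs_eq_zero]
  rw [this, Finset.sum_singleton]
  simp [cr, ee_zero]

lemma Wr_zero (r : ℝ) (hr : 0 < r) : 1 ≤ Wr r 0 := by
  unfold Wr
  rw [pow_zero, Real.one_rpow, mul_one]
  exact Real.one_le_rpow (by norm_num) hr.le

lemma G1_triv (r : ℝ) (hr : 0 < r) (j : ℕ) (t : ℝ) : ‖G1 r j t‖ ≤ Wr r j * 2 ^ j := by
  rcases Nat.eq_zero_or_pos j with h0 | hj
  · rw [h0, G1_zero, norm_one, pow_zero, mul_one]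
    exact Wr_zero r hr
  refine (G1_split r j hj t).trans ?_
  have h1 : ‖∑ k ∈ range (2 ^ (j - 1)), (((2 ^ (j - 1) + k : ℕ) : ℝ) ^ (-r) : ℝ) * ee t ^ k‖
      ≤ ∑ k ∈ range (2 ^ (j - 1)), Wr r j := by
    refine (norm_sum_le _ _).trans (Finset.sum_le_sum (fun k _ => ?_))
    rw [norm_mul, norm_pow, ee_norm, one_pow, mul_one, Complex.norm_real, Real.norm_eq_abs,
      abs_of_nonneg (by positivity), ← Wr_eq r j hj]
    refine Real.rpow_le_rpow_of_nonpos ?_ ?_ (by linarith)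
    · positivity
    · have : 2 ^ (j - 1) + 0 ≤ 2 ^ (j - 1) + k := by omega
      exact_mod_cast this
  rw [Finset.sum_const, card_range, nsmul_eq_mul] at h1
  have h2 : (2 : ℝ) ^ j = 2 ^ (j - 1) * 2 := by rw [← pow_succ, Nat.sub_add_cancel hj]
  rw [h2]
  push_cast at h1 ⊢
  linarith

lemma G1_dec (r : ℝ) (hr : 0 < r) (j : ℕ) (t δ : ℝ) (hδ : 0 < δ) (h : ∀ n : ℤ, δ ≤ |t - n|) :
    ‖G1 r j t‖ ≤ Wr r j * (1 / δ) := by
  rcases Nat.eq_zero_or_pos j with h0 | hj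
  · rw [h0, G1_zero, norm_one]
    have h1 := h (round t)
    have h2 := abs_sub_round t
    have h3 : 1 ≤ 1 / δ := by rw [le_div_iff₀ hδ]; linarith
    have := Wr_zero r hr
    nlinarith
  refine (G1_split r j hj t).trans ?_
  have h1 := abel' (fun k => ((2 ^ (j - 1) + k : ℕ) : ℝ) ^ (-r))
    (w_anti r hr (2 ^ (j - 1)) (by positivity)) (fun n => by positivity) (ee t) (ee_norm t)
    (2 ^ (j - 1))
  rw [Wr_eq r j hj] at h1
  have h2 := ee_sub_one t δ h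
  set X := ‖∑ k ∈ range (2 ^ (j - 1)), (((2 ^ (j - 1) + k : ℕ) : ℝ) ^ (-r) : ℝ) * ee t ^ k‖
    with hX
  have h3 : 4 * δ * X ≤ 2 * Wr r j := by
    refine le_trans ?_ h1
    exact mul_le_mul_of_nonneg_right h2 (norm_nonneg _)
  rw [mul_one_div, le_div_iff₀ hδ]
  linarith

/-- the dyadic majorant -/
def My (j : ℕ) (t : ℝ) : ℝ := ∑ i ∈ range (j + 1), if near t (1 / 2 ^ i) then (2 : ℝ) ^ i else 0

lemma My_nonneg (j : ℕ) (t : ℝ) : 0 ≤ My j t :=
  Finset.sum_nonneg (fun i _ => by split_ifs <;> positivity)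

lemma dy (X : ℝ) (j : ℕ) (t : ℝ) (h1 : X ≤ 2 ^ j)
    (h2 : ∀ δ : ℝ, 0 < δ → (∀ n : ℤ, δ ≤ |t - n|) → X ≤ 1 / δ) : X ≤ 2 * My j t := by
  set i0 := Nat.findGreatest (fun i => near t (1 / 2 ^ i)) j with hi0
  have h0 : near t (1 / 2 ^ 0) := by
    refine ⟨round t, ?_⟩
    have := abs_sub_round t
    rw [pow_zero, div_one]
    linarith
  have hn : near t (1 / 2 ^ i0) :=
    Nat.findGreatest_spec (P := fun i => near t (1 / 2 ^ i)) (Nat.zero_le j) h0
  have hle : i0 ≤ j := Nat.findGreatest_le j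
  have hM : (2 : ℝ) ^ i0 ≤ My j t := by
    have := Finset.single_le_sum (f := fun i => if near t (1 / 2 ^ i) then (2 : ℝ) ^ i else 0)
      (s := range (j + 1)) (fun i _ => by split_ifs <;> positivity)
      (mem_range.2 (Nat.lt_succ_of_le hle))
    simp only [if_pos hn] at this
    exact this
  rcases hle.eq_or_lt with h | h
  · rw [h] at hM
    have : (0 : ℝ) < 2 ^ j := by positivity
    linarith
  · have h3 : ¬ near t (1 / 2 ^ (i0 + 1)) :=
      Nat.findGreatest_is_greatest (P := fun i => near t (1 / 2 ^ i)) (Nat.lt_succ_self i0)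
        (Nat.succ_le_of_lt h)
    have h4 : ∀ n : ℤ, 1 / 2 ^ (i0 + 1) ≤ |t - n| := by
      intro n
      by_contra hc
      exact h3 ⟨n, (not_le.1 hc).le⟩
    have h5 := h2 _ (by positivity) h4
    rw [one_div_one_div, pow_succ] at h5
    linarith

lemma G1_My (r : ℝ) (hr : 0 < r) (j : ℕ) (t : ℝ) : ‖G1 r j t‖ ≤ 2 * Wr r j * My j t := by
  have hW := Wr_pos r j
  have h := dy (‖G1 r j t‖ / Wr r j) j t (by
    rw [div_le_iff₀ hW, mul_comm]
    exact G1_triv r hr j t) (by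
    intro δ hδ hn
    rw [div_le_iff₀ hW, mul_comm]
    exact G1_dec r hr j t δ hδ hn)
  rw [div_le_iff₀ hW] at h
  linarith

lemma near_neg_iff (t δ : ℝ) : near (-t) δ ↔ near t δ :=
  ⟨fun h => by simpa using h.neg, fun h => h.neg⟩

lemma avg_My (j : ℕ) (y : ℝ) :
    (∑ ζ ∈ range (2 ^ (j + 2)), My j ((ζ : ℝ) / (2 ^ (j + 2) : ℕ) - y)) / (2 ^ (j + 2) : ℕ)
      ≤ 3 * (j + 1) := by
  have hN : (0 : ℝ) < (2 ^ (j + 2) : ℕ) := by positivity
  rw [div_le_iff₀ hN]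
  unfold My
  rw [Finset.sum_comm]
  have h1 : ∀ i ∈ range (j + 1), ∑ ζ ∈ range (2 ^ (j + 2)),
      (if near ((ζ : ℝ) / (2 ^ (j + 2) : ℕ) - y) (1 / 2 ^ i) then (2 : ℝ) ^ i else 0)
      ≤ 3 * (2 ^ (j + 2) : ℕ) := by
    intro i hi
    rw [mem_range] at hi
    rw [← Finset.sum_filter, Finset.sum_const, nsmul_eq_mul]
    have h2 := arc_count (2 ^ (j + 2)) (by positivity) (-y) (1 / 2 ^ i) (by positivity)
    have h3 : (range (2 ^ (j + 2))).filter (fun ζ : ℕ =>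
        near ((ζ : ℝ) / (2 ^ (j + 2) : ℕ) - y) (1 / 2 ^ i))
        = (range (2 ^ (j + 2))).filter (fun ζ : ℕ =>
        near (-y + (ζ : ℝ) / (2 ^ (j + 2) : ℕ)) (1 / 2 ^ i)) := by
      refine Finset.filter_congr (fun ζ _ => ?_)
      rw [sub_eq_add_neg, add_comm]
    rw [h3]
    have h4 : (2 : ℝ) ^ i ≤ (2 ^ (j + 2) : ℕ) := by
      push_cast
      exact pow_le_pow_right₀ (by norm_num) (by omega)
    calc _ ≤ (2 * (1 / 2 ^ i) * (2 ^ (j + 2) : ℕ) + 1) * (2 : ℝ) ^ i :=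
          mul_le_mul_of_nonneg_right h2 (by positivity)
      _ = 2 * (2 ^ (j + 2) : ℕ) + 2 ^ i := by
          field_simp
      _ ≤ _ := by linarith
  refine (Finset.sum_le_sum h1).trans (le_of_eq ?_)
  rw [Finset.sum_const, card_range, nsmul_eq_mul]
  push_cast
  ring

lemma avg_G1 (r : ℝ) (hr : 0 < r) (j : ℕ) (y : ℝ) :
    (∑ ζ ∈ range (2 ^ (j + 2)), ‖G1 r j ((ζ : ℝ) / (2 ^ (j + 2) : ℕ) - y)‖) / (2 ^ (j + 2) : ℕ)
      ≤ 6 * Wr r j * (j + 1) := by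
  have hW := Wr_pos r j
  have hN : (0 : ℝ) < (2 ^ (j + 2) : ℕ) := by positivity
  have h1 := avg_My j y
  calc _ ≤ (∑ ζ ∈ range (2 ^ (j + 2)), 2 * Wr r j * My j ((ζ : ℝ) / (2 ^ (j + 2) : ℕ) - y))
        / (2 ^ (j + 2) : ℕ) :=
        div_le_div_of_nonneg_right (Finset.sum_le_sum (fun ζ _ => G1_My r hr j _)) hN.le
    _ = 2 * Wr r j * ((∑ ζ ∈ range (2 ^ (j + 2)), My j ((ζ : ℝ) / (2 ^ (j + 2) : ℕ) - y))
        / (2 ^ (j + 2) : ℕ)) := by
        rw [← Finset.mul_sum]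
        ring
    _ ≤ 2 * Wr r j * (3 * (j + 1)) := mul_le_mul_of_nonneg_left h1 (by positivity)
    _ = _ := by ring

/-- product of the coefficients -/
def crp (r : ℝ) (k : Fin d → ℤ) : ℂ := ∏ i, cr r (k i)

lemma kernel_prod (r : ℝ) (s : Fin d → ℕ) (t : Fin d → ℝ) :
    ∑ k ∈ rho s, crp r k * ex k t = ∏ i, G1 r (s i) (t i) := by
  rw [rho_pi]
  unfold G1
  rw [Finset.prod_univ_sum]
  refine Finset.sum_congr rfl (fun k _ => ?_)
  unfold crp ex
  rw [Pool.Agent.H75.UB.ee_prod', ← Finset.prod_mul_distrib]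

/-- the sampling grid -/
def grid (s : Fin d → ℕ) : Finset (Fin d → ℕ) := Fintype.piFinset (fun i => range (NN s i))

lemma mem_grid {s ζ : Fin d → ℕ} : ζ ∈ grid s ↔ ∀ i, ζ i < NN s i := by
  unfold grid
  rw [Fintype.mem_piFinset]
  simp only [mem_range]

lemma grid_card (s : Fin d → ℕ) : #(grid s) = NT s := by
  unfold grid NT
  rw [Fintype.card_piFinset]
  simp

/-- the bound for the averages of the kernel -/
def kap' (d : ℕ) (r : ℝ) (l : ℕ) : ℝ := (6 * 2 ^ r * (l + 1)) ^ d * ((2 : ℝ) ^ l) ^ (-r)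

lemma kap'_pos (d : ℕ) (r : ℝ) (l : ℕ) : 0 < kap' d r l := by unfold kap'; positivity

lemma kernel_avg (r : ℝ) (hr : 0 < r) (l : ℕ) (s : Fin d → ℕ) (hs : s ∈ Sl d l) (y : Fin d → ℝ) :
    (∑ ζ ∈ grid s, ‖∑ k ∈ rho s, crp r k * ex k (gp (NN s) ζ - y)‖) / NT s ≤ kap' d r l := by
  have h1 : (∑ ζ ∈ grid s, ‖∑ k ∈ rho s, crp r k * ex k (gp (NN s) ζ - y)‖) / NT s
      = ∏ i, (∑ ζ ∈ range (2 ^ (s i + 2)), ‖G1 r (s i) ((ζ : ℝ) / (2 ^ (s i + 2) : ℕ) - y i)‖)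
        / (2 ^ (s i + 2) : ℕ) := by
    rw [Finset.prod_div_distrib, Finset.prod_univ_sum]
    unfold NT grid NN
    push_cast
    congr 1
    refine Finset.sum_congr rfl (fun ζ _ => ?_)
    rw [kernel_prod, norm_prod]
    refine Finset.prod_congr rfl (fun i _ => ?_)
    congr 2
    show gp (fun i => 2 ^ (s i + 2)) ζ i - y i = _
    unfold gp
    push_cast
    rfl
  rw [h1]
  have hsl := mem_Sl.1 hs
  calc _ ≤ ∏ i, (6 * Wr r (s i) * ((s i : ℝ) + 1)) :=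
        Finset.prod_le_prod (fun i _ => by positivity) (fun i _ => avg_G1 r hr (s i) (y i))
    _ ≤ ∏ i, (6 * 2 ^ r * ((l : ℝ) + 1)) * ((2 : ℝ) ^ (s i)) ^ (-r) := by
        refine Finset.prod_le_prod (fun i _ => ?_) (fun i _ => ?_)
        · have := Wr_pos r (s i)
          positivity
        · have h2 : s i ≤ l := by
            rw [← hsl]
            exact Finset.single_le_sum (fun _ _ => Nat.zero_le _) (mem_univ i)
          have h3 : (s i : ℝ) ≤ l := by exact_mod_cast h2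
          unfold Wr
          have h4 : (0 : ℝ) ≤ 6 * (2 ^ r * ((2 : ℝ) ^ (s i)) ^ (-r)) := by positivity
          nlinarith
    _ = _ := by
        rw [Finset.prod_mul_distrib, Finset.prod_const, Finset.card_univ, Fintype.card_fin,
          Real.finsetProd_rpow _ _ (fun i _ => by positivity), Finset.prod_pow_eq_pow_sum, hsl]
        rfl

end

end Pool.Agent.H75.UB
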