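import Pool.Agent.H75.UB.Bern

set_option autoImplicit false
set_option linter.unusedSectionVars false

/-! Fourier coefficients on the torus of any dimension. -/

open Finset ComplexConjugate MeasureTheory UnitAddTorus

namespace Pool.Agent.H75.UB

open Pool.Agent.H75.MT (ee ee_add ee_norm ee_conj ee_int ee_zero)

noncomputable section

local instance : MeasureSpace UnitAddCircle := ⟨AddCircle.haarAddCircle⟩

local instance : Measure.IsAddHaarMeasure (volume : Measure UnitAddCircle) :=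
  inferInstanceAs (Measure.IsAddHaarMeasure AddCircle.haarAddCircle)

local instance : IsProbabilityMeasure (volume : Measure UnitAddCircle) :=
  inferInstanceAs (IsProbabilityMeasure AddCircle.haarAddCircle)

/-- the torus -/
abbrev TT (d : ℕ) := UnitAddTorus (Fin d)

variable {d : ℕ}

lemma cint (P : C(TT d, ℂ)) : Integrable (fun x => P x) volume :=
  P.continuous.integrable_of_hasCompactSupport (HasCompactSupport.of_compactSpace _)

lemma rint (f : TT d → ℝ) (hf : Continuous f) : Integrable f volume :=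
  hf.integrable_of_hasCompactSupport (HasCompactSupport.of_compactSpace _)

/-- Fourier coefficient -/
def co (P : C(TT d, ℂ)) (k : Fin d → ℤ) : ℂ := mFourierCoeff P k

lemma co_def (P : C(TT d, ℂ)) (k : Fin d → ℤ) : co P k = ∫ x, (mFourier (-k) * P) x := by
  unfold co mFourierCoeff
  rfl

lemma co_add (P Q : C(TT d, ℂ)) (k : Fin d → ℤ) : co (P + Q) k = co P k + co Q k := by
  rw [co_def, co_def, co_def, ← integral_add (cint _) (cint _)]
  congr 1
  ext x
  simp [mul_add]

lemma co_smul (a : ℂ) (P : C(TT d, ℂ)) (k : Fin d → ℤ) : co (a • P) k = a * co P k := by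
  rw [co_def, co_def, ← integral_const_mul]
  congr 1
  ext x
  simp
  ring

lemma co_zero (k : Fin d → ℤ) : co (0 : C(TT d, ℂ)) k = 0 := by
  rw [co_def]
  simp

lemma co_sum {ι : Type*} (s : Finset ι) (f : ι → C(TT d, ℂ)) (k : Fin d → ℤ) :
    co (∑ i ∈ s, f i) k = ∑ i ∈ s, co (f i) k := by
  classical
  induction s using Finset.induction_on with
  | empty => simp [co_zero]
  | insert a s ha ih => rw [Finset.sum_insert ha, Finset.sum_insert ha, co_add, ih]

lemma integral_mF (k : Fin d → ℤ) : ∫ x, mFourier k x = if k = 0 then (1 : ℂ) else 0 := by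
  have h := (orthonormal_iff_ite.1 (orthonormal_mFourier (d := Fin d))) 0 k
  rw [ContinuousMap.inner_toLp] at h
  have h1 : ∀ x : TT d, mFourier k x * conj (mFourier (0 : Fin d → ℤ) x) = mFourier k x := by
    intro x
    rw [mFourier_zero]
    simp
  simp only [h1] at h
  rw [h]
  by_cases hk : k = 0
  · rw [if_pos hk, if_pos hk.symm]
  · rw [if_neg hk, if_neg (fun h => hk h.symm)]

lemma mF_mul (k l : Fin d → ℤ) : (mFourier k * mFourier l : C(TT d, ℂ)) = mFourier (k + l) := by
  ext x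
  rw [ContinuousMap.mul_apply, mFourier_add]

lemma co_mF (k l : Fin d → ℤ) : co (mFourier k : C(TT d, ℂ)) l = if k = l then 1 else 0 := by
  rw [co_def, mF_mul, integral_mF]
  by_cases h : k = l
  · rw [if_pos h, if_pos (by rw [h]; simp)]
  · rw [if_neg h, if_neg]
    intro h'
    apply h
    have : k = l + (-l + k) := by abel
    rw [this, h', add_zero]

/-- a trigonometric polynomial -/
def tp (S : Finset (Fin d → ℤ)) (c : (Fin d → ℤ) → ℂ) : C(TT d, ℂ) :=
  ∑ k ∈ S, c k • mFourier k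

lemma tp_apply (S : Finset (Fin d → ℤ)) (c : (Fin d → ℤ) → ℂ) (x : TT d) :
    tp S c x = ∑ k ∈ S, c k * mFourier k x := by
  unfold tp
  rw [ContinuousMap.coe_sum, Finset.sum_apply]
  rfl

lemma co_tp (S : Finset (Fin d → ℤ)) (c : (Fin d → ℤ) → ℂ) (l : Fin d → ℤ) :
    co (tp S c) l = if l ∈ S then c l else 0 := by
  unfold tp
  rw [co_sum]
  simp only [co_smul, co_mF, mul_ite, mul_one, mul_zero]
  rw [Finset.sum_ite_eq']

lemma mF_norm (k : Fin d → ℤ) (x : TT d) : ‖mFourier k x‖ = 1 := by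
  have h := congrFun (congrArg DFunLike.coe (mFourier_zero (d := Fin d))) x
  have h2 := mFourier_add (d := Fin d) (n := k) (x := x) (m := -k)
  rw [neg_add_cancel, mFourier_zero, mFourier_neg] at h2
  have h3 : ‖mFourier k x‖ * ‖mFourier k x‖ = 1 := by
    have := congrArg norm h2
    rw [norm_mul, RCLike.norm_conj] at this
    simpa using this.symm
  nlinarith [norm_nonneg (mFourier k x), sq_nonneg (‖mFourier k x‖ - 1)]

lemma ee_prod' {ι : Type*} (S : Finset ι) (f : ι → ℝ) : ee (∑ i ∈ S, f i) = ∏ i ∈ S, ee (f i) := by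
  classical
  induction S using Finset.induction_on with
  | empty => simp [ee_zero]
  | insert a S ha ih => rw [Finset.sum_insert ha, Finset.prod_insert ha, ee_add, ih]

lemma mF_coe (k : Fin d → ℤ) (x : Fin d → ℝ) :
    mFourier k (fun i => (x i : UnitAddCircle)) = ex k x := by
  unfold ex
  rw [ee_prod']
  show ∏ i : Fin d, fourier (k i) ((x i : ℝ) : UnitAddCircle) = _
  refine Finset.prod_congr rfl (fun i _ => ?_)
  rw [fourier_coe_apply]
  unfold ee
  congr 1
  push_cast
  ring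

lemma exists_real (t : TT d) : ∃ x : Fin d → ℝ, (fun i => (x i : UnitAddCircle)) = t := by
  choose x hx using fun i => QuotientAddGroup.mk_surjective (t i)
  exact ⟨x, funext hx⟩

lemma pair_mF (G : C(TT d, ℂ)) (k : Fin d → ℤ) :
    ∫ x, (mFourier k) x * conj (G x) = conj (co G k) := by
  rw [co_def, ← integral_conj]
  congr 1
  ext x
  rw [ContinuousMap.mul_apply, map_mul, mFourier_neg, Complex.conj_conj]

lemma pair_tp (G : C(TT d, ℂ)) (S : Finset (Fin d → ℤ)) (c : (Fin d → ℤ) → ℂ) :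
    ∫ x, (tp S c) x * conj (G x) = ∑ k ∈ S, c k * conj (co G k) := by
  have h1 : ∀ x, (tp S c) x * conj (G x) = ∑ k ∈ S, c k * ((mFourier k) x * conj (G x)) := by
    intro x
    rw [tp_apply, Finset.sum_mul]
    refine Finset.sum_congr rfl (fun k _ => ?_)
    ring
  simp only [h1]
  rw [integral_finsetSum]
  · refine Finset.sum_congr rfl (fun k _ => ?_)
    rw [integral_const_mul, pair_mF]
  · intro k _
    have hc : Continuous (fun x : TT d => c k * ((mFourier k) x * conj (G x))) := by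
      have := (mFourier k : C(TT d, ℂ)).continuous
      have := G.continuous
      fun_prop
    exact hc.integrable_of_hasCompactSupport (HasCompactSupport.of_compactSpace _)

/-- Parseval for trigonometric polynomials -/
lemma tp_sq (S : Finset (Fin d → ℤ)) (c : (Fin d → ℤ) → ℂ) :
    ∫ x, ‖tp S c x‖ ^ 2 = ∑ k ∈ S, ‖c k‖ ^ 2 := by
  have h1 := pair_tp (tp S c) S c
  have h2 : ∀ x : TT d, tp S c x * conj (tp S c x) = ((‖tp S c x‖ ^ 2 : ℝ) : ℂ) := by
    intro x
    rw [Complex.mul_conj']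
    push_cast
    rfl
  simp only [h2] at h1
  rw [integral_complex_ofReal] at h1
  have h3 : ∑ k ∈ S, c k * conj (co (tp S c) k) = ((∑ k ∈ S, ‖c k‖ ^ 2 : ℝ) : ℂ) := by
    push_cast
    refine Finset.sum_congr rfl (fun k hk => ?_)
    rw [co_tp, if_pos hk, Complex.mul_conj']
  rw [h3] at h1
  exact_mod_cast h1

/-- difference set -/
def dif (S : Finset (Fin d → ℤ)) : Finset (Fin d → ℤ) := (S ×ˢ S).image (fun p => p.1 - p.2)

/-- coefficients of the square -/
def sqc (S : Finset (Fin d → ℤ)) (c : (Fin d → ℤ) → ℂ) (k : Fin d → ℤ) : ℂ :=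
  ∑ p ∈ (S ×ˢ S).filter (fun p => p.1 - p.2 = k), c p.1 * conj (c p.2)

lemma sq_tp (S : Finset (Fin d → ℤ)) (c : (Fin d → ℤ) → ℂ) (x : TT d) :
    ((‖tp S c x‖ ^ 2 : ℝ) : ℂ) = tp (dif S) (sqc S c) x := by
  have h1 : ((‖tp S c x‖ ^ 2 : ℝ) : ℂ) = tp S c x * conj (tp S c x) := by
    rw [Complex.mul_conj']
    push_cast
    rfl
  rw [h1, tp_apply, tp_apply, map_sum, Finset.sum_mul_sum, ← Finset.sum_product']
  unfold dif sqc
  symm
  have h2 : ∀ k ∈ (S ×ˢ S).image (fun p => p.1 - p.2),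
      (∑ p ∈ (S ×ˢ S).filter (fun p => p.1 - p.2 = k), c p.1 * conj (c p.2)) * mFourier k x
      = ∑ p ∈ (S ×ˢ S).filter (fun p => p.1 - p.2 = k),
        c p.1 * mFourier p.1 x * conj (c p.2 * mFourier p.2 x) := by
    intro k _
    rw [Finset.sum_mul]
    refine Finset.sum_congr rfl (fun p hp => ?_)
    have hk := (Finset.mem_filter.1 hp).2
    rw [← hk, sub_eq_add_neg, mFourier_add, mFourier_neg, map_mul]
    ring
  rw [Finset.sum_congr rfl h2]
  exact Finset.sum_fiberwise_of_maps_to (fun p hp => Finset.mem_image_of_mem _ hp) _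

lemma sqc_le (S : Finset (Fin d → ℤ)) (c : (Fin d → ℤ) → ℂ) (k : Fin d → ℤ)
    (hk : k ∈ dif S) : ‖sqc S c k‖ ≤ ∑ k ∈ S, ‖c k‖ ^ 2 := by
  have h1 : sqc S c k = co (tp (dif S) (sqc S c)) k := by
    rw [co_tp, if_pos hk]
  rw [h1, co_def, ← tp_sq S c]
  refine (norm_integral_le_integral_norm _).trans (le_of_eq ?_)
  congr 1
  ext x
  rw [ContinuousMap.mul_apply, norm_mul, mF_norm, one_mul, ← sq_tp, Complex.norm_real,
    Real.norm_eq_abs, abs_of_nonneg (by positivity)]

/-- the integral of the product of two squares -/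
lemma sq_sq (S S' : Finset (Fin d → ℤ)) (c c' : (Fin d → ℤ) → ℂ) (K : Finset (Fin d → ℤ))
    (hc : ∑ k ∈ S, ‖c k‖ ^ 2 ≤ 1) (hc' : ∑ k ∈ S', ‖c' k‖ ^ 2 ≤ 1)
    (hK : ∀ k, k ∈ dif S → k ∈ dif S' → k ∈ K) :
    ∫ x, ‖tp S c x‖ ^ 2 * ‖tp S' c' x‖ ^ 2 ≤ #K := by
  have h1 := pair_tp (tp (dif S') (sqc S' c')) (dif S) (sqc S c)
  have h2 : ∀ x : TT d, tp (dif S) (sqc S c) x * conj (tp (dif S') (sqc S' c') x)
      = ((‖tp S c x‖ ^ 2 * ‖tp S' c' x‖ ^ 2 : ℝ) : ℂ) := by
    intro x
    rw [← sq_tp, ← sq_tp, Complex.conj_ofReal]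
    push_cast
    rfl
  simp only [h2] at h1
  rw [integral_complex_ofReal] at h1
  have h0 : 0 ≤ ∫ x, ‖tp S c x‖ ^ 2 * ‖tp S' c' x‖ ^ 2 :=
    integral_nonneg (fun x => by positivity)
  have h3 : ∫ x, ‖tp S c x‖ ^ 2 * ‖tp S' c' x‖ ^ 2
      = ‖∑ k ∈ dif S, sqc S c k * conj (co (tp (dif S') (sqc S' c')) k)‖ := by
    rw [← h1, Complex.norm_real, Real.norm_eq_abs, abs_of_nonneg h0]
  rw [h3]
  refine (norm_sum_le _ _).trans ?_
  have h4 : ∀ k ∈ dif S, ‖sqc S c k * conj (co (tp (dif S') (sqc S' c')) k)‖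
      ≤ if k ∈ K then 1 else 0 := by
    intro k hk
    rw [co_tp]
    by_cases hk' : k ∈ dif S'
    · rw [if_pos hk', if_pos (hK k hk hk'), norm_mul, RCLike.norm_conj]
      have e1 := (sqc_le S c k hk).trans hc
      have e2 := (sqc_le S' c' k hk').trans hc'
      nlinarith [norm_nonneg (sqc S c k), norm_nonneg (sqc S' c' k)]
    · rw [if_neg hk', map_zero, mul_zero, norm_zero]
      split_ifs <;> norm_num
  refine (Finset.sum_le_sum h4).trans ?_
  rw [← Finset.sum_filter, Finset.sum_const, nsmul_eq_mul, mul_one]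
  have : #((dif S).filter (fun k => k ∈ K)) ≤ #K :=
    Finset.card_le_card (fun k hk => (Finset.mem_filter.1 hk).2)
  exact_mod_cast this

end

end Pool.Agent.H75.UB
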