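import Pool.Agent.H75.UB.Uniq

set_option autoImplicit false
set_option linter.unusedSectionVars false

/-! The approximation of a function of the class, and the choice of `n`. -/

open Finset ComplexConjugate MeasureTheory UnitAddTorus Filter

open scoped Classical Topology NNReal ENNReal

namespace Pool.Agent.H75.UB

open Pool.Agent.H75.MT (ee ee_add ee_norm ee_conj ee_int ee_zero cr cr_neg ee_nat_mul)

noncomputable section

local instance : MeasureSpace UnitAddCircle := ⟨AddCircle.haarAddCircle⟩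

local instance : Measure.IsAddHaarMeasure (volume : Measure UnitAddCircle) :=
  inferInstanceAs (Measure.IsAddHaarMeasure AddCircle.haarAddCircle)

local instance : IsProbabilityMeasure (volume : Measure UnitAddCircle) :=
  inferInstanceAs (IsProbabilityMeasure AddCircle.haarAddCircle)

variable {d : ℕ}

lemma al_geo (d : ℕ) (p r : ℝ) (hp1 : 1 < p) (hr : 1 / p < r) (CB : ℝ) (hCB : 1 ≤ CB) :
    Summable (fun l => Real.sqrt (2 ^ (l + d)) * Bl d p r CB l) := by
  set θ := r - 1 / p with hθ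
  have hθ0 : 0 < θ := by linarith
  set y := (2 : ℝ) ^ (θ / 2) with hy
  have hy1 : 1 < y := Real.one_lt_rpow (by norm_num) (by positivity)
  obtain ⟨K, hK0, hK⟩ := poly_exp d y hy1
  set z := (2 : ℝ) ^ (-(θ / 2)) with hz
  have hz0 : 0 < z := by positivity
  have hz1 : z < 1 := Real.rpow_lt_one_of_one_lt_of_neg (by norm_num) (by linarith)
  refine Summable.of_nonneg_of_le (fun l => ?_) (fun l => ?_)
    ((summable_geometric_of_lt_one hz0.le hz1).mul_left (2 ^ d * CB * K))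
  · have := Bl_pos d p r CB hCB l
    positivity
  · refine (al_le d p r CB hp1 hCB l).trans ?_
    have e1 : ((2 : ℝ) ^ l) ^ (-(r - 1 / p)) * y ^ l = z ^ l := by
      rw [rpow_pow_swap, ← mul_pow]
      congr 1
      rw [hy, hz, ← Real.rpow_add (by norm_num)]
      congr 1
      rw [hθ]
      ring
    calc 2 ^ d * CB * ((2 : ℝ) ^ l) ^ (-(r - 1 / p)) * ((l : ℝ) + 1) ^ d
        ≤ 2 ^ d * CB * ((2 : ℝ) ^ l) ^ (-(r - 1 / p)) * (K * y ^ l) := by
          have := hK l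
          gcongr
      _ = 2 ^ d * CB * K * (((2 : ℝ) ^ l) ^ (-(r - 1 / p)) * y ^ l) := by ring
      _ = _ := by rw [e1]

lemma norm_one (p : ℝ) (hp : 0 < p) (φ : TT d → ℂ) (hφ : MemLp φ (ENNReal.ofReal p) volume)
    (h1 : eLpNorm φ (ENNReal.ofReal p) volume ≤ 1) : ∫ x, ‖φ x‖ ^ p ≤ 1 := by
  have hp0 : ENNReal.ofReal p ≠ 0 := by
    rw [Ne, ENNReal.ofReal_eq_zero, not_le]
    exact hp
  rw [hφ.eLpNorm_eq_integral_rpow_norm hp0 ENNReal.ofReal_ne_top, ENNReal.toReal_ofReal hp.le,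
    ENNReal.ofReal_le_one] at h1
  have h0 : 0 ≤ ∫ x, ‖φ x‖ ^ p := integral_nonneg (fun x => by positivity)
  by_contra hc
  have h2 := Real.one_lt_rpow (not_le.1 hc) (inv_pos.2 hp)
  linarith

/-- approximation of a function of the class with a number of terms depending on `n` -/
theorem class_n (d : ℕ) (hd : 0 < d) (p r : ℝ) (hp1 : 1 < p) (hp2 : p < 2) (hr : 1 / p < r) :
    ∃ (C : ℝ) (CN n0 : ℕ), 0 < C ∧ 1 ≤ CN ∧ ∀ n, n0 ≤ n →
    ∀ f φ : TT d → ℂ, Integrable f volume → MemLp φ (ENNReal.ofReal p) volume →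
    eLpNorm φ (ENNReal.ofReal p) volume ≤ 1 →
    (∀ k : Fin d → ℤ, mFourierCoeff f k = (∏ i, cr r (k i)) * mFourierCoeff φ k) →
    ∃ (lam : Finset (Fin d → ℤ)) (c : (Fin d → ℤ) → ℂ),
      lam.card ≤ CN * (lg n) ^ 5 * ((n + 1) ^ (d - 1) * 2 ^ n) ∧
      eLpNorm (fun x => f x - ∑ k ∈ lam, c k * mFourier k x) ⊤ volume
        ≤ ENNReal.ofReal (C * (lg n : ℝ) ^ 8 * Un d p r n) := by
  have hr0 : 0 < r := by
    have : 0 < 1 / p := by positivity
    linarith
  obtain ⟨C, CN, n0, hC, h⟩ := poly_part d hd p r hp1 hp2 hr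
  obtain ⟨CB, hCB, hE⟩ := energies_b d hd p r hp1 hp2 hr0
  refine ⟨C, CN + 1, n0, hC, Nat.le_add_left _ _, ?_⟩
  intro n hn f φ hf hφ hφn hco
  have hφ1 := norm_one p (by linarith) φ hφ hφn
  obtain ⟨G, ⟨lam, c, hlam, hG⟩, N0, hN0⟩ := h n hn φ hφ hφ1
  have hsum : Summable (fun l => ‖ul (bc r φ) l‖) :=
    Summable.of_nonneg_of_le (fun l => norm_nonneg _)
      (fun l => ul_norm (bc r φ) l _ (Bl_pos d p r CB hCB l).le (hE φ hφ hφ1 l))
      (al_geo d p r hp1 hr CB hCB)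
  obtain ⟨F, hF1, hF2⟩ := series (bc r φ) hsum
  have hfF : f =ᵐ[volume] fun x => F x := by
    have hu : Integrable (fun x => f x - F x) volume := hf.sub (cint F)
    have h0 := ae_zero (fun x => f x - F x) hu (by
      intro k
      have e1 : mFourierCoeff (fun x => f x - F x) k = mFourierCoeff f k - co F k := by
        unfold mFourierCoeff
        rw [co_def, ← integral_sub]
        · congr 1
          funext x
          rw [smul_eq_mul, smul_eq_mul, ContinuousMap.mul_apply]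
          ring
        · simp only [smul_eq_mul]
          exact int_mul _ hf (mFourier (-k))
        · exact cint _
      rw [e1, hco, hF1]
      unfold bc crp cf
      ring)
    filter_upwards [h0] with x hx
    exact sub_eq_zero.1 hx
  refine ⟨lam, c, ?_, ?_⟩
  · refine hlam.trans ?_
    have : CN ≤ CN + 1 := Nat.le_succ _
    gcongr
  · have hb : ∀ y : TT d, ‖F y - ∑ k ∈ lam, c k * mFourier k y‖
        ≤ C * (lg n : ℝ) ^ 8 * Un d p r n := by
      intro y
      obtain ⟨x, rfl⟩ := exists_real y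
      have e1 : ∑ k ∈ lam, c k * mFourier k (fun i => (x i : UnitAddCircle)) = G x := by
        rw [hG]
        exact Finset.sum_congr rfl (fun k _ => by rw [mF_coe])
      rw [e1]
      have h1 : Tendsto (fun N => ‖Fp (bc r φ) N x - G x‖) atTop (𝓝 ‖F (pt x) - G x‖) :=
        ((hF2 x).sub_const (G x)).norm
      refine le_of_tendsto h1 ?_
      filter_upwards [eventually_ge_atTop N0] with N hN
      exact hN0 N hN x
    have h2 := eLpNorm_le_of_ae_bound (μ := (volume : Measure (TT d))) (p := ⊤)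
      (f := fun x => f x - ∑ k ∈ lam, c k * mFourier k x)
      (C := C * (lg n : ℝ) ^ 8 * Un d p r n) (by
        filter_upwards [hfF] with x hx
        rw [hx]
        exact hb x)
    refine h2.trans (le_of_eq ?_)
    simp

lemma lg_succ (n : ℕ) : lg (n + 1) ≤ 2 * lg n := by
  unfold lg
  have : Nat.log 2 (n + 1) ≤ Nat.log 2 n + 1 := by
    rcases Nat.eq_zero_or_pos n with h | h
    · rw [h]
      simp
    · have e1 : Nat.log 2 (n * 2) = Nat.log 2 n + 1 := Nat.log_mul_base (by norm_num) (by omega)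
      rw [← e1]
      exact Nat.log_mono_right (by omega)
  omega

/-- the number of terms -/
def Ph (d CN n : ℕ) : ℕ := CN * (lg n) ^ 5 * ((n + 1) ^ (d - 1) * 2 ^ n)

lemma Ph_ge (d CN n : ℕ) (hCN : 1 ≤ CN) : 2 ^ n ≤ Ph d CN n := by
  unfold Ph
  have h1 : 1 ≤ (lg n) ^ 5 := Nat.one_le_pow _ _ (lg_one n)
  have h2 : 1 ≤ (n + 1) ^ (d - 1) := Nat.one_le_pow _ _ (by omega)
  calc 2 ^ n = 1 * 1 * (1 * 2 ^ n) := by ring
    _ ≤ _ := by gcongr

lemma Ph_succ (d CN n : ℕ) : Ph d CN (n + 1)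
    ≤ (CN * 64 * 2 ^ (d - 1)) * (lg n) ^ 5 * (n + 1) ^ (d - 1) * 2 ^ n := by
  unfold Ph
  have h1 := lg_succ n
  have h2 : n + 1 + 1 ≤ 2 * (n + 1) := by omega
  calc CN * (lg (n + 1)) ^ 5 * ((n + 1 + 1) ^ (d - 1) * 2 ^ (n + 1))
      ≤ CN * (2 * lg n) ^ 5 * ((2 * (n + 1)) ^ (d - 1) * 2 ^ (n + 1)) := by gcongr
    _ = _ := by
        rw [mul_pow 2 (lg n) 5, mul_pow 2 (n + 1) (d - 1), pow_succ 2 n]
        ring

/-- the choice of `n` -/
lemma choose_n (d CN n0 m : ℕ) (hCN : 1 ≤ CN) (hm : Ph d CN n0 ≤ m) :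
    ∃ n, n0 ≤ n ∧ Ph d CN n ≤ m ∧ m < Ph d CN (n + 1) := by
  have hex : ∃ n, n0 ≤ n ∧ m < Ph d CN (n + 1) := by
    refine ⟨max n0 m, le_max_left _ _, ?_⟩
    have h1 := Ph_ge d CN (max n0 m + 1) hCN
    have h2 : max n0 m + 1 < 2 ^ (max n0 m + 1) := Nat.lt_two_pow_self
    have h3 : m ≤ max n0 m := le_max_right _ _
    omega
  classical
  obtain ⟨h1, h2⟩ := Nat.find_spec hex
  refine ⟨Nat.find hex, h1, ?_, h2⟩
  rcases h1.eq_or_lt with h | h
  · rw [← h]
    exact hm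
  · have h3 := Nat.find_min hex (m := Nat.find hex - 1) (by omega)
    push Not at h3
    have h4 := h3 (by omega)
    rwa [Nat.sub_add_cancel (by omega)] at h4

/-- the error in terms of the number of terms -/
lemma err_m (d : ℕ) (hd : 0 < d) (p r : ℝ) (hp1 : 1 < p) (hp2 : p < 2) (hr : 1 / p < r)
    (C : ℝ) (hC : 0 < C) (CN : ℕ) (hCN : 1 ≤ CN) :
    ∃ C' : ℝ, 0 < C' ∧ ∀ n m : ℕ, Ph d CN n ≤ m → m < Ph d CN (n + 1) →
      1 ≤ Real.log (Real.log m) →
      C * (lg n : ℝ) ^ 8 * Un d p r n ≤ C' * (m : ℝ) ^ (-(r - (1 / p - 1 / 2)))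
        * (Real.log m) ^ (((d : ℝ) - 1) * (r - 2 * (1 / p - 1 / 2)))
        * (Real.log (Real.log m)) ^ (8 + 5 * (r - (1 / p - 1 / 2))) := by
  set η := 1 / p - 1 / 2 with hη
  set a := r - η with ha
  have hη1 : η < 1 / 2 := by
    have : 1 / p < 1 := by rw [div_lt_one (by linarith)]; exact hp1
    rw [hη]
    linarith
  have ha0 : 0 < a := by
    rw [ha, hη]
    linarith
  have he0 : 0 < r - 2 * η := by
    have : 1 / p < 1 := by rw [div_lt_one (by linarith)]; exact hp1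
    rw [hη]
    linarith
  have hd1 : (0 : ℝ) ≤ (d : ℝ) - 1 := by
    have : (1 : ℝ) ≤ d := by exact_mod_cast hd
    linarith
  set K : ℝ := (CN : ℝ) * 64 * 2 ^ (d - 1) with hK
  have hCN0 : (0 : ℝ) < CN := by exact_mod_cast hCN
  have hK0 : 0 < K := by positivity
  refine ⟨C * K ^ a * (7 : ℝ) ^ (8 + 5 * a) * (3 : ℝ) ^ (((d : ℝ) - 1) * (r - 2 * η)),
    by positivity, ?_⟩
  intro n m h1 h2 hll
  set Λ : ℝ := (lg n : ℝ) with hΛ
  have hΛ1 : 1 ≤ Λ := by
    rw [hΛ]
    exact_mod_cast lg_one n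
  set P : ℝ := ((n : ℝ) + 1) ^ (d - 1) with hP
  have hP0 : 0 < P := by positivity
  have hlog0 : 0 < Real.log m := by
    by_contra hc
    have hc' := not_lt.1 hc
    have h3 : Real.log (Real.log m) ≤ 0 := by
      rcases hc'.eq_or_lt with h | h
      · rw [h]; simp
      · have h5 : 0 ≤ Real.log m := Real.log_natCast_nonneg m
        linarith
    linarith
  have hm1 : (1 : ℝ) < m := by
    by_contra hc
    have : Real.log m ≤ 0 := Real.log_nonpos (Nat.cast_nonneg _) (not_lt.1 hc)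
    linarith
  have hm0 : (0 : ℝ) < m := by linarith
  have hlog1 : 1 ≤ Real.log m := by
    by_contra hc
    have := Real.log_nonpos hlog0.le (not_le.1 hc).le
    linarith
  -- `m ≤ K Λ^5 P 2^n`
  have h3 : (m : ℝ) ≤ K * Λ ^ 5 * P * 2 ^ n := by
    have e1 := h2.le.trans (Ph_succ d CN n)
    have e2 : (m : ℝ) ≤ (((CN * 64 * 2 ^ (d - 1)) * (lg n) ^ 5 * (n + 1) ^ (d - 1) * 2 ^ n : ℕ) : ℝ)
      := by exact_mod_cast e1
    push_cast at e2
    exact e2
  have h4 : ((2 : ℝ) ^ n) ^ (-a) ≤ (m : ℝ) ^ (-a) * (K ^ a * Λ ^ (5 * a) * P ^ a) := by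
    have e1 : (m : ℝ) / (K * Λ ^ 5 * P) ≤ 2 ^ n := by
      rw [div_le_iff₀ (by positivity)]
      linarith
    have e2 := Real.rpow_le_rpow_of_nonpos (by positivity) e1 (by linarith : -a ≤ 0)
    refine e2.trans (le_of_eq ?_)
    rw [Real.div_rpow hm0.le (by positivity), Real.rpow_neg (x := K * Λ ^ 5 * P) (by positivity),
      div_inv_eq_mul, Real.mul_rpow (by positivity) hP0.le,
      Real.mul_rpow hK0.le (by positivity), ← Real.rpow_natCast Λ 5, ← Real.rpow_mul (by linarith)]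
    norm_num
  -- `n + 1 ≤ 3 log m`
  have h5 : (n : ℝ) ≤ 2 * Real.log m := by
    have e1 : (2 : ℝ) ^ n ≤ m := by exact_mod_cast (Ph_ge d CN n hCN).trans h1
    have e2 := Real.log_le_log (by positivity) e1
    rw [Real.log_pow] at e2
    have e3 : 1 / 2 < Real.log 2 := by
      have := Real.log_two_gt_d9
      linarith
    have e4 : (0 : ℝ) ≤ n := Nat.cast_nonneg _
    nlinarith
  have h6 : P ^ (a - η) ≤ (3 : ℝ) ^ (((d : ℝ) - 1) * (r - 2 * η))
      * (Real.log m) ^ (((d : ℝ) - 1) * (r - 2 * η)) := by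
    rw [← Real.mul_rpow (by norm_num) hlog0.le, hP, ← Real.rpow_natCast, ← Real.rpow_mul
      (by positivity), Nat.cast_sub hd, Nat.cast_one]
    have e1 : a - η = r - 2 * η := by
      rw [ha]
      ring
    rw [e1]
    refine Real.rpow_le_rpow (by positivity) (by linarith) (by positivity)
  -- `Λ ≤ 7 log log m`
  have h7 : Λ ≤ 7 * Real.log (Real.log m) := by
    have e1 : Λ = (Nat.log 2 n : ℝ) + 3 := by
      rw [hΛ]
      unfold lg
      push_cast
      ring
    rcases Nat.eq_zero_or_pos n with h0 | h0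
    · rw [e1, h0]
      simp
      linarith
    · have hn0 : (0 : ℝ) < n := by exact_mod_cast h0
      have e2 : (2 : ℝ) ^ (Nat.log 2 n) ≤ n := by exact_mod_cast Nat.pow_log_le_self 2 (by omega)
      have e3 := Real.log_le_log (by positivity) e2
      rw [Real.log_pow] at e3
      have e4 : Real.log n ≤ Real.log (2 * Real.log m) := Real.log_le_log hn0 h5
      rw [Real.log_mul (by norm_num) hlog0.ne'] at e4
      have e5 := Real.log_two_gt_d9
      have e6 := Real.log_two_lt_d9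
      have e7 : (0 : ℝ) ≤ (Nat.log 2 n : ℝ) := Nat.cast_nonneg _
      rw [e1]
      nlinarith
  have h8 : Λ ^ (8 : ℕ) * Λ ^ (5 * a) ≤ (7 : ℝ) ^ (8 + 5 * a)
      * (Real.log (Real.log m)) ^ (8 + 5 * a) := by
    rw [← Real.mul_rpow (by norm_num) (by linarith)]
    have e1 : Λ ^ (8 : ℕ) * Λ ^ (5 * a) = Λ ^ (8 + 5 * a) := by
      rw [Real.rpow_add (by linarith)]
      congr 1
      rw [← Real.rpow_natCast]
      norm_num
    rw [e1]
    exact Real.rpow_le_rpow (by linarith) h7 (by positivity)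
  have h9 : P ^ a * P ^ (-η) = P ^ (a - η) := by
    rw [← Real.rpow_add hP0]
    congr 1
  unfold Un
  rw [← hη, ← ha, ← hP]
  have hm' : (0 : ℝ) ≤ (m : ℝ) ^ (-a) := by positivity
  calc C * Λ ^ 8 * (((2 : ℝ) ^ n) ^ (-a) * P ^ (-η))
      ≤ C * Λ ^ 8 * (((m : ℝ) ^ (-a) * (K ^ a * Λ ^ (5 * a) * P ^ a)) * P ^ (-η)) := by gcongr
    _ = C * K ^ a * (m : ℝ) ^ (-a) * (Λ ^ 8 * Λ ^ (5 * a)) * (P ^ a * P ^ (-η)) := by ring
    _ ≤ C * K ^ a * (m : ℝ) ^ (-a) * ((7 : ℝ) ^ (8 + 5 * a)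
        * (Real.log (Real.log m)) ^ (8 + 5 * a))
        * ((3 : ℝ) ^ (((d : ℝ) - 1) * (r - 2 * η))
          * (Real.log m) ^ (((d : ℝ) - 1) * (r - 2 * η))) := by
        rw [h9]
        gcongr
    _ = _ := by ring

/-- the upper bound for every function of the class -/
theorem upper (d : ℕ) (hd : 0 < d) (p r : ℝ) (hp1 : 1 < p) (hp2 : p < 2) (hr : 1 / p < r) :
    ∃ C : ℝ, 0 < C ∧ ∀ᶠ m : ℕ in atTop,
    ∀ f φ : TT d → ℂ, Integrable f volume → MemLp φ (ENNReal.ofReal p) volume →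
    eLpNorm φ (ENNReal.ofReal p) volume ≤ 1 →
    (∀ k : Fin d → ℤ, mFourierCoeff f k = (∏ i, cr r (k i)) * mFourierCoeff φ k) →
    ∃ (lam : Finset (Fin d → ℤ)) (c : (Fin d → ℤ) → ℂ), lam.card ≤ m ∧
      eLpNorm (fun x => f x - ∑ k ∈ lam, c k * mFourier k x) ⊤ volume
        ≤ ENNReal.ofReal (C * (m : ℝ) ^ (-(r - (1 / p - 1 / 2)))
          * (Real.log m) ^ (((d : ℝ) - 1) * (r - 2 * (1 / p - 1 / 2)))
          * (Real.log (Real.log m)) ^ (8 + 5 * (r - (1 / p - 1 / 2)))) := by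
  obtain ⟨C, CN, n0, hC, hCN, h⟩ := class_n d hd p r hp1 hp2 hr
  obtain ⟨C', hC', h'⟩ := err_m d hd p r hp1 hp2 hr C hC CN hCN
  refine ⟨C', hC', ?_⟩
  have hll : Tendsto (fun m : ℕ => Real.log (Real.log m)) atTop atTop :=
    Real.tendsto_log_atTop.comp (Real.tendsto_log_atTop.comp tendsto_natCast_atTop_atTop)
  filter_upwards [eventually_ge_atTop (Ph d CN n0), hll.eventually_ge_atTop 1] with m hm hm2
  intro f φ hf hφ hφ1 hco
  obtain ⟨n, hn, h1, h2⟩ := choose_n d CN n0 m hCN hm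
  obtain ⟨lam, c, h3, h4⟩ := h n hn f φ hf hφ hφ1 hco
  refine ⟨lam, c, h3.trans h1, h4.trans ?_⟩
  exact ENNReal.ofReal_le_ofReal (h' n m h1 h2 hm2)

/-- an iterated logarithm is negligible -/
lemma iter_log (C κ ε : ℝ) (hε : 0 < ε) : ∀ᶠ m : ℕ in atTop,
    C * (Real.log (Real.log m)) ^ κ ≤ ε * (Real.log m) ^ (1 / 2 : ℝ) := by
  have h1 : (fun x : ℝ => Real.log x ^ κ) =o[atTop] fun x => x ^ (1 / 2 : ℝ) :=
    isLittleO_log_rpow_rpow_atTop κ (by norm_num)
  have h2 := (h1.const_mul_left C).comp_tendsto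
    (Real.tendsto_log_atTop.comp tendsto_natCast_atTop_atTop)
  have h3 := h2.bound hε
  have hl : Tendsto (fun m : ℕ => Real.log m) atTop atTop :=
    Real.tendsto_log_atTop.comp tendsto_natCast_atTop_atTop
  filter_upwards [h3, hl.eventually_ge_atTop 0] with m hm hm0
  simp only [Function.comp_apply, Real.norm_eq_abs] at hm
  rw [abs_of_nonneg (a := Real.log (m : ℝ) ^ (1 / 2 : ℝ)) (by positivity)] at hm
  exact (le_abs_self _).trans hm

end

end Pool.Agent.H75.UB
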