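import Pool.Agent.H75.UB.Mid

set_option autoImplicit false
set_option linter.unusedSectionVars false

/-! The sums of the layers of the Fourier series: assembly. -/

open Finset ComplexConjugate MeasureTheory UnitAddTorus Filter

open scoped Classical

namespace Pool.Agent.H75.UB

open Pool.Agent.H75.MT (ee ee_add ee_norm ee_conj ee_int ee_zero cr cr_neg ee_nat_mul)

noncomputable section

local instance : MeasureSpace UnitAddCircle := ⟨AddCircle.haarAddCircle⟩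

local instance : Measure.IsAddHaarMeasure (volume : Measure UnitAddCircle) :=
  inferInstanceAs (Measure.IsAddHaarMeasure AddCircle.haarAddCircle)

local instance : IsProbabilityMeasure (volume : Measure UnitAddCircle) :=
  inferInstanceAs (IsProbabilityMeasure AddCircle.haarAddCircle)

variable {d : ℕ}

lemma poly_exp (k : ℕ) (y : ℝ) (hy : 1 < y) : ∃ K : ℝ, 0 < K ∧ ∀ l : ℕ,
    ((l : ℝ) + 1) ^ k ≤ K * y ^ l := by
  have h := tendsto_pow_const_div_const_pow_of_one_lt k hy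
  obtain ⟨K, hK⟩ := h.bddAbove_range
  refine ⟨(|K| + 1) * y, by positivity, fun l => ?_⟩
  have h1 : ((l + 1 : ℕ) : ℝ) ^ k / y ^ (l + 1) ≤ K := hK ⟨l + 1, rfl⟩
  rw [div_le_iff₀ (by positivity)] at h1
  push_cast at h1
  have h2 : K * y ^ (l + 1) ≤ (|K| + 1) * y ^ (l + 1) := by
    have := le_abs_self K
    gcongr
    linarith
  calc ((l : ℝ) + 1) ^ k ≤ (|K| + 1) * y ^ (l + 1) := h1.trans h2
    _ = _ := by rw [pow_succ]; ring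

/-- sums of layers -/
def Fp (b : (Fin d → ℤ) → ℂ) (N : ℕ) (x : Fin d → ℝ) : ℂ :=
  ∑ l ∈ range N, ∑ s ∈ Sl d l, fs b s x

/-- the coefficients of a block on the box -/
def eb' (b : (Fin d → ℤ) → ℂ) (s : Fin d → ℕ) (k : Fin d → ℤ) : ℂ := if k ∈ rho s then b k else 0

lemma fs_eb (b : (Fin d → ℤ) → ℂ) (s : Fin d → ℕ) (x : Fin d → ℝ) :
    fs b s x = ∑ k ∈ Box s, eb' b s k * ex k x := sum_rho_box s b x

lemma eb_l1 (b : (Fin d → ℤ) → ℂ) (l : ℕ) (s : Fin d → ℕ) (hs : s ∈ Sl d l) :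
    ∑ k ∈ Box s, ‖eb' b s k‖ ≤ Real.sqrt (2 ^ (l + d)) * en b s := by
  have h := box_l1 s (eb' b s) (en b s) (en_nonneg b s) (by
    rw [en_sq]
    exact le_of_eq (sum_rho_box' s b))
  rwa [mem_Sl.1 hs] at h

lemma lay_l1 (b : (Fin d → ℤ) → ℂ) (l : ℕ) (B : ℝ) (hsum : ∑ s ∈ Sl d l, en b s ≤ B) :
    ∑ s ∈ Sl d l, ∑ k ∈ Box s, ‖eb' b s k‖ ≤ Real.sqrt (2 ^ (l + d)) * B := by
  calc ∑ s ∈ Sl d l, ∑ k ∈ Box s, ‖eb' b s k‖
      ≤ ∑ s ∈ Sl d l, Real.sqrt (2 ^ (l + d)) * en b s :=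
        Finset.sum_le_sum (fun s hs => eb_l1 b l s hs)
    _ = Real.sqrt (2 ^ (l + d)) * ∑ s ∈ Sl d l, en b s := by rw [Finset.mul_sum]
    _ ≤ _ := mul_le_mul_of_nonneg_left hsum (Real.sqrt_nonneg _)

lemma fs_norm (b : (Fin d → ℤ) → ℂ) (s : Fin d → ℕ) (x : Fin d → ℝ) :
    ‖fs b s x‖ ≤ ∑ k ∈ Box s, ‖eb' b s k‖ := by
  rw [fs_eb]
  refine (norm_sum_le _ _).trans (le_of_eq ?_)
  refine Finset.sum_congr rfl (fun k _ => ?_)
  rw [norm_mul, ex_norm, mul_one]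

lemma lay_sup (b : (Fin d → ℤ) → ℂ) (l : ℕ) (B : ℝ) (hsum : ∑ s ∈ Sl d l, en b s ≤ B)
    (x : Fin d → ℝ) : ‖∑ s ∈ Sl d l, fs b s x‖ ≤ Real.sqrt (2 ^ (l + d)) * B :=
  (norm_sum_le _ _).trans ((Finset.sum_le_sum (fun s _ => fs_norm b s x)).trans
    (lay_l1 b l B hsum))

lemma rpow_pow_swap (x : ℝ) (l : ℕ) : ((2 : ℝ) ^ l) ^ x = ((2 : ℝ) ^ x) ^ l := by
  rw [← Real.rpow_natCast (2 : ℝ) l, ← Real.rpow_natCast ((2 : ℝ) ^ x) l,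
    ← Real.rpow_mul (by norm_num), ← Real.rpow_mul (by norm_num), mul_comm]

lemma al_le (d : ℕ) (p r CB : ℝ) (hp1 : 1 < p) (hCB : 1 ≤ CB) (l : ℕ) :
    Real.sqrt (2 ^ (l + d)) * Bl d p r CB l
      ≤ 2 ^ d * CB * ((2 : ℝ) ^ l) ^ (-(r - 1 / p)) * ((l : ℝ) + 1) ^ d := by
  unfold Bl
  have hN : (0 : ℝ) < 2 ^ l := by positivity
  have hl0 : (1 : ℝ) ≤ (l : ℝ) + 1 := by
    have : (0 : ℝ) ≤ l := Nat.cast_nonneg _
    linarith
  have hexp : 0 ≤ 1 - 1 / p := by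
    have : 1 / p ≤ 1 := by rw [div_le_one (by linarith)]; exact hp1.le
    linarith
  have hexp1 : 1 - 1 / p ≤ 1 := by
    have : 0 < 1 / p := by positivity
    linarith
  have h1 : Real.sqrt (2 ^ (l + d)) ≤ ((2 : ℝ) ^ l) ^ (1 / 2 : ℝ) * 2 ^ d := by
    rw [pow_add, Real.sqrt_mul hN.le, Real.sqrt_eq_rpow]
    have e1 : Real.sqrt ((2 : ℝ) ^ d) ≤ 2 ^ d := by
      refine Real.sqrt_le_iff.2 ⟨by positivity, ?_⟩
      have : (1 : ℝ) ≤ 2 ^ d := one_le_pow₀ (by norm_num)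
      nlinarith
    gcongr
  have h2 : ((2 : ℝ) ^ l) ^ (1 / 2 : ℝ) * ((2 : ℝ) ^ l) ^ (-(r - (1 / p - 1 / 2)))
      = ((2 : ℝ) ^ l) ^ (-(r - 1 / p)) := by
    rw [← Real.rpow_add hN]
    congr 1
    ring
  have h3 : (((l : ℝ) + 1) ^ (d - 1)) ^ (1 - 1 / p) ≤ ((l : ℝ) + 1) ^ d := by
    calc (((l : ℝ) + 1) ^ (d - 1)) ^ (1 - 1 / p) ≤ (((l : ℝ) + 1) ^ (d - 1)) ^ (1 : ℝ) :=
          Real.rpow_le_rpow_of_exponent_le (one_le_pow₀ hl0) hexp1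
      _ = ((l : ℝ) + 1) ^ (d - 1) := Real.rpow_one _
      _ ≤ _ := pow_le_pow_right₀ hl0 (by omega)
  calc Real.sqrt (2 ^ (l + d)) * (CB * ((2 : ℝ) ^ l) ^ (-(r - (1 / p - 1 / 2)))
        * (((l : ℝ) + 1) ^ (d - 1)) ^ (1 - 1 / p))
      ≤ (((2 : ℝ) ^ l) ^ (1 / 2 : ℝ) * 2 ^ d) * (CB * ((2 : ℝ) ^ l) ^ (-(r - (1 / p - 1 / 2)))
        * ((l : ℝ) + 1) ^ d) := by gcongr
    _ = 2 ^ d * CB * (((2 : ℝ) ^ l) ^ (1 / 2 : ℝ) * ((2 : ℝ) ^ l) ^ (-(r - (1 / p - 1 / 2))))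
        * ((l : ℝ) + 1) ^ d := by ring
    _ = _ := by rw [h2]

/-- a lower bound for the target -/
lemma Un_low (d : ℕ) (p r : ℝ) (hp1 : 1 < p) (hp2 : p < 2) (n : ℕ) :
    ((2 : ℝ) ^ n) ^ (-(r - (1 / p - 1 / 2))) / ((n : ℝ) + 1) ^ d ≤ Un d p r n := by
  unfold Un
  have hn0 : (1 : ℝ) ≤ (n : ℝ) + 1 := by
    have : (0 : ℝ) ≤ n := Nat.cast_nonneg _
    linarith
  have hη1 : 1 / p - 1 / 2 ≤ 1 := by
    have : 1 / p ≤ 1 := by rw [div_le_one (by linarith)]; exact hp1.le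
    linarith
  have hη0 : 0 ≤ 1 / p - 1 / 2 := by
    have : 1 / 2 ≤ 1 / p := one_div_le_one_div_of_le (by linarith) hp2.le
    linarith
  have h3 : (((n : ℝ) + 1) ^ (d - 1)) ^ (1 / p - 1 / 2) ≤ ((n : ℝ) + 1) ^ d := by
    calc (((n : ℝ) + 1) ^ (d - 1)) ^ (1 / p - 1 / 2) ≤ (((n : ℝ) + 1) ^ (d - 1)) ^ (1 : ℝ) :=
          Real.rpow_le_rpow_of_exponent_le (one_le_pow₀ hn0) hη1
      _ = ((n : ℝ) + 1) ^ (d - 1) := Real.rpow_one _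
      _ ≤ _ := pow_le_pow_right₀ hn0 (by omega)
  rw [div_eq_mul_inv, Real.rpow_neg (x := ((n : ℝ) + 1) ^ (d - 1)) (by positivity)]
  gcongr

/-- the low layers -/
lemma low_part (hd : 0 < d) (b : (Fin d → ℤ) → ℂ) (n : ℕ) :
    TP d (2 ^ d * ((n + 1) ^ (d - 1) * 2 ^ n)) (fun x => Fp b n x) := by
  have h1 : TP d (∑ l ∈ range n, ∑ s ∈ Sl d l, #(rho s)) (fun x => Fp b n x) := by
    unfold Fp
    refine TP.sum (range n) (fun l => ∑ s ∈ Sl d l, #(rho s)) _ (fun l _ => ?_)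
    refine TP.sum (Sl d l) (fun s => #(rho s)) _ (fun s _ => ?_)
    exact ⟨rho s, b, le_rfl, fun x => rfl⟩
  refine h1.mono ?_
  have h2 : ∀ l ∈ range n, ∑ s ∈ Sl d l, #(rho s) ≤ (2 ^ d * (n + 1) ^ (d - 1)) * 2 ^ l := by
    intro l hl
    rw [mem_range] at hl
    calc ∑ s ∈ Sl d l, #(rho s) ≤ ∑ s ∈ Sl d l, 2 ^ (l + d) := by
          refine Finset.sum_le_sum (fun s hs => ?_)
          have e1 := (Finset.card_le_card (rho_sub s)).trans (Box_card s)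
          rwa [mem_Sl.1 hs] at e1
      _ = #(Sl d l) * 2 ^ (l + d) := by rw [Finset.sum_const, smul_eq_mul]
      _ ≤ (n + 1) ^ (d - 1) * 2 ^ (l + d) := by
          refine Nat.mul_le_mul_right _ ((Sl_card hd l).trans ?_)
          exact Nat.pow_le_pow_left (by omega) _
      _ = _ := by rw [pow_add]; ring
  refine (Finset.sum_le_sum h2).trans ?_
  rw [← Finset.mul_sum, ← mul_assoc]
  refine Nat.mul_le_mul_left _ ?_
  have h3 : ∑ l ∈ range n, 2 ^ l = 2 ^ n - 1 := Nat.geomSum_eq (le_refl 2) n |>.trans (by simp)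
  rw [h3]
  exact Nat.sub_le _ _

/-- the middle layers together -/
lemma mid_part (d : ℕ) (hd : 0 < d) (p r : ℝ) (hp1 : 1 < p) (hp2 : p < 2) (hr : 1 / p < r)
    (CB : ℝ) (hCB : 1 ≤ CB) (c1 : ℕ) : ∃ (C : ℝ) (CN n0 : ℕ), 0 < C ∧ ∀ n, n0 ≤ n →
    ∀ φ : TT d → ℂ, MemLp φ (ENNReal.ofReal p) volume → ∫ x, ‖φ x‖ ^ p ≤ 1 →
    (∀ l : ℕ, ∑ s ∈ Sl d l, en (bc r φ) s ≤ Bl d p r CB l) →
    ∃ G, TP d (CN * (lg n) ^ 5 * ((n + 1) ^ (d - 1) * 2 ^ n)) G ∧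
      ∀ x, ‖∑ l ∈ Finset.Ico n (n + c1 * lg n), ∑ s ∈ Sl d l, fs (bc r φ) s x - G x‖
        ≤ C * (lg n : ℝ) ^ 8 * Un d p r n := by
  obtain ⟨C, CY, n0, hC, h⟩ := middle d hd p r hp1 hp2 hr CB hCB c1
  refine ⟨(c1 + 1) * C, c1 * (2 ^ (d + 3) * CY ^ 4), n0, by positivity, ?_⟩
  intro n hn φ hφ hφ1 hE
  have hl : ∀ l, ∃ G, TP d (2 ^ (d + 3) * (CY * lg n) ^ 4 * ((n + 1) ^ (d - 1) * 2 ^ n)) G ∧
      (l ∈ Finset.Ico n (n + c1 * lg n) →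
        ∀ x, ‖∑ s ∈ Sl d l, fs (bc r φ) s x - G x‖ ≤ C * (lg n : ℝ) ^ 7 * Un d p r n) := by
    intro l
    by_cases hl : l ∈ Finset.Ico n (n + c1 * lg n)
    · rw [Finset.mem_Ico] at hl
      obtain ⟨G, h1, h2⟩ := h n hn φ hφ hφ1 hE l hl.1 hl.2.le
      exact ⟨G, h1, fun _ => h2⟩
    · exact ⟨fun _ => 0, TP_zero d _, fun h => absurd h hl⟩
  choose G hG1 hG2 using hl
  refine ⟨fun x => ∑ l ∈ Finset.Ico n (n + c1 * lg n), G l x, ?_, ?_⟩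
  · have h1 := TP.sum (Finset.Ico n (n + c1 * lg n))
      (fun _ => 2 ^ (d + 3) * (CY * lg n) ^ 4 * ((n + 1) ^ (d - 1) * 2 ^ n)) G (fun l _ => hG1 l)
    refine h1.mono (le_of_eq ?_)
    rw [Finset.sum_const, Nat.card_Ico, smul_eq_mul, Nat.add_sub_cancel_left]
    ring
  · intro x
    rw [← Finset.sum_sub_distrib]
    refine (norm_sum_le _ _).trans ((Finset.sum_le_sum (fun l hl => hG2 l hl x)).trans ?_)
    rw [Finset.sum_const, Nat.card_Ico, Nat.add_sub_cancel_left, nsmul_eq_mul]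
    push_cast
    have hU := Un_pos d p r n
    have h0 : 0 ≤ C * (lg n : ℝ) ^ 8 * Un d p r n := by positivity
    calc (c1 : ℝ) * (lg n : ℝ) * (C * (lg n : ℝ) ^ 7 * Un d p r n)
        = c1 * (C * (lg n : ℝ) ^ 8 * Un d p r n) := by ring
      _ ≤ (c1 + 1) * (C * (lg n : ℝ) ^ 8 * Un d p r n) := by
          refine mul_le_mul_of_nonneg_right ?_ h0
          linarith
      _ = _ := by ring

end

end Pool.Agent.H75.UB
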