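import Pool.Agent.H75.MT.Grid

set_option autoImplicit false
set_option linter.unusedSectionVars false

/-! Trigonometric polynomials in several variables and the Bernstein inequality. -/

open Finset ComplexConjugate

namespace Pool.Agent.H75.UB

open Pool.Agent.H75.MT

noncomputable section

/-- the character with frequency `k` -/
def ex {d : ℕ} (k : Fin d → ℤ) (x : Fin d → ℝ) : ℂ := ee (∑ i, (k i : ℝ) * x i)

lemma ex_norm {d : ℕ} (k : Fin d → ℤ) (x : Fin d → ℝ) : ‖ex k x‖ = 1 := ee_norm _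

lemma ex_add {d : ℕ} (k : Fin d → ℤ) (x y : Fin d → ℝ) : ex k (x + y) = ex k x * ex k y := by
  unfold ex
  rw [← ee_add]
  congr 1
  rw [← Finset.sum_add_distrib]
  exact Finset.sum_congr rfl (fun i _ => by rw [Pi.add_apply]; ring)

lemma ex_sub {d : ℕ} (k : Fin d → ℤ) (x y : Fin d → ℝ) : ex k (x - y) = ex k x * ex k (-y) := by
  rw [sub_eq_add_neg, ex_add]

/-- trigonometric polynomials with at most `M` frequencies -/
def TP (d M : ℕ) (g : (Fin d → ℝ) → ℂ) : Prop :=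
  ∃ (lam : Finset (Fin d → ℤ)) (c : (Fin d → ℤ) → ℂ), lam.card ≤ M ∧
    ∀ x, g x = ∑ k ∈ lam, c k * ex k x

lemma TP.mono {d M M' : ℕ} {g : (Fin d → ℝ) → ℂ} (h : TP d M g) (hM : M ≤ M') : TP d M' g := by
  obtain ⟨l, c, h1, h2⟩ := h
  exact ⟨l, c, h1.trans hM, h2⟩

lemma TP_zero (d M : ℕ) : TP d M (fun _ => 0) := ⟨∅, fun _ => 0, by simp, by simp⟩

lemma TP.add {d M M' : ℕ} {g g' : (Fin d → ℝ) → ℂ} (h : TP d M g) (h' : TP d M' g') :
    TP d (M + M') (fun x => g x + g' x) := by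
  classical
  obtain ⟨l, c, h1, h2⟩ := h
  obtain ⟨l', c', h1', h2'⟩ := h'
  refine ⟨l ∪ l', fun k => (if k ∈ l then c k else 0) + (if k ∈ l' then c' k else 0), ?_, ?_⟩
  · exact (Finset.card_union_le _ _).trans (add_le_add h1 h1')
  · intro x
    simp only
    rw [h2, h2']
    have e1 : ∑ k ∈ l, c k * ex k x = ∑ k ∈ l ∪ l', (if k ∈ l then c k else 0) * ex k x := by
      rw [← Finset.sum_subset (Finset.subset_union_left (s₁ := l) (s₂ := l'))]
      · exact Finset.sum_congr rfl (fun k hk => by rw [if_pos hk])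
      · intro k _ hk
        rw [if_neg hk, zero_mul]
    have e2 : ∑ k ∈ l', c' k * ex k x = ∑ k ∈ l ∪ l', (if k ∈ l' then c' k else 0) * ex k x := by
      rw [← Finset.sum_subset (Finset.subset_union_right (s₁ := l) (s₂ := l'))]
      · exact Finset.sum_congr rfl (fun k hk => by rw [if_pos hk])
      · intro k _ hk
        rw [if_neg hk, zero_mul]
    rw [e1, e2, ← Finset.sum_add_distrib]
    exact Finset.sum_congr rfl (fun k _ => by ring)

lemma TP.sum {d : ℕ} {ι : Type*} (s : Finset ι) (M : ι → ℕ) (g : ι → (Fin d → ℝ) → ℂ)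
    (h : ∀ i ∈ s, TP d (M i) (g i)) : TP d (∑ i ∈ s, M i) (fun x => ∑ i ∈ s, g i x) := by
  classical
  induction s using Finset.induction_on with
  | empty => simpa using TP_zero d 0
  | insert a s ha ih =>
    rw [Finset.sum_insert ha]
    have h1 := h a (Finset.mem_insert_self a s)
    have h2 := ih (fun i hi => h i (Finset.mem_insert_of_mem hi))
    have h3 := h1.add h2
    convert h3 using 2
    rw [Finset.sum_insert ha]

/-- an indexed trigonometric sum -/
lemma TP_index {d M : ℕ} {ι : Type*} [DecidableEq ι] (s : Finset ι) (c : ι → ℂ)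
    (κ : ι → Fin d → ℤ) (l : Finset (Fin d → ℤ)) (hl : l.card ≤ M)
    (hκ : ∀ i ∈ s, c i ≠ 0 → κ i ∈ l) : TP d M (fun x => ∑ i ∈ s, c i * ex (κ i) x) := by
  classical
  refine ⟨l, fun k => ∑ i ∈ s.filter (fun i => κ i = k), c i, hl, ?_⟩
  intro x
  have h1 : ∑ i ∈ s, c i * ex (κ i) x = ∑ i ∈ s.filter (fun i => κ i ∈ l), c i * ex (κ i) x := by
    rw [Finset.sum_filter]
    refine Finset.sum_congr rfl (fun i hi => ?_)
    split_ifs with h
    · rfl
    · have : c i = 0 := by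
        by_contra hc
        exact h (hκ i hi hc)
      rw [this, zero_mul]
  simp only
  rw [h1]
  have h2 : ∀ k ∈ l, (∑ i ∈ s.filter (fun i => κ i = k), c i) * ex k x
      = ∑ i ∈ (s.filter (fun i => κ i ∈ l)).filter (fun i => κ i = k), c i * ex (κ i) x := by
    intro k hk
    rw [Finset.sum_mul]
    have e : (s.filter (fun i => κ i ∈ l)).filter (fun i => κ i = k)
        = s.filter (fun i => κ i = k) := by
      ext i
      simp only [mem_filter]
      constructor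
      · rintro ⟨⟨a, _⟩, b⟩
        exact ⟨a, b⟩
      · rintro ⟨a, b⟩
        exact ⟨⟨a, by rw [b]; exact hk⟩, b⟩
    rw [e]
    refine Finset.sum_congr rfl (fun i hi => ?_)
    rw [(Finset.mem_filter.1 hi).2]
  rw [Finset.sum_congr rfl h2]
  rw [Finset.sum_fiberwise_of_maps_to]
  intro i hi
  exact (Finset.mem_filter.1 hi).2

/-! ### The kernel -/

/-- the kernel of the Bernstein inequality -/
def bk (D : ℕ) (t : ℝ) : ℂ :=
  (ee (D * t) - ee (-(D * t))) * ∑ a ∈ range D, ∑ a' ∈ range D, ee (((a : ℤ) - (a' : ℤ) : ℤ) * t)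

lemma diff_count (D : ℕ) (n : ℤ) (hn : 0 ≤ n) :
    #((range D ×ˢ range D).filter (fun p => ((p.2 : ℤ) - (p.1 : ℤ)) = n)) = D - n.toNat := by
  have : #((range D ×ˢ range D).filter (fun p => ((p.2 : ℤ) - (p.1 : ℤ)) = n))
      = #(range (D - n.toNat)) := by
    refine Finset.card_bij' (fun p _ => p.1) (fun a _ => (a, a + n.toNat)) ?_ ?_ ?_ ?_
    · intro p hp
      simp only [mem_filter, mem_product, mem_range] at hp
      rw [mem_range]
      omega
    · intro a ha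
      rw [mem_range] at ha
      simp only [mem_filter, mem_product, mem_range]
      omega
    · intro p hp
      simp only [mem_filter, mem_product, mem_range] at hp
      ext
      · rfl
      · simp only
        omega
    · intro a _
      rfl
  rw [this, card_range]

lemma sum_ee' (A : ℕ) (hA : 0 < A) (k : ℤ) :
    ∑ u ∈ range A, ee (k * ((u : ℝ) / A)) = if (A : ℤ) ∣ k then (A : ℂ) else 0 := by
  rw [← sum_ee A hA k, Finset.sum_range]
  refine Finset.sum_congr rfl (fun u _ => ?_)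
  congr 1
  ring

lemma bk_coeff (D : ℕ) (hD : 0 < D) (k : ℤ) (hk : |k| ≤ D) :
    ∑ u ∈ range (4 * D), ee (-(k * ((u : ℝ) / (4 * D : ℕ)))) * bk D ((u : ℝ) / (4 * D : ℕ))
      = ((4 * D : ℕ) : ℂ) * k := by
  have hk' := abs_le.1 hk
  have h1 : ∀ u ∈ range (4 * D), ee (-(k * ((u : ℝ) / (4 * D : ℕ)))) * bk D ((u : ℝ) / (4 * D : ℕ))
      = ∑ p ∈ range D ×ˢ range D,
        (ee (((D : ℤ) + p.1 - p.2 - k : ℤ) * ((u : ℝ) / (4 * D : ℕ)))
          - ee ((-(D : ℤ) + p.1 - p.2 - k : ℤ) * ((u : ℝ) / (4 * D : ℕ)))) := by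
    intro u _
    unfold bk
    rw [← Finset.sum_product', ← mul_assoc, Finset.mul_sum]
    refine Finset.sum_congr rfl (fun p _ => ?_)
    rw [mul_sub, sub_mul, ← ee_add, ← ee_add, ← ee_add, ← ee_add]
    congr 2
    · push_cast
      ring
    · push_cast
      ring
  rw [Finset.sum_congr rfl h1, Finset.sum_comm]
  have h2 : ∀ p ∈ range D ×ˢ range D, ∑ u ∈ range (4 * D),
        (ee (((D : ℤ) + p.1 - p.2 - k : ℤ) * ((u : ℝ) / (4 * D : ℕ)))
          - ee ((-(D : ℤ) + p.1 - p.2 - k : ℤ) * ((u : ℝ) / (4 * D : ℕ))))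
      = (if ((p.2 : ℤ) - (p.1 : ℤ)) = D - k then ((4 * D : ℕ) : ℂ) else 0)
        - (if ((p.1 : ℤ) - (p.2 : ℤ)) = D + k then ((4 * D : ℕ) : ℂ) else 0) := by
    intro p hp
    rw [mem_product, mem_range, mem_range] at hp
    rw [Finset.sum_sub_distrib, sum_ee' (4 * D) (by omega), sum_ee' (4 * D) (by omega)]
    have e1 : ((4 * D : ℕ) : ℤ) ∣ ((D : ℤ) + p.1 - p.2 - k) ↔ ((p.2 : ℤ) - (p.1 : ℤ)) = D - k := by
      constructor
      · intro h
        have h3 : ((D : ℤ) + p.1 - p.2 - k) = 0 := by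
          refine Int.eq_zero_of_abs_lt_dvd h ?_
          rw [abs_lt]
          push_cast
          constructor <;> omega
        omega
      · intro h
        have h3 : ((D : ℤ) + p.1 - p.2 - k) = 0 := by omega
        rw [h3]
        exact dvd_zero _
    have e2 : ((4 * D : ℕ) : ℤ) ∣ (-(D : ℤ) + p.1 - p.2 - k) ↔ ((p.1 : ℤ) - (p.2 : ℤ)) = D + k := by
      constructor
      · intro h
        have h3 : (-(D : ℤ) + p.1 - p.2 - k) = 0 := by
          refine Int.eq_zero_of_abs_lt_dvd h ?_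
          rw [abs_lt]
          push_cast
          constructor <;> omega
        omega
      · intro h
        have h3 : (-(D : ℤ) + p.1 - p.2 - k) = 0 := by omega
        rw [h3]
        exact dvd_zero _
    simp only [e1, e2]
  rw [Finset.sum_congr rfl h2, Finset.sum_sub_distrib, ← Finset.sum_filter, ← Finset.sum_filter,
    Finset.sum_const, Finset.sum_const, nsmul_eq_mul, nsmul_eq_mul]
  have h3 := diff_count D (D - k) (by omega)
  have h4 := diff_count D (D + k) (by omega)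
  have h5 : #((range D ×ˢ range D).filter (fun p => ((p.1 : ℤ) - (p.2 : ℤ)) = D + k))
      = #((range D ×ˢ range D).filter (fun p => ((p.2 : ℤ) - (p.1 : ℤ)) = D + k)) := by
    refine Finset.card_bij' (fun p _ => (p.2, p.1)) (fun p _ => (p.2, p.1)) ?_ ?_ ?_ ?_
    · intro p hp
      simp only [mem_filter, mem_product] at hp ⊢
      exact ⟨⟨hp.1.2, hp.1.1⟩, hp.2⟩
    · intro p hp
      simp only [mem_filter, mem_product] at hp ⊢
      exact ⟨⟨hp.1.2, hp.1.1⟩, hp.2⟩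
    · intro p _
      rfl
    · intro p _
      rfl
  rw [h3, h5, h4, ← sub_mul, mul_comm]
  congr 1
  have h6 : ((D - ((D : ℤ) - k).toNat : ℕ) : ℤ) - ((D - ((D : ℤ) + k).toNat : ℕ) : ℤ) = k := by omega
  exact_mod_cast congrArg (fun z : ℤ => (z : ℂ)) h6

lemma bk_norm (D : ℕ) (hD : 0 < D) :
    ∑ u ∈ range (4 * D), ‖bk D ((u : ℝ) / (4 * D : ℕ))‖ ≤ (4 * D : ℕ) * (2 * D) := by
  have h1 : ∀ t : ℝ, ∑ a ∈ range D, ∑ a' ∈ range D, ee (((a : ℤ) - (a' : ℤ) : ℤ) * t)
      = ((‖∑ a ∈ range D, ee (a * t)‖ ^ 2 : ℝ) : ℂ) := by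
    intro t
    rw [Complex.ofReal_pow]
    rw [← Complex.mul_conj', map_sum, Finset.sum_mul_sum]
    refine Finset.sum_congr rfl (fun a _ => Finset.sum_congr rfl (fun a' _ => ?_))
    rw [ee_conj, ← ee_add]
    congr 1
    push_cast
    ring
  have h2 : ∀ t : ℝ, ‖bk D t‖ ≤ 2 * ‖∑ a ∈ range D, ee (a * t)‖ ^ 2 := by
    intro t
    unfold bk
    rw [norm_mul, h1, Complex.norm_real, Real.norm_eq_abs, abs_of_nonneg (by positivity)]
    refine mul_le_mul_of_nonneg_right ?_ (by positivity)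
    refine (norm_sub_le _ _).trans ?_
    rw [ee_norm, ee_norm]
    norm_num
  refine (Finset.sum_le_sum (fun u _ => h2 _)).trans ?_
  rw [← Finset.mul_sum]
  have h3 : ((∑ u ∈ range (4 * D), ‖∑ a ∈ range D, ee (a * ((u : ℝ) / (4 * D : ℕ)))‖ ^ 2 : ℝ) : ℂ)
      = ((4 * D : ℕ) : ℂ) * D := by
    push_cast
    have e1 : ∀ u ∈ range (4 * D), ((‖∑ a ∈ range D, ee (a * ((u : ℝ) / (4 * D)))‖ : ℂ)) ^ 2
        = ∑ a ∈ range D, ∑ a' ∈ range D, ee (((a : ℤ) - (a' : ℤ) : ℤ) * ((u : ℝ) / (4 * D : ℕ))) := by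
      intro u _
      have := h1 ((u : ℝ) / (4 * D : ℕ))
      push_cast at this ⊢
      exact this.symm
    rw [Finset.sum_congr rfl e1, Finset.sum_comm]
    have e2 : ∀ a ∈ range D, ∑ u ∈ range (4 * D), ∑ a' ∈ range D,
        ee (((a : ℤ) - (a' : ℤ) : ℤ) * ((u : ℝ) / (4 * D : ℕ))) = (4 * D : ℕ) := by
      intro a ha
      rw [mem_range] at ha
      rw [Finset.sum_comm]
      have e3 : ∀ a' ∈ range D, ∑ u ∈ range (4 * D),
          ee (((a : ℤ) - (a' : ℤ) : ℤ) * ((u : ℝ) / (4 * D : ℕ)))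
          = if a' = a then ((4 * D : ℕ) : ℂ) else 0 := by
        intro a' ha'
        rw [mem_range] at ha'
        rw [sum_ee' (4 * D) (by omega)]
        have : ((4 * D : ℕ) : ℤ) ∣ ((a : ℤ) - a') ↔ a' = a := by
          constructor
          · intro h
            have h3 : ((a : ℤ) - a') = 0 := by
              refine Int.eq_zero_of_abs_lt_dvd h ?_
              rw [abs_lt]
              push_cast
              constructor <;> omega
            omega
          · intro h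
            rw [h, sub_self]
            exact dvd_zero _
        simp only [this]
      rw [Finset.sum_congr rfl e3, Finset.sum_ite_eq' (range D) a, if_pos (mem_range.2 ha)]
    rw [Finset.sum_congr rfl e2, Finset.sum_const, card_range, nsmul_eq_mul]
    push_cast
    ring
  have h4 : ∑ u ∈ range (4 * D), ‖∑ a ∈ range D, ee (a * ((u : ℝ) / (4 * D : ℕ)))‖ ^ 2
      = ((4 * D : ℕ) : ℝ) * D := by exact_mod_cast h3
  rw [h4]
  linarith

/-! ### The inequality -/

variable {d : ℕ} {ι : Type*}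

lemma deriv_bound (s : Finset ι) (c : ι → ℂ) (κ : ι → Fin d → ℤ) (i : Fin d) (D : ℕ) (hD : 0 < D)
    (hκ : ∀ j ∈ s, |κ j i| ≤ D) (M : ℝ)
    (hM : ∀ x, ‖∑ j ∈ s, c j * ex (κ j) x‖ ≤ M) (x : Fin d → ℝ) :
    ‖∑ j ∈ s, c j * (κ j i : ℂ) * ex (κ j) x‖ ≤ 2 * D * M := by
  have hA : (0 : ℝ) < (4 * D : ℕ) := by positivity
  have h1 : ((4 * D : ℕ) : ℂ) * ∑ j ∈ s, c j * (κ j i : ℂ) * ex (κ j) x
      = ∑ u ∈ range (4 * D), (∑ j ∈ s, c j * ex (κ j) (x - Pi.single i ((u : ℝ) / (4 * D : ℕ))))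
        * bk D ((u : ℝ) / (4 * D : ℕ)) := by
    have e1 : ∀ j, ∀ u : ℕ, ex (κ j) (x - Pi.single i ((u : ℝ) / (4 * D : ℕ)))
        = ex (κ j) x * ee (-(κ j i * ((u : ℝ) / (4 * D : ℕ)))) := by
      intro j u
      rw [ex_sub]
      congr 1
      unfold ex
      congr 1
      rw [Finset.sum_eq_single i]
      · simp
      · intro b _ hb
        simp [hb]
      · simp
    rw [Finset.mul_sum]
    have e2 : ∀ j ∈ s, ((4 * D : ℕ) : ℂ) * (c j * (κ j i : ℂ) * ex (κ j) x)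
        = ∑ u ∈ range (4 * D), c j * ex (κ j) (x - Pi.single i ((u : ℝ) / (4 * D : ℕ)))
          * bk D ((u : ℝ) / (4 * D : ℕ)) := by
      intro j hj
      have h2 := bk_coeff D hD (κ j i) (hκ j hj)
      calc ((4 * D : ℕ) : ℂ) * (c j * (κ j i : ℂ) * ex (κ j) x)
          = c j * ex (κ j) x * (((4 * D : ℕ) : ℂ) * (κ j i : ℂ)) := by ring
        _ = _ := by
          rw [← h2, Finset.mul_sum]
          refine Finset.sum_congr rfl (fun u _ => ?_)
          rw [e1]
          ring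
    rw [Finset.sum_congr rfl e2, Finset.sum_comm]
    refine Finset.sum_congr rfl (fun u _ => ?_)
    rw [Finset.sum_mul]
  have h2 : ((4 * D : ℕ) : ℝ) * ‖∑ j ∈ s, c j * (κ j i : ℂ) * ex (κ j) x‖
      ≤ ((4 * D : ℕ) : ℝ) * (2 * D * M) := by
    have e3 : ((4 * D : ℕ) : ℝ) * ‖∑ j ∈ s, c j * (κ j i : ℂ) * ex (κ j) x‖
        = ‖((4 * D : ℕ) : ℂ) * ∑ j ∈ s, c j * (κ j i : ℂ) * ex (κ j) x‖ := by
      rw [norm_mul, Complex.norm_natCast]
    rw [e3, h1]
    refine (norm_sum_le _ _).trans ?_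
    have hM0 : 0 ≤ M := (norm_nonneg _).trans (hM x)
    calc ∑ u ∈ range (4 * D), ‖(∑ j ∈ s, c j * ex (κ j) (x - Pi.single i ((u : ℝ) / (4 * D : ℕ))))
          * bk D ((u : ℝ) / (4 * D : ℕ))‖
        ≤ ∑ u ∈ range (4 * D), M * ‖bk D ((u : ℝ) / (4 * D : ℕ))‖ := by
          refine Finset.sum_le_sum (fun u _ => ?_)
          rw [norm_mul]
          exact mul_le_mul_of_nonneg_right (hM _) (norm_nonneg _)
      _ = M * ∑ u ∈ range (4 * D), ‖bk D ((u : ℝ) / (4 * D : ℕ))‖ := by rw [Finset.mul_sum]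
      _ ≤ M * ((4 * D : ℕ) * (2 * D)) := mul_le_mul_of_nonneg_left (bk_norm D hD) hM0
      _ = _ := by ring
  exact le_of_mul_le_mul_left h2 hA

theorem bernstein (s : Finset ι) (c : ι → ℂ) (κ : ι → Fin d → ℤ) (D : Fin d → ℕ)
    (hD : ∀ i, 0 < D i) (hκ : ∀ j ∈ s, ∀ i, |κ j i| ≤ D i) (M : ℝ)
    (hM : ∀ x, ‖∑ j ∈ s, c j * ex (κ j) x‖ ≤ M) (x y : Fin d → ℝ) :
    ‖∑ j ∈ s, c j * ex (κ j) y - ∑ j ∈ s, c j * ex (κ j) x‖
      ≤ ∑ i, 13 * D i * |y i - x i| * M := by
  set φ : ℝ → ℂ := fun τ => ∑ j ∈ s, c j * ex (κ j) (x + τ • (y - x)) with hφ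
  have hder : ∀ τ : ℝ, HasDerivAt φ (∑ j ∈ s, c j * (ex (κ j) (x + τ • (y - x))
      * (2 * Real.pi * Complex.I * ∑ i, (κ j i : ℂ) * ((y i - x i : ℝ) : ℂ)))) τ := by
    intro τ
    refine HasDerivAt.fun_sum (fun j _ => ?_)
    refine HasDerivAt.const_mul _ ?_
    have h1 : ∀ τ : ℝ, ex (κ j) (x + τ • (y - x)) = Complex.exp (2 * Real.pi * Complex.I *
        (∑ i, (κ j i : ℂ) * (x i : ℂ) + (τ : ℂ) * ∑ i, (κ j i : ℂ) * ((y i - x i : ℝ) : ℂ))) := by
      intro τ
      unfold ex ee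
      congr 1
      rw [Finset.mul_sum, ← Finset.sum_add_distrib]
      push_cast
      rw [Finset.mul_sum, Finset.sum_mul, Finset.mul_sum]
      refine Finset.sum_congr rfl (fun i _ => ?_)
      simp only [Pi.add_apply, Pi.smul_apply, Pi.sub_apply, smul_eq_mul]
      push_cast
      ring
    have h2 : (fun τ : ℝ => ex (κ j) (x + τ • (y - x))) = fun τ : ℝ =>
        Complex.exp (2 * Real.pi * Complex.I *
        (∑ i, (κ j i : ℂ) * (x i : ℂ) + (τ : ℂ) * ∑ i, (κ j i : ℂ) * ((y i - x i : ℝ) : ℂ))) := by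
      funext τ
      exact h1 τ
    rw [h2, h1 τ]
    refine HasDerivAt.cexp ?_
    refine HasDerivAt.const_mul _ ?_
    have h3 : HasDerivAt (fun τ : ℝ => (τ : ℂ) * ∑ i, (κ j i : ℂ) * ((y i - x i : ℝ) : ℂ))
        (1 * ∑ i, (κ j i : ℂ) * ((y i - x i : ℝ) : ℂ)) τ :=
      HasDerivAt.mul_const (HasDerivAt.ofReal_comp (hasDerivAt_id τ)) _
    rw [one_mul] at h3
    exact HasDerivAt.const_add _ h3
  have hbound : ∀ τ : ℝ, ‖∑ j ∈ s, c j * (ex (κ j) (x + τ • (y - x))
      * (2 * Real.pi * Complex.I * ∑ i, (κ j i : ℂ) * ((y i - x i : ℝ) : ℂ)))‖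
      ≤ ∑ i, 13 * D i * |y i - x i| * M := by
    intro τ
    have h4 : ∑ j ∈ s, c j * (ex (κ j) (x + τ • (y - x))
      * (2 * Real.pi * Complex.I * ∑ i, (κ j i : ℂ) * ((y i - x i : ℝ) : ℂ)))
      = 2 * Real.pi * Complex.I * ∑ i, ((y i - x i : ℝ) : ℂ) *
        ∑ j ∈ s, c j * (κ j i : ℂ) * ex (κ j) (x + τ • (y - x)) := by
      simp only [Finset.mul_sum]
      rw [Finset.sum_comm]
      refine Finset.sum_congr rfl (fun i _ => Finset.sum_congr rfl (fun j _ => ?_))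
      ring
    rw [h4, norm_mul]
    have h5 : ‖(2 * Real.pi * Complex.I : ℂ)‖ = 2 * Real.pi := by
      rw [norm_mul, Complex.norm_I, mul_one]
      have : (2 * Real.pi : ℂ) = ((2 * Real.pi : ℝ) : ℂ) := by push_cast; rfl
      rw [this, Complex.norm_real, Real.norm_eq_abs, abs_of_pos (by positivity)]
    rw [h5]
    have hM0 : 0 ≤ M := (norm_nonneg _).trans (hM x)
    have h6 : ‖∑ i, ((y i - x i : ℝ) : ℂ) *
        ∑ j ∈ s, c j * (κ j i : ℂ) * ex (κ j) (x + τ • (y - x))‖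
        ≤ ∑ i, |y i - x i| * (2 * D i * M) := by
      refine (norm_sum_le _ _).trans (Finset.sum_le_sum (fun i _ => ?_))
      rw [norm_mul, Complex.norm_real, Real.norm_eq_abs]
      refine mul_le_mul_of_nonneg_left ?_ (abs_nonneg _)
      exact deriv_bound s c κ i (D i) (hD i) (fun j hj => hκ j hj i) M hM _
    have h7 : (0 : ℝ) ≤ ∑ i, |y i - x i| * (2 * D i * M) :=
      Finset.sum_nonneg (fun i _ => by positivity)
    have h8 : 2 * Real.pi ≤ 13 / 2 := by
      have := Real.pi_lt_d2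
      linarith
    calc 2 * Real.pi * ‖∑ i, ((y i - x i : ℝ) : ℂ) *
        ∑ j ∈ s, c j * (κ j i : ℂ) * ex (κ j) (x + τ • (y - x))‖
        ≤ (13 / 2) * ∑ i, |y i - x i| * (2 * D i * M) := by
          refine mul_le_mul h8 h6 (norm_nonneg _) (by norm_num)
      _ = ∑ i, 13 * D i * |y i - x i| * M := by
          rw [Finset.mul_sum]
          refine Finset.sum_congr rfl (fun i _ => ?_)
          ring
  have h9 := norm_image_sub_le_of_norm_deriv_le_segment_01' (f := φ)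
    (f' := fun τ => ∑ j ∈ s, c j * (ex (κ j) (x + τ • (y - x))
      * (2 * Real.pi * Complex.I * ∑ i, (κ j i : ℂ) * ((y i - x i : ℝ) : ℂ))))
    (C := ∑ i, 13 * D i * |y i - x i| * M)
    (fun τ _ => (hder τ).hasDerivWithinAt) (fun τ _ => hbound τ)
  simp only [hφ, one_smul, zero_smul, add_zero, add_sub_cancel] at h9
  exact h9

end

end Pool.Agent.H75.UB
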