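import Pool.Agent.H75.UB.Win

set_option autoImplicit false
set_option linter.unusedSectionVars false

/-! One dyadic block: cells, frequencies, counting and the Bessel inequality. -/

open Finset ComplexConjugate

open scoped Classical

namespace Pool.Agent.H75.UB

open Pool.Agent.H75.MT

noncomputable section

variable {d : ℕ}

/-- sides of the sampling grid of the block `s` -/
def NN (s : Fin d → ℕ) (i : Fin d) : ℕ := 2 ^ (s i + 2)

lemma NN_pos (s : Fin d → ℕ) (i : Fin d) : 0 < NN s i := by unfold NN; positivity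

/-- size of the sampling grid of the block `s` -/
def NT (s : Fin d → ℕ) : ℕ := ∏ i, NN s i

lemma NT_pos (s : Fin d → ℕ) : 0 < NT s := Finset.prod_pos (fun i _ => NN_pos s i)

/-- the box of frequencies of the block `s` -/
def Box (s : Fin d → ℕ) : Finset (Fin d → ℤ) :=
  Fintype.piFinset (fun i => Finset.Ioo (-(2 ^ (s i) : ℤ)) (2 ^ (s i)))

lemma mem_Box {s : Fin d → ℕ} {k : Fin d → ℤ} :
    k ∈ Box s ↔ ∀ i, -(2 ^ (s i) : ℤ) < k i ∧ k i < 2 ^ (s i) := by
  unfold Box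
  rw [Fintype.mem_piFinset]
  simp only [mem_Ioo]

/-- the cells -/
def KK (s : Fin d → ℕ) (i0 : Fin d) (J m : ℕ) : Finset (Fin d → ℤ) :=
  Fintype.piFinset (fun i => if i = i0 then
    Finset.Ico (-(2 ^ (s i0 - J) : ℤ) - m) (2 ^ (s i0 - J))
    else Finset.Ioo (-(2 ^ (s i) : ℤ)) (2 ^ (s i)))

lemma mem_KK {s : Fin d → ℕ} {i0 : Fin d} {J m : ℕ} {C : Fin d → ℤ} :
    C ∈ KK s i0 J m ↔ (-(2 ^ (s i0 - J) : ℤ) - m ≤ C i0 ∧ C i0 < 2 ^ (s i0 - J)) ∧
      ∀ i, i ≠ i0 → -(2 ^ (s i) : ℤ) < C i ∧ C i < 2 ^ (s i) := by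
  unfold KK
  rw [Fintype.mem_piFinset]
  constructor
  · intro h
    refine ⟨?_, ?_⟩
    · have := h i0
      rw [if_pos rfl, mem_Ico] at this
      exact this
    · intro i hi
      have := h i
      rw [if_neg hi, mem_Ioo] at this
      exact this
  · rintro ⟨h1, h2⟩ i
    by_cases hi : i = i0
    · rw [if_pos hi, mem_Ico, hi]
      exact h1
    · rw [if_neg hi, mem_Ioo]
      exact h2 i hi

/-- the frequency with cell `C` and offset `y` -/
def fr (i0 : Fin d) (J : ℕ) (C : Fin d → ℤ) (y : ℤ) : Fin d → ℤ :=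
  Function.update C i0 ((2 ^ J : ℕ) * C i0 + y)

lemma fr_self (i0 : Fin d) (J : ℕ) (C : Fin d → ℤ) (y : ℤ) :
    fr i0 J C y i0 = (2 ^ J : ℕ) * C i0 + y := by
  unfold fr
  rw [Function.update_self]

lemma fr_ne (i0 : Fin d) (J : ℕ) (C : Fin d → ℤ) (y : ℤ) {i : Fin d} (hi : i ≠ i0) :
    fr i0 J C y i = C i := by
  unfold fr
  rw [Function.update_of_ne hi]

lemma ex_fr (i0 : Fin d) (J : ℕ) (C : Fin d → ℤ) (y : ℤ) (t : Fin d → ℝ) :
    ex (fr i0 J C y) t = ex (fr i0 J C 0) t * ee (y * t i0) := by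
  unfold ex
  rw [← ee_add]
  congr 1
  rw [← Finset.add_sum_erase univ _ (mem_univ i0),
    ← Finset.add_sum_erase univ (fun i => ((fr i0 J C 0 i : ℤ) : ℝ) * t i) (mem_univ i0),
    fr_self, fr_self]
  have : ∑ i ∈ univ.erase i0, ((fr i0 J C y i : ℤ) : ℝ) * t i
      = ∑ i ∈ univ.erase i0, ((fr i0 J C 0 i : ℤ) : ℝ) * t i := by
    refine Finset.sum_congr rfl (fun i hi => ?_)
    rw [fr_ne _ _ _ _ (Finset.ne_of_mem_erase hi), fr_ne _ _ _ _ (Finset.ne_of_mem_erase hi)]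
  rw [this]
  push_cast
  ring

/-- the big box -/
def RR (s : Fin d → ℕ) (i0 : Fin d) (J m : ℕ) : Finset (Fin d → ℤ) :=
  Fintype.piFinset (fun i => if i = i0 then
    Finset.Ico (-(2 ^ (s i0) : ℤ) - m * 2 ^ J) (2 ^ (s i0) + m * 2 ^ J)
    else Finset.Ioo (-(2 ^ (s i) : ℤ)) (2 ^ (s i)))

lemma mem_RR {s : Fin d → ℕ} {i0 : Fin d} {J m : ℕ} {C : Fin d → ℤ} :
    C ∈ RR s i0 J m ↔ (-(2 ^ (s i0) : ℤ) - m * 2 ^ J ≤ C i0 ∧ C i0 < 2 ^ (s i0) + m * 2 ^ J) ∧
      ∀ i, i ≠ i0 → -(2 ^ (s i) : ℤ) < C i ∧ C i < 2 ^ (s i) := by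
  unfold RR
  rw [Fintype.mem_piFinset]
  constructor
  · intro h
    refine ⟨?_, ?_⟩
    · have := h i0
      rw [if_pos rfl, mem_Ico] at this
      exact this
    · intro i hi
      have := h i
      rw [if_neg hi, mem_Ioo] at this
      exact this
  · rintro ⟨h1, h2⟩ i
    by_cases hi : i = i0
    · rw [if_pos hi, mem_Ico, hi]
      exact h1
    · rw [if_neg hi, mem_Ioo]
      exact h2 i hi

lemma fr_mem_RR {s : Fin d → ℕ} {i0 : Fin d} {J m : ℕ} (hJ : J ≤ s i0) {C : Fin d → ℤ}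
    (hC : C ∈ KK s i0 J m) (u : Fin (m + 1) → Fin (2 ^ J)) :
    fr i0 J C (tot u) ∈ RR s i0 J m := by
  rw [mem_KK] at hC
  rw [mem_RR]
  refine ⟨?_, ?_⟩
  · rw [fr_self]
    have h1 := tot_le (by positivity) u
    have h2 : (2 : ℤ) ^ (s i0) = 2 ^ J * 2 ^ (s i0 - J) := by
      rw [← pow_add, Nat.add_sub_cancel' hJ]
    have h3 : ((tot u : ℕ) : ℤ) ≤ (m + 1) * (2 ^ J - 1) := by
      have h4 : 1 ≤ 2 ^ J := Nat.one_le_two_pow
      have h5 : ((tot u : ℕ) : ℤ) ≤ (((m + 1) * (2 ^ J - 1) : ℕ) : ℤ) := by exact_mod_cast h1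
      rw [Nat.cast_mul, Nat.cast_sub h4] at h5
      push_cast at h5
      exact h5
    have h0 : (0 : ℤ) ≤ ((tot u : ℕ) : ℤ) := by positivity
    have hq : (0 : ℤ) < 2 ^ J := by positivity
    have hm : (0 : ℤ) ≤ (m : ℤ) := by positivity
    obtain ⟨⟨c1, c2⟩, _⟩ := hC
    push_cast
    constructor
    · nlinarith
    · have c3 : C i0 ≤ 2 ^ (s i0 - J) - 1 := by omega
      nlinarith
  · intro i hi
    rw [fr_ne _ _ _ _ hi]
    exact hC.2 i hi

/-- the multiplicity of a frequency of the box -/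
lemma mult_one {s : Fin d → ℕ} {i0 : Fin d} {J m : ℕ} (hJ : J ≤ s i0) {k : Fin d → ℤ}
    (hk : k ∈ Box s) :
    ∑ C ∈ KK s i0 J m, ∑ u : Fin (m + 1) → Fin (2 ^ J),
      (if fr i0 J C (tot u) = k then 1 else 0 : ℕ) = (2 ^ J) ^ m := by
  rw [mem_Box] at hk
  have h2 : (2 : ℤ) ^ (s i0) = 2 ^ J * 2 ^ (s i0 - J) := by
    rw [← pow_add, Nat.add_sub_cancel' hJ]
  have ht := tile m (2 ^ J) (by positivity) (-(2 ^ (s i0 - J) : ℤ) - m) (2 ^ (s i0 - J)) (k i0)
    (by
      have := (hk i0).1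
      push_cast
      nlinarith)
    (by
      have := (hk i0).2
      push_cast
      rw [← h2]
      exact this)
  rw [← ht]
  symm
  have hinj : Function.Injective (fun w : ℤ => Function.update k i0 w) :=
    Function.update_injective k i0
  have e1 : ∑ w ∈ Finset.Ico (-(2 ^ (s i0 - J) : ℤ) - m) (2 ^ (s i0 - J)),
      ∑ u : Fin (m + 1) → Fin (2 ^ J), (if ((2 ^ J : ℕ) : ℤ) * w + tot u = k i0 then 1 else 0 : ℕ)
      = ∑ C ∈ (Finset.Ico (-(2 ^ (s i0 - J) : ℤ) - m) (2 ^ (s i0 - J))).map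
        ⟨fun w : ℤ => Function.update k i0 w, hinj⟩,
        ∑ u : Fin (m + 1) → Fin (2 ^ J), (if fr i0 J C (tot u) = k then 1 else 0 : ℕ) := by
    rw [Finset.sum_map]
    refine Finset.sum_congr rfl (fun w _ => Finset.sum_congr rfl (fun u _ => ?_))
    simp only [Function.Embedding.coeFn_mk]
    congr 1
    simp only [eq_iff_iff]
    constructor
    · intro h
      funext i
      by_cases hi : i = i0
      · rw [hi, fr_self, Function.update_self]
        exact h
      · rw [fr_ne _ _ _ _ hi, Function.update_of_ne hi]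
    · intro h
      have := congrFun h i0
      rw [fr_self, Function.update_self] at this
      exact this
  rw [e1]
  refine Finset.sum_subset ?_ ?_
  · intro C hC
    rw [mem_map] at hC
    obtain ⟨w, hw, rfl⟩ := hC
    rw [mem_Ico] at hw
    simp only [Function.Embedding.coeFn_mk]
    rw [mem_KK]
    refine ⟨?_, ?_⟩
    · rw [Function.update_self]
      exact hw
    · intro i hi
      rw [Function.update_of_ne hi]
      exact hk i
  · intro C hC hnot
    refine Finset.sum_eq_zero (fun u _ => ?_)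
    rw [if_neg]
    intro h
    apply hnot
    rw [mem_map]
    rw [mem_KK] at hC
    refine ⟨C i0, mem_Ico.2 hC.1, ?_⟩
    simp only [Function.Embedding.coeFn_mk]
    funext i
    by_cases hi : i = i0
    · rw [hi, Function.update_self]
    · rw [Function.update_of_ne hi, ← h, fr_ne _ _ _ _ hi]

/-! ### cardinalities -/

lemma prod_split (i0 : Fin d) (f : Fin d → ℕ) (c : ℕ) :
    ∏ i, (if i = i0 then c else f i) = c * ∏ i ∈ univ.erase i0, f i := by
  rw [← Finset.mul_prod_erase univ _ (mem_univ i0), if_pos rfl]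
  congr 1
  exact Finset.prod_congr rfl (fun i hi => if_neg (Finset.ne_of_mem_erase hi))

lemma ioo_card (n : ℕ) : #(Finset.Ioo (-(2 ^ n : ℤ)) (2 ^ n)) = 2 ^ (n + 1) - 1 := by
  rw [Int.card_Ioo]
  have : (2 : ℤ) ^ (n + 1) = 2 * 2 ^ n := by rw [pow_succ]; ring
  have h2 : (1 : ℕ) ≤ 2 ^ (n + 1) := Nat.one_le_two_pow
  have h3 : (((2 ^ (n + 1) - 1 : ℕ)) : ℤ) = 2 * 2 ^ n - 1 := by
    rw [Nat.cast_sub h2]
    push_cast
    rw [this]
  omega

lemma prod_pow_erase (s : Fin d → ℕ) (i0 : Fin d) :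
    2 ^ (s i0) * ∏ i ∈ univ.erase i0, 2 ^ (s i) = 2 ^ (∑ i, s i) := by
  rw [Finset.mul_prod_erase univ (fun i => 2 ^ (s i)) (mem_univ i0), Finset.prod_pow_eq_pow_sum]

lemma erase_card (i0 : Fin d) : #(univ.erase i0 : Finset (Fin d)) = d - 1 := by
  rw [Finset.card_erase_of_mem (mem_univ i0), Finset.card_univ, Fintype.card_fin]

lemma KK_card (s : Fin d → ℕ) (i0 : Fin d) (J m : ℕ) :
    #(KK s i0 J m) = (2 ^ (s i0 - J + 1) + m) * ∏ i ∈ univ.erase i0, (2 ^ (s i + 1) - 1) := by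
  unfold KK
  rw [Fintype.card_piFinset]
  have h1 : ∀ i, #(if i = i0 then Finset.Ico (-(2 ^ (s i0 - J) : ℤ) - m) (2 ^ (s i0 - J))
      else Finset.Ioo (-(2 ^ (s i) : ℤ)) (2 ^ (s i)))
      = if i = i0 then (2 ^ (s i0 - J + 1) + m) else (2 ^ (s i + 1) - 1) := by
    intro i
    split_ifs
    · rw [Int.card_Ico]
      have h3 : ((2 : ℤ) ^ (s i0 - J) - (-(2 ^ (s i0 - J)) - m))
          = ((2 ^ (s i0 - J + 1) + m : ℕ) : ℤ) := by
        push_cast
        rw [pow_succ]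
        ring
      rw [h3, Int.toNat_natCast]
    · exact ioo_card _
  rw [Finset.prod_congr rfl (fun i _ => h1 i)]
  exact prod_split i0 (fun i => 2 ^ (s i + 1) - 1) _

lemma KK_lower (s : Fin d → ℕ) (i0 : Fin d) (J m : ℕ) (hJ : J ≤ s i0) :
    2 ^ (∑ i, s i) ≤ #(KK s i0 J m) * 2 ^ J := by
  rw [KK_card, ← prod_pow_erase s i0]
  have h1 : 2 ^ (s i0) = 2 ^ (s i0 - J) * 2 ^ J := by rw [← pow_add, Nat.sub_add_cancel hJ]
  have h2 : ∏ i ∈ univ.erase i0, 2 ^ (s i) ≤ ∏ i ∈ univ.erase i0, (2 ^ (s i + 1) - 1) := by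
    refine Finset.prod_le_prod' (fun i _ => ?_)
    have : 1 ≤ 2 ^ (s i) := Nat.one_le_two_pow
    rw [pow_succ]
    omega
  rw [h1]
  have h3 : 2 ^ (s i0 - J) ≤ 2 ^ (s i0 - J + 1) + m := by
    rw [pow_succ]
    omega
  calc 2 ^ (s i0 - J) * 2 ^ J * ∏ i ∈ univ.erase i0, 2 ^ (s i)
      = (2 ^ (s i0 - J) * ∏ i ∈ univ.erase i0, 2 ^ (s i)) * 2 ^ J := by ring
    _ ≤ ((2 ^ (s i0 - J + 1) + m) * ∏ i ∈ univ.erase i0, (2 ^ (s i + 1) - 1)) * 2 ^ J :=
        Nat.mul_le_mul_right _ (Nat.mul_le_mul h3 h2)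

lemma prod_upper (s : Fin d → ℕ) (i0 : Fin d) :
    2 ^ (s i0) * ∏ i ∈ univ.erase i0, (2 ^ (s i + 1) - 1) ≤ 2 ^ (∑ i, s i + (d - 1)) := by
  rw [pow_add, ← prod_pow_erase s i0, mul_assoc]
  refine Nat.mul_le_mul_left _ ?_
  have : ∏ i ∈ univ.erase i0, (2 ^ (s i + 1) - 1) ≤ ∏ i ∈ univ.erase i0, (2 ^ (s i) * 2) := by
    refine Finset.prod_le_prod' (fun i _ => ?_)
    rw [pow_succ]
    omega
  refine this.trans (le_of_eq ?_)
  rw [Finset.prod_mul_distrib, Finset.prod_const, erase_card]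

lemma KK_upper (s : Fin d → ℕ) (i0 : Fin d) (J m : ℕ) (hJ : J ≤ s i0)
    (hm : m ≤ 2 ^ (s i0 - J + 1)) :
    #(KK s i0 J m) * 2 ^ J ≤ 2 ^ (∑ i, s i + d + 1) := by
  rw [KK_card]
  have h1 : 2 ^ (s i0) = 2 ^ (s i0 - J) * 2 ^ J := by rw [← pow_add, Nat.sub_add_cancel hJ]
  have h2 := prod_upper s i0
  have hd : 1 ≤ d := by
    have := i0.2
    omega
  calc (2 ^ (s i0 - J + 1) + m) * (∏ i ∈ univ.erase i0, (2 ^ (s i + 1) - 1)) * 2 ^ J
      ≤ (2 ^ (s i0 - J + 1) + 2 ^ (s i0 - J + 1)) * (∏ i ∈ univ.erase i0, (2 ^ (s i + 1) - 1))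
        * 2 ^ J := by gcongr
    _ = 4 * ((2 ^ (s i0)) * (∏ i ∈ univ.erase i0, (2 ^ (s i + 1) - 1))) := by
        rw [h1, pow_succ]
        ring
    _ ≤ 4 * 2 ^ (∑ i, s i + (d - 1)) := Nat.mul_le_mul_left _ h2
    _ = 2 ^ (∑ i, s i + d + 1) := by
        rw [show (4 : ℕ) = 2 ^ 2 by norm_num, ← pow_add]
        congr 1
        omega

/-- the thin set of additional frequencies -/
def Thin (s : Fin d → ℕ) (i0 : Fin d) (J m : ℕ) : Finset (Fin d → ℤ) := RR s i0 J m \ Box s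

lemma Thin_card (s : Fin d → ℕ) (i0 : Fin d) (J m : ℕ) :
    #(Thin s i0 J m) * 2 ^ (s i0) ≤ (m + 1) * 2 ^ (∑ i, s i + J + d) := by
  have hsub : Thin s i0 J m ⊆ Fintype.piFinset (fun i => if i = i0 then
      (Finset.Icc (-(2 ^ (s i0) : ℤ) - m * 2 ^ J) (-(2 ^ (s i0) : ℤ))
        ∪ Finset.Ico (2 ^ (s i0) : ℤ) (2 ^ (s i0) + m * 2 ^ J))
      else Finset.Ioo (-(2 ^ (s i) : ℤ)) (2 ^ (s i))) := by
    intro k hk
    unfold Thin at hk
    rw [mem_sdiff, mem_RR, mem_Box] at hk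
    rw [Fintype.mem_piFinset]
    intro i
    by_cases hi : i = i0
    · rw [if_pos hi, mem_union, mem_Icc, mem_Ico, hi]
      by_contra hcon
      apply hk.2
      intro j
      by_cases hj : j = i0
      · rw [hj]
        have := hk.1.1
        omega
      · exact hk.1.2 j hj
    · rw [if_neg hi, mem_Ioo]
      exact hk.1.2 i hi
  have h1 := Finset.card_le_card hsub
  rw [Fintype.card_piFinset] at h1
  have h2 : ∀ i, #(if i = i0 then
      (Finset.Icc (-(2 ^ (s i0) : ℤ) - m * 2 ^ J) (-(2 ^ (s i0) : ℤ))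
        ∪ Finset.Ico (2 ^ (s i0) : ℤ) (2 ^ (s i0) + m * 2 ^ J))
      else Finset.Ioo (-(2 ^ (s i) : ℤ)) (2 ^ (s i)))
      ≤ if i = i0 then ((m + 1) * 2 ^ (J + 1)) else (2 ^ (s i + 1) - 1) := by
    intro i
    split_ifs
    · refine (Finset.card_union_le _ _).trans ?_
      rw [Int.card_Icc, Int.card_Ico]
      have e1 : (-(2 ^ (s i0) : ℤ) + 1 - (-(2 ^ (s i0) : ℤ) - m * 2 ^ J)).toNat = m * 2 ^ J + 1 := by
        have : (-(2 ^ (s i0) : ℤ) + 1 - (-(2 ^ (s i0) : ℤ) - m * 2 ^ J))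
            = ((m * 2 ^ J + 1 : ℕ) : ℤ) := by
          push_cast
          ring
        rw [this, Int.toNat_natCast]
      have e2 : ((2 ^ (s i0) : ℤ) + m * 2 ^ J - 2 ^ (s i0)).toNat = m * 2 ^ J := by
        have : ((2 ^ (s i0) : ℤ) + m * 2 ^ J - 2 ^ (s i0)) = ((m * 2 ^ J : ℕ) : ℤ) := by
          push_cast
          ring
        rw [this, Int.toNat_natCast]
      rw [e1, e2]
      have : 1 ≤ 2 ^ J := Nat.one_le_two_pow
      have h3 : (m + 1) * 2 ^ (J + 1) = 2 * (m * 2 ^ J) + 2 * 2 ^ J := by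
        rw [pow_succ]
        ring
      omega
    · exact (ioo_card _).le
  have h3 := h1.trans (Finset.prod_le_prod' (fun i _ => h2 i))
  rw [prod_split i0 (fun i => 2 ^ (s i + 1) - 1)] at h3
  have h4 := prod_upper s i0
  have hd : 1 ≤ d := by
    have := i0.2
    omega
  calc #(Thin s i0 J m) * 2 ^ (s i0)
      ≤ ((m + 1) * 2 ^ (J + 1) * ∏ i ∈ univ.erase i0, (2 ^ (s i + 1) - 1)) * 2 ^ (s i0) :=
        Nat.mul_le_mul_right _ h3
    _ = ((m + 1) * 2 ^ (J + 1)) * (2 ^ (s i0) * ∏ i ∈ univ.erase i0, (2 ^ (s i + 1) - 1)) := by ring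
    _ ≤ ((m + 1) * 2 ^ (J + 1)) * 2 ^ (∑ i, s i + (d - 1)) := Nat.mul_le_mul_left _ h4
    _ = (m + 1) * 2 ^ (∑ i, s i + J + d) := by
        rw [mul_assoc, ← pow_add]
        congr 2
        omega

lemma NT_eq (s : Fin d → ℕ) : NT s = 2 ^ (∑ i, s i + 2 * d) := by
  unfold NT NN
  rw [Finset.prod_pow_eq_pow_sum, Finset.sum_add_distrib]
  simp [mul_comm]

/-- the number of offsets carrying a non zero weight -/
lemma offset_card (J g m b : ℕ) (hb : Odd b) (hJ : 1 ≤ J) (α : ℕ) :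
    #((Finset.range ((m + 1) * 2 ^ J)).filter
      (fun y : ℕ => psi (2 ^ J) (2 ^ (J - g)) (m + 1) (b * (y : ℤ) + α) ≠ 0))
      ≤ (m + 1) * ((m + 1) * 2 ^ (J - g)) := by
  set q := 2 ^ J with hq
  set V := 2 ^ (J - g) with hV
  have hq0 : 0 < q := by positivity
  have hV0 : 0 < V := by positivity
  have h2q : 2 ∣ q := dvd_pow_self 2 (by omega)
  have hex : ∀ y : ℕ, psi q V (m + 1) (b * (y : ℤ) + α) ≠ 0 →
      ∃ v : Fin (m + 1) → Fin V, (q : ℤ) ∣ (b * (y : ℤ) + α - tot v) :=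
    fun y h => psi_supp q V (m + 1) hq0 h2q _ h
  set F : ℕ → ℕ × ℕ := fun y => if h : psi q V (m + 1) (b * (y : ℤ) + α) ≠ 0 then
    (y / q, tot (hex y h).choose) else (0, 0) with hF
  have h1 : #((Finset.range ((m + 1) * q)).filter
      (fun y : ℕ => psi q V (m + 1) (b * (y : ℤ) + α) ≠ 0))
      ≤ #(Finset.range (m + 1) ×ˢ Finset.range ((m + 1) * V)) := by
    refine Finset.card_le_card_of_injOn F ?_ ?_
    · intro y hy
      simp only [coe_filter, Set.mem_ofPred_eq, mem_range] at hy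
      simp only [hF, dif_pos hy.2, coe_product, coe_range, Set.mem_prod, Set.mem_Iio]
      constructor
      · exact Nat.div_lt_of_lt_mul (by rw [mul_comm]; exact hy.1)
      · have h2 := tot_le hV0 (hex y hy.2).choose
        have h3 : (m + 1) * (V - 1) < (m + 1) * V := by
          refine Nat.mul_lt_mul_of_pos_left ?_ (by omega)
          omega
        omega
    · intro y hy y' hy' h
      simp only [coe_filter, Set.mem_ofPred_eq, mem_range] at hy hy'
      simp only [hF, dif_pos hy.2, dif_pos hy'.2, Prod.mk.injEq] at h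
      have c1 := (hex y hy.2).choose_spec
      have c2 := (hex y' hy'.2).choose_spec
      rw [h.2] at c1
      have c3 := dvd_sub c1 c2
      have c4 : (b * (y : ℤ) + α - tot (hex y' hy'.2).choose)
          - (b * (y' : ℤ) + α - tot (hex y' hy'.2).choose) = b * ((y : ℤ) - y') := by ring
      rw [c4] at c3
      have hcop : IsCoprime (q : ℤ) (b : ℤ) := by
        rw [Nat.isCoprime_iff_coprime, hq]
        exact Nat.Coprime.pow_left _ (Nat.coprime_two_left.2 hb)
      have c5 := hcop.dvd_of_dvd_mul_left c3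
      have c6 : y % q = y' % q := by
        have : (y : ℤ) % q = (y' : ℤ) % q := by
          rw [Int.emod_eq_emod_iff_emod_sub_eq_zero]
          exact Int.emod_eq_zero_of_dvd c5
        exact_mod_cast this
      have e1 := Nat.div_add_mod y q
      have e2 := Nat.div_add_mod y' q
      rw [← e1, ← e2, h.1, c6]
  rw [Finset.card_product, Finset.card_range, Finset.card_range] at h1
  exact h1

/-! ### the Bessel inequality of a block -/

/-- moduli of the cells -/
def AA (s : Fin d → ℕ) (i0 : Fin d) (J : ℕ) (i : Fin d) : ℕ :=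
  if i = i0 then 2 ^ (s i0 + 2 - J) else NN s i

lemma AA_pos (s : Fin d → ℕ) (i0 : Fin d) (J : ℕ) (i : Fin d) : 0 < AA s i0 J i := by
  unfold AA
  split_ifs
  · positivity
  · exact NN_pos s i

lemma AA_prod (s : Fin d → ℕ) (i0 : Fin d) (J : ℕ) (hJ : J ≤ s i0) :
    2 ^ J * ∏ i, AA s i0 J i = NT s := by
  unfold NT AA
  rw [prod_split i0 (NN s), ← mul_assoc, ← Finset.mul_prod_erase univ _ (mem_univ i0)]
  congr 1
  unfold NN
  rw [← pow_add]
  congr 1
  omega

lemma ex_cell (s : Fin d → ℕ) (i0 : Fin d) (J : ℕ) (hJ : J ≤ s i0) (C : Fin d → ℤ)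
    (ζ : Fin d → ℕ) :
    ex (fr i0 J C 0) (-gp (NN s) ζ) = ee (-∑ i, (C i : ℝ) * ζ i / AA s i0 J i) := by
  unfold ex
  congr 1
  rw [← Finset.sum_neg_distrib]
  refine Finset.sum_congr rfl (fun i _ => ?_)
  simp only [Pi.neg_apply, gp]
  by_cases hi : i = i0
  · rw [hi, fr_self]
    unfold AA NN
    rw [if_pos rfl]
    have h1 : (2 : ℝ) ^ (s i0 + 2) = 2 ^ J * 2 ^ (s i0 + 2 - J) := by
      rw [← pow_add]
      congr 1
      omega
    push_cast
    rw [h1]
    field_simp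
    ring
  · rw [fr_ne _ _ _ _ hi]
    unfold AA
    rw [if_neg hi]
    ring

lemma ee_prod {ι : Type*} (S : Finset ι) (f : ι → ℝ) : ee (∑ i ∈ S, f i) = ∏ i ∈ S, ee (f i) := by
  induction S using Finset.induction_on with
  | empty => simp [ee_zero]
  | insert a S ha ih => rw [Finset.sum_insert ha, Finset.prod_insert ha, ee_add, ih]

lemma bessel_block (s : Fin d → ℕ) (i0 : Fin d) (J m : ℕ) (hJ : J ≤ s i0)
    (hm : m ≤ 2 ^ (s i0 - J + 1)) (S : Finset (Fin d → ℕ)) (hS : ∀ ζ ∈ S, ∀ i, ζ i < NN s i)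
    (t : ℝ) (hnear : ∀ ζ ∈ S, near (t - (ζ i0 : ℝ) / NN s i0) (1 / 2 ^ J)) (c : (Fin d → ℕ) → ℂ) :
    ∑ C ∈ KK s i0 J m, ‖∑ ζ ∈ S, c ζ * ex (fr i0 J C 0) (-gp (NN s) ζ)‖ ^ 2
      ≤ (∏ i, AA s i0 J i : ℕ) * 3 * ∑ ζ ∈ S, ‖c ζ‖ ^ 2 := by
  set A := AA s i0 J with hA
  have hApos : ∀ i, 0 < A i := AA_pos s i0 J
  set R : (Fin d → ℕ) → (Fin d → ℕ) → Prop := fun ζ ζ' => ∀ i, (A i : ℤ) ∣ ((ζ i : ℤ) - ζ' i) with hR
  set χ : (Fin d → ℕ) → ((i : Fin d) → Fin (A i)) → ℂ := fun ζ y =>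
    ee (-∑ i, ((y i : ℕ) : ℝ) * ζ i / A i) with hχ
  have hb := bessel χ S R ((∏ i, A i : ℕ) : ℝ) (by positivity) 3 ?_ ?_ ?_ c
  · refine le_trans ?_ (hb.trans (le_of_eq (by push_cast; ring)))
    -- the cells inject into the complete system
    set red : (Fin d → ℤ) → ((i : Fin d) → Fin (A i)) := fun C i =>
      ⟨(C i % (A i : ℤ)).toNat, by
        have h1 := Int.emod_lt_of_pos (C i) (by exact_mod_cast hApos i : (0 : ℤ) < A i)
        have h2 := Int.emod_nonneg (C i) (by exact_mod_cast (hApos i).ne' : (A i : ℤ) ≠ 0)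
        omega⟩ with hred
    have hval : ∀ C : Fin d → ℤ, ∀ ζ : Fin d → ℕ, ex (fr i0 J C 0) (-gp (NN s) ζ) = χ ζ (red C) := by
      intro C ζ
      rw [ex_cell s i0 J hJ, ← hA, hχ]
      simp only
      rw [← Finset.sum_neg_distrib, ← Finset.sum_neg_distrib, ee_prod, ee_prod]
      refine Finset.prod_congr rfl (fun i _ => ?_)
      have h2 := Int.emod_nonneg (C i) (by exact_mod_cast (hApos i).ne' : (A i : ℤ) ≠ 0)
      have h3 : (((C i % (A i : ℤ)).toNat : ℕ) : ℝ) = ((C i % (A i : ℤ) : ℤ) : ℝ) := by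
        have : (((C i % (A i : ℤ)).toNat : ℕ) : ℤ) = C i % (A i : ℤ) := Int.toNat_of_nonneg h2
        exact_mod_cast congrArg (fun z : ℤ => (z : ℝ)) this
      have h4 : (C i : ℝ) = ((A i : ℤ) : ℝ) * ((C i / (A i : ℤ) : ℤ) : ℝ) + ((C i % (A i : ℤ) : ℤ) : ℝ) := by
        exact_mod_cast congrArg (fun z : ℤ => (z : ℝ)) (Int.mul_ediv_add_emod (C i) (A i)).symm
      have hAr : (A i : ℝ) ≠ 0 := by exact_mod_cast (hApos i).ne'
      have h5 : -((C i : ℝ) * ζ i / A i) = -((((C i % (A i : ℤ)).toNat : ℕ) : ℝ) * ζ i / A i)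
          + ((-((C i / (A i : ℤ)) * ζ i) : ℤ) : ℝ) := by
        rw [h3, h4]
        rw [Int.cast_natCast]
        simp only [Int.cast_neg, Int.cast_mul, Int.cast_natCast]
        field_simp
        ring
      rw [h5, ee_add, ee_int, mul_one]
    have e1 : ∀ C ∈ KK s i0 J m, ‖∑ ζ ∈ S, c ζ * ex (fr i0 J C 0) (-gp (NN s) ζ)‖ ^ 2
        = ‖∑ ζ ∈ S, c ζ * χ ζ (red C)‖ ^ 2 := by
      intro C _
      simp only [hval]
    rw [Finset.sum_congr rfl e1]
    have hinj : Set.InjOn red (KK s i0 J m : Set (Fin d → ℤ)) := by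
      intro C hC C' hC' h
      rw [Finset.mem_coe, mem_KK] at hC hC'
      funext i
      have h1 := congrFun h i
      simp only [hred, Fin.mk.injEq] at h1
      have h2 := Int.emod_nonneg (C i) (by exact_mod_cast (hApos i).ne' : (A i : ℤ) ≠ 0)
      have h3 := Int.emod_nonneg (C' i) (by exact_mod_cast (hApos i).ne' : (A i : ℤ) ≠ 0)
      have h4 : C i % (A i : ℤ) = C' i % (A i : ℤ) := by omega
      have h5 : (A i : ℤ) ∣ C i - C' i :=
        Int.dvd_of_emod_eq_zero (Int.emod_eq_emod_iff_emod_sub_eq_zero.1 h4)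
      have h6 : C i - C' i = 0 := by
        refine Int.eq_zero_of_abs_lt_dvd h5 ?_
        by_cases hi : i = i0
        · subst hi
          have c1 := hC.1
          have c2 := hC'.1
          have c3 : ((A i : ℕ) : ℤ) = 4 * 2 ^ (s i - J) := by
            simp only [hA, AA, if_true]
            push_cast
            rw [show s i + 2 - J = (s i - J) + 2 by omega, pow_add]
            ring
          have c4 : ((m : ℕ) : ℤ) ≤ 2 * 2 ^ (s i - J) := by
            have : ((m : ℕ) : ℤ) ≤ ((2 ^ (s i - J + 1) : ℕ) : ℤ) := by exact_mod_cast hm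
            rw [pow_succ] at this
            push_cast at this
            linarith
          rw [c3, abs_lt]
          constructor <;> linarith [c1.1, c1.2, c2.1, c2.2]
        · have c1 := hC.2 i hi
          have c2 := hC'.2 i hi
          have c3 : ((A i : ℕ) : ℤ) = 4 * 2 ^ (s i) := by
            simp only [hA, AA, if_neg hi, NN]
            push_cast
            rw [pow_add]
            ring
          have c4 : (0 : ℤ) < 2 ^ (s i) := by positivity
          rw [c3, abs_lt]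
          constructor <;> linarith [c1.1, c1.2, c2.1, c2.2]
      omega
    have e2 : ∑ C ∈ KK s i0 J m, ‖∑ ζ ∈ S, c ζ * χ ζ (red C)‖ ^ 2
        = ∑ y ∈ (KK s i0 J m).image red, ‖∑ ζ ∈ S, c ζ * χ ζ y‖ ^ 2 := by
      rw [Finset.sum_image hinj]
    rw [e2]
    exact Finset.sum_le_sum_of_subset_of_nonneg (Finset.subset_univ _)
      (fun y _ _ => by positivity)
  · intro ζ _ ζ' _
    have e1 : ∀ y : (i : Fin d) → Fin (A i), χ ζ y * conj (χ ζ' y)
        = ∏ i, ee (((ζ' i : ℤ) - ζ i : ℤ) * ((y i : ℕ) : ℝ) / A i) := by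
      intro y
      simp only [hχ]
      rw [ee_conj, ← ee_add, ← ee_prod]
      congr 1
      rw [neg_neg, neg_add_eq_sub, ← Finset.sum_sub_distrib]
      refine Finset.sum_congr rfl (fun i _ => ?_)
      push_cast
      ring
    rw [Finset.sum_congr rfl (fun y _ => e1 y)]
    have h2 := Finset.prod_univ_sum (fun i : Fin d => (univ : Finset (Fin (A i))))
      (fun i y => ee (((ζ' i : ℤ) - ζ i : ℤ) * ((y : ℕ) : ℝ) / A i))
    rw [Fintype.piFinset_univ] at h2
    rw [← h2, Finset.prod_congr rfl (fun i _ => sum_ee (A i) (hApos i) ((ζ' i : ℤ) - ζ i))]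
    by_cases hRR : R ζ ζ'
    · rw [if_pos hRR]
      push_cast
      refine Finset.prod_congr rfl (fun i _ => ?_)
      rw [if_pos]
      rw [← dvd_neg, neg_sub]
      exact hRR i
    · rw [if_neg hRR]
      simp only [hR, not_forall] at hRR
      obtain ⟨i, hi⟩ := hRR
      refine Finset.prod_eq_zero (mem_univ i) ?_
      rw [if_neg]
      rw [← dvd_neg, neg_sub]
      exact hi
  · intro ζ ζ'
    simp only [hR]
    refine forall_congr' (fun i => ?_)
    rw [← dvd_neg, neg_sub]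
  · intro ζ hζ
    -- multiplicity
    set q := 2 ^ J with hq
    have hq0 : 0 < q := by positivity
    set A0 := A i0 with hA0
    have hA0' : 0 < A0 := hApos i0
    have hN0 : NN s i0 = q * A0 := by
      simp only [hA0, hA, AA, if_true, NN, hq]
      rw [← pow_add]
      congr 1
      omega
    have hqr : (0 : ℝ) < q := by exact_mod_cast hq0
    have hA0r : (0 : ℝ) < A0 := by exact_mod_cast hA0'
    set r0 : ℕ := ζ i0 % A0 with hr0
    have h1 : #(S.filter (fun ζ' => R ζ ζ')) ≤ #((Finset.range q).filter (fun y : ℕ =>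
        near ((-(t - (r0 : ℝ) / NN s i0)) + (y : ℝ) / q) (1 / 2 ^ J))) := by
      refine Finset.card_le_card_of_injOn (fun ζ' => ζ' i0 / A0) ?_ ?_
      · intro ζ' hζ'
        simp only [coe_filter, Set.mem_ofPred_eq] at hζ'
        simp only [coe_filter, Set.mem_ofPred_eq, mem_range]
        have c1 : ζ' i0 % A0 = r0 := by
          have h5 : (A0 : ℤ) ∣ (ζ i0 : ℤ) - ζ' i0 := hζ'.2 i0
          have h6 : (ζ i0 : ℤ) % A0 = (ζ' i0 : ℤ) % A0 := by
            rw [Int.emod_eq_emod_iff_emod_sub_eq_zero]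
            exact Int.emod_eq_zero_of_dvd h5
          rw [hr0]
          exact_mod_cast h6.symm
        refine ⟨?_, ?_⟩
        · refine Nat.div_lt_of_lt_mul ?_
          have := hS ζ' hζ'.1 i0
          rw [hN0, mul_comm] at this
          exact this
        · have c2 := (hnear ζ' hζ'.1).neg
          have c3 : -(t - (r0 : ℝ) / NN s i0) + ((ζ' i0 / A0 : ℕ) : ℝ) / q
              = -(t - (ζ' i0 : ℝ) / NN s i0) := by
            have c4 : (ζ' i0 : ℝ) = A0 * ((ζ' i0 / A0 : ℕ) : ℝ) + r0 := by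
              have := Nat.div_add_mod (ζ' i0) A0
              rw [c1] at this
              exact_mod_cast this.symm
            rw [hN0, c4]
            push_cast
            field_simp
            ring
          rw [c3]
          exact c2
      · intro ζ1 h1 ζ2 h2 h
        simp only [coe_filter, Set.mem_ofPred_eq] at h1 h2
        simp only at h
        funext i
        have d1 : (A i : ℤ) ∣ (ζ1 i : ℤ) - ζ2 i := by
          have := dvd_sub (h2.2 i) (h1.2 i)
          have e : (ζ i : ℤ) - ζ2 i - ((ζ i : ℤ) - ζ1 i) = (ζ1 i : ℤ) - ζ2 i := by ring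
          rwa [e] at this
        by_cases hi : i = i0
        · subst hi
          have h6 : (ζ1 i : ℤ) % A0 = (ζ2 i : ℤ) % A0 := by
            rw [Int.emod_eq_emod_iff_emod_sub_eq_zero]
            exact Int.emod_eq_zero_of_dvd d1
          have h7 : ζ1 i % A0 = ζ2 i % A0 := by exact_mod_cast h6
          have e1 := Nat.div_add_mod (ζ1 i) A0
          have e2 := Nat.div_add_mod (ζ2 i) A0
          rw [← e1, ← e2, h, h7]
        · have c1 := hS ζ1 h1.1 i
          have c2 := hS ζ2 h2.1 i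
          have c3 : A i = NN s i := by
            simp only [hA, AA, if_neg hi]
          rw [c3] at d1
          have h6 : (ζ1 i : ℤ) - ζ2 i = 0 := by
            refine Int.eq_zero_of_abs_lt_dvd d1 ?_
            rw [abs_lt]
            constructor <;> omega
          omega
    have h2 := arc_count q hq0 (-(t - (r0 : ℝ) / NN s i0)) (1 / 2 ^ J) (by positivity)
    have h3 : 2 * (1 / 2 ^ J) * (q : ℝ) + 1 = 3 := by
      rw [hq]
      push_cast
      field_simp
      norm_num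
    rw [h3] at h2
    have h4 : #((Finset.range q).filter (fun y : ℕ =>
        near ((-(t - (r0 : ℝ) / NN s i0)) + (y : ℝ) / q) (1 / 2 ^ J))) ≤ 3 := by exact_mod_cast h2
    exact h1.trans h4

end

end Pool.Agent.H75.UB
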