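import Pool.Agent.H75.MT.Khin
import Pool.Agent.H75.MT.Num

set_option autoImplicit false
set_option linter.unusedSectionVars false

/-! The entropy method: a colouring of a positive proportion of the points with small
discrepancy. -/

open Finset

namespace Pool.Agent.H75.UB

open Pool.Agent.H75.MT

variable {Y T : Type*} [Fintype Y] [DecidableEq Y] [Fintype T] [DecidableEq T]

lemma geo_Icc (y : ℝ) (h0 : 0 ≤ y) (h1 : 3 * y ≤ 1) (R : ℕ) :
    ∑ b ∈ Finset.Icc (-(R : ℤ)) R, y ^ b.natAbs ≤ 1 + 3 * y - 3 * y ^ (R + 1) := by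
  induction R with
  | zero => simp
  | succ R ih =>
    have e : Finset.Icc (-((R + 1 : ℕ) : ℤ)) ((R + 1 : ℕ) : ℤ)
        = insert (-((R + 1 : ℕ) : ℤ)) (insert ((R + 1 : ℕ) : ℤ) (Finset.Icc (-(R : ℤ)) R)) := by
      ext b
      simp only [mem_Icc, mem_insert]
      push_cast
      omega
    rw [e, Finset.sum_insert, Finset.sum_insert]
    · have h2 : (-((R + 1 : ℕ) : ℤ)).natAbs = R + 1 := by omega
      have h3 : (((R + 1 : ℕ) : ℤ)).natAbs = R + 1 := by omega
      rw [h2, h3]
      have h4 : y ^ (R + 1 + 1) = y * y ^ (R + 1) := by rw [pow_succ, mul_comm]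
      rw [h4]
      have h5 : 0 ≤ y ^ (R + 1) := by positivity
      nlinarith
    · simp only [mem_Icc]
      push_cast
      omega
    · simp only [mem_Icc, mem_insert]
      push_cast
      omega

lemma exp_num (L : ℕ) : Real.exp (-((L : ℝ) + 6) ^ 2 / 2) ≤ (1 / 2) ^ (8 * L + 24) := by
  have h1 : -((L : ℝ) + 6) ^ 2 / 2 ≤ -((L + 3 : ℕ) * 6 : ℝ) := by
    push_cast
    nlinarith [sq_nonneg (L : ℝ)]
  have h2 : Real.exp (-(6 : ℝ)) ≤ 1 / 256 := by
    rw [Real.exp_neg, one_div]
    refine inv_anti₀ (by norm_num) ?_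
    have h3 : Real.exp 6 = (Real.exp 1) ^ 6 := by
      rw [← Real.exp_nat_mul]
      norm_num
    rw [h3]
    have h4 : (2.7 : ℝ) ≤ Real.exp 1 := by
      have := Real.exp_one_gt_d9
      linarith
    calc (256 : ℝ) ≤ 2.7 ^ 6 := by norm_num
      _ ≤ (Real.exp 1) ^ 6 := by gcongr
  calc Real.exp (-((L : ℝ) + 6) ^ 2 / 2) ≤ Real.exp (-((L + 3 : ℕ) * 6 : ℝ)) :=
        Real.exp_le_exp.2 h1
    _ = (Real.exp (-6)) ^ (L + 3) := by
        rw [← Real.exp_nat_mul]
        congr 1
        ring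
    _ ≤ (1 / 256) ^ (L + 3) := by gcongr
    _ = (1 / 2) ^ (8 * L + 24) := by
        rw [show (1 / 256 : ℝ) = (1 / 2) ^ 8 by norm_num, ← pow_mul,
          show 8 * (L + 3) = 8 * L + 24 by ring]

/-- the rounded value -/
noncomputable def rv (v : T → Y → ℝ) (q : ℝ) (s : Finset Y) (t : T) : ℤ :=
  round ((∑ y, sg s y * v t y) / (2 * q))

lemma rv_bound (v : T → Y → ℝ) (lam rho : ℝ) (hl : 1 ≤ lam) (hr : 0 < rho) (s : Finset Y) (t : T) :
    ((rv v (lam * rho) s t).natAbs : ℝ) ≤ Real.exp (-lam ^ 2) *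
      (Real.exp (∑ y, sg s y * (lam / rho * v t y))
        + Real.exp (∑ y, sg s y * (-(lam / rho) * v t y))) := by
  set S := ∑ y, sg s y * v t y with hS
  have e1 : ∑ y, sg s y * (lam / rho * v t y) = lam / rho * S := by
    rw [hS, Finset.mul_sum]
    exact Finset.sum_congr rfl (fun y _ => by ring)
  have e2 : ∑ y, sg s y * (-(lam / rho) * v t y) = -(lam / rho * S) := by
    rw [hS, Finset.mul_sum, ← Finset.sum_neg_distrib]
    exact Finset.sum_congr rfl (fun y _ => by ring)
  rw [e1, e2]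
  have hlr : 0 < lam * rho := by positivity
  set b := rv v (lam * rho) s t with hb
  have hb2 : b = round (S / (2 * (lam * rho))) := rfl
  have hab : ((b.natAbs : ℕ) : ℝ) = |(b : ℝ)| := by
    rw [Nat.cast_natAbs, Int.cast_abs]
  rw [hab]
  have key : |(b : ℝ)| ≤ Real.exp (-lam ^ 2) * Real.exp (|lam / rho * S|) := by
    rw [← Real.exp_add]
    rcases lt_or_ge (|S|) (lam * rho) with h | h
    · have hb0 : b = 0 := by
        rw [hb2, round_eq_zero_iff]
        have h4 := abs_lt.1 h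
        constructor
        · rw [le_div_iff₀ (by positivity)]
          linarith
        · rw [div_lt_iff₀ (by positivity)]
          linarith
      rw [hb0]
      simp only [Int.cast_zero, abs_zero]
      positivity
    · have h1 : |(b : ℝ)| ≤ |S| / (lam * rho) := by
        have h2 := abs_sub_round (S / (2 * (lam * rho)))
        rw [← hb2] at h2
        have h3 : |(b : ℝ)| ≤ |S / (2 * (lam * rho))| + 1 / 2 := by
          have := abs_sub_abs_le_abs_sub (b : ℝ) (S / (2 * (lam * rho)))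
          rw [abs_sub_comm] at this
          linarith
        rw [abs_div, abs_of_pos (by positivity : 0 < 2 * (lam * rho))] at h3
        have h4 : (1 : ℝ) ≤ |S| / (lam * rho) := by
          rw [le_div_iff₀ hlr]
          linarith
        have h5 : |S| / (2 * (lam * rho)) = (|S| / (lam * rho)) / 2 := by
          field_simp
        rw [h5] at h3
        linarith
      refine h1.trans ?_
      have h6 : |lam / rho * S| = lam ^ 2 * (|S| / (lam * rho)) := by
        rw [abs_mul, abs_of_pos (by positivity)]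
        field_simp
      rw [h6]
      set w := |S| / (lam * rho) with hw
      have hw1 : 1 ≤ w := by
        rw [hw, le_div_iff₀ hlr]
        linarith
      have h7 := Real.add_one_le_exp (-lam ^ 2 + lam ^ 2 * w)
      nlinarith [mul_nonneg (by nlinarith : (0 : ℝ) ≤ lam ^ 2 - 1) (sub_nonneg.2 hw1)]
  refine key.trans ?_
  refine mul_le_mul_of_nonneg_left ?_ (Real.exp_pos _).le
  rcases abs_cases (lam / rho * S) with ⟨h, _⟩ | ⟨h, _⟩
  · rw [h]
    linarith [Real.exp_pos (-(lam / rho * S))]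
  · rw [h]
    linarith [Real.exp_pos (lam / rho * S)]

lemma sum_exp_le' (κ : Y → ℝ) :
    ∑ s : Finset Y, Real.exp (∑ y, sg s y * κ y)
      ≤ 2 ^ Fintype.card Y * Real.exp ((∑ y, (κ y) ^ 2) / 2) := by
  rw [sum_exp_one]
  have h2 : ∀ y ∈ (univ : Finset Y), Real.exp (κ y) + Real.exp (-κ y)
      ≤ 2 * Real.exp ((κ y) ^ 2 / 2) := by
    intro y _
    have h3 := Real.cosh_le_exp_half_sq (κ y)
    rw [Real.cosh_eq] at h3
    linarith
  refine (Finset.prod_le_prod (fun y _ => by positivity) h2).trans (le_of_eq ?_)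
  rw [Finset.prod_mul_distrib, Finset.prod_const, Finset.card_univ, ← Real.exp_sum,
    ← Finset.sum_div]

lemma rv_sum (v : T → Y → ℝ) (lam rho : ℝ) (hl : 1 ≤ lam) (hr : 0 < rho) (t : T)
    (hv : ∑ y, (v t y) ^ 2 ≤ rho ^ 2) :
    ∑ s : Finset Y, ((rv v (lam * rho) s t).natAbs : ℝ)
      ≤ 2 ^ Fintype.card Y * (2 * Real.exp (-lam ^ 2 / 2)) := by
  refine (Finset.sum_le_sum (fun s _ => rv_bound v lam rho hl hr s t)).trans ?_
  rw [← Finset.mul_sum, Finset.sum_add_distrib]
  have h1 := sum_exp_le' (fun y => lam / rho * v t y)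
  have h2 := sum_exp_le' (fun y => -(lam / rho) * v t y)
  have e1 : (∑ y, (lam / rho * v t y) ^ 2) / 2 ≤ lam ^ 2 / 2 := by
    have : ∑ y, (lam / rho * v t y) ^ 2 = lam ^ 2 / rho ^ 2 * ∑ y, (v t y) ^ 2 := by
      rw [Finset.mul_sum]
      exact Finset.sum_congr rfl (fun y _ => by ring)
    rw [this]
    have h3 : lam ^ 2 / rho ^ 2 * ∑ y, (v t y) ^ 2 ≤ lam ^ 2 / rho ^ 2 * rho ^ 2 :=
      mul_le_mul_of_nonneg_left hv (by positivity)
    have h4 : lam ^ 2 / rho ^ 2 * rho ^ 2 = lam ^ 2 := by field_simp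
    linarith
  have e2 : (∑ y, (-(lam / rho) * v t y) ^ 2) / 2 ≤ lam ^ 2 / 2 := by
    have : ∑ y, (-(lam / rho) * v t y) ^ 2 = ∑ y, (lam / rho * v t y) ^ 2 :=
      Finset.sum_congr rfl (fun y _ => by ring)
    rw [this]
    exact e1
  have h1' := h1.trans (mul_le_mul_of_nonneg_left (Real.exp_le_exp.2 e1) (by positivity))
  have h2' := h2.trans (mul_le_mul_of_nonneg_left (Real.exp_le_exp.2 e2) (by positivity))
  have h3 : Real.exp (-lam ^ 2) * (2 ^ Fintype.card Y * Real.exp (lam ^ 2 / 2)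
      + 2 ^ Fintype.card Y * Real.exp (lam ^ 2 / 2))
      = 2 ^ Fintype.card Y * (2 * Real.exp (-lam ^ 2 / 2)) := by
    have : Real.exp (-lam ^ 2 / 2) = Real.exp (-lam ^ 2) * Real.exp (lam ^ 2 / 2) := by
      rw [← Real.exp_add]
      congr 1
      ring
    rw [this]
    ring
  rw [← h3]
  exact mul_le_mul_of_nonneg_left (add_le_add h1' h2') (Real.exp_pos _).le

/-- two sign vectors with the same rounded values which differ in many places -/
lemma two_signs (v : T → Y → ℝ) (L : ℕ) (rho : ℝ) (hr : 0 < rho) (hY : 0 < Fintype.card Y)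
    (hT : (Fintype.card T : ℝ) ≤ 2 ^ L * Fintype.card Y)
    (hv : ∀ t, ∑ y, (v t y) ^ 2 ≤ rho ^ 2) :
    ∃ s s' : Finset Y, (∀ t, rv v (((L : ℝ) + 6) * rho) s t = rv v (((L : ℝ) + 6) * rho) s' t) ∧
      Fintype.card Y ≤ 8 * #(symmDiff s s') := by
  by_contra hcon
  push Not at hcon
  set N := Fintype.card Y with hN
  set lam : ℝ := (L : ℝ) + 6 with hlam
  have hl1 : 1 ≤ lam := by rw [hlam]; linarith [(Nat.cast_nonneg L : (0 : ℝ) ≤ L)]
  set b : Finset Y → T → ℤ := fun s t => rv v (lam * rho) s t with hb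
  set n : Finset Y → ℕ := fun s => ∑ t, (b s t).natAbs with hn
  set y : ℝ := (1 / 2) ^ (L + 6) with hy
  have hy0 : 0 < y := by positivity
  have hy1 : 3 * y ≤ 1 := by
    have : y ≤ (1 / 2) ^ 6 := by
      rw [hy]
      exact pow_le_pow_of_le_one (by norm_num) (by norm_num) (by omega)
    have h2 : ((1 : ℝ) / 2) ^ 6 = 1 / 64 := by norm_num
    linarith
  set R : ℕ := ∑ s, n s with hR
  set A : ℕ := bsum N ((N - 1) / 8) with hA
  -- lower bound
  have htot : (∑ s, (n s : ℝ)) ≤ 2 ^ N * (N * (1 / 2) ^ (7 * L + 23)) := by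
    have h1 : (∑ s, (n s : ℝ)) = ∑ t, ∑ s, ((b s t).natAbs : ℝ) := by
      rw [Finset.sum_comm]
      refine Finset.sum_congr rfl (fun s _ => ?_)
      rw [hn]
      push_cast
      rfl
    rw [h1]
    have h2 : ∀ t ∈ (univ : Finset T), ∑ s, ((b s t).natAbs : ℝ)
        ≤ 2 ^ N * (2 * (1 / 2) ^ (8 * L + 24)) := by
      intro t _
      refine (rv_sum v lam rho hl1 hr t (hv t)).trans ?_
      have h3 := exp_num L
      rw [← hlam] at h3
      have : (0 : ℝ) ≤ 2 ^ N := by positivity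
      nlinarith
    refine (Finset.sum_le_sum h2).trans ?_
    rw [Finset.sum_const, Finset.card_univ, nsmul_eq_mul]
    have h4 : (2 * (1 / 2) ^ (8 * L + 24) : ℝ) = (1 / 2) ^ L * (1 / 2) ^ (7 * L + 23) := by
      rw [← pow_add]
      have : 8 * L + 24 = (L + (7 * L + 23)) + 1 := by ring
      rw [this, pow_succ]
      ring
    rw [h4]
    have h5 : (Fintype.card T : ℝ) * (1 / 2) ^ L ≤ N := by
      have h6 : (2 : ℝ) ^ L * (1 / 2) ^ L = 1 := by
        rw [← mul_pow]
        norm_num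
      calc (Fintype.card T : ℝ) * (1 / 2) ^ L ≤ (2 ^ L * N) * (1 / 2) ^ L := by gcongr
        _ = N * (2 ^ L * (1 / 2) ^ L) := by ring
        _ = N := by rw [h6, mul_one]
    calc (Fintype.card T : ℝ) * (2 ^ N * ((1 / 2) ^ L * (1 / 2) ^ (7 * L + 23)))
        = 2 ^ N * (((Fintype.card T : ℝ) * (1 / 2) ^ L) * (1 / 2) ^ (7 * L + 23)) := by ring
      _ ≤ 2 ^ N * (N * (1 / 2) ^ (7 * L + 23)) := by gcongr
  have hlow : (2 : ℝ) ^ N * Real.exp (-(N / 1024 : ℝ)) ≤ ∑ s : Finset Y, y ^ n s := by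
    set c : ℝ := (L + 6 : ℕ) * Real.log 2 with hc
    have hc0 : 0 ≤ c := by
      have := Real.log_nonneg (by norm_num : (1 : ℝ) ≤ 2)
      positivity
    have hyc : ∀ k : ℕ, y ^ k = Real.exp (-(c * k)) := by
      intro k
      have h1 : y = Real.exp (-c) := by
        rw [hy, hc, Real.exp_neg, Real.exp_nat_mul, Real.exp_log (by norm_num), one_div, inv_pow]
      rw [h1, ← Real.exp_nat_mul]
      congr 1
      ring
    set μ : ℝ := N * (1 / 2) ^ (7 * L + 23) with hμ
    have hcμ : c * μ ≤ N / 1024 := by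
      have h1 : c ≤ 2 ^ (L + 3) := by
        have h2 : Real.log 2 ≤ 1 := by linarith [Real.log_two_lt_d9]
        have h3 : ((L + 6 : ℕ) : ℝ) ≤ 2 ^ (L + 3) := by
          have : L + 6 ≤ 2 ^ (L + 3) := by
            have := Nat.lt_two_pow_self (n := L)
            rw [pow_add]
            omega
          exact_mod_cast this
        have h4 : (0 : ℝ) ≤ ((L + 6 : ℕ) : ℝ) := by positivity
        calc c ≤ ((L + 6 : ℕ) : ℝ) * 1 := by rw [hc]; gcongr
          _ ≤ 2 ^ (L + 3) := by linarith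
      have h5 : (2 : ℝ) ^ (L + 3) * (1 / 2) ^ (7 * L + 23) ≤ 1 / 1024 := by
        have h6 : (7 * L + 23) = (L + 3) + (6 * L + 20) := by ring
        rw [h6, pow_add (1 / 2 : ℝ) (L + 3), ← mul_assoc, ← mul_pow]
        norm_num
        have h7 : ((1 : ℝ) / 2) ^ (6 * L + 20) ≤ (1 / 2) ^ 10 :=
          pow_le_pow_of_le_one (by norm_num) (by norm_num) (by omega)
        norm_num at h7
        simpa using h7
      calc c * μ ≤ 2 ^ (L + 3) * (N * (1 / 2) ^ (7 * L + 23)) := by
            rw [hμ]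
            gcongr
        _ = N * (2 ^ (L + 3) * (1 / 2) ^ (7 * L + 23)) := by ring
        _ ≤ N * (1 / 1024) := by gcongr
        _ = N / 1024 := by ring
    have h1 : ∀ s ∈ (univ : Finset (Finset Y)),
        Real.exp (-(c * μ)) * (1 + c * μ - c * n s) ≤ y ^ n s := by
      intro s _
      rw [hyc]
      have h2 : Real.exp (-(c * n s)) = Real.exp (-(c * μ)) * Real.exp (c * μ - c * n s) := by
        rw [← Real.exp_add]
        congr 1
        ring
      rw [h2]
      refine mul_le_mul_of_nonneg_left ?_ (Real.exp_pos _).le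
      have := Real.add_one_le_exp (c * μ - c * n s)
      linarith
    have h2 := Finset.sum_le_sum h1
    refine le_trans ?_ h2
    rw [← Finset.mul_sum, Finset.sum_sub_distrib, Finset.sum_const, Finset.card_univ,
      Fintype.card_finset, nsmul_eq_mul, ← Finset.mul_sum, ← hN]
    have h3 : c * ∑ s, (n s : ℝ) ≤ c * (2 ^ N * μ) := mul_le_mul_of_nonneg_left htot hc0
    have h4 : (2 : ℝ) ^ N ≤ ((2 ^ N : ℕ) : ℝ) * (1 + c * μ) - c * ∑ s, (n s : ℝ) := by
      push_cast
      nlinarith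
    calc (2 : ℝ) ^ N * Real.exp (-(N / 1024 : ℝ)) ≤ 2 ^ N * Real.exp (-(c * μ)) := by
          gcongr
      _ = Real.exp (-(c * μ)) * 2 ^ N := by ring
      _ ≤ _ := mul_le_mul_of_nonneg_left h4 (Real.exp_pos _).le
  -- upper bound
  have hfib : ∀ β : T → ℤ, #((univ : Finset (Finset Y)).filter (fun s => b s = β)) ≤ A := by
    intro β
    rcases ((univ : Finset (Finset Y)).filter (fun s => b s = β)).eq_empty_or_nonempty with h | h
    · rw [h]
      simp
    · obtain ⟨s0, hs0⟩ := h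
      rw [mem_filter] at hs0
      have h1 : #((univ : Finset (Finset Y)).filter (fun s => b s = β))
          ≤ #((univ : Finset Y).powerset.filter (fun D => #D ≤ (N - 1) / 8)) := by
        refine Finset.card_le_card_of_injOn (fun s => symmDiff s0 s) ?_ ?_
        · intro s hs
          simp only [coe_filter, Set.mem_ofPred_eq, mem_univ, true_and] at hs
          simp only [coe_filter, Set.mem_ofPred_eq, powerset_univ, mem_univ, true_and]
          have h2 := hcon s0 s (fun t => by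
            have := congrFun (hs0.2.trans hs.symm) t
            exact this)
          omega
        · intro s _ s' _ h
          exact symmDiff_right_injective s0 h
      refine h1.trans ?_
      have := card_small ((N - 1) / 8) (univ : Finset Y)
      rwa [Finset.card_univ] at this
  have hup : ∑ s : Finset Y, y ^ n s ≤ A * Real.exp (3 / 64 * N) := by
    have h1 : ∑ s : Finset Y, y ^ n s
        = ∑ β ∈ univ.image b, ∑ s ∈ univ.filter (fun s => b s = β), y ^ n s :=
      (Finset.sum_fiberwise_of_maps_to (fun s _ => mem_image_of_mem b (mem_univ s)) _).symm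
    have h2 : ∀ β ∈ univ.image b, ∑ s ∈ univ.filter (fun s => b s = β), y ^ n s
        ≤ A * ∏ t, y ^ (β t).natAbs := by
      intro β _
      have h3 : ∀ s ∈ univ.filter (fun s => b s = β), y ^ n s = ∏ t, y ^ (β t).natAbs := by
        intro s hs
        rw [mem_filter] at hs
        rw [Finset.prod_pow_eq_pow_sum, ← hs.2]
      rw [Finset.sum_congr rfl h3, Finset.sum_const, nsmul_eq_mul]
      have h4 : (#(univ.filter (fun s => b s = β)) : ℝ) ≤ A := by exact_mod_cast hfib β
      exact mul_le_mul_of_nonneg_right h4 (Finset.prod_nonneg (fun t _ => by positivity))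
    rw [h1]
    refine (Finset.sum_le_sum h2).trans ?_
    rw [← Finset.mul_sum]
    refine mul_le_mul_of_nonneg_left ?_ (by positivity)
    have h5 : ∑ β ∈ univ.image b, ∏ t, y ^ (β t).natAbs
        ≤ ∑ β ∈ Fintype.piFinset (fun _ : T => Finset.Icc (-(R : ℤ)) R),
          ∏ t, y ^ (β t).natAbs := by
      refine Finset.sum_le_sum_of_subset_of_nonneg ?_
        (fun β _ _ => Finset.prod_nonneg (fun t _ => by positivity))
      intro β hβ
      obtain ⟨s, _, rfl⟩ := mem_image.1 hβ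
      rw [Fintype.mem_piFinset]
      intro t
      have h6 : (b s t).natAbs ≤ R := by
        refine le_trans ?_ (Finset.single_le_sum (f := n) (fun s _ => Nat.zero_le _)
          (mem_univ s))
        exact Finset.single_le_sum (f := fun t => (b s t).natAbs) (fun t _ => Nat.zero_le _)
          (mem_univ t)
      rw [mem_Icc]
      omega
    refine h5.trans ?_
    rw [← Finset.prod_univ_sum (fun _ : T => Finset.Icc (-(R : ℤ)) R)
      (fun _ β => y ^ β.natAbs)]
    have h7 : ∀ t ∈ (univ : Finset T), ∑ β ∈ Finset.Icc (-(R : ℤ)) R, y ^ β.natAbs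
        ≤ Real.exp (3 * y) := by
      intro t _
      refine (geo_Icc y hy0.le hy1 R).trans ?_
      have h8 := Real.add_one_le_exp (3 * y)
      have h9 : 0 ≤ 3 * y ^ (R + 1) := by positivity
      linarith
    refine (Finset.prod_le_prod (fun t _ => Finset.sum_nonneg (fun β _ => by positivity))
      h7).trans ?_
    rw [Finset.prod_const, Finset.card_univ, ← Real.exp_nat_mul]
    refine Real.exp_le_exp.2 ?_
    have h10 : (2 : ℝ) ^ L * y = 1 / 64 := by
      rw [hy, pow_add, ← mul_assoc, ← mul_pow]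
      norm_num
    calc (Fintype.card T : ℝ) * (3 * y) ≤ (2 ^ L * N) * (3 * y) := by gcongr
      _ = 3 * N * (2 ^ L * y) := by ring
      _ = 3 / 64 * N := by rw [h10]; ring
  have hA2 : (A : ℝ) ≤ Real.exp (N / 8) * 2 ^ (3 * ((N - 1) / 8)) := by
    have h1 := bsum_le N ((N - 1) / 8) (1 / 8) (by norm_num) (by norm_num)
    rw [← hA] at h1
    refine h1.trans (le_of_eq ?_)
    rw [pow_mul]
    norm_num
    ring_nf
  have hfin := hlow.trans hup
  have hNpos : (1 : ℝ) ≤ N := by exact_mod_cast hY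
  have h1 : (2 : ℝ) ^ N ≤ Real.exp (N * (1 / 1024 + 3 / 64 + 1 / 8)) * 2 ^ (3 * ((N - 1) / 8)) := by
    have h2 : (2 : ℝ) ^ N * Real.exp (-(N / 1024 : ℝ))
        ≤ (Real.exp (N / 8) * 2 ^ (3 * ((N - 1) / 8))) * Real.exp (3 / 64 * N) :=
      hfin.trans (mul_le_mul_of_nonneg_right hA2 (Real.exp_pos _).le)
    have h3 := mul_le_mul_of_nonneg_right h2 (Real.exp_pos (N / 1024 : ℝ)).le
    rw [mul_assoc, ← Real.exp_add, neg_add_cancel, Real.exp_zero, mul_one] at h3
    refine h3.trans (le_of_eq ?_)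
    have h4 : Real.exp (N * (1 / 1024 + 3 / 64 + 1 / 8))
        = Real.exp (N / 8) * Real.exp (3 / 64 * N) * Real.exp (N / 1024) := by
      rw [← Real.exp_add, ← Real.exp_add]
      congr 1
      ring
    rw [h4]
    ring
  have h5 : Real.exp ((N : ℝ) * (1 / 1024 + 3 / 64 + 1 / 8)) < 2 ^ ((N : ℝ) * (5 / 8)) := by
    rw [Real.rpow_def_of_pos (by norm_num)]
    refine Real.exp_lt_exp.2 ?_
    have := Real.log_two_gt_d9
    nlinarith
  have h6 : (2 : ℝ) ^ (3 * ((N - 1) / 8)) ≤ 2 ^ ((N : ℝ) * (3 / 8)) := by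
    rw [← Real.rpow_natCast]
    refine Real.rpow_le_rpow_of_exponent_le (by norm_num) ?_
    have h7 : 8 * (3 * ((N - 1) / 8)) ≤ 3 * N := by omega
    have h8 : (8 : ℝ) * ((3 * ((N - 1) / 8) : ℕ) : ℝ) ≤ 3 * N := by exact_mod_cast h7
    linarith
  have h9 : (2 : ℝ) ^ N = 2 ^ ((N : ℝ) * (5 / 8)) * 2 ^ ((N : ℝ) * (3 / 8)) := by
    rw [← Real.rpow_add (by norm_num), ← Real.rpow_natCast]
    congr 1
    ring
  have h10 : Real.exp ((N : ℝ) * (1 / 1024 + 3 / 64 + 1 / 8)) * 2 ^ (3 * ((N - 1) / 8))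
      < 2 ^ ((N : ℝ) * (5 / 8)) * 2 ^ ((N : ℝ) * (3 / 8)) := by
    calc _ ≤ Real.exp ((N : ℝ) * (1 / 1024 + 3 / 64 + 1 / 8)) * 2 ^ ((N : ℝ) * (3 / 8)) := by
          gcongr
      _ < _ := by
          gcongr
  rw [h9] at h1
  exact absurd h1 (not_le.2 h10)

/-- the colouring of one eighth of the points -/
theorem pcol (v : T → Y → ℝ) (L : ℕ) (rho : ℝ) (hr : 0 < rho) (hY : 0 < Fintype.card Y)
    (hT : (Fintype.card T : ℝ) ≤ 2 ^ L * Fintype.card Y)
    (hv : ∀ t, ∑ y, (v t y) ^ 2 ≤ rho ^ 2) :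
    ∃ χ : Y → ℝ, (∀ y, χ y = 0 ∨ χ y = 1 ∨ χ y = -1) ∧
      Fintype.card Y ≤ 8 * #((univ : Finset Y).filter (fun y => χ y ≠ 0)) ∧
      ∀ t, |∑ y, χ y * v t y| ≤ ((L : ℝ) + 6) * rho := by
  obtain ⟨s, s', hrv, hcard⟩ := two_signs v L rho hr hY hT hv
  refine ⟨fun y => (sg s y - sg s' y) / 2, ?_, ?_, ?_⟩
  · intro y
    simp only [sg]
    split_ifs <;> norm_num
  · refine hcard.trans (Nat.mul_le_mul_left _ (Finset.card_le_card ?_))
    intro y hy
    rw [mem_filter]
    refine ⟨mem_univ y, ?_⟩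
    rw [mem_symmDiff] at hy
    simp only [sg]
    rcases hy with ⟨h1, h2⟩ | ⟨h1, h2⟩
    · rw [if_pos h1, if_neg h2]
      norm_num
    · rw [if_pos h1, if_neg h2]
      norm_num
  · intro t
    have hq : 0 < ((L : ℝ) + 6) * rho := by positivity
    set q := ((L : ℝ) + 6) * rho with hqdef
    have h1 := abs_sub_round ((∑ y, sg s y * v t y) / (2 * q))
    have h2 := abs_sub_round ((∑ y, sg s' y * v t y) / (2 * q))
    have h3 : round ((∑ y, sg s y * v t y) / (2 * q)) = round ((∑ y, sg s' y * v t y) / (2 * q)) :=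
      hrv t
    rw [h3] at h1
    have h4 : ∑ y, (sg s y - sg s' y) / 2 * v t y
        = (∑ y, sg s y * v t y - ∑ y, sg s' y * v t y) / 2 := by
      rw [← Finset.sum_sub_distrib, Finset.sum_div]
      exact Finset.sum_congr rfl (fun y _ => by ring)
    rw [h4]
    set S := ∑ y, sg s y * v t y
    set S' := ∑ y, sg s' y * v t y
    have h5 : |S / (2 * q) - S' / (2 * q)| ≤ 1 := by
      have := abs_sub_le (S / (2 * q)) (round (S' / (2 * q))) (S' / (2 * q))
      rw [abs_sub_comm (round (S' / (2 * q)) : ℝ)] at this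
      linarith
    rw [← sub_div, abs_div, abs_of_pos (by positivity : 0 < 2 * q),
      div_le_one (by positivity)] at h5
    rw [abs_div, abs_of_pos (by norm_num : (0 : ℝ) < 2), div_le_iff₀ (by norm_num)]
    linarith

end Pool.Agent.H75.UB
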