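import Pool.Agent.H75.UB.Dya

set_option autoImplicit false
set_option linter.unusedSectionVars false

/-! The sum of the block norms over a layer, by duality. -/

open Finset ComplexConjugate MeasureTheory UnitAddTorus

open scoped Classical

namespace Pool.Agent.H75.UB

open Pool.Agent.H75.MT (ee ee_add ee_norm ee_conj ee_int ee_zero)

noncomputable section

local instance : MeasureSpace UnitAddCircle := ⟨AddCircle.haarAddCircle⟩

local instance : Measure.IsAddHaarMeasure (volume : Measure UnitAddCircle) :=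
  inferInstanceAs (Measure.IsAddHaarMeasure AddCircle.haarAddCircle)

local instance : IsProbabilityMeasure (volume : Measure UnitAddCircle) :=
  inferInstanceAs (IsProbabilityMeasure AddCircle.haarAddCircle)

variable {d : ℕ}

lemma tp_sup (S : Finset (Fin d → ℤ)) (c : (Fin d → ℤ) → ℂ) (hc : ∑ k ∈ S, ‖c k‖ ^ 2 ≤ 1)
    (x : TT d) : ‖tp S c x‖ ^ 2 ≤ #S := by
  have h1 : ‖tp S c x‖ ≤ ∑ k ∈ S, ‖c k‖ := by
    rw [tp_apply]
    refine (norm_sum_le _ _).trans (le_of_eq ?_)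
    refine Finset.sum_congr rfl (fun k _ => ?_)
    rw [norm_mul, mF_norm, mul_one]
  calc ‖tp S c x‖ ^ 2 ≤ (∑ k ∈ S, ‖c k‖) ^ 2 := pow_le_pow_left₀ (norm_nonneg _) h1 2
    _ ≤ #S * ∑ k ∈ S, ‖c k‖ ^ 2 := sq_sum_le_card_mul_sum_sq
    _ ≤ #S * 1 := by gcongr
    _ = #S := mul_one _

lemma dif_rho (s t : Fin d → ℕ) (k : Fin d → ℤ) (h1 : k ∈ dif (rho s)) (h2 : k ∈ dif (rho t)) :
    k ∈ Box (fun i => min (s i) (t i) + 1) := by
  have key : ∀ s : Fin d → ℕ, k ∈ dif (rho s) → ∀ i, |k i| < 2 ^ (s i + 1) := by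
    intro s h i
    unfold dif at h
    obtain ⟨⟨a, b⟩, hab, rfl⟩ := Finset.mem_image.1 h
    rw [mem_product] at hab
    have ha := mem_Box.1 (rho_sub s hab.1) i
    have hb := mem_Box.1 (rho_sub s hab.2) i
    show |a i - b i| < _
    rw [abs_lt, pow_succ]
    simp only at ha hb
    constructor <;> linarith [ha.1, ha.2, hb.1, hb.2]
  rw [mem_Box]
  intro i
  rw [← abs_lt]
  rcases le_total (s i) (t i) with h | h
  · rw [min_eq_left h]
    exact key s h1 i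
  · rw [min_eq_right h]
    exact key t h2 i

lemma G_pair (l κ : ℕ) (hκ : 2 ≤ κ) (s t : Fin d → ℕ) (hs : s ∈ Sl d l) (ht : t ∈ Sl d l)
    (c : (Fin d → ℤ) → ℂ) (hs2 : ∑ k ∈ rho s, ‖c k‖ ^ 2 ≤ 1)
    (ht2 : ∑ k ∈ rho t, ‖c k‖ ^ 2 ≤ 1) :
    ∫ x, (‖tp (rho s) c x‖ * ‖tp (rho t) c x‖) ^ κ
      ≤ (2 ^ (l + d)) ^ (κ - 2) * 2 ^ (∑ i, min (s i) (t i) + 2 * d) := by
  have hcard : ∀ s ∈ Sl d l, ((#(rho s) : ℕ) : ℝ) ≤ 2 ^ (l + d) := by
    intro s hs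
    have h1 := (Finset.card_le_card (rho_sub s)).trans (Box_card s)
    rw [mem_Sl.1 hs] at h1
    exact_mod_cast h1
  have h1 : ∀ x, (‖tp (rho s) c x‖ * ‖tp (rho t) c x‖) ^ κ
      ≤ (2 ^ (l + d)) ^ (κ - 2) * (‖tp (rho s) c x‖ ^ 2 * ‖tp (rho t) c x‖ ^ 2) := by
    intro x
    have e1 : ‖tp (rho s) c x‖ ^ 2 ≤ 2 ^ (l + d) := (tp_sup _ _ hs2 x).trans (hcard s hs)
    have e2 : ‖tp (rho t) c x‖ ^ 2 ≤ 2 ^ (l + d) := (tp_sup _ _ ht2 x).trans (hcard t ht)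
    have e3 : ‖tp (rho s) c x‖ * ‖tp (rho t) c x‖ ≤ 2 ^ (l + d) := by
      nlinarith [sq_nonneg (‖tp (rho s) c x‖ - ‖tp (rho t) c x‖)]
    have e4 : (‖tp (rho s) c x‖ * ‖tp (rho t) c x‖) ^ κ
        = (‖tp (rho s) c x‖ * ‖tp (rho t) c x‖) ^ (κ - 2)
          * (‖tp (rho s) c x‖ ^ 2 * ‖tp (rho t) c x‖ ^ 2) := by
      rw [← mul_pow, ← pow_add]
      congr 1
      omega
    rw [e4]
    gcongr
  have h2 : Continuous (fun x : TT d => (‖tp (rho s) c x‖ * ‖tp (rho t) c x‖) ^ κ) := by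
    fun_prop
  have h3 : Continuous (fun x : TT d => (2 ^ (l + d) : ℝ) ^ (κ - 2)
      * (‖tp (rho s) c x‖ ^ 2 * ‖tp (rho t) c x‖ ^ 2)) := by
    fun_prop
  refine (integral_mono (rint _ h2) (rint _ h3) h1).trans ?_
  rw [integral_const_mul]
  refine mul_le_mul_of_nonneg_left ?_ (by positivity)
  refine (sq_sq (rho s) (rho t) c c (Box (fun i => min (s i) (t i) + 1)) hs2 ht2
    (dif_rho s t)).trans ?_
  have h4 := Box_card (fun i => min (s i) (t i) + 1)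
  have h5 : ∑ i, (min (s i) (t i) + 1) + d = ∑ i, min (s i) (t i) + 2 * d := by
    rw [Finset.sum_add_distrib]
    simp only [Finset.sum_const, Finset.card_univ, Fintype.card_fin, smul_eq_mul, mul_one]
    ring
  rw [h5] at h4
  exact_mod_cast h4

lemma G_pow (d κ : ℕ) (hκ : 2 ≤ κ) : ∃ C : ℝ, 0 < C ∧ ∀ (l : ℕ) (c : (Fin d → ℤ) → ℂ),
    (∀ s ∈ Sl d l, ∑ k ∈ rho s, ‖c k‖ ^ 2 ≤ 1) →
    ∫ x : TT d, ‖∑ s ∈ Sl d l, tp (rho s) c x‖ ^ (2 * κ)
      ≤ C * (2 ^ l) ^ (κ - 1) * #(Sl d l) := by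
  set ω : ℝ := 2 ^ (1 / (8 * κ : ℝ)) with hω
  have hκ0 : (0 : ℝ) < κ := by
    have : 0 < κ := by omega
    exact_mod_cast this
  have hω1 : 1 < ω := Real.one_lt_rpow (by norm_num) (by positivity)
  set θ := ω ^ (2 * κ) with hθ
  have hθ1 : 1 < θ := one_lt_pow₀ hω1 (by omega)
  have hθ4 : θ ^ 4 = 2 := by
    rw [hθ, ← pow_mul, hω, ← Real.rpow_natCast, ← Real.rpow_mul (by norm_num)]
    have : (1 / (8 * κ : ℝ)) * ((2 * κ * 4 : ℕ) : ℝ) = 1 := by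
      push_cast
      field_simp
      norm_num
    rw [this, Real.rpow_one]
  have hω' : 1 / ω < 1 := by rw [div_lt_one (by linarith)]; exact hω1
  have hθ' : 1 / θ < 1 := by rw [div_lt_one (by linarith)]; exact hθ1
  set Cω := (2 / (1 - 1 / ω)) ^ d with hCω
  set Cθ := (2 / (1 - 1 / θ)) ^ d with hCθ
  have hCω0 : 0 < Cω := by
    have : 0 < 1 - 1 / ω := by linarith
    positivity
  have hCθ0 : 0 < Cθ := by
    have : 0 < 1 - 1 / θ := by linarith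
    positivity
  refine ⟨Cω ^ (2 * κ) * ((2 ^ d) ^ (κ - 2) * 2 ^ (2 * d) * Cθ), by positivity, ?_⟩
  intro l c hc
  have hp : ∀ x : TT d, ‖∑ s ∈ Sl d l, tp (rho s) c x‖ ^ (2 * κ)
      ≤ Cω ^ (2 * κ) * ∑ s ∈ Sl d l, ∑ t ∈ Sl d l,
        θ ^ (dst s t) * (‖tp (rho s) c x‖ * ‖tp (rho t) c x‖) ^ κ := by
    intro x
    refine (pow_le_pow_left₀ (norm_nonneg _) (norm_sum_le _ _) _).trans ?_
    exact pointwise (Sl d l) (fun s => ‖tp (rho s) c x‖) (fun s _ => norm_nonneg _) ω hω1 Cω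
      (fun s _ => geo_sum (1 / ω) (by positivity) hω' s l) κ (by omega)
  have hc1 : Continuous (fun x : TT d => ‖∑ s ∈ Sl d l, tp (rho s) c x‖ ^ (2 * κ)) := by
    fun_prop
  have hc2 : Continuous (fun x : TT d => Cω ^ (2 * κ) * ∑ s ∈ Sl d l, ∑ t ∈ Sl d l,
        θ ^ (dst s t) * (‖tp (rho s) c x‖ * ‖tp (rho t) c x‖) ^ κ) := by
    fun_prop
  refine (integral_mono (rint _ hc1) (rint _ hc2) hp).trans ?_
  rw [integral_const_mul, integral_finsetSum _ (fun s _ => rint _ (by fun_prop))]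
  have hs : ∀ s ∈ Sl d l, ∫ x : TT d, ∑ t ∈ Sl d l,
        θ ^ (dst s t) * (‖tp (rho s) c x‖ * ‖tp (rho t) c x‖) ^ κ
      ≤ (2 ^ d) ^ (κ - 2) * 2 ^ (2 * d) * Cθ * (2 ^ l) ^ (κ - 1) := by
    intro s hs
    rw [integral_finsetSum _ (fun s _ => rint _ (by fun_prop))]
    have ht : ∀ t ∈ Sl d l, ∫ x : TT d,
        θ ^ (dst s t) * (‖tp (rho s) c x‖ * ‖tp (rho t) c x‖) ^ κ
        ≤ ((2 ^ d) ^ (κ - 2) * 2 ^ (2 * d) * (2 ^ l) ^ (κ - 1)) * (1 / θ) ^ (dst s t) := by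
      intro t ht
      rw [integral_const_mul]
      have e1 := G_pair l κ hκ s t hs ht c (hc s hs) (hc t ht)
      have e2 : θ ^ (dst s t) * 2 ^ (∑ i, min (s i) (t i)) = 2 ^ l * (1 / θ) ^ (dst s t) := by
        have e3 := dst_min s t
        rw [mem_Sl.1 hs, mem_Sl.1 ht] at e3
        have e4 : (2 : ℝ) ^ l = θ ^ (2 * dst s t + 4 * ∑ i, min (s i) (t i)) := by
          rw [show 2 * dst s t + 4 * ∑ i, min (s i) (t i) = 4 * l by omega, pow_mul, hθ4]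
        have e5 : (2 : ℝ) ^ (∑ i, min (s i) (t i)) = θ ^ (4 * ∑ i, min (s i) (t i)) := by
          rw [pow_mul, hθ4]
        rw [e4, e5, pow_add, one_div, inv_pow]
        have : θ ^ (dst s t) ≠ 0 := by positivity
        field_simp
        ring
      calc θ ^ (dst s t) * ∫ x : TT d, (‖tp (rho s) c x‖ * ‖tp (rho t) c x‖) ^ κ
          ≤ θ ^ (dst s t) * ((2 ^ (l + d)) ^ (κ - 2) * 2 ^ (∑ i, min (s i) (t i) + 2 * d)) := by
            gcongr
        _ = (θ ^ (dst s t) * 2 ^ (∑ i, min (s i) (t i)))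
            * ((2 ^ (l + d)) ^ (κ - 2) * 2 ^ (2 * d)) := by
            rw [pow_add 2 (∑ i, min (s i) (t i)) (2 * d)]
            ring
        _ = ((2 ^ d) ^ (κ - 2) * 2 ^ (2 * d) * ((2 ^ l) ^ (κ - 2) * 2 ^ l))
            * (1 / θ) ^ (dst s t) := by
            rw [e2, pow_add 2 l d, mul_pow]
            ring
        _ = _ := by
            rw [← pow_succ, show κ - 2 + 1 = κ - 1 by omega]
    refine (Finset.sum_le_sum ht).trans ?_
    rw [← Finset.mul_sum]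
    calc ((2 ^ d) ^ (κ - 2) * 2 ^ (2 * d) * (2 ^ l) ^ (κ - 1)) * ∑ t ∈ Sl d l, (1 / θ) ^ (dst s t)
        ≤ ((2 ^ d) ^ (κ - 2) * 2 ^ (2 * d) * (2 ^ l) ^ (κ - 1)) * Cθ := by
          refine mul_le_mul_of_nonneg_left ?_ (by positivity)
          exact geo_sum (1 / θ) (by positivity) hθ' s l
      _ = _ := by ring
  refine (mul_le_mul_of_nonneg_left (Finset.sum_le_sum hs) (by positivity)).trans ?_
  rw [Finset.sum_const, nsmul_eq_mul]
  exact le_of_eq (by ring)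

lemma sum_tp (S : Finset (Fin d → ℕ)) (c : (Fin d → ℤ) → ℂ) (x : TT d) :
    ∑ s ∈ S, tp (rho s) c x = tp (S.biUnion rho) c x := by
  rw [tp_apply, Finset.sum_biUnion]
  · exact Finset.sum_congr rfl (fun s _ => tp_apply _ _ _)
  · intro s _ t _ hst
    rw [Function.onFun, Finset.disjoint_left]
    intro k hk hk'
    exact hst ((mem_rho.1 hk).symm.trans (mem_rho.1 hk'))

lemma G_two (l : ℕ) (c : (Fin d → ℤ) → ℂ) (hc : ∀ s ∈ Sl d l, ∑ k ∈ rho s, ‖c k‖ ^ 2 ≤ 1) :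
    ∫ x : TT d, ‖∑ s ∈ Sl d l, tp (rho s) c x‖ ^ 2 ≤ #(Sl d l) := by
  simp only [sum_tp]
  rw [tp_sq, Finset.sum_biUnion]
  · refine (Finset.sum_le_sum hc).trans ?_
    rw [Finset.sum_const, nsmul_eq_mul, mul_one]
  · intro s _ t _ hst
    rw [Function.onFun, Finset.disjoint_left]
    intro k hk hk'
    exact hst ((mem_rho.1 hk).symm.trans (mem_rho.1 hk'))

lemma rpow_split (a N q : ℝ) (ha : 0 ≤ a) (hN : 0 < N) (hq : 2 ≤ q) (κ : ℕ) (hκ : q ≤ 2 * κ) :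
    a ^ q ≤ N ^ ((q - 2) / 2) * a ^ 2 + N ^ ((q - 2 * κ) / 2) * a ^ (2 * κ) := by
  rcases ha.eq_or_lt with h0 | h0
  · rw [← h0, Real.zero_rpow (by linarith)]
    have : 0 ≤ N ^ ((q - 2) / 2) * (0 : ℝ) ^ 2 := by positivity
    have : 0 ≤ N ^ ((q - 2 * κ) / 2) * (0 : ℝ) ^ (2 * κ) := by positivity
    linarith
  have hA : 0 ≤ N ^ ((q - 2) / 2) * a ^ 2 := by positivity
  have hB : 0 ≤ N ^ ((q - 2 * κ) / 2) * a ^ (2 * κ) := by positivity
  have key : ∀ n : ℕ, a ^ q = a ^ n * (a ^ 2) ^ ((q - n) / 2) := by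
    intro n
    rw [← Real.rpow_natCast a n, ← Real.rpow_natCast a 2, ← Real.rpow_mul h0.le,
      ← Real.rpow_add h0]
    congr 1
    push_cast
    ring
  rcases le_total (a ^ 2) N with h | h
  · have h1 : a ^ q ≤ N ^ ((q - 2) / 2) * a ^ 2 := by
      rw [key 2, mul_comm]
      push_cast
      have := Real.rpow_le_rpow (by positivity) h (show (0 : ℝ) ≤ (q - 2) / 2 by linarith)
      gcongr
    linarith
  · have h1 : a ^ q ≤ N ^ ((q - 2 * κ) / 2) * a ^ (2 * κ) := by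
      rw [key (2 * κ), mul_comm]
      push_cast
      have := Real.rpow_le_rpow_of_nonpos hN h (show (q - 2 * κ) / 2 ≤ 0 by linarith)
      gcongr
    linarith

lemma G_rpow (d : ℕ) (q : ℝ) (hq : 2 ≤ q) : ∃ C : ℝ, 0 < C ∧ ∀ (l : ℕ) (c : (Fin d → ℤ) → ℂ),
    (∀ s ∈ Sl d l, ∑ k ∈ rho s, ‖c k‖ ^ 2 ≤ 1) →
    ∫ x : TT d, ‖∑ s ∈ Sl d l, tp (rho s) c x‖ ^ q
      ≤ C * ((2 : ℝ) ^ l) ^ (q / 2 - 1) * #(Sl d l) := by
  set κ := ⌈q⌉₊ with hκd
  have hκ : q ≤ κ := Nat.le_ceil q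
  have hκ2 : 2 ≤ κ := by
    have : (2 : ℝ) ≤ κ := hq.trans hκ
    exact_mod_cast this
  obtain ⟨C, hC, h⟩ := G_pow d κ hκ2
  refine ⟨1 + C, by linarith, ?_⟩
  intro l c hc
  have hq2 : q ≤ 2 * κ := by
    have : (0 : ℝ) ≤ κ := Nat.cast_nonneg _
    linarith
  have h1 : ∀ x : TT d, ‖∑ s ∈ Sl d l, tp (rho s) c x‖ ^ q
      ≤ ((2 : ℝ) ^ l) ^ ((q - 2) / 2) * ‖∑ s ∈ Sl d l, tp (rho s) c x‖ ^ 2
        + ((2 : ℝ) ^ l) ^ ((q - 2 * κ) / 2) * ‖∑ s ∈ Sl d l, tp (rho s) c x‖ ^ (2 * κ) :=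
    fun x => rpow_split _ _ q (norm_nonneg _) (by positivity) hq κ hq2
  have hc1 : Continuous (fun x : TT d => ‖∑ s ∈ Sl d l, tp (rho s) c x‖ ^ q) := by
    have : Continuous (fun x : TT d => ‖∑ s ∈ Sl d l, tp (rho s) c x‖) := by fun_prop
    exact this.rpow_const (fun x => Or.inr (by linarith))
  have hc2 : Continuous (fun x : TT d =>
      ((2 : ℝ) ^ l) ^ ((q - 2) / 2) * ‖∑ s ∈ Sl d l, tp (rho s) c x‖ ^ 2) := by fun_prop
  have hc3 : Continuous (fun x : TT d =>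
      ((2 : ℝ) ^ l) ^ ((q - 2 * κ) / 2) * ‖∑ s ∈ Sl d l, tp (rho s) c x‖ ^ (2 * κ)) := by
    fun_prop
  refine (integral_mono (rint _ hc1) (rint _ (hc2.add hc3)) h1).trans ?_
  rw [Pi.add_def, integral_add (rint _ hc2) (rint _ hc3), integral_const_mul, integral_const_mul]
  have e1 := G_two l c hc
  have e2 := h l c hc
  have e3 : ((2 : ℝ) ^ l) ^ ((q - 2 * κ) / 2) * ((2 ^ l) ^ (κ - 1))
      = ((2 : ℝ) ^ l) ^ (q / 2 - 1) := by
    rw [← Real.rpow_natCast (2 ^ l) (κ - 1), ← Real.rpow_add (by positivity)]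
    congr 1
    rw [Nat.cast_sub (by omega)]
    push_cast
    ring
  calc (((2 : ℝ) ^ l) ^ ((q - 2) / 2) * ∫ x : TT d, ‖∑ s ∈ Sl d l, tp (rho s) c x‖ ^ 2)
        + (((2 : ℝ) ^ l) ^ ((q - 2 * κ) / 2)
          * ∫ x : TT d, ‖∑ s ∈ Sl d l, tp (rho s) c x‖ ^ (2 * κ))
      ≤ ((2 : ℝ) ^ l) ^ ((q - 2) / 2) * #(Sl d l)
        + ((2 : ℝ) ^ l) ^ ((q - 2 * κ) / 2) * (C * (2 ^ l) ^ (κ - 1) * #(Sl d l)) := by
        gcongr
    _ = ((2 : ℝ) ^ l) ^ ((q - 2) / 2) * #(Sl d l)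
        + C * (((2 : ℝ) ^ l) ^ ((q - 2 * κ) / 2) * ((2 ^ l) ^ (κ - 1))) * #(Sl d l) := by ring
    _ = _ := by
        rw [e3, show (q - 2) / 2 = q / 2 - 1 by ring]
        ring

/-- Fourier coefficients of a function -/
def cf (φ : TT d → ℂ) (k : Fin d → ℤ) : ℂ := mFourierCoeff φ k

lemma cf_eq (φ : TT d → ℂ) (k : Fin d → ℤ) : cf φ k = ∫ x, φ x * conj (mFourier k x) := by
  unfold cf mFourierCoeff
  congr 1
  funext x
  rw [mFourier_neg, smul_eq_mul, mul_comm]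

lemma pair_cf (φ : TT d → ℂ) (hφ : Integrable φ volume) (S : Finset (Fin d → ℤ))
    (c : (Fin d → ℤ) → ℂ) :
    ∫ x, φ x * conj (tp S c x) = ∑ k ∈ S, conj (c k) * cf φ k := by
  have h1 : ∀ x, φ x * conj (tp S c x)
      = ∑ k ∈ S, conj (c k) * (φ x * conj (mFourier k x)) := by
    intro x
    rw [tp_apply, map_sum, Finset.mul_sum]
    refine Finset.sum_congr rfl (fun k _ => ?_)
    rw [map_mul]
    ring
  simp only [h1]
  have hint : ∀ k : Fin d → ℤ, Integrable (fun x => φ x * conj (mFourier k x)) volume := by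
    intro k
    refine hφ.mul_bdd (c := 1) ?_ ?_
    · have : Continuous (fun x : TT d => conj (mFourier k x)) := by fun_prop
      exact this.aestronglyMeasurable
    · refine Filter.Eventually.of_forall (fun x => ?_)
      rw [RCLike.norm_conj, mF_norm]
  rw [integral_finsetSum]
  · refine Finset.sum_congr rfl (fun k _ => ?_)
    rw [integral_const_mul, cf_eq]
  · intro k _
    exact (hint k).const_mul _

/-- energy of a block -/
def en (c : (Fin d → ℤ) → ℂ) (s : Fin d → ℕ) : ℝ := Real.sqrt (∑ k ∈ rho s, ‖c k‖ ^ 2)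

lemma en_nonneg (c : (Fin d → ℤ) → ℂ) (s : Fin d → ℕ) : 0 ≤ en c s := Real.sqrt_nonneg _

lemma en_sq (c : (Fin d → ℤ) → ℂ) (s : Fin d → ℕ) : en c s ^ 2 = ∑ k ∈ rho s, ‖c k‖ ^ 2 :=
  Real.sq_sqrt (Finset.sum_nonneg (fun _ _ => by positivity))

/-- Component A: the sum of the energies over a layer -/
theorem energies (d : ℕ) (p : ℝ) (hp1 : 1 < p) (hp2 : p < 2) : ∃ C : ℝ, 0 < C ∧
    ∀ (φ : TT d → ℂ), MemLp φ (ENNReal.ofReal p) volume → ∫ x, ‖φ x‖ ^ p ≤ 1 → ∀ l : ℕ,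
      ∑ s ∈ Sl d l, en (cf φ) s
        ≤ C * ((2 : ℝ) ^ l) ^ (1 / p - 1 / 2) * (#(Sl d l) : ℝ) ^ (1 - 1 / p) := by
  set q := p / (p - 1) with hq
  have hp0 : 0 < p := by linarith
  have hpq : p.HolderConjugate q := Real.HolderConjugate.conjExponent hp1
  have hq2 : 2 ≤ q := by
    rw [hq, le_div_iff₀ (by linarith)]
    linarith
  have hq0 : 0 < q := by linarith
  have hinv : 1 / q = 1 - 1 / p := by
    rw [hq]
    field_simp
  obtain ⟨C, hC, h⟩ := G_rpow d q hq2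
  refine ⟨C ^ (1 / q), by positivity, ?_⟩
  intro φ hφ hφ1 l
  have hφi : Integrable φ volume :=
    hφ.integrable (by
      rw [← ENNReal.ofReal_one]
      exact ENNReal.ofReal_le_ofReal hp1.le)
  set c := cf φ with hc
  set γ : (Fin d → ℤ) → ℂ := fun k => c k / en c (sz k) with hγ
  have hγ1 : ∀ s ∈ Sl d l, ∑ k ∈ rho s, ‖γ k‖ ^ 2 ≤ 1 := by
    intro s _
    have e1 : ∑ k ∈ rho s, ‖γ k‖ ^ 2 = (∑ k ∈ rho s, ‖c k‖ ^ 2) / en c s ^ 2 := by
      rw [Finset.sum_div]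
      refine Finset.sum_congr rfl (fun k hk => ?_)
      rw [hγ]
      simp only
      rw [mem_rho.1 hk, norm_div, div_pow, Complex.norm_real, Real.norm_eq_abs, sq_abs]
    rw [e1, en_sq]
    exact div_self_le_one _
  have hpair : ∫ x, φ x * conj (∑ s ∈ Sl d l, tp (rho s) γ x)
      = ((∑ s ∈ Sl d l, en c s : ℝ) : ℂ) := by
    simp only [sum_tp]
    rw [pair_cf φ hφi, Finset.sum_biUnion]
    · push_cast
      refine Finset.sum_congr rfl (fun s _ => ?_)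
      have e1 : ∀ k ∈ rho s, conj (γ k) * cf φ k = ((‖c k‖ ^ 2 / en c s : ℝ) : ℂ) := by
        intro k hk
        rw [hγ]
        simp only
        rw [mem_rho.1 hk, map_div₀, Complex.conj_ofReal, ← hc, div_mul_eq_mul_div, mul_comm,
          Complex.mul_conj']
        push_cast
        rfl
      rw [Finset.sum_congr rfl e1, ← Complex.ofReal_sum, ← Finset.sum_div, ← en_sq]
      congr 1
      rcases (en_nonneg c s).eq_or_lt with h0 | h0
      · rw [← h0]; simp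
      · rw [pow_two, mul_div_assoc, div_self h0.ne', mul_one]
    · intro s _ t _ hst
      rw [Function.onFun, Finset.disjoint_left]
      intro k hk hk'
      exact hst ((mem_rho.1 hk).symm.trans (mem_rho.1 hk'))
  have hGc : Continuous (fun x : TT d => ∑ s ∈ Sl d l, tp (rho s) γ x) := by fun_prop
  have hG : MemLp (fun x : TT d => ∑ s ∈ Sl d l, tp (rho s) γ x) (ENNReal.ofReal q) volume :=
    hGc.memLp_of_hasCompactSupport (HasCompactSupport.of_compactSpace _)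
  have h1 := integral_mul_norm_le_Lp_mul_Lq hpq hφ hG
  have h2 : ∑ s ∈ Sl d l, en c s ≤ ∫ x, ‖φ x‖ * ‖∑ s ∈ Sl d l, tp (rho s) γ x‖ := by
    have e1 : ∑ s ∈ Sl d l, en c s = ‖∫ x, φ x * conj (∑ s ∈ Sl d l, tp (rho s) γ x)‖ := by
      rw [hpair, Complex.norm_real, Real.norm_eq_abs, abs_of_nonneg]
      exact Finset.sum_nonneg (fun s _ => en_nonneg c s)
    rw [e1]
    refine (norm_integral_le_integral_norm _).trans (le_of_eq ?_)
    congr 1
    funext x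
    rw [norm_mul, RCLike.norm_conj]
  have h3 : (∫ x, ‖φ x‖ ^ p) ^ (1 / p) ≤ 1 :=
    Real.rpow_le_one (integral_nonneg (fun x => by positivity)) hφ1 (by positivity)
  have h4 := h l γ hγ1
  have h5 : (∫ x : TT d, ‖∑ s ∈ Sl d l, tp (rho s) γ x‖ ^ q) ^ (1 / q)
      ≤ (C * ((2 : ℝ) ^ l) ^ (q / 2 - 1) * #(Sl d l)) ^ (1 / q) :=
    Real.rpow_le_rpow (integral_nonneg (fun x => by positivity)) h4 (by positivity)
  have h6 : (C * ((2 : ℝ) ^ l) ^ (q / 2 - 1) * #(Sl d l)) ^ (1 / q)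
      = C ^ (1 / q) * ((2 : ℝ) ^ l) ^ (1 / p - 1 / 2) * (#(Sl d l) : ℝ) ^ (1 - 1 / p) := by
    rw [Real.mul_rpow (by positivity) (by positivity), Real.mul_rpow (by positivity) (by positivity),
      ← Real.rpow_mul (by positivity), hinv]
    congr 3
    rw [← hinv]
    have : 1 / p = 1 - 1 / q := by linarith
    rw [this]
    field_simp
    ring
  calc ∑ s ∈ Sl d l, en c s ≤ _ := h2
    _ ≤ _ := h1
    _ ≤ 1 * (C * ((2 : ℝ) ^ l) ^ (q / 2 - 1) * #(Sl d l)) ^ (1 / q) := by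
        gcongr
    _ = _ := by rw [one_mul, h6]

end

end Pool.Agent.H75.UB
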