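import Pool.Agent.H75.UB.Tor
import Pool.Agent.H75.UB.Blk

set_option autoImplicit false
set_option linter.unusedSectionVars false

/-! Dyadic blocks, layers and the pointwise inequality. -/

open Finset ComplexConjugate MeasureTheory UnitAddTorus

open scoped Classical

namespace Pool.Agent.H75.UB

open Pool.Agent.H75.MT (ee ee_add ee_norm ee_conj ee_int ee_zero)

noncomputable section

variable {d : ℕ}

/-- the dyadic index of a frequency -/
def sz (k : Fin d → ℤ) : Fin d → ℕ := fun i => (k i).natAbs.size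

/-- the dyadic block -/
def rho (s : Fin d → ℕ) : Finset (Fin d → ℤ) := (Box s).filter (fun k => sz k = s)

lemma mem_rho {s : Fin d → ℕ} {k : Fin d → ℤ} : k ∈ rho s ↔ sz k = s := by
  unfold rho
  rw [mem_filter]
  refine ⟨fun h => h.2, fun h => ⟨?_, h⟩⟩
  rw [mem_Box]
  intro i
  have h1 : (k i).natAbs < 2 ^ (s i) := by
    have := congrFun h i
    rw [← this]
    exact Nat.lt_size_self _
  have h2 : ((k i).natAbs : ℤ) < 2 ^ (s i) := by exact_mod_cast h1
  have h3 : |k i| < 2 ^ (s i) := by rwa [Int.natCast_natAbs] at h2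
  exact abs_lt.1 h3

lemma rho_sub (s : Fin d → ℕ) : rho s ⊆ Box s := Finset.filter_subset _ _

lemma Box_card (s : Fin d → ℕ) : #(Box s) ≤ 2 ^ (∑ i, s i + d) := by
  unfold Box
  rw [Fintype.card_piFinset]
  calc ∏ i, #(Finset.Ioo (-(2 ^ (s i) : ℤ)) (2 ^ (s i))) ≤ ∏ i : Fin d, 2 ^ (s i + 1) := by
        refine Finset.prod_le_prod' (fun i _ => ?_)
        rw [ioo_card]
        exact Nat.sub_le _ _
    _ = 2 ^ (∑ i, s i + d) := by
        rw [Finset.prod_pow_eq_pow_sum, Finset.sum_add_distrib]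
        simp

/-- a layer of blocks -/
def Sl (d l : ℕ) : Finset (Fin d → ℕ) :=
  (Fintype.piFinset (fun _ : Fin d => Finset.range (l + 1))).filter (fun s => ∑ i, s i = l)

lemma mem_Sl {l : ℕ} {s : Fin d → ℕ} : s ∈ Sl d l ↔ ∑ i, s i = l := by
  unfold Sl
  rw [mem_filter, Fintype.mem_piFinset]
  refine ⟨fun h => h.2, fun h => ⟨fun i => ?_, h⟩⟩
  rw [mem_range]
  have : s i ≤ ∑ i, s i := Finset.single_le_sum (fun _ _ => Nat.zero_le _) (mem_univ i)
  omega

lemma Sl_card (hd : 0 < d) (l : ℕ) : #(Sl d l) ≤ (l + 1) ^ (d - 1) := by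
  obtain ⟨e, rfl⟩ : ∃ e, d = e + 1 := ⟨d - 1, by omega⟩
  have h1 : #(Fintype.piFinset (fun _ : Fin e => Finset.range (l + 1))) = (l + 1) ^ (e + 1 - 1) := by
    rw [Fintype.card_piFinset]
    simp
  rw [← h1]
  refine Finset.card_le_card_of_injOn (fun s i => s i.succ) ?_ ?_
  · intro s hs
    have hs' := mem_Sl.1 (Finset.mem_coe.1 hs)
    refine Finset.mem_coe.2 (Fintype.mem_piFinset.2 (fun i => ?_))
    rw [mem_range]
    have : s i.succ ≤ ∑ i, s i := Finset.single_le_sum (fun _ _ => Nat.zero_le _) (mem_univ _)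
    show s i.succ < l + 1
    omega
  · intro s hs t ht h
    have hs' := mem_Sl.1 (Finset.mem_coe.1 hs)
    have ht' := mem_Sl.1 (Finset.mem_coe.1 ht)
    rw [Fin.sum_univ_succ] at hs' ht'
    have h2 : ∀ i : Fin e, s i.succ = t i.succ := fun i => congrFun h i
    have h3 : ∑ i : Fin e, s i.succ = ∑ i : Fin e, t i.succ := Finset.sum_congr rfl (fun i _ => h2 i)
    funext i
    refine Fin.cases ?_ h2 i
    omega

/-- distance of two indices -/
def dst (s t : Fin d → ℕ) : ℕ := ∑ i, ((s i - t i) + (t i - s i))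

lemma dst_self (s : Fin d → ℕ) : dst s s = 0 := by
  unfold dst
  simp

lemma dst_comm (s t : Fin d → ℕ) : dst s t = dst t s := by
  unfold dst
  exact Finset.sum_congr rfl (fun i _ => by omega)

lemma dst_min (s t : Fin d → ℕ) : dst s t + 2 * ∑ i, min (s i) (t i) = ∑ i, s i + ∑ i, t i := by
  unfold dst
  rw [Finset.mul_sum, ← Finset.sum_add_distrib, ← Finset.sum_add_distrib]
  refine Finset.sum_congr rfl (fun i _ => ?_)
  rcases le_total (s i) (t i) with h | h
  · rw [min_eq_left h]; omega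
  · rw [min_eq_right h]; omega

lemma geo_one (y : ℝ) (hy0 : 0 ≤ y) (hy : y < 1) (a n : ℕ) :
    ∑ t ∈ range n, y ^ ((a - t) + (t - a)) ≤ 2 / (1 - y) := by
  have hg : ∀ N : ℕ, ∑ t ∈ range N, y ^ t ≤ 1 / (1 - y) := by
    intro N
    rw [geom_sum_eq (by linarith : y ≠ 1)]
    rw [show (y ^ N - 1) / (y - 1) = (1 - y ^ N) / (1 - y) by
      rw [← neg_div_neg_eq]
      congr 1 <;> ring]
    have : 0 ≤ y ^ N := by positivity
    exact div_le_div_of_nonneg_right (by linarith) (by linarith)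
  have h0 : ∀ t, 0 ≤ y ^ ((a - t) + (t - a)) := fun t => by positivity
  calc ∑ t ∈ range n, y ^ ((a - t) + (t - a))
      ≤ ∑ t ∈ range (a + 1) ∪ (range n \ range (a + 1)), y ^ ((a - t) + (t - a)) := by
        refine Finset.sum_le_sum_of_subset_of_nonneg ?_ (fun t _ _ => h0 t)
        intro t ht
        by_cases h : t ∈ range (a + 1)
        · exact mem_union_left _ h
        · exact mem_union_right _ (mem_sdiff.2 ⟨ht, h⟩)
    _ = ∑ t ∈ range (a + 1), y ^ ((a - t) + (t - a))
        + ∑ t ∈ range n \ range (a + 1), y ^ ((a - t) + (t - a)) :=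
        Finset.sum_union Finset.disjoint_sdiff
    _ ≤ 1 / (1 - y) + 1 / (1 - y) := by
        refine add_le_add ?_ ?_
        · have : ∑ t ∈ range (a + 1), y ^ ((a - t) + (t - a)) = ∑ t ∈ range (a + 1), y ^ t := by
            rw [← Finset.sum_range_reflect (fun t => y ^ t)]
            refine Finset.sum_congr rfl (fun t ht => ?_)
            rw [mem_range] at ht
            congr 1
            omega
          rw [this]
          exact hg _
        · have : ∑ t ∈ range n \ range (a + 1), y ^ ((a - t) + (t - a))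
              ≤ ∑ t ∈ range n, y ^ t := by
            calc ∑ t ∈ range n \ range (a + 1), y ^ ((a - t) + (t - a))
                = ∑ t ∈ (range n \ range (a + 1)).image (fun t => t - a), y ^ t := by
                  rw [Finset.sum_image]
                  · refine Finset.sum_congr rfl (fun t ht => ?_)
                    rw [mem_sdiff, mem_range, mem_range] at ht
                    congr 1
                    omega
                  · intro t ht u hu h
                    have ht' := Finset.mem_coe.1 ht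
                    have hu' := Finset.mem_coe.1 hu
                    rw [mem_sdiff, mem_range, mem_range] at ht' hu'
                    have h' : t - a = u - a := h
                    omega
              _ ≤ ∑ t ∈ range n, y ^ t := by
                  refine Finset.sum_le_sum_of_subset_of_nonneg ?_ (fun t _ _ => by positivity)
                  intro t ht
                  obtain ⟨u, hu, rfl⟩ := Finset.mem_image.1 ht
                  rw [mem_sdiff, mem_range, mem_range] at hu
                  rw [mem_range]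
                  omega
          exact this.trans (hg _)
    _ = 2 / (1 - y) := by ring

lemma geo_sum (y : ℝ) (hy0 : 0 ≤ y) (hy : y < 1) (s : Fin d → ℕ) (l : ℕ) :
    ∑ t ∈ Sl d l, y ^ (dst s t) ≤ (2 / (1 - y)) ^ d := by
  calc ∑ t ∈ Sl d l, y ^ (dst s t)
      ≤ ∑ t ∈ Fintype.piFinset (fun _ : Fin d => Finset.range (l + 1)), y ^ (dst s t) :=
        Finset.sum_le_sum_of_subset_of_nonneg (Finset.filter_subset _ _) (fun t _ _ => by positivity)
    _ = ∑ t ∈ Fintype.piFinset (fun _ : Fin d => Finset.range (l + 1)),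
        ∏ i, y ^ ((s i - t i) + (t i - s i)) := by
        refine Finset.sum_congr rfl (fun t _ => ?_)
        unfold dst
        rw [Finset.prod_pow_eq_pow_sum]
    _ = ∏ i : Fin d, ∑ t ∈ range (l + 1), y ^ ((s i - t) + (t - s i)) := by
        rw [Finset.prod_univ_sum]
    _ ≤ ∏ i : Fin d, 2 / (1 - y) :=
        Finset.prod_le_prod (fun i _ => Finset.sum_nonneg (fun t _ => by positivity))
          (fun i _ => geo_one y hy0 hy (s i) (l + 1))
    _ = _ := by
        rw [Finset.prod_const, Finset.card_univ, Fintype.card_fin]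

/-- the pointwise inequality -/
lemma pointwise (S : Finset (Fin d → ℕ)) (u : (Fin d → ℕ) → ℝ) (hu : ∀ s ∈ S, 0 ≤ u s)
    (ω : ℝ) (hω : 1 < ω) (C : ℝ) (hC : ∀ s ∈ S, ∑ t ∈ S, (1 / ω) ^ (dst s t) ≤ C)
    (κ : ℕ) (hκ : 1 ≤ κ) :
    (∑ s ∈ S, u s) ^ (2 * κ) ≤ C ^ (2 * κ) * ∑ s ∈ S, ∑ t ∈ S,
      (ω ^ (2 * κ)) ^ (dst s t) * (u s * u t) ^ κ := by
  rcases S.eq_empty_or_nonempty with hS | hS
  · rw [hS]
    simp only [Finset.sum_empty, mul_zero]
    rw [zero_pow (by omega)]
  obtain ⟨s0, hs0, hmax⟩ := Finset.exists_max_image S u hS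
  obtain ⟨⟨a, b⟩, hab, hmax2⟩ := Finset.exists_max_image (S ×ˢ S)
    (fun q => ω ^ (dst q.1 q.2) * Real.sqrt (u q.1 * u q.2)) (hS.product hS)
  set T := ω ^ (dst a b) * Real.sqrt (u a * u b) with hT
  rw [mem_product] at hab
  have hω0 : 0 < ω := by linarith
  have hT0 : 0 ≤ T := by positivity
  have h1 : ∀ s ∈ S, u s ≤ T * (1 / ω) ^ (dst s0 s) := by
    intro s hs
    have e1 := hmax2 (s0, s) (mem_product.2 ⟨hs0, hs⟩)
    have e2 : u s ≤ Real.sqrt (u s0 * u s) := by
      refine Real.le_sqrt_of_sq_le ?_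
      have := hmax s hs
      nlinarith [hu s hs]
    have e3 : ω ^ (dst s0 s) * Real.sqrt (u s0 * u s) ≤ T := e1
    have e4 : 0 < ω ^ (dst s0 s) := by positivity
    calc u s ≤ Real.sqrt (u s0 * u s) := e2
      _ = (ω ^ (dst s0 s) * Real.sqrt (u s0 * u s)) * (1 / ω) ^ (dst s0 s) := by
          rw [one_div, inv_pow]
          field_simp
      _ ≤ T * (1 / ω) ^ (dst s0 s) := by gcongr
  have h2 : ∑ s ∈ S, u s ≤ T * C := by
    refine (Finset.sum_le_sum h1).trans ?_
    rw [← Finset.mul_sum]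
    exact mul_le_mul_of_nonneg_left (hC s0 hs0) hT0
  have h0 : 0 ≤ ∑ s ∈ S, u s := Finset.sum_nonneg hu
  have hC0 : 0 ≤ C ^ (2 * κ) := by
    rw [pow_mul]
    positivity
  have h3 : T ^ (2 * κ) = (ω ^ (2 * κ)) ^ (dst a b) * (u a * u b) ^ κ := by
    have e1 : 0 ≤ u a * u b := mul_nonneg (hu a hab.1) (hu b hab.2)
    rw [hT, mul_pow, ← pow_mul, ← pow_mul, pow_mul (Real.sqrt (u a * u b)) 2 κ, Real.sq_sqrt e1]
    congr 2
    ring
  have h4 : (ω ^ (2 * κ)) ^ (dst a b) * (u a * u b) ^ κ ≤ ∑ s ∈ S, ∑ t ∈ S,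
      (ω ^ (2 * κ)) ^ (dst s t) * (u s * u t) ^ κ := by
    have hn : ∀ s ∈ S, ∀ t ∈ S, 0 ≤ (ω ^ (2 * κ)) ^ (dst s t) * (u s * u t) ^ κ := by
      intro s hs t ht
      have := mul_nonneg (hu s hs) (hu t ht)
      positivity
    refine le_trans ?_ (Finset.single_le_sum (f := fun s => ∑ t ∈ S,
      (ω ^ (2 * κ)) ^ (dst s t) * (u s * u t) ^ κ)
      (fun s hs => Finset.sum_nonneg (hn s hs)) hab.1)
    exact Finset.single_le_sum (f := fun t => (ω ^ (2 * κ)) ^ (dst a t) * (u a * u t) ^ κ)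
      (hn a hab.1) hab.2
  calc (∑ s ∈ S, u s) ^ (2 * κ) ≤ (T * C) ^ (2 * κ) := pow_le_pow_left₀ h0 h2 _
    _ = C ^ (2 * κ) * T ^ (2 * κ) := by rw [mul_pow]; ring
    _ ≤ _ := by
        rw [h3]
        exact mul_le_mul_of_nonneg_left h4 hC0

end

end Pool.Agent.H75.UB
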