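import Pool.Agent.H75.UB.Sel

set_option autoImplicit false
set_option linter.unusedSectionVars false

/-! All dyadic blocks of a layer: the concentrated parts. -/

open Finset ComplexConjugate

open scoped Classical

namespace Pool.Agent.H75.UB

open Pool.Agent.H75.MT

noncomputable section

variable {d : ℕ}

lemma fbox_empty (s : Fin d → ℕ) (a : (Fin d → ℕ) → ℂ) (x : Fin d → ℝ) : fbox s ∅ a x = 0 := by
  unfold fbox Ac
  simp

lemma fbox_split (s : Fin d → ℕ) (R R' : Finset (Fin d → ℕ)) (h : R' ⊆ R) (a : (Fin d → ℕ) → ℂ)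
    (x : Fin d → ℝ) : fbox s R a x = fbox s (R \ R') a x + fbox s R' a x := by
  unfold fbox Ac
  rw [← Finset.sum_add_distrib]
  refine Finset.sum_congr rfl (fun k _ => ?_)
  rw [← Finset.sum_sdiff h]
  ring

lemma fbox_fiber (s : Fin d → ℕ) (Z : Finset (Fin d → ℕ)) (f : (Fin d → ℕ) → ℕ) (n : ℕ)
    (hf : ∀ ζ ∈ Z, f ζ < n) (a : (Fin d → ℕ) → ℂ) (x : Fin d → ℝ) :
    fbox s Z a x = ∑ J ∈ Finset.range n, fbox s (Z.filter (fun ζ => f ζ = J)) a x := by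
  unfold fbox Ac
  rw [Finset.sum_comm]
  refine Finset.sum_congr rfl (fun k _ => ?_)
  rw [← Finset.sum_mul]
  congr 1
  exact (Finset.sum_fiberwise_of_maps_to (fun ζ hζ => mem_range.2 (hf ζ hζ)) _).symm

/-- assumptions on a family of blocks -/
structure FH {ι : Type*} [Fintype ι] (s : ι → Fin d → ℕ) (i0 : ι → Fin d) (g : ι → ℕ)
    (Z : ι → Finset (Fin d → ℕ)) (a : ι → (Fin d → ℕ) → ℂ) (β : ι → ℝ) (τ : ℝ)
    (Jm m L L2 L3 K0 : ℕ) : Prop where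
  hB : ∀ i, BH (s i) (i0 i) (g i) (Z i) (a i) (β i) τ Jm L3
  hτ : 0 < τ
  hsum : 256 * ((Jm : ℝ) + 9) * ∑ i, 2 ^ (g i) * (β i) ^ 2 ≤ τ ^ 2
  hm1 : ∀ i, m * 2 ^ Jm ≤ 2 ^ (s i (i0 i))
  hJs : ∀ i, Jm + g i ≤ s i (i0 i)
  hmm : 2 * Jm + L3 + K0 ≤ m + 1
  hL : d * L2 + Jm + 1 ≤ L
  hL' : 2 * Jm + L3 ≤ L
  hθ : 26 * (d : ℝ) / 2 ^ L2 ≤ 1 / 2
  hι : (Fintype.card ι : ℝ) * (1 / 2 ^ K0 + 52 * d / 2 ^ L2) ≤ 1

variable {ι : Type*} [Fintype ι] {s : ι → Fin d → ℕ} {i0 : ι → Fin d} {g : ι → ℕ}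
    {Z : ι → Finset (Fin d → ℕ)} {a : ι → (Fin d → ℕ) → ℂ} {β : ι → ℝ} {τ : ℝ}
    {Jm m L L2 L3 K0 : ℕ}

/-- the number of frequencies of one block -/
def MM (s : ι → Fin d → ℕ) (g : ι → ℕ) (m : ℕ) (i : ι) : ℕ :=
  2 * (m + 1) ^ 2 * 2 ^ (∑ j, s i j + d + 1 - g i)

/-- the elementary error -/
def E1 (d : ℕ) (τ : ℝ) (Jm L : ℕ) : ℝ := 480 * ((L : ℝ) + 6) ^ 2 * τ * (d * Jm + 3)

lemma count_block (F : FH s i0 g Z a β τ Jm m L L2 L3 K0) (i : ι) (J : ℕ) (hJ : J ≤ Jm)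
    (hgJ : g i ≤ J) :
    #(KK (s i) (i0 i) J m) * ((m + 1) * ((m + 1) * 2 ^ (J - g i))) + #(Thin (s i) (i0 i) J m)
      ≤ MM s g m i := by
  have hJs := F.hJs i
  have hm1 := F.hm1 i
  have hJ' : J ≤ s i (i0 i) := by omega
  have hsl : s i (i0 i) ≤ ∑ j, s i j := Finset.single_le_sum (fun _ _ => Nat.zero_le _)
    (mem_univ _)
  have hd : 1 ≤ d := by
    have := (i0 i).2
    omega
  set l := ∑ j, s i j with hl
  have hm2 : m ≤ 2 ^ (s i (i0 i) - J + 1) := by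
    have h1 : m * 2 ^ J ≤ 2 ^ (s i (i0 i)) :=
      (Nat.mul_le_mul_left _ (Nat.pow_le_pow_right (by norm_num) hJ)).trans hm1
    have h2 : 2 ^ (s i (i0 i)) = 2 ^ (s i (i0 i) - J) * 2 ^ J := by
      rw [← pow_add, Nat.sub_add_cancel hJ']
    rw [h2] at h1
    have h3 := Nat.le_of_mul_le_mul_right h1 (by positivity)
    rw [pow_succ]
    omega
  have h1 := KK_upper (s i) (i0 i) J m hJ' hm2
  have h2 : #(KK (s i) (i0 i) J m) * 2 ^ (J - g i) ≤ 2 ^ (l + d + 1 - g i) := by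
    have e1 : 2 ^ J = 2 ^ (J - g i) * 2 ^ (g i) := by rw [← pow_add, Nat.sub_add_cancel hgJ]
    have e2 : 2 ^ (l + d + 1) = 2 ^ (l + d + 1 - g i) * 2 ^ (g i) := by
      rw [← pow_add]
      congr 1
      omega
    rw [e1, e2, ← mul_assoc] at h1
    exact Nat.le_of_mul_le_mul_right h1 (by positivity)
  have h3 := Thin_card (s i) (i0 i) J m
  have h4 : #(Thin (s i) (i0 i) J m) ≤ (m + 1) * 2 ^ (l + d + 1 - g i) := by
    have e1 : (m + 1) * 2 ^ (l + J + d) ≤ ((m + 1) * 2 ^ (l + d + 1 - g i)) * 2 ^ (s i (i0 i)) := by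
      rw [mul_assoc, ← pow_add]
      refine Nat.mul_le_mul_left _ (Nat.pow_le_pow_right (by norm_num) ?_)
      omega
    exact Nat.le_of_mul_le_mul_right (h3.trans e1) (by positivity)
  unfold MM
  rw [← hl]
  calc #(KK (s i) (i0 i) J m) * ((m + 1) * ((m + 1) * 2 ^ (J - g i))) + #(Thin (s i) (i0 i) J m)
      = (m + 1) ^ 2 * (#(KK (s i) (i0 i) J m) * 2 ^ (J - g i)) + #(Thin (s i) (i0 i) J m) := by ring
    _ ≤ (m + 1) ^ 2 * 2 ^ (l + d + 1 - g i) + (m + 1) * 2 ^ (l + d + 1 - g i) := by gcongr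
    _ ≤ (m + 1) ^ 2 * 2 ^ (l + d + 1 - g i) + (m + 1) ^ 2 * 2 ^ (l + d + 1 - g i) := by
        have : (m + 1) ≤ (m + 1) ^ 2 := by nlinarith
        gcongr
    _ = _ := by ring

lemma block_hyp (F : FH s i0 g Z a β τ Jm m L L2 L3 K0) (i : ι) (J : ℕ) (hJ : J ≤ Jm)
    (hJg : 64 * 2 ^ (g i) * (Jm + 9) ≤ 2 ^ J) (R : Finset (Fin d → ℕ))
    (hR : ∀ ζ ∈ R, ζ ∈ Z i ∧ Jl (s i) (i0 i) (Z i) (a i) (β i) τ Jm ζ = J) (b : ℕ)
    (hb : b ∈ goodB (s i) (i0 i) (g i) J (Z i) (a i) (β i) τ R) :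
    Hyp (s i) (i0 i) J (g i) m b L L2
      (R \ badZ (s i) (i0 i) (g i) J (Z i) (a i) (β i) τ R b) (a i) τ (τ / 2 ^ K0) := by
  have B := F.hB i
  have hτ := F.hτ
  have hJs := F.hJs i
  rw [goodB, mem_filter] at hb
  obtain ⟨_, hodd, hself, _⟩ := hb
  have hgJ : g i ≤ J := by
    have h1 : 2 ^ (g i) ≤ 2 ^ J := by
      refine le_trans ?_ hJg
      nlinarith [Nat.one_le_two_pow (n := g i)]
    exact (Nat.pow_le_pow_iff_right (by norm_num)).1 h1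
  have hJ1 : 1 ≤ J := by
    by_contra h
    have h0 : J = 0 := by omega
    rw [h0] at hJg
    have h2 : 1 ≤ 2 ^ (g i) := Nat.one_le_two_pow
    simp only [pow_zero] at hJg
    nlinarith
  set Z' := R \ badZ (s i) (i0 i) (g i) J (Z i) (a i) (β i) τ R b with hZ'
  have hZ'Z : Z' ⊆ Z i := fun ζ hζ => (hR ζ (Finset.sdiff_subset hζ)).1
  have hNT : (0 : ℝ) < NT (s i) := by exact_mod_cast NT_pos (s i)
  -- the ℓ_1 norm
  have hS : (NT (s i) : ℝ) * (S1 (s i) Z' (a i)) ^ 2 ≤ 2 ^ L3 * (β i) ^ 2 := by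
    unfold S1
    rw [← Finset.sum_div, div_pow]
    have h1 : (∑ ζ ∈ Z', ‖a i ζ‖) ^ 2 ≤ #Z' * ∑ ζ ∈ Z', ‖a i ζ‖ ^ 2 := sq_sum_le_card_mul_sum_sq
    have h2 : (#Z' : ℝ) ≤ 2 ^ L3 := by
      exact_mod_cast (Finset.card_le_card hZ'Z).trans B.hcard
    have h3 : (∑ ζ ∈ Z', ‖a i ζ‖ ^ 2) ≤ (β i) ^ 2 * NT (s i) := by
      have h4 := B.hen
      rw [div_le_iff₀ hNT] at h4
      refine le_trans ?_ h4
      exact Finset.sum_le_sum_of_subset_of_nonneg hZ'Z (fun ζ _ _ => sq_nonneg _)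
    have h5 : (∑ ζ ∈ Z', ‖a i ζ‖) ^ 2 ≤ 2 ^ L3 * ((β i) ^ 2 * NT (s i)) := by
      refine h1.trans (mul_le_mul h2 h3 (Finset.sum_nonneg (fun _ _ => sq_nonneg _)) (by positivity))
    calc (NT (s i) : ℝ) * ((∑ ζ ∈ Z', ‖a i ζ‖) ^ 2 / (NT (s i) : ℝ) ^ 2)
        = (∑ ζ ∈ Z', ‖a i ζ‖) ^ 2 / NT (s i) := by field_simp
      _ ≤ (2 ^ L3 * ((β i) ^ 2 * NT (s i))) / NT (s i) := by gcongr
      _ = 2 ^ L3 * (β i) ^ 2 := by field_simp
  have hβτ : (β i) ^ 2 ≤ τ ^ 2 := by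
    have h1 := B.hτ2
    have h2 : (1 : ℝ) ≤ 2 ^ (g i) := one_le_pow₀ (by norm_num)
    have h3 : (0 : ℝ) ≤ Jm := by positivity
    have h4 : (β i) ^ 2 ≤ 2 ^ (g i) * (β i) ^ 2 := by nlinarith [sq_nonneg (β i)]
    have h5 : 0 ≤ 2 ^ (g i) * (β i) ^ 2 := by positivity
    nlinarith
  refine ⟨hJ1, by omega, hgJ, ?_, ?_, hodd, ?_, by omega, F.hθ, ?_, hτ, by positivity, ?_, ?_, ?_,
    ?_, ?_⟩
  · exact (Nat.mul_le_mul_left _ (Nat.pow_le_pow_right (by norm_num) hJ)).trans (F.hm1 i)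
  · have := F.hmm
    omega
  · have := F.hL
    omega
  · intro ζ hζ
    exact B.hZ ζ (hZ'Z hζ)
  · exact div_le_self hτ.le (one_le_pow₀ (by norm_num))
  · intro t
    exact good_H B J R hR b hself t
  · intro t h _ _
    exact good_E B J R Z' Finset.sdiff_subset hR b t h
  · have h1 : (NT (s i) : ℝ) * (2 ^ J * (2 ^ J * (1 / 2) ^ (m + 1) * S1 (s i) Z' (a i))) ^ 2
        = (2 ^ J) ^ 4 * ((1 / 2) ^ (m + 1)) ^ 2 * (NT (s i) * (S1 (s i) Z' (a i)) ^ 2) := by ring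
    rw [h1]
    have h2 : (2 : ℝ) ^ J ≤ 2 ^ Jm := pow_le_pow_right₀ (by norm_num) hJ
    have h3 : ((1 : ℝ) / 2) ^ (m + 1) ≤ (1 / 2) ^ (2 * Jm + L3 + K0) :=
      pow_le_pow_of_le_one (by norm_num) (by norm_num) F.hmm
    have hS' : (NT (s i) : ℝ) * (S1 (s i) Z' (a i)) ^ 2 ≤ 2 ^ L3 * τ ^ 2 := hS.trans (by gcongr)
    have hS0 : 0 ≤ (NT (s i) : ℝ) * (S1 (s i) Z' (a i)) ^ 2 := by positivity
    generalize (NT (s i) : ℝ) * (S1 (s i) Z' (a i)) ^ 2 = W at hS' hS0 ⊢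
    calc ((2 : ℝ) ^ J) ^ 4 * ((1 / 2) ^ (m + 1)) ^ 2 * W
        ≤ ((2 : ℝ) ^ Jm) ^ 4 * ((1 / 2) ^ (2 * Jm + L3 + K0)) ^ 2 * (2 ^ L3 * τ ^ 2) := by
          gcongr
      _ = (2 ^ Jm * (1 / 2) ^ Jm) ^ 4 * (2 ^ L3 * (1 / 2) ^ L3) * (1 / 2) ^ L3
          * ((1 / 2) ^ K0) ^ 2 * τ ^ 2 := by
          rw [pow_add, pow_add, pow_mul']
          ring
      _ ≤ 1 ^ 4 * 1 * 1 * ((1 / 2) ^ K0) ^ 2 * τ ^ 2 := by
          have e1 : (2 : ℝ) ^ Jm * (1 / 2) ^ Jm = 1 := by rw [← mul_pow]; norm_num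
          have e2 : (2 : ℝ) ^ L3 * (1 / 2) ^ L3 = 1 := by rw [← mul_pow]; norm_num
          have e3 : ((1 : ℝ) / 2) ^ L3 ≤ 1 := pow_le_one₀ (by norm_num) (by norm_num)
          rw [e1, e2]
          gcongr
      _ = (τ / 2 ^ K0) ^ 2 := by
          rw [one_div_pow]
          ring
  · have h1 : (NT (s i) : ℝ) * (2 ^ J * S1 (s i) Z' (a i)) ^ 2
        = (2 ^ J) ^ 2 * (NT (s i) * (S1 (s i) Z' (a i)) ^ 2) := by ring
    rw [h1]
    have h2 : (2 : ℝ) ^ J ≤ 2 ^ Jm := pow_le_pow_right₀ (by norm_num) hJ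
    have hS' : (NT (s i) : ℝ) * (S1 (s i) Z' (a i)) ^ 2 ≤ 2 ^ L3 * τ ^ 2 := hS.trans (by gcongr)
    have hS0 : 0 ≤ (NT (s i) : ℝ) * (S1 (s i) Z' (a i)) ^ 2 := by positivity
    generalize (NT (s i) : ℝ) * (S1 (s i) Z' (a i)) ^ 2 = W at hS' hS0 ⊢
    calc ((2 : ℝ) ^ J) ^ 2 * W
        ≤ (2 ^ Jm) ^ 2 * (2 ^ L3 * τ ^ 2) := by
          gcongr
      _ = 2 ^ (2 * Jm + L3) * τ ^ 2 := by
          rw [pow_add, pow_mul']
          ring
      _ ≤ 2 ^ L * τ ^ 2 := by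
          gcongr
          · norm_num
          · exact F.hL'

/-- the block `i` is hit by the type `θ` -/
def chi (s : ι → Fin d → ℕ) (i0 : ι → Fin d) (g : ι → ℕ) (R : ι → Finset (Fin d → ℕ)) (J Jm : ℕ)
    (i : ι) (θ : Fin d → Fin (2 ^ Jm)) (b : ℕ) : Prop :=
  ∃ ζ ∈ R i, hitB (2 ^ J) (2 ^ (g i))
    (((θ (i0 i) : ℕ) : ℝ) / (2 ^ Jm : ℕ) - pos (s i) (i0 i) ζ) (3 / 2 ^ J) b

lemma stage (F : FH s i0 g Z a β τ Jm m L L2 L3 K0) (J : ℕ) (hJ : J ≤ Jm)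
    (R : ι → Finset (Fin d → ℕ))
    (hR : ∀ i, ∀ ζ ∈ R i, ζ ∈ Z i ∧ Jl (s i) (i0 i) (Z i) (a i) (β i) τ Jm ζ = J) :
    ∃ R' : ι → Finset (Fin d → ℕ), (∀ i, R' i ⊆ R i ∧ 2 * #(R' i) ≤ #(R i)) ∧
      ∃ G, TP d (∑ i, MM s g m i) G ∧
        ∀ x, ‖∑ i, fbox (s i) (R i \ R' i) (a i) x - G x‖ ≤ E1 d τ Jm L := by
  have hτ := F.hτ
  set P : ι → Finset ℕ := fun i => if (R i).Nonempty then
    goodB (s i) (i0 i) (g i) J (Z i) (a i) (β i) τ (R i) else {1} with hP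
  have hJg : ∀ i, (R i).Nonempty → 64 * 2 ^ (g i) * (Jm + 9) ≤ 2 ^ J := by
    rintro i ⟨ζ, hζ⟩
    have := Jl_ge (F.hB i) ζ
    rwa [(hR i ζ hζ).2] at this
  have hPlow : ∀ i, (R i).Nonempty → (3 / 8 : ℝ) * 2 ^ J ≤ #(P i) := by
    intro i hi
    simp only [hP, if_pos hi]
    exact goodB_card (F.hB i) J hJ (hJg i hi) (R i) hi
  obtain ⟨b, hbP, hbθ⟩ := select P (chi s i0 g R J Jm)
    (fun i => 64 / 3 * ((Jm : ℝ) + 9) * (2 ^ (g i) * (β i) ^ 2) / τ ^ 2)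
    (by
      intro i
      by_cases hi : (R i).Nonempty
      · have h1 := hPlow i hi
        have h2 : (0 : ℝ) < #(P i) := lt_of_lt_of_le (by positivity) h1
        exact Finset.card_pos.1 (by exact_mod_cast h2)
      · simp only [hP, if_neg hi]
        exact Finset.singleton_nonempty 1)
    (by
      intro i θ
      by_cases hi : (R i).Nonempty
      · have h1 := hPlow i hi
        have h2 := hit_R (F.hB i) J hJ (R i) (hR i) (((θ (i0 i) : ℕ) : ℝ) / (2 ^ Jm : ℕ))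
        have h3 : (#((P i).filter (fun b => chi s i0 g R J Jm i θ b)) : ℝ)
            ≤ #((Finset.range (2 ^ J)).filter (fun b => ∃ ζ ∈ R i, hitB (2 ^ J) (2 ^ (g i))
              (((θ (i0 i) : ℕ) : ℝ) / (2 ^ Jm : ℕ) - pos (s i) (i0 i) ζ) (3 / 2 ^ J) b)) := by
          have : (P i).filter (fun b => chi s i0 g R J Jm i θ b) ⊆ (Finset.range (2 ^ J)).filter
              (fun b => ∃ ζ ∈ R i, hitB (2 ^ J) (2 ^ (g i))
              (((θ (i0 i) : ℕ) : ℝ) / (2 ^ Jm : ℕ) - pos (s i) (i0 i) ζ) (3 / 2 ^ J) b) := by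
            intro b hb
            rw [mem_filter] at hb ⊢
            refine ⟨?_, hb.2⟩
            have := hb.1
            simp only [hP, if_pos hi] at this
            rw [goodB, mem_filter] at this
            exact this.1
          exact_mod_cast Finset.card_le_card this
        refine (h3.trans h2).trans ?_
        have h4 : (0 : ℝ) ≤ 64 / 3 * ((Jm : ℝ) + 9) * (2 ^ (g i) * (β i) ^ 2) / τ ^ 2 := by
          positivity
        calc (2 : ℝ) ^ J * (8 * (2 ^ (g i) * (β i) ^ 2) * ((Jm : ℝ) + 9) / τ ^ 2)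
            = 64 / 3 * ((Jm : ℝ) + 9) * (2 ^ (g i) * (β i) ^ 2) / τ ^ 2 * ((3 / 8 : ℝ) * 2 ^ J) := by
              ring
          _ ≤ _ := mul_le_mul_of_nonneg_left h1 h4
      · have h1 : (P i).filter (fun b => chi s i0 g R J Jm i θ b) = ∅ := by
          rw [Finset.filter_eq_empty_iff]
          rintro b _ ⟨ζ, hζ, _⟩
          exact hi ⟨ζ, hζ⟩
        rw [h1]
        simp only [card_empty, Nat.cast_zero]
        positivity)
    (by
      rw [← Finset.sum_div, ← Finset.mul_sum, div_le_one (by positivity)]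
      have h1 := F.hsum
      have h2 : 0 ≤ ((Jm : ℝ) + 9) * ∑ i, 2 ^ (g i) * (β i) ^ 2 := by positivity
      nlinarith)
  set R' : ι → Finset (Fin d → ℕ) := fun i =>
    badZ (s i) (i0 i) (g i) J (Z i) (a i) (β i) τ (R i) (b i) with hR'
  have hex : ∀ i, ∃ G, TP d (MM s g m i) G ∧ ∀ x, ‖fbox (s i) (R i \ R' i) (a i) x - G x‖
      ≤ (if ∃ ζ ∈ R i, hitB (2 ^ J) (2 ^ (g i)) (x (i0 i) - pos (s i) (i0 i) ζ) (2 / 2 ^ J) (b i)
        then 480 * ((L : ℝ) + 6) ^ 2 * τ else 0)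
        + 480 * ((L : ℝ) + 6) ^ 2 * τ * (1 / 2 ^ K0 + 52 * d / 2 ^ L2) := by
    intro i
    by_cases hi : (R i).Nonempty
    · have hbi := hbP i
      simp only [hP, if_pos hi] at hbi
      have H := block_hyp F i J hJ (hJg i hi) (R i) (hR i) (b i) hbi
      obtain ⟨G, hG1, hG2⟩ := block_thin H
      refine ⟨G, hG1.mono (count_block F i J hJ H.hg), fun x => (hG2 x).trans ?_⟩
      have h1 : (if ∃ ζ ∈ R i \ R' i, hitB (2 ^ J) (2 ^ (g i)) (x (i0 i) - pos (s i) (i0 i) ζ)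
          (2 / 2 ^ J) (b i) then 480 * ((L : ℝ) + 6) ^ 2 * τ else 0)
          ≤ (if ∃ ζ ∈ R i, hitB (2 ^ J) (2 ^ (g i)) (x (i0 i) - pos (s i) (i0 i) ζ) (2 / 2 ^ J) (b i)
        then 480 * ((L : ℝ) + 6) ^ 2 * τ else 0) := by
        split_ifs with hA hB hB
        · exact le_rfl
        · exfalso
          apply hB
          obtain ⟨ζ, hζ, h⟩ := hA
          exact ⟨ζ, (Finset.mem_sdiff.1 hζ).1, h⟩
        · positivity
        · exact le_rfl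
      have h2 : 96 * ((L : ℝ) + 6) ^ 2 * (τ / 2 ^ K0) ≤ 480 * ((L : ℝ) + 6) ^ 2 * τ * (1 / 2 ^ K0) := by
        have : 0 ≤ ((L : ℝ) + 6) ^ 2 * (τ / 2 ^ K0) := by positivity
        calc 96 * ((L : ℝ) + 6) ^ 2 * (τ / 2 ^ K0) = 96 * (((L : ℝ) + 6) ^ 2 * (τ / 2 ^ K0)) := by ring
          _ ≤ 480 * (((L : ℝ) + 6) ^ 2 * (τ / 2 ^ K0)) := by linarith
          _ = _ := by ring
      have h3 : 26 * d / 2 ^ L2 * (960 * ((L : ℝ) + 6) ^ 2 * τ)
          = 480 * ((L : ℝ) + 6) ^ 2 * τ * (52 * d / 2 ^ L2) := by ring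
      rw [h3]
      rw [mul_add]
      linarith
    · rw [Finset.not_nonempty_iff_eq_empty] at hi
      refine ⟨fun _ => 0, TP_zero d _, fun x => ?_⟩
      have h1 : R i \ R' i = ∅ := by rw [hi]; simp
      rw [h1, fbox_empty]
      simp only [sub_zero, norm_zero]
      have : 0 ≤ (if ∃ ζ ∈ R i, hitB (2 ^ J) (2 ^ (g i)) (x (i0 i) - pos (s i) (i0 i) ζ)
          (2 / 2 ^ J) (b i) then 480 * ((L : ℝ) + 6) ^ 2 * τ else 0) := by
        split_ifs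
        · positivity
        · exact le_rfl
      have h2 : 0 ≤ 480 * ((L : ℝ) + 6) ^ 2 * τ * (1 / 2 ^ K0 + 52 * d / 2 ^ L2) := by positivity
      linarith
  choose G hG1 hG2 using hex
  refine ⟨R', ?_, fun x => ∑ i, G i x, TP.sum univ (MM s g m) G (fun i _ => hG1 i), ?_⟩
  · intro i
    refine ⟨Finset.filter_subset _ _, ?_⟩
    by_cases hi : (R i).Nonempty
    · have hbi := hbP i
      simp only [hP, if_pos hi] at hbi
      rw [goodB, mem_filter] at hbi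
      exact hbi.2.2.2
    · rw [Finset.not_nonempty_iff_eq_empty] at hi
      simp only [hR', badZ, hi]
      simp
  · intro x
    rw [← Finset.sum_sub_distrib]
    refine (norm_sum_le _ _).trans ((Finset.sum_le_sum (fun i _ => hG2 i x)).trans ?_)
    rw [Finset.sum_add_distrib, ← Finset.sum_filter, Finset.sum_const, Finset.sum_const,
      nsmul_eq_mul, nsmul_eq_mul, Finset.card_univ]
    -- the type of x
    obtain ⟨ξ, hξ, n, hn⟩ := grid_near (fun _ : Fin d => 2 ^ Jm) (fun _ => by positivity) x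
    set θ : Fin d → Fin (2 ^ Jm) := fun i => ⟨ξ i, hξ i⟩ with hθ
    have h1 := hbθ θ
    have hsub : (univ.filter (fun i => ∃ ζ ∈ R i, hitB (2 ^ J) (2 ^ (g i))
        (x (i0 i) - pos (s i) (i0 i) ζ) (2 / 2 ^ J) (b i)))
        ⊆ univ.filter (fun i => chi s i0 g R J Jm i θ (b i)) := by
      intro i hi
      rw [mem_filter] at hi ⊢
      obtain ⟨_, ζ, hζ, h, h0, hH, hnr⟩ := hi
      refine ⟨mem_univ i, ζ, hζ, h, h0, hH, ?_⟩
      have h3 : near (x (i0 i) - (gp (fun _ : Fin d => 2 ^ Jm) ξ (i0 i) + n (i0 i))) (1 / 2 ^ J) := by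
        refine near_of_abs ((hn (i0 i)).trans ?_)
        push_cast
        exact one_div_le_one_div_of_le (by positivity) (pow_le_pow_right₀ (by norm_num) hJ)
      have h4 := (near_add_int _ _ (n (i0 i))).1 (by
        have h5 := hnr.sub h3
        have h6 : (2 : ℝ) / 2 ^ J + 1 / 2 ^ J = 3 / 2 ^ J := by ring
        rw [h6] at h5
        have h7 : x (i0 i) - pos (s i) (i0 i) ζ + h * b i / (2 ^ J : ℕ)
            - (x (i0 i) - (gp (fun _ : Fin d => 2 ^ Jm) ξ (i0 i) + n (i0 i)))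
            = (gp (fun _ : Fin d => 2 ^ Jm) ξ (i0 i) - pos (s i) (i0 i) ζ
              + h * b i / (2 ^ J : ℕ)) + n (i0 i) := by ring
        rw [h7] at h5
        exact h5)
      simpa [gp, hθ] using h4
    have hcard : #(univ.filter (fun i => chi s i0 g R J Jm i θ (b i))) ≤ d * Jm + 2 := by
      have h2 : (2 : ℝ) ^ #(univ.filter (fun i => chi s i0 g R J Jm i θ (b i))) ≤ 2 ^ (d * Jm + 2) := by
        refine h1.trans ?_
        rw [Fintype.card_fun, Fintype.card_fin, Fintype.card_fin, ← pow_mul, mul_comm Jm d]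
        push_cast
        rw [pow_add]
        have : (0 : ℝ) < 2 ^ (d * Jm) := by positivity
        linarith
      exact (pow_le_pow_iff_right₀ (by norm_num : (1 : ℝ) < 2)).1 h2
    have hc2 : (#(univ.filter (fun i => ∃ ζ ∈ R i, hitB (2 ^ J) (2 ^ (g i))
        (x (i0 i) - pos (s i) (i0 i) ζ) (2 / 2 ^ J) (b i))) : ℝ) ≤ d * Jm + 2 := by
      exact_mod_cast (Finset.card_le_card hsub).trans hcard
    have hA : (0 : ℝ) ≤ 480 * ((L : ℝ) + 6) ^ 2 * τ := by positivity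
    have h5 : (Fintype.card ι : ℝ) * (480 * ((L : ℝ) + 6) ^ 2 * τ * (1 / 2 ^ K0 + 52 * d / 2 ^ L2))
        ≤ 480 * ((L : ℝ) + 6) ^ 2 * τ * 1 := by
      calc (Fintype.card ι : ℝ) * (480 * ((L : ℝ) + 6) ^ 2 * τ * (1 / 2 ^ K0 + 52 * d / 2 ^ L2))
          = 480 * ((L : ℝ) + 6) ^ 2 * τ
            * ((Fintype.card ι : ℝ) * (1 / 2 ^ K0 + 52 * d / 2 ^ L2)) := by ring
        _ ≤ _ := mul_le_mul_of_nonneg_left F.hι hA
    have h6 := mul_le_mul_of_nonneg_right hc2 hA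
    unfold E1
    calc _ ≤ (d * Jm + 2) * (480 * ((L : ℝ) + 6) ^ 2 * τ) + 480 * ((L : ℝ) + 6) ^ 2 * τ * 1 :=
          add_le_add h6 h5
      _ = _ := by ring

lemma stages (F : FH s i0 g Z a β τ Jm m L L2 L3 K0) (J : ℕ) (hJ : J ≤ Jm) (k : ℕ) :
    ∀ R : ι → Finset (Fin d → ℕ),
    (∀ i, ∀ ζ ∈ R i, ζ ∈ Z i ∧ Jl (s i) (i0 i) (Z i) (a i) (β i) τ Jm ζ = J) →
    (∀ i, #(R i) < 2 ^ k) →
    ∃ G, TP d (k * ∑ i, MM s g m i) G ∧
      ∀ x, ‖∑ i, fbox (s i) (R i) (a i) x - G x‖ ≤ k * E1 d τ Jm L := by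
  induction k with
  | zero =>
    intro R _ hc
    refine ⟨fun _ => 0, TP_zero d _, fun x => ?_⟩
    have h1 : ∀ i, R i = ∅ := by
      intro i
      have := hc i
      rw [pow_zero] at this
      exact Finset.card_eq_zero.1 (by omega)
    have h2 : ∀ i ∈ (univ : Finset ι), fbox (s i) (R i) (a i) x = 0 := by
      intro i _
      rw [h1, fbox_empty]
    rw [Finset.sum_eq_zero h2]
    simp
  | succ k ih =>
    intro R hR hc
    obtain ⟨R', hR', G1, hG1, hG1'⟩ := stage F J hJ R hR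
    obtain ⟨G2, hG2, hG2'⟩ := ih R' (fun i ζ hζ => hR i ζ ((hR' i).1 hζ)) (by
      intro i
      have h1 := (hR' i).2
      have h2 := hc i
      rw [pow_succ] at h2
      omega)
    refine ⟨fun x => G1 x + G2 x, ?_, ?_⟩
    · have := hG1.add hG2
      refine this.mono (le_of_eq ?_)
      ring
    · intro x
      have e1 : ∑ i, fbox (s i) (R i) (a i) x = ∑ i, fbox (s i) (R i \ R' i) (a i) x
          + ∑ i, fbox (s i) (R' i) (a i) x := by
        rw [← Finset.sum_add_distrib]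
        exact Finset.sum_congr rfl (fun i _ => fbox_split (s i) (R i) (R' i) (hR' i).1 (a i) x)
      rw [e1]
      have e2 : ∑ i, fbox (s i) (R i \ R' i) (a i) x + ∑ i, fbox (s i) (R' i) (a i) x
          - (G1 x + G2 x) = (∑ i, fbox (s i) (R i \ R' i) (a i) x - G1 x)
          + (∑ i, fbox (s i) (R' i) (a i) x - G2 x) := by ring
      rw [e2]
      refine (norm_add_le _ _).trans ?_
      have := add_le_add (hG1' x) (hG2' x)
      push_cast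
      linarith

/-- the concentrated parts of all blocks -/
theorem heavy (F : FH s i0 g Z a β τ Jm m L L2 L3 K0) :
    ∃ G, TP d ((Jm + 1) * ((L3 + 1) * ∑ i, MM s g m i)) G ∧
      ∀ x, ‖∑ i, fbox (s i) (Z i) (a i) x - G x‖
        ≤ ((Jm : ℝ) + 1) * (((L3 : ℝ) + 1) * E1 d τ Jm L) := by
  have hex : ∀ J, ∃ G, TP d ((L3 + 1) * ∑ i, MM s g m i) G ∧
      (J ∈ Finset.range (Jm + 1) → ∀ x, ‖∑ i, fbox (s i)
        ((Z i).filter (fun ζ => Jl (s i) (i0 i) (Z i) (a i) (β i) τ Jm ζ = J)) (a i) x - G x‖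
        ≤ ((L3 : ℝ) + 1) * E1 d τ Jm L) := by
    intro J
    by_cases hJ : J ∈ Finset.range (Jm + 1)
    · obtain ⟨G, h1, h2⟩ := stages F J (by rw [mem_range] at hJ; omega) (L3 + 1)
        (fun i => (Z i).filter (fun ζ => Jl (s i) (i0 i) (Z i) (a i) (β i) τ Jm ζ = J))
        (fun i ζ hζ => Finset.mem_filter.1 hζ) (by
          intro i
          have h3 := (Finset.card_filter_le (Z i)
            (fun ζ => Jl (s i) (i0 i) (Z i) (a i) (β i) τ Jm ζ = J)).trans (F.hB i).hcard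
          have h4 : 0 < 2 ^ L3 := by positivity
          rw [pow_succ]
          omega)
      refine ⟨G, h1, fun _ x => ?_⟩
      have := h2 x
      push_cast at this
      exact this
    · exact ⟨fun _ => 0, TP_zero d _, fun h => absurd h hJ⟩
  choose G hG1 hG2 using hex
  refine ⟨fun x => ∑ J ∈ Finset.range (Jm + 1), G J x, ?_, ?_⟩
  · have := TP.sum (Finset.range (Jm + 1)) (fun _ => (L3 + 1) * ∑ i, MM s g m i) G
      (fun J _ => hG1 J)
    refine this.mono (le_of_eq ?_)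
    rw [Finset.sum_const, card_range, smul_eq_mul]
  · intro x
    have e1 : ∑ i, fbox (s i) (Z i) (a i) x = ∑ J ∈ Finset.range (Jm + 1), ∑ i, fbox (s i)
        ((Z i).filter (fun ζ => Jl (s i) (i0 i) (Z i) (a i) (β i) τ Jm ζ = J)) (a i) x := by
      rw [Finset.sum_comm]
      refine Finset.sum_congr rfl (fun i _ => ?_)
      exact fbox_fiber (s i) (Z i) (Jl (s i) (i0 i) (Z i) (a i) (β i) τ Jm) (Jm + 1)
        (fun ζ _ => Nat.lt_succ_of_le (Jl_le ζ)) (a i) x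
    rw [e1, ← Finset.sum_sub_distrib]
    refine (norm_sum_le _ _).trans ((Finset.sum_le_sum (fun J hJ => hG2 J hJ x)).trans ?_)
    rw [Finset.sum_const, card_range, nsmul_eq_mul]
    push_cast
    exact le_rfl

end

end Pool.Agent.H75.UB
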