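import Pool.Agent.H75.UB.Bern

set_option autoImplicit false
set_option linter.unusedSectionVars false

/-! Passing to a grid, and random sampling of the frequencies. -/

open Finset ComplexConjugate

namespace Pool.Agent.H75.UB

open Pool.Agent.H75.MT

noncomputable section

lemma ex_add_int {d : ℕ} (k : Fin d → ℤ) (x : Fin d → ℝ) (n : Fin d → ℤ) :
    ex k (x + fun i => (n i : ℝ)) = ex k x := by
  rw [ex_add]
  have : ex k (fun i => (n i : ℝ)) = 1 := by
    unfold ex
    have h : ∑ i, (k i : ℝ) * (n i : ℝ) = ((∑ i, k i * n i : ℤ) : ℝ) := by push_cast; rfl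
    rw [h, ee_int]
  rw [this, mul_one]

variable {d : ℕ} {ι : Type*}

/-- a grid point -/
def gp (N : Fin d → ℕ) (ξ : Fin d → ℕ) : Fin d → ℝ := fun i => (ξ i : ℝ) / N i

lemma grid_near (N : Fin d → ℕ) (hN : ∀ i, 0 < N i) (x : Fin d → ℝ) :
    ∃ ξ : Fin d → ℕ, (∀ i, ξ i < N i) ∧ ∃ n : Fin d → ℤ,
      ∀ i, |x i - (gp N ξ i + n i)| ≤ 1 / N i := by
  refine ⟨fun i => (⌊Int.fract (x i) * N i⌋).toNat, ?_, fun i => ⌊x i⌋, ?_⟩
  · intro i
    have hNi : (0 : ℝ) < N i := by exact_mod_cast hN i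
    have h1 : ⌊Int.fract (x i) * N i⌋ < N i := by
      rw [Int.floor_lt]
      have := Int.fract_lt_one (x i)
      push_cast
      nlinarith
    have h2 := hN i
    show (⌊Int.fract (x i) * N i⌋).toNat < N i
    omega
  · intro i
    have hNi : (0 : ℝ) < N i := by exact_mod_cast hN i
    have h0 : 0 ≤ ⌊Int.fract (x i) * N i⌋ :=
      Int.floor_nonneg.2 (mul_nonneg (Int.fract_nonneg _) hNi.le)
    have h1 : (((⌊Int.fract (x i) * N i⌋).toNat : ℕ) : ℝ) = (⌊Int.fract (x i) * N i⌋ : ℝ) := by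
      have : ((⌊Int.fract (x i) * N i⌋).toNat : ℤ) = ⌊Int.fract (x i) * N i⌋ :=
        Int.toNat_of_nonneg h0
      exact_mod_cast this
    simp only [gp]
    rw [h1]
    have h2 := Int.floor_le (Int.fract (x i) * N i)
    have h3 := Int.lt_floor_add_one (Int.fract (x i) * N i)
    have h4 := Int.floor_add_fract (x i)
    have h5 : x i - ((⌊Int.fract (x i) * N i⌋ : ℝ) / N i + ⌊x i⌋)
        = (Int.fract (x i) * N i - ⌊Int.fract (x i) * N i⌋) / N i := by
      have h6 : x i - ⌊x i⌋ = Int.fract (x i) := by linarith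
      have h7 : x i - ((⌊Int.fract (x i) * N i⌋ : ℝ) / N i + ⌊x i⌋)
          = (x i - ⌊x i⌋) - (⌊Int.fract (x i) * N i⌋ : ℝ) / N i := by ring
      rw [h7, h6]
      field_simp
    rw [h5, abs_div, abs_of_pos hNi, div_le_div_iff_of_pos_right hNi, abs_le]
    constructor <;> linarith

lemma grid_local (s : Finset ι) (c : ι → ℂ) (κ : ι → Fin d → ℤ) (D N : Fin d → ℕ)
    (hD : ∀ i, 0 < D i) (hN : ∀ i, 0 < N i) (hκ : ∀ j ∈ s, ∀ i, |κ j i| ≤ D i) (M θ : ℝ)
    (hM : ∀ x, ‖∑ j ∈ s, c j * ex (κ j) x‖ ≤ M) (hθ : ∑ i, 13 * (D i : ℝ) / N i ≤ θ)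
    (x : Fin d → ℝ) :
    ∃ ξ : Fin d → ℕ, (∀ i, ξ i < N i) ∧ (∃ n : Fin d → ℤ,
      ∀ i, |x i - (gp N ξ i + n i)| ≤ 1 / N i) ∧
      ‖∑ j ∈ s, c j * ex (κ j) x‖ ≤ ‖∑ j ∈ s, c j * ex (κ j) (gp N ξ)‖ + θ * M := by
  obtain ⟨ξ, h1, n, h2⟩ := grid_near N hN x
  refine ⟨ξ, h1, ⟨n, h2⟩, ?_⟩
  have hM0 : 0 ≤ M := (norm_nonneg _).trans (hM x)
  have h3 := bernstein s c κ D hD hκ M hM (gp N ξ + fun i => (n i : ℝ)) x
  have h4 : ∑ j ∈ s, c j * ex (κ j) (gp N ξ + fun i => (n i : ℝ))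
      = ∑ j ∈ s, c j * ex (κ j) (gp N ξ) :=
    Finset.sum_congr rfl (fun j _ => by rw [ex_add_int])
  rw [h4] at h3
  have h5 : ∑ i, 13 * (D i : ℝ) * |x i - (gp N ξ + fun i => (n i : ℝ)) i| * M ≤ θ * M := by
    rw [← Finset.sum_mul]
    refine mul_le_mul_of_nonneg_right ((Finset.sum_le_sum (fun i _ => ?_)).trans hθ) hM0
    have h6 := h2 i
    have h7 : (0 : ℝ) ≤ 13 * (D i : ℝ) := by positivity
    calc 13 * (D i : ℝ) * |x i - (gp N ξ + fun i => (n i : ℝ)) i| ≤ 13 * (D i : ℝ) * (1 / N i) :=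
          mul_le_mul_of_nonneg_left h6 h7
      _ = 13 * (D i : ℝ) / N i := by ring
  have h8 := norm_sub_norm_le (∑ j ∈ s, c j * ex (κ j) x) (∑ j ∈ s, c j * ex (κ j) (gp N ξ))
  linarith

lemma grid_sup (s : Finset ι) (c : ι → ℂ) (κ : ι → Fin d → ℤ) (D N : Fin d → ℕ)
    (hD : ∀ i, 0 < D i) (hN : ∀ i, 0 < N i) (hκ : ∀ j ∈ s, ∀ i, |κ j i| ≤ D i)
    (hθ : ∑ i, 13 * (D i : ℝ) / N i ≤ 1 / 2) (m : ℝ)
    (hm : ∀ ξ : Fin d → ℕ, (∀ i, ξ i < N i) → ‖∑ j ∈ s, c j * ex (κ j) (gp N ξ)‖ ≤ m)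
    (x : Fin d → ℝ) : ‖∑ j ∈ s, c j * ex (κ j) x‖ ≤ 2 * m := by
  set f : (Fin d → ℝ) → ℝ := fun x => ‖∑ j ∈ s, c j * ex (κ j) x‖ with hf
  have hb : BddAbove (Set.range f) := by
    refine ⟨∑ j ∈ s, ‖c j‖, ?_⟩
    rintro _ ⟨y, rfl⟩
    refine (norm_sum_le _ _).trans (Finset.sum_le_sum (fun j _ => ?_))
    rw [norm_mul, ex_norm, mul_one]
  set M := ⨆ y, f y with hMdef
  have hM : ∀ y, f y ≤ M := fun y => le_ciSup hb y
  have h1 : M ≤ m + 1 / 2 * M := by
    refine ciSup_le (fun y => ?_)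
    obtain ⟨ξ, hξ, _, h2⟩ := grid_local s c κ D N hD hN hκ M (1 / 2) hM hθ y
    exact h2.trans (by linarith [hm ξ hξ])
  have h3 := hM x
  simp only [hf] at h3
  linarith

lemma mgf {K : Type*} (s : Finset K) (P X : K → ℝ) (a θ : ℝ) (ha : 0 < a)
    (hP : ∀ k ∈ s, 0 ≤ P k) (hP1 : ∑ k ∈ s, P k = 1) (hX : ∀ k ∈ s, |X k| ≤ a)
    (hmean : ∑ k ∈ s, P k * X k = 0) :
    ∑ k ∈ s, P k * Real.exp (θ * X k) ≤ Real.exp (θ ^ 2 * a ^ 2 / 2) := by
  have h1 : ∀ k ∈ s, P k * Real.exp (θ * X k)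
      ≤ P k * Real.cosh (θ * a) + (P k * X k) * (Real.sinh (θ * a) / a) := by
    intro k hk
    have h2 := abs_le.1 (hX k hk)
    have hc := convexOn_exp.2 (Set.mem_univ (θ * a)) (Set.mem_univ (-(θ * a)))
      (by
        have : 0 ≤ (a + X k) / (2 * a) := div_nonneg (by linarith) (by linarith)
        exact this)
      (by
        have : 0 ≤ (a - X k) / (2 * a) := div_nonneg (by linarith) (by linarith)
        exact this)
      (by field_simp; ring)
    have e1 : ((a + X k) / (2 * a)) • (θ * a) + ((a - X k) / (2 * a)) • (-(θ * a)) = θ * X k := by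
      simp only [smul_eq_mul]
      field_simp
      ring
    rw [e1] at hc
    have e2 : ((a + X k) / (2 * a)) • Real.exp (θ * a) + ((a - X k) / (2 * a)) • Real.exp (-(θ * a))
        = Real.cosh (θ * a) + X k * (Real.sinh (θ * a) / a) := by
      rw [Real.cosh_eq, Real.sinh_eq]
      simp only [smul_eq_mul]
      field_simp
      ring
    rw [e2] at hc
    have := mul_le_mul_of_nonneg_left hc (hP k hk)
    linarith
  refine (Finset.sum_le_sum h1).trans ?_
  rw [Finset.sum_add_distrib, ← Finset.sum_mul, ← Finset.sum_mul, hP1, hmean, one_mul, zero_mul,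
    add_zero]
  have h3 := Real.cosh_le_exp_half_sq (θ * a)
  refine h3.trans (le_of_eq ?_)
  congr 1
  ring

/-- one step of the sampling -/
lemma step {K X : Type*} [Fintype X] (s : Finset K) (P : K → ℝ) (hP : ∀ k ∈ s, 0 ≤ P k)
    (hP1 : ∑ k ∈ s, P k = 1) (Z : K → X → ℝ) (a θ : ℝ) (ha : 0 < a)
    (hZ : ∀ k ∈ s, ∀ x, |Z k x| ≤ a) (hmean : ∀ x, ∑ k ∈ s, P k * Z k x = 0) (S : X → ℝ) :
    ∃ k ∈ s, ∑ x, Real.exp (θ * (S x + Z k x))
      ≤ Real.exp (θ ^ 2 * a ^ 2 / 2) * ∑ x, Real.exp (θ * S x) := by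
  by_contra hcon
  push Not at hcon
  have hne : s.Nonempty := by
    rw [Finset.nonempty_iff_ne_empty]
    rintro rfl
    simp at hP1
  obtain ⟨k0, hk0, hP0⟩ : ∃ k ∈ s, 0 < P k := by
    by_contra h
    push Not at h
    have : ∑ k ∈ s, P k ≤ 0 := Finset.sum_nonpos h
    linarith
  have h1 : ∑ k ∈ s, P k * (Real.exp (θ ^ 2 * a ^ 2 / 2) * ∑ x, Real.exp (θ * S x))
      < ∑ k ∈ s, P k * ∑ x, Real.exp (θ * (S x + Z k x)) := by
    refine Finset.sum_lt_sum (fun k hk => mul_le_mul_of_nonneg_left (hcon k hk).le (hP k hk))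
      ⟨k0, hk0, mul_lt_mul_of_pos_left (hcon k0 hk0) hP0⟩
  rw [← Finset.sum_mul, hP1, one_mul] at h1
  have h2 : ∑ k ∈ s, P k * ∑ x, Real.exp (θ * (S x + Z k x))
      = ∑ x, Real.exp (θ * S x) * ∑ k ∈ s, P k * Real.exp (θ * Z k x) := by
    simp only [Finset.mul_sum]
    rw [Finset.sum_comm]
    refine Finset.sum_congr rfl (fun x _ => Finset.sum_congr rfl (fun k _ => ?_))
    rw [mul_add, Real.exp_add]
    ring
  rw [h2] at h1
  have h3 : ∑ x, Real.exp (θ * S x) * ∑ k ∈ s, P k * Real.exp (θ * Z k x)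
      ≤ ∑ x, Real.exp (θ * S x) * Real.exp (θ ^ 2 * a ^ 2 / 2) := by
    refine Finset.sum_le_sum (fun x _ => mul_le_mul_of_nonneg_left ?_ (Real.exp_pos _).le)
    exact mgf s P (fun k => Z k x) a θ ha hP hP1 (fun k hk => hZ k hk x) (hmean x)
  rw [← Finset.sum_mul] at h3
  linarith

lemma steps {K X : Type*} [Fintype X] (s : Finset K) (P : K → ℝ) (hP : ∀ k ∈ s, 0 ≤ P k)
    (hP1 : ∑ k ∈ s, P k = 1) (Z : K → X → ℝ) (a θ : ℝ) (ha : 0 < a)
    (hZ : ∀ k ∈ s, ∀ x, |Z k x| ≤ a) (hmean : ∀ x, ∑ k ∈ s, P k * Z k x = 0) (m : ℕ) :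
    ∃ w : Fin m → K, (∀ i, w i ∈ s) ∧ ∑ x, Real.exp (θ * ∑ i, Z (w i) x)
      ≤ (Real.exp (θ ^ 2 * a ^ 2 / 2)) ^ m * Fintype.card X := by
  induction m with
  | zero =>
    refine ⟨fun i => i.elim0, fun i => i.elim0, ?_⟩
    simp
  | succ m ih =>
    obtain ⟨w, hw, h1⟩ := ih
    obtain ⟨k, hk, h2⟩ := step s P hP hP1 Z a θ ha hZ hmean (fun x => ∑ i, Z (w i) x)
    refine ⟨Fin.snoc w k, ?_, ?_⟩
    · intro i
      refine Fin.lastCases ?_ (fun i => ?_) i
      · rw [Fin.snoc_last]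
        exact hk
      · rw [Fin.snoc_castSucc]
        exact hw i
    · have e1 : ∀ x, ∑ i, Z ((Fin.snoc w k : Fin (m + 1) → K) i) x = ∑ i, Z (w i) x + Z k x := by
        intro x
        rw [Fin.sum_univ_castSucc]
        simp
      simp only [e1]
      have := mul_le_mul_of_nonneg_left h1 (Real.exp_pos (θ ^ 2 * a ^ 2 / 2)).le
      refine h2.trans (this.trans (le_of_eq ?_))
      rw [pow_succ]
      ring

/-- random sampling of the frequencies -/
theorem sampling (hd : 0 < d) (K : Finset (Fin d → ℤ)) (c : (Fin d → ℤ) → ℂ) (D : ℕ) (hD : 0 < D)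
    (hK : ∀ k ∈ K, ∀ i, |k i| ≤ D) (A : ℝ) (hA : ∑ k ∈ K, ‖c k‖ ≤ A) (m : ℕ) (hm : 0 < m)
    (ell : ℝ) (hell : 0 < ell) (hell2 : Real.log (4 * ((26 * d * D : ℕ) : ℝ) ^ d) ≤ ell) :
    ∃ g, TP d m g ∧ ∀ x, ‖∑ k ∈ K, c k * ex k x - g x‖ ≤ 16 * A * Real.sqrt (ell / m) := by
  classical
  set B := ∑ k ∈ K, ‖c k‖ with hB
  have hB0 : 0 ≤ B := Finset.sum_nonneg (fun k _ => norm_nonneg _)
  rcases hB0.eq_or_lt with h0 | hBpos
  · refine ⟨fun _ => 0, TP_zero d m, fun x => ?_⟩
    have h1 : ∀ k ∈ K, c k = 0 := by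
      intro k hk
      have := (Finset.sum_eq_zero_iff_of_nonneg (fun k _ => norm_nonneg (c k))).1 h0.symm k hk
      exact norm_eq_zero.1 this
    rw [Finset.sum_eq_zero (fun k hk => by rw [h1 k hk, zero_mul])]
    simp only [sub_zero, norm_zero]
    have : 0 ≤ A := hB0.trans hA
    positivity
  have hmr : (0 : ℝ) < m := by exact_mod_cast hm
  set u : (Fin d → ℤ) → ℂ := fun k => c k / ‖c k‖ with hu
  have hu1 : ∀ k, ‖u k‖ ≤ 1 := by
    intro k
    simp only [hu]
    rw [norm_div, Complex.norm_real, norm_norm]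
    exact div_self_le_one _
  have hcu : ∀ k, (‖c k‖ : ℂ) * u k = c k := by
    intro k
    simp only [hu]
    by_cases h : c k = 0
    · simp [h]
    · have : (‖c k‖ : ℂ) ≠ 0 := by
        exact_mod_cast norm_ne_zero_iff.2 h
      field_simp
  set f : (Fin d → ℝ) → ℂ := fun x => ∑ k ∈ K, c k * ex k x with hf
  set Nn : Fin d → ℕ := fun _ => 26 * d * D with hNn
  set X := (Fin d → Fin (26 * d * D)) × Fin 4 with hX
  have hNpos : 0 < 26 * d * D := by positivity
  set rot : Fin 4 → ℂ := ![1, -1, Complex.I, -Complex.I] with hrot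
  have hrot1 : ∀ j, ‖rot j‖ = 1 := by
    intro j
    fin_cases j <;> simp [hrot]
  set Z : (Fin d → ℤ) → X → ℝ := fun k x =>
    (rot x.2 * (B * u k * ex k (gp Nn (fun i => x.1 i)) - f (gp Nn (fun i => x.1 i)))).re with hZ
  set P : (Fin d → ℤ) → ℝ := fun k => ‖c k‖ / B with hP
  have hfB : ∀ x, ‖f x‖ ≤ B := by
    intro x
    refine (norm_sum_le _ _).trans (Finset.sum_le_sum (fun k _ => ?_))
    rw [norm_mul, ex_norm, mul_one]
  have hZb : ∀ k ∈ K, ∀ x, |Z k x| ≤ 2 * B := by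
    intro k _ x
    refine (Complex.abs_re_le_norm _).trans ?_
    rw [norm_mul, hrot1, one_mul]
    refine (norm_sub_le _ _).trans ?_
    rw [norm_mul, norm_mul, ex_norm, Complex.norm_real, Real.norm_eq_abs, abs_of_pos hBpos, mul_one]
    have h2 := hu1 k
    have h3 := hfB (gp Nn (fun i => x.1 i))
    nlinarith
  have hmean : ∀ x, ∑ k ∈ K, P k * Z k x = 0 := by
    intro x
    have e1 : ∀ k ∈ K, P k * Z k x = (rot x.2 * ((‖c k‖ / B : ℝ) *
        (B * u k * ex k (gp Nn (fun i => x.1 i)) - f (gp Nn (fun i => x.1 i))))).re := by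
      intro k _
      simp only [hZ, hP]
      rw [mul_left_comm, Complex.re_ofReal_mul]
    rw [Finset.sum_congr rfl e1, ← Complex.re_sum, ← Finset.mul_sum]
    have e2 : ∑ k ∈ K, ((‖c k‖ / B : ℝ) : ℂ) *
        (B * u k * ex k (gp Nn (fun i => x.1 i)) - f (gp Nn (fun i => x.1 i))) = 0 := by
      have hBc : (B : ℂ) ≠ 0 := by exact_mod_cast hBpos.ne'
      have e3 : ∀ k ∈ K, ((‖c k‖ / B : ℝ) : ℂ) *
          (B * u k * ex k (gp Nn (fun i => x.1 i)) - f (gp Nn (fun i => x.1 i)))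
          = c k * ex k (gp Nn (fun i => x.1 i)) - (‖c k‖ : ℂ) / B * f (gp Nn (fun i => x.1 i)) := by
        intro k _
        rw [mul_sub]
        congr 1
        · push_cast
          rw [← hcu k]
          have : ‖((‖c k‖ : ℂ) * u k)‖ = ‖c k‖ := by rw [hcu k]
          rw [this]
          field_simp
        · push_cast
          rfl
      rw [Finset.sum_congr rfl e3, Finset.sum_sub_distrib, ← Finset.sum_mul, ← Finset.sum_div]
      have e4 : ∑ k ∈ K, (‖c k‖ : ℂ) = (B : ℂ) := by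
        rw [hB]
        push_cast
        rfl
      rw [e4, div_self hBc, one_mul, sub_self]
    rw [e2, mul_zero, Complex.zero_re]
  have hP0 : ∀ k ∈ K, 0 ≤ P k := fun k _ => by positivity
  have hP1 : ∑ k ∈ K, P k = 1 := by
    simp only [hP]
    rw [← Finset.sum_div, ← hB, div_self hBpos.ne']
  set θ : ℝ := Real.sqrt (ell / (2 * m)) / B with hθ
  have hθ0 : 0 < θ := by positivity
  obtain ⟨w, hw, h1⟩ := steps K P hP0 hP1 Z (2 * B) θ (by positivity) hZb hmean m
  have hcardX : (Fintype.card X : ℝ) = 4 * ((26 * d * D : ℕ) : ℝ) ^ d := by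
    show (Fintype.card ((Fin d → Fin (26 * d * D)) × Fin 4) : ℝ) = _
    rw [Fintype.card_prod, Fintype.card_fun, Fintype.card_fin, Fintype.card_fin, Fintype.card_fin]
    push_cast
    ring
  have hXpos : (0 : ℝ) < 4 * ((26 * d * D : ℕ) : ℝ) ^ d := by positivity
  have hZsum : ∀ x, ∑ i, Z (w i) x ≤ 4 * B * Real.sqrt (ell * m / 2) := by
    intro x
    have h2 : Real.exp (θ * ∑ i, Z (w i) x) ≤ Real.exp (θ ^ 2 * (2 * B) ^ 2 / 2 * m + ell) := by
      refine (Finset.single_le_sum (f := fun x => Real.exp (θ * ∑ i, Z (w i) x))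
        (fun x _ => (Real.exp_pos _).le) (mem_univ x)).trans (h1.trans ?_)
      rw [← Real.exp_nat_mul, hcardX, Real.exp_add]
      refine mul_le_mul (Real.exp_le_exp.2 (le_of_eq (by ring))) ?_ hXpos.le (Real.exp_pos _).le
      rw [← Real.log_le_iff_le_exp hXpos]
      exact hell2
    rw [Real.exp_le_exp] at h2
    have h3 : θ ^ 2 * (2 * B) ^ 2 / 2 * m = ell := by
      rw [hθ, div_pow, Real.sq_sqrt (by positivity)]
      field_simp
    rw [h3] at h2
    have h4 : θ * (4 * B * Real.sqrt (ell * m / 2)) = ell + ell := by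
      rw [hθ]
      have h5 : Real.sqrt (ell / (2 * m)) * Real.sqrt (ell * m / 2) = ell / 2 := by
        rw [← Real.sqrt_mul (by positivity)]
        have : ell / (2 * m) * (ell * m / 2) = (ell / 2) ^ 2 := by
          field_simp
        rw [this, Real.sqrt_sq (by positivity)]
      calc Real.sqrt (ell / (2 * m)) / B * (4 * B * Real.sqrt (ell * m / 2))
          = 4 * (Real.sqrt (ell / (2 * m)) * Real.sqrt (ell * m / 2)) := by
            field_simp
        _ = ell + ell := by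
            rw [h5]
            ring
    rw [← h4] at h2
    exact le_of_mul_le_mul_left h2 hθ0
  -- the approximant
  set g : (Fin d → ℝ) → ℂ := fun x => ∑ i : Fin m, (B / m * u (w i)) * ex (w i) x with hg
  refine ⟨g, ?_, ?_⟩
  · refine TP_index univ (fun i => (B / m * u (w i) : ℂ)) w (univ.image w) ?_ ?_
    · exact Finset.card_image_le.trans (by simp)
    · intro i _ _
      exact Finset.mem_image_of_mem w (mem_univ i)
  · have hgr : ∀ ξ : Fin d → ℕ, (∀ i, ξ i < Nn i) → ‖f (gp Nn ξ) - g (gp Nn ξ)‖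
        ≤ 8 * B * Real.sqrt (ell / m) := by
      intro ξ hξ
      set y := gp Nn ξ with hy
      set x1 : Fin d → Fin (26 * d * D) := fun i => ⟨ξ i, hξ i⟩ with hx1
      have hrotb : ∀ j, (rot j * ((m : ℂ) * (g y - f y))).re ≤ 4 * B * Real.sqrt (ell * m / 2) := by
        intro j
        have h2 := hZsum (x1, j)
        have h3 : ∑ i, Z (w i) (x1, j) = (rot j * ((m : ℂ) * (g y - f y))).re := by
          simp only [hZ]
          rw [← Complex.re_sum, ← Finset.mul_sum]
          congr 2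
          rw [Finset.sum_sub_distrib, Finset.sum_const, Finset.card_univ, Fintype.card_fin,
            nsmul_eq_mul, mul_sub]
          congr 1
          simp only [hg]
          rw [Finset.mul_sum]
          refine Finset.sum_congr rfl (fun i _ => ?_)
          have hmc : (m : ℂ) ≠ 0 := by exact_mod_cast hm.ne'
          have : gp Nn (fun i => ((x1 i : ℕ))) = y := rfl
          rw [this]
          field_simp
        rw [h3] at h2
        exact h2
      have r0 := hrotb 0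
      have r1 := hrotb 1
      have r2 := hrotb 2
      have r3 := hrotb 3
      simp only [hrot, Matrix.cons_val_zero, Matrix.cons_val_one, Matrix.cons_val] at r0 r1 r2 r3
      set z := (m : ℂ) * (g y - f y) with hz
      have hre : |z.re| ≤ 4 * B * Real.sqrt (ell * m / 2) := by
        rw [abs_le]
        constructor
        · have : (-1 * z).re = -z.re := by simp
          linarith
        · have : (1 * z).re = z.re := by simp
          linarith
      have him : |z.im| ≤ 4 * B * Real.sqrt (ell * m / 2) := by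
        rw [abs_le]
        constructor
        · have : (Complex.I * z).re = -z.im := by simp
          linarith
        · have : (-Complex.I * z).re = z.im := by simp
          linarith
      have h4 : ‖z‖ ≤ 8 * B * Real.sqrt (ell * m / 2) := by
        refine (Complex.norm_le_abs_re_add_abs_im z).trans ?_
        linarith
      have h5 : ‖z‖ = m * ‖f y - g y‖ := by
        rw [hz, norm_mul, Complex.norm_natCast, norm_sub_rev]
      rw [h5] at h4
      have h6 : Real.sqrt (ell * m / 2) ≤ m * Real.sqrt (ell / m) := by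
        rw [Real.sqrt_le_left (by positivity), mul_pow, Real.sq_sqrt (by positivity)]
        have : (m : ℝ) ^ 2 * (ell / m) = ell * m := by
          field_simp
        rw [this]
        have : 0 < ell * m := by positivity
        linarith
      have h7 : (m : ℝ) * ‖f y - g y‖ ≤ m * (8 * B * Real.sqrt (ell / m)) := by
        refine h4.trans ?_
        have : 0 ≤ 8 * B := by positivity
        nlinarith
      exact le_of_mul_le_mul_left h7 hmr
    intro x
    -- combine into one indexed sum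
    set idx : Finset ((Fin d → ℤ) ⊕ Fin m) := K.disjSum univ with hidx
    set cc : (Fin d → ℤ) ⊕ Fin m → ℂ := Sum.elim c (fun i => -(B / m * u (w i))) with hcc
    set kk : (Fin d → ℤ) ⊕ Fin m → Fin d → ℤ := Sum.elim id w with hkk
    have hcomb : ∀ x, ∑ j ∈ idx, cc j * ex (kk j) x = f x - g x := by
      intro x
      rw [hidx, Finset.sum_disjSum]
      simp only [hcc, hkk, Sum.elim_inl, Sum.elim_inr, id, hf, hg]
      rw [sub_eq_add_neg, ← Finset.sum_neg_distrib]
      congr 1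
      exact Finset.sum_congr rfl (fun i _ => by ring)
    have h8 := grid_sup idx cc kk (fun _ => D) Nn (fun _ => hD) (fun _ => hNpos) (by
      intro j hj i
      rcases j with k | j
      · have : k ∈ K := by simpa [hidx] using hj
        exact hK k this i
      · exact hK (w j) (hw j) i) (by
      have hdr : (0 : ℝ) < d := by exact_mod_cast hd
      have hDr : (0 : ℝ) < D := by exact_mod_cast hD
      simp only [hNn]
      rw [Finset.sum_const, Finset.card_univ, Fintype.card_fin, nsmul_eq_mul]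
      push_cast
      refine le_of_eq ?_
      field_simp
      norm_num) (8 * B * Real.sqrt (ell / m)) (by
      intro ξ hξ
      rw [hcomb]
      exact hgr ξ hξ) x
    rw [hcomb] at h8
    refine h8.trans ?_
    have : 0 ≤ Real.sqrt (ell / m) := Real.sqrt_nonneg _
    nlinarith

end

end Pool.Agent.H75.UB
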