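import Pool.Agent.H75.UB.Rep
import Pool.Agent.H75.UB.Fam
import Pool.Agent.H75.UB.Samp

set_option autoImplicit false
set_option linter.unusedSectionVars false

/-! One layer of blocks. -/

open Finset ComplexConjugate

open scoped Classical

namespace Pool.Agent.H75.UB

open Pool.Agent.H75.MT (ee ee_add ee_norm ee_conj ee_int ee_zero)

noncomputable section

variable {d : ℕ}

lemma exists_big (hd : 0 < d) (s : Fin d → ℕ) : ∃ i0, ∑ i, s i ≤ d * s i0 := by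
  have : Nonempty (Fin d) := ⟨⟨0, hd⟩⟩
  obtain ⟨i0, _, h⟩ := Finset.exists_max_image (univ : Finset (Fin d)) s univ_nonempty
  refine ⟨i0, ?_⟩
  have := Finset.sum_le_card_nsmul univ s (s i0) (fun i hi => h i hi)
  simpa using this

lemma exists_g (y : ℝ) (hy : 1 ≤ y) : ∃ g : ℕ, y ≤ 2 ^ g ∧ (2 : ℝ) ^ g ≤ 2 * y := by
  obtain ⟨n, h1, h2⟩ := exists_nat_pow_near hy (by norm_num : (1 : ℝ) < 2)
  exact ⟨n + 1, h2.le, by rw [pow_succ]; linarith⟩

/-- the rest is sampled -/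
lemma rest (hd : 0 < d) (T : Finset (Fin d → ℕ)) (D : ℕ) (hT : ∀ s ∈ T, ∀ i, s i ≤ D)
    (e : (Fin d → ℕ) → (Fin d → ℤ) → ℂ) (A : ℝ) (hA : ∑ s ∈ T, ∑ k ∈ Box s, ‖e s k‖ ≤ A)
    (M : ℕ) (hM : 0 < M) (ell : ℝ) (hell : 0 < ell)
    (hell2 : Real.log (4 * ((26 * d * 2 ^ D : ℕ) : ℝ) ^ d) ≤ ell) :
    ∃ G, TP d M G ∧ ∀ x, ‖∑ s ∈ T, ∑ k ∈ Box s, e s k * ex k x - G x‖
      ≤ 16 * A * Real.sqrt (ell / M) := by
  set K : Finset (Fin d → ℤ) := Box (fun _ => D) with hK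
  have hsub : ∀ s ∈ T, Box s ⊆ K := by
    intro s hs k hk
    rw [hK, mem_Box]
    intro i
    have h1 := mem_Box.1 hk i
    have h2 : (2 : ℤ) ^ (s i) ≤ 2 ^ D := pow_le_pow_right₀ (by norm_num) (hT s hs i)
    constructor <;> linarith [h1.1, h1.2]
  set c : (Fin d → ℤ) → ℂ := fun k => ∑ s ∈ T, if k ∈ Box s then e s k else 0 with hc
  have hbox : ∀ s ∈ T, ∀ F : (Fin d → ℤ) → ℂ, ∑ k ∈ Box s, F k
      = ∑ k ∈ K, if k ∈ Box s then F k else 0 := by
    intro s hs F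
    rw [← Finset.sum_filter]
    refine Finset.sum_congr ?_ (fun _ _ => rfl)
    ext k
    rw [mem_filter]
    exact ⟨fun h => ⟨hsub s hs h, h⟩, fun h => h.2⟩
  have hbox' : ∀ s ∈ T, ∑ k ∈ Box s, ‖e s k‖ = ∑ k ∈ K, ‖(if k ∈ Box s then e s k else 0)‖ := by
    intro s hs
    have : ∀ k ∈ K, ‖(if k ∈ Box s then e s k else 0)‖ = if k ∈ Box s then ‖e s k‖ else 0 := by
      intro k _
      split_ifs <;> simp
    rw [Finset.sum_congr rfl this, ← Finset.sum_filter]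
    refine Finset.sum_congr ?_ (fun _ _ => rfl)
    ext k
    rw [mem_filter]
    exact ⟨fun h => ⟨hsub s hs h, h⟩, fun h => h.2⟩
  obtain ⟨G, hG1, hG2⟩ := sampling hd K c (2 ^ D) (by positivity) (by
    intro k hk i
    have h1 := mem_Box.1 hk i
    push_cast
    rw [abs_le]
    constructor <;> linarith [h1.1, h1.2]) A (by
    refine le_trans ?_ hA
    rw [Finset.sum_congr rfl hbox', Finset.sum_comm]
    refine Finset.sum_le_sum (fun k _ => ?_)
    rw [hc]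
    exact norm_sum_le _ _) M hM ell hell hell2
  refine ⟨G, hG1, fun x => ?_⟩
  have h1 : ∑ s ∈ T, ∑ k ∈ Box s, e s k * ex k x = ∑ k ∈ K, c k * ex k x := by
    have e1 : ∀ s ∈ T, ∑ k ∈ Box s, e s k * ex k x
        = ∑ k ∈ K, if k ∈ Box s then e s k * ex k x else 0 :=
      fun s hs => hbox s hs (fun k => e s k * ex k x)
    rw [Finset.sum_congr rfl e1, Finset.sum_comm]
    refine Finset.sum_congr rfl (fun k _ => ?_)
    rw [hc, Finset.sum_mul]
    refine Finset.sum_congr rfl (fun s _ => ?_)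
    split_ifs <;> simp
  rw [h1]
  exact hG2 x

lemma box_l1 (s : Fin d → ℕ) (e : (Fin d → ℤ) → ℂ) (δ : ℝ) (hδ : 0 ≤ δ)
    (he : ∑ k ∈ Box s, ‖e k‖ ^ 2 ≤ δ ^ 2) :
    ∑ k ∈ Box s, ‖e k‖ ≤ Real.sqrt (2 ^ (∑ i, s i + d)) * δ := by
  have h1 : (∑ k ∈ Box s, ‖e k‖) ^ 2 ≤ 2 ^ (∑ i, s i + d) * δ ^ 2 := by
    calc (∑ k ∈ Box s, ‖e k‖) ^ 2 ≤ #(Box s) * ∑ k ∈ Box s, ‖e k‖ ^ 2 := sq_sum_le_card_mul_sum_sq
      _ ≤ 2 ^ (∑ i, s i + d) * δ ^ 2 := by
          have := Box_card s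
          have h2 : ((#(Box s) : ℕ) : ℝ) ≤ 2 ^ (∑ i, s i + d) := by exact_mod_cast this
          gcongr
  have h2 := Real.le_sqrt_of_sq_le h1
  rwa [Real.sqrt_mul (by positivity), Real.sqrt_sq hδ] at h2

/-- the block of a function -/
def fs (b : (Fin d → ℤ) → ℂ) (s : Fin d → ℕ) (x : Fin d → ℝ) : ℂ := ∑ k ∈ rho s, b k * ex k x

/-- its samples -/
def fa (b : (Fin d → ℤ) → ℂ) (s : Fin d → ℕ) (ζ : Fin d → ℕ) : ℂ := fs b s (gp (NN s) ζ)

lemma fs_box (b : (Fin d → ℤ) → ℂ) (s : Fin d → ℕ) (x : Fin d → ℝ) :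
    fs b s x = fbox s (grid s) (fa b s) x := by
  unfold fbox fs
  rw [sum_rho_box]
  refine Finset.sum_congr rfl (fun k hk => ?_)
  congr 1
  have h1 : fa b s = fun ζ => ∑ k' ∈ Box s, (if k' ∈ rho s then b k' else 0)
      * ex k' (gp (NN s) ζ) := by
    funext ζ
    unfold fa fs
    rw [sum_rho_box]
  rw [h1]
  exact (reproduce s (fun k' => if k' ∈ rho s then b k' else 0) k hk).symm

lemma fa_energy (b : (Fin d → ℤ) → ℂ) (s : Fin d → ℕ) :
    (∑ ζ ∈ grid s, ‖fa b s ζ‖ ^ 2) / NT s = en b s ^ 2 := by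
  have h1 : fa b s = fun ζ => ∑ k' ∈ Box s, (if k' ∈ rho s then b k' else 0)
      * ex k' (gp (NN s) ζ) := by
    funext ζ
    unfold fa fs
    rw [sum_rho_box]
  rw [h1, en_sq, ← sum_rho_box', ← grid_parseval]

lemma fs_split (b : (Fin d → ℤ) → ℂ) (s : Fin d → ℕ) (Z : Finset (Fin d → ℕ)) (hZ : Z ⊆ grid s)
    (x : Fin d → ℝ) : fs b s x = fbox s (grid s \ Z) (fa b s) x + fbox s Z (fa b s) x := by
  rw [fs_box]
  exact fbox_split s (grid s) Z hZ (fa b s) x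

/-- parameters -/
def pJ (L0 L1 L3 : ℕ) : ℕ := 2 * (L3 + 2 * L1 + L0 + 9) + 10

/-- parameters -/
def pm (L0 L1 L3 Lp : ℕ) : ℕ := 2 * pJ L0 L1 L3 + L3 + (Lp + 1)

/-- parameters -/
def pL (d L0 L1 L3 Lp : ℕ) : ℕ := d * (Lp + d + 7) + 2 * pJ L0 L1 L3 + L3 + 1

lemma pJ_lt (L0 L1 L3 : ℕ) : pJ L0 L1 L3 + 9 < 2 ^ (L3 + 2 * L1 + L0 + 9 + 10) := by
  unfold pJ
  set x := L3 + 2 * L1 + L0 + 9
  have h1 : x < 2 ^ x := Nat.lt_two_pow_self
  rw [pow_add]
  omega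

lemma pJ_pow (L0 L1 L3 : ℕ) : 2 ^ (pJ L0 L1 L3)
    = 2 ^ (L3 + 2 * L1 + L0 + 9) * 2 ^ (L3 + 2 * L1 + L0 + 9 + 10) := by
  unfold pJ
  rw [← pow_add]
  congr 1
  ring

/-- the concentrated part of the heavy blocks of a layer -/
lemma heavy_part (hd : 0 < d) (l : ℕ) (b : (Fin d → ℤ) → ℂ) (B ρ : ℝ) (hB : 0 < B) (hρ : 0 < ρ)
    (L0 L1 L3 Lp : ℕ) (H : Finset (Fin d → ℕ)) (hH : H ⊆ Sl d l) (hsum : ∑ s ∈ H, en b s ≤ B)
    (hheavy : ∀ s ∈ H, B / 2 ^ L1 ≤ en b s) (hy : ∀ s ∈ H, en b s ≤ ρ * B)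
    (Z : (Fin d → ℕ) → Finset (Fin d → ℕ)) (hZ : ∀ s ∈ H, Z s ⊆ grid s)
    (hZc : ∀ s ∈ H, #(Z s) ≤ 2 ^ L3) (hρ2 : ρ ≤ 2 ^ L0) (hcard : #(Sl d l) ≤ 2 ^ Lp)
    (hbig : d * (pm L0 L1 L3 Lp + pJ L0 L1 L3) ≤ l) :
    ∃ (N : ℕ) (G : (Fin d → ℝ) → ℂ), (N : ℝ) ≤ ((pJ L0 L1 L3 : ℝ) + 1) * (((L3 : ℝ) + 1)
        * (2 * ((pm L0 L1 L3 Lp : ℝ) + 1) ^ 2 * 2 ^ (d + 1) * (2 ^ l / ρ))) ∧ TP d N G ∧
      ∀ x, ‖∑ s ∈ H, fbox s (Z s) (fa b s) x - G x‖ ≤ ((pJ L0 L1 L3 : ℝ) + 1)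
        * (((L3 : ℝ) + 1) * E1 d (Real.sqrt (512 * ((pJ L0 L1 L3 : ℝ) + 9) * ρ) * B)
          (pJ L0 L1 L3) (pL d L0 L1 L3 Lp)) := by
  set Jm := pJ L0 L1 L3 with hJm
  set m := pm L0 L1 L3 Lp with hm
  set L := pL d L0 L1 L3 Lp with hL
  set x0 := L3 + 2 * L1 + L0 + 9 with hx0
  set τ := Real.sqrt (512 * ((Jm : ℝ) + 9) * ρ) * B with hτd
  have hJ9 : ((Jm : ℝ) + 9) < 2 ^ (x0 + 10) := by
    have := pJ_lt L0 L1 L3
    rw [← hJm, ← hx0] at this
    exact_mod_cast this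
  have hJp : (2 : ℝ) ^ Jm = 2 ^ x0 * 2 ^ (x0 + 10) := by
    have := pJ_pow L0 L1 L3
    rw [← hJm, ← hx0] at this
    exact_mod_cast this
  have hτ : 0 < τ := by
    rw [hτd]
    positivity
  have hτ2 : τ ^ 2 = 512 * ((Jm : ℝ) + 9) * ρ * B ^ 2 := by
    rw [hτd, mul_pow, Real.sq_sqrt (by positivity)]
  have hβ : ∀ s ∈ H, 0 < en b s := by
    intro s hs
    have := hheavy s hs
    have h2 : 0 < B / 2 ^ L1 := by positivity
    linarith
  have hgex : ∀ s : {s // s ∈ H}, ∃ g : ℕ, ρ * B / en b s.1 ≤ 2 ^ g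
      ∧ (2 : ℝ) ^ g ≤ 2 * (ρ * B / en b s.1) := by
    intro s
    refine exists_g _ ?_
    rw [le_div_iff₀ (hβ s.1 s.2), one_mul]
    exact hy s.1 s.2
  choose g hg1 hg2 using hgex
  choose i0 hi0 using fun s : {s // s ∈ H} => exists_big hd s.1
  have hsb : ∀ s : {s // s ∈ H}, m + Jm ≤ s.1 (i0 s) := by
    intro s
    have h1 := hi0 s
    rw [mem_Sl.1 (hH s.2)] at h1
    exact Nat.le_of_mul_le_mul_left (hbig.trans h1) hd
  have hgβ : ∀ s : {s // s ∈ H}, 2 ^ (g s) * en b s.1 ^ 2 ≤ 2 * ρ * B * en b s.1 := by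
    intro s
    have h1 := hβ s.1 s.2
    have h2 := hg2 s
    calc 2 ^ (g s) * en b s.1 ^ 2 ≤ (2 * (ρ * B / en b s.1)) * en b s.1 ^ 2 := by gcongr
      _ = 2 * ρ * B * en b s.1 := by field_simp
  have hsing : ∀ s : {s // s ∈ H}, en b s.1 ≤ B := fun s =>
    (Finset.single_le_sum (f := fun s => en b s) (fun s _ => en_nonneg b s) s.2).trans hsum
  have hgup : ∀ s : {s // s ∈ H}, (2 : ℝ) ^ (g s) ≤ 2 ^ (L0 + L1 + 1) := by
    intro s
    refine (hg2 s).trans ?_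
    have h1 := hβ s.1 s.2
    have h2 := hheavy s.1 s.2
    rw [div_le_iff₀ (by positivity)] at h2
    have h3 : ρ * B / en b s.1 ≤ 2 ^ L0 * 2 ^ L1 := by
      rw [div_le_iff₀ h1]
      calc ρ * B ≤ 2 ^ L0 * (en b s.1 * 2 ^ L1) := by gcongr
        _ = _ := by ring
    rw [pow_succ, pow_add]
    linarith
  have hg3 : ∀ s : {s // s ∈ H}, g s ≤ L0 + L1 + 1 := fun s =>
    (pow_le_pow_iff_right₀ (by norm_num : (1 : ℝ) < 2)).1 (hgup s)
  have hFH : FH (fun s : {s // s ∈ H} => s.1) i0 g (fun s => Z s.1) (fun s => fa b s.1)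
      (fun s => en b s.1) τ Jm m L (Lp + d + 7) L3 (Lp + 1) := by
    have hsum2 : 256 * ((Jm : ℝ) + 9) * ∑ i : {s // s ∈ H}, 2 ^ (g i) * (en b i.1) ^ 2
        ≤ τ ^ 2 := by
      have e1 : ∑ i : {s // s ∈ H}, 2 ^ (g i) * (en b i.1) ^ 2 ≤ 2 * ρ * B * B := by
        refine (Finset.sum_le_sum (fun s _ => hgβ s)).trans ?_
        rw [← Finset.mul_sum, Finset.univ_eq_attach, Finset.sum_attach H (fun s => en b s)]
        gcongr
      rw [hτ2]
      calc _ ≤ 256 * ((Jm : ℝ) + 9) * (2 * ρ * B * B) := by gcongr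
        _ = _ := by ring
    have hsing2 : ∀ s : {s // s ∈ H}, 256 * ((Jm : ℝ) + 9) * (2 ^ (g s) * en b s.1 ^ 2)
        ≤ τ ^ 2 := by
      intro s
      refine le_trans ?_ hsum2
      refine mul_le_mul_of_nonneg_left ?_ (by positivity)
      exact Finset.single_le_sum (f := fun s : {s // s ∈ H} => 2 ^ (g s) * en b s.1 ^ 2)
        (fun s _ => by positivity) (mem_univ s)
    constructor
    · intro s
      constructor
      · intro ζ hζ
        exact mem_grid.1 (hZ s.1 s.2 hζ)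
      · exact hβ s.1 s.2
      · rw [← fa_energy]
        have hN0 : (0 : ℝ) < NT s.1 := by exact_mod_cast NT_pos s.1
        exact div_le_div_of_nonneg_right (Finset.sum_le_sum_of_subset_of_nonneg (hZ s.1 s.2)
          (fun _ _ _ => by positivity)) hN0.le
      · exact hZc s.1 s.2
      · exact hτ
      · exact hsing2 s
      · have h64 : (1 : ℝ) ≤ 64 * 2 ^ (g s) * (Jm + 9) := by
          have : (1 : ℝ) ≤ 2 ^ (g s) := one_le_pow₀ (by norm_num)
          have h9 : (9 : ℝ) ≤ (Jm : ℝ) + 9 := by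
            have : (0 : ℝ) ≤ Jm := Nat.cast_nonneg _
            linarith
          nlinarith
        obtain ⟨n, hn1, hn2⟩ := exists_nat_pow_near h64 (by norm_num : (1 : ℝ) < 2)
        refine ⟨n + 1, ?_, ?_, ?_⟩
        · have h1 : (2 : ℝ) ^ n < 2 ^ Jm := by
            refine lt_of_le_of_lt hn1 ?_
            rw [hJp]
            calc 64 * 2 ^ (g s) * ((Jm : ℝ) + 9) ≤ 64 * 2 ^ (L0 + L1 + 1) * ((Jm : ℝ) + 9) := by
                  have := hgup s
                  gcongr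
              _ ≤ 2 ^ x0 * ((Jm : ℝ) + 9) := by
                  have : (64 : ℝ) * 2 ^ (L0 + L1 + 1) ≤ 2 ^ x0 := by
                    have e1 : (64 : ℝ) = 2 ^ 6 := by norm_num
                    rw [e1, ← pow_add]
                    exact pow_le_pow_right₀ (by norm_num) (by omega)
                  gcongr
              _ < 2 ^ x0 * 2 ^ (x0 + 10) := by
                  have : (0 : ℝ) < 2 ^ x0 := by positivity
                  exact mul_lt_mul_of_pos_left hJ9 this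
          have := (pow_lt_pow_iff_right₀ (by norm_num : (1 : ℝ) < 2)).1 h1
          omega
        · exact_mod_cast hn2.le
        · have h1 : (2 : ℝ) ^ (n + 1) ≤ 2 * (64 * 2 ^ (g s) * (Jm + 9)) := by
            rw [pow_succ]
            linarith
          calc (2 : ℝ) ^ (n + 1) * (2 * en b s.1 ^ 2)
              ≤ (2 * (64 * 2 ^ (g s) * (Jm + 9))) * (2 * en b s.1 ^ 2) := by gcongr
            _ = 256 * ((Jm : ℝ) + 9) * (2 ^ (g s) * en b s.1 ^ 2) := by ring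
            _ ≤ τ ^ 2 := hsing2 s
      · rw [hτ2, hJp]
        have h1 := hheavy s.1 s.2
        have h2 := hβ s.1 s.2
        rw [div_le_iff₀ (by positivity)] at h1
        have h3 : B ^ 2 ≤ en b s.1 ^ 2 * (2 ^ L1) ^ 2 := by
          rw [← mul_pow]
          exact pow_le_pow_left₀ hB.le h1 2
        calc 2 ^ L3 * (512 * ((Jm : ℝ) + 9) * ρ * B ^ 2)
            ≤ 2 ^ L3 * (512 * ((Jm : ℝ) + 9) * 2 ^ L0 * (en b s.1 ^ 2 * (2 ^ L1) ^ 2)) := by
              gcongr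
          _ = 2 ^ x0 * ((Jm : ℝ) + 9) * en b s.1 ^ 2 := by
              rw [hx0, pow_add, pow_add, pow_add, mul_comm 2 L1, pow_mul]
              ring
          _ < 2 ^ x0 * 2 ^ (x0 + 10) * en b s.1 ^ 2 := by
              have : (0 : ℝ) < 2 ^ x0 := by positivity
              have h4 : (0 : ℝ) < en b s.1 ^ 2 := by positivity
              exact mul_lt_mul_of_pos_right (mul_lt_mul_of_pos_left hJ9 this) h4
    · exact hτ
    · exact hsum2
    · intro s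
      have h1 : m < 2 ^ m := Nat.lt_two_pow_self
      calc m * 2 ^ Jm ≤ 2 ^ m * 2 ^ Jm := Nat.mul_le_mul_right _ h1.le
        _ = 2 ^ (m + Jm) := (pow_add _ _ _).symm
        _ ≤ 2 ^ (s.1 (i0 s)) := Nat.pow_le_pow_right (by norm_num) (hsb s)
    · intro s
      have h1 := hsb s
      have h2 := hg3 s
      have h3 : L0 + L1 + 1 ≤ m := by
        rw [hm]
        unfold pm pJ
        omega
      omega
    · rw [hm]
      unfold pm
      omega
    · rw [hL]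
      unfold pL
      omega
    · rw [hL]
      unfold pL
      omega
    · have h1 : (d : ℝ) ≤ 2 ^ d := by exact_mod_cast (Nat.lt_two_pow_self (n := d)).le
      have h2 : (1 : ℝ) ≤ 2 ^ Lp := one_le_pow₀ (by norm_num)
      rw [div_le_iff₀ (by positivity), pow_add, pow_add]
      have h3 : (2 : ℝ) ^ d ≤ 2 ^ Lp * 2 ^ d := by
        have : (0 : ℝ) ≤ 2 ^ d := by positivity
        nlinarith
      have h4 : (2 : ℝ) ^ 7 = 128 := by norm_num
      rw [h4]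
      linarith
    · have h1 : (d : ℝ) ≤ 2 ^ d := by exact_mod_cast (Nat.lt_two_pow_self (n := d)).le
      have h2 : (Fintype.card {s // s ∈ H} : ℝ) ≤ 2 ^ Lp := by
        rw [Fintype.card_coe]
        exact_mod_cast (Finset.card_le_card hH).trans hcard
      have h3 : (0 : ℝ) < 2 ^ Lp := by positivity
      have h4 : (0 : ℝ) < 2 ^ d := by positivity
      calc (Fintype.card {s // s ∈ H} : ℝ) * (1 / 2 ^ (Lp + 1) + 52 * d / 2 ^ (Lp + d + 7))
          ≤ 2 ^ Lp * (1 / 2 ^ (Lp + 1) + 52 * 2 ^ d / 2 ^ (Lp + d + 7)) := by gcongr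
        _ = 1 / 2 + 52 / 128 := by
            rw [pow_succ, pow_add, pow_add]
            field_simp
            norm_num
        _ ≤ 1 := by norm_num
  obtain ⟨G, hG1, hG2⟩ := heavy hFH
  refine ⟨_, G, ?_, hG1, ?_⟩
  · have h1 : ∀ s : {s // s ∈ H}, ((MM (fun s : {s // s ∈ H} => s.1) g m s : ℕ) : ℝ)
        ≤ 2 * ((m : ℝ) + 1) ^ 2 * 2 ^ (d + 1) * (2 ^ l / ρ) * (en b s.1 / B) := by
      intro s
      unfold MM
      rw [mem_Sl.1 (hH s.2)]
      have h2 : g s ≤ l + d + 1 := by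
        have e1 := hsb s
        have e2 := hg3 s
        have e3 : s.1 (i0 s) ≤ ∑ i, s.1 i :=
          Finset.single_le_sum (fun _ _ => Nat.zero_le _) (mem_univ _)
        rw [mem_Sl.1 (hH s.2)] at e3
        have e4 : L0 + L1 + 1 ≤ m := by
          rw [hm]
          unfold pm pJ
          omega
        omega
      have h3 : (2 : ℝ) ^ (l + d + 1 - g s) ≤ 2 ^ (d + 1) * (2 ^ l / ρ) * (en b s.1 / B) := by
        have e1 : (2 : ℝ) ^ (l + d + 1 - g s) * 2 ^ (g s) = 2 ^ (l + d + 1) := by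
          rw [← pow_add, Nat.sub_add_cancel h2]
        have e2 := hg1 s
        have e3 := hβ s.1 s.2
        have e4 : (0 : ℝ) < 2 ^ (g s) := by positivity
        have e5 : 1 ≤ (2 : ℝ) ^ (g s) * (en b s.1 / (ρ * B)) := by
          rw [div_le_iff₀ e3] at e2
          rw [← mul_div_assoc, le_div_iff₀ (by positivity)]
          linarith
        calc (2 : ℝ) ^ (l + d + 1 - g s)
            ≤ (2 : ℝ) ^ (l + d + 1 - g s) * (2 ^ (g s) * (en b s.1 / (ρ * B))) := by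
              have : (0 : ℝ) ≤ 2 ^ (l + d + 1 - g s) := by positivity
              nlinarith
          _ = 2 ^ (l + d + 1) * (en b s.1 / (ρ * B)) := by rw [← mul_assoc, e1]
          _ = _ := by
              rw [show l + d + 1 = l + (d + 1) by ring, pow_add]
              field_simp
      push_cast
      have h4 : (0 : ℝ) ≤ 2 * ((m : ℝ) + 1) ^ 2 := by positivity
      calc _ ≤ 2 * ((m : ℝ) + 1) ^ 2 * (2 ^ (d + 1) * (2 ^ l / ρ) * (en b s.1 / B)) :=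
            mul_le_mul_of_nonneg_left h3 h4
        _ = _ := by ring
    have h2 : ((∑ s : {s // s ∈ H}, MM (fun s : {s // s ∈ H} => s.1) g m s : ℕ) : ℝ)
        ≤ 2 * ((m : ℝ) + 1) ^ 2 * 2 ^ (d + 1) * (2 ^ l / ρ) := by
      push_cast
      refine (Finset.sum_le_sum (fun s _ => h1 s)).trans ?_
      rw [← Finset.mul_sum, ← Finset.sum_div, Finset.univ_eq_attach,
        Finset.sum_attach H (fun s => en b s)]
      have e1 : (∑ s ∈ H, en b s) / B ≤ 1 := (div_le_one hB).2 hsum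
      calc _ ≤ 2 * ((m : ℝ) + 1) ^ 2 * 2 ^ (d + 1) * (2 ^ l / ρ) * 1 := by gcongr
        _ = _ := mul_one _
    push_cast
    push_cast at h2
    gcongr
  · intro x
    have h1 : ∑ s ∈ H, fbox s (Z s) (fa b s) x
        = ∑ s : {s // s ∈ H}, fbox s.1 (Z s.1) (fa b s.1) x := by
      rw [Finset.univ_eq_attach, Finset.sum_attach H (fun s => fbox s (Z s) (fa b s) x)]
    rw [h1]
    exact hG2 x

end

end Pool.Agent.H75.UB
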