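import Pool.Agent.H75.UB.Lay

set_option autoImplicit false
set_option linter.unusedSectionVars false

/-! One layer of blocks: the approximation theorem. -/

open Finset ComplexConjugate

open scoped Classical

namespace Pool.Agent.H75.UB

open Pool.Agent.H75.MT (ee ee_add ee_norm ee_conj ee_int ee_zero)

noncomputable section

variable {d : ℕ}

lemma full_blocks (l : ℕ) (b : (Fin d → ℤ) → ℂ) (B ρ : ℝ) (hB : 0 < B) (hρ : 0 < ρ)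
    (H : Finset (Fin d → ℕ)) (hH : H ⊆ Sl d l) (hsum : ∑ s ∈ H, en b s ≤ B)
    (hy : ∀ s ∈ H, ρ * B < en b s) :
    ∃ N : ℕ, (N : ℝ) ≤ 2 ^ d * (2 ^ l / ρ) ∧ TP d N (fun x => ∑ s ∈ H, fs b s x) := by
  refine ⟨#(H.biUnion rho), ?_, H.biUnion rho, b, le_rfl, ?_⟩
  · have h1 : (#(H.biUnion rho) : ℝ) ≤ ∑ s ∈ H, (2 : ℝ) ^ (l + d) * (en b s / (ρ * B)) := by
      refine (Nat.cast_le.2 Finset.card_biUnion_le).trans ?_
      push_cast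
      refine Finset.sum_le_sum (fun s hs => ?_)
      have e1 := (Finset.card_le_card (rho_sub s)).trans (Box_card s)
      rw [mem_Sl.1 (hH hs)] at e1
      have e2 : ((#(rho s) : ℕ) : ℝ) ≤ 2 ^ (l + d) := by exact_mod_cast e1
      have e3 : 1 ≤ en b s / (ρ * B) := by
        rw [le_div_iff₀ (by positivity), one_mul]
        exact (hy s hs).le
      have e4 : (0 : ℝ) < 2 ^ (l + d) := by positivity
      nlinarith
    refine h1.trans ?_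
    rw [← Finset.mul_sum, ← Finset.sum_div]
    calc (2 : ℝ) ^ (l + d) * ((∑ s ∈ H, en b s) / (ρ * B)) ≤ 2 ^ (l + d) * (B / (ρ * B)) := by
          gcongr
      _ = _ := by
          rw [pow_add]
          field_simp
  · intro x
    rw [Finset.sum_biUnion]
    · rfl
    · intro s _ t _ hst
      rw [Function.onFun, Finset.disjoint_left]
      intro k hk hk'
      exact hst ((mem_rho.1 hk).symm.trans (mem_rho.1 hk'))

lemma count_aux (d : ℕ) (Y M N1 N2 : ℝ) (hY : 9 ≤ Y) (hM : 0 ≤ M) (h1 : N1 ≤ 2 ^ d * M)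
    (h2 : N2 ≤ Y * (Y * (2 * Y ^ 2 * 2 ^ (d + 1) * M))) :
    N1 + N2 + M ≤ 2 ^ (d + 3) * Y ^ 4 * M := by
  have e2 : (1 : ℝ) ≤ 2 ^ d := one_le_pow₀ (by norm_num)
  have e3 : (1 : ℝ) ≤ Y ^ 4 := one_le_pow₀ (by linarith)
  have e4 : (2 : ℝ) ^ (d + 3) * Y ^ 4 * M
      = Y * (Y * (2 * Y ^ 2 * 2 ^ (d + 1) * M)) + 4 * (2 ^ d * Y ^ 4 * M) := by
    rw [pow_add, pow_add]
    ring
  have e5 : (2 : ℝ) ^ d * M ≤ 2 ^ d * Y ^ 4 * M := by
    calc (2 : ℝ) ^ d * M = 2 ^ d * 1 * M := by ring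
      _ ≤ _ := by gcongr
  have e6 : M ≤ 2 ^ d * Y ^ 4 * M := by
    calc M = 1 * 1 * M := by ring
      _ ≤ _ := by gcongr
  rw [e4]
  linarith

lemma err_aux (d Jm L3 L Y : ℕ) (R B T : ℝ) (hR : 0 ≤ R) (hB : 0 ≤ B) (b1 : Jm + 9 ≤ Y)
    (b3 : L3 + 1 ≤ Y) (b4 : L + 6 ≤ Y) (b5 : d ≤ Y) (hT : T ≤ 32 * Y * R) (hT0 : 0 ≤ T) :
    ((Jm : ℝ) + 1) * (((L3 : ℝ) + 1) * E1 d (T * B) Jm L) ≤ 15360 * (Y : ℝ) ^ 7 * (R * B) := by
  have b1r : (Jm : ℝ) + 9 ≤ Y := by exact_mod_cast b1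
  have b3r : (L3 : ℝ) + 1 ≤ Y := by exact_mod_cast b3
  have b4r : (L : ℝ) + 6 ≤ Y := by exact_mod_cast b4
  have b5r : (d : ℝ) ≤ Y := by exact_mod_cast b5
  have hJ0 : (0 : ℝ) ≤ Jm := Nat.cast_nonneg _
  have hY : (0 : ℝ) ≤ Y := Nat.cast_nonneg _
  have f1 : (d : ℝ) * Jm + 3 ≤ (Y : ℝ) ^ 2 := by
    have f2 : (d : ℝ) * Jm ≤ Y * (Y - 9) := mul_le_mul b5r (by linarith) hJ0 hY
    nlinarith
  unfold E1
  calc ((Jm : ℝ) + 1) * (((L3 : ℝ) + 1) * (480 * ((L : ℝ) + 6) ^ 2 * (T * B) * (d * Jm + 3)))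
      ≤ (Y : ℝ) * (Y * (480 * (Y : ℝ) ^ 2 * (32 * Y * R * B) * (Y : ℝ) ^ 2)) := by
        gcongr
        linarith
    _ = _ := by ring

lemma sqrt_aux (a b : ℝ) (ha : 0 ≤ a) : a * Real.sqrt b = Real.sqrt (a ^ 2 * b) := by
  rw [Real.sqrt_mul (sq_nonneg a), Real.sqrt_sq ha]

lemma sample_aux (l d : ℕ) (M ell B : ℝ) (Lp L1 : ℕ) (hM : 0 < M) (hell : 0 < ell) (hB : 0 < B)
    (hell3 : (2 ^ Lp) ^ 2 * 2 ^ d * ell ≤ (2 ^ L1) ^ 2) :
    16 * (2 ^ Lp * (Real.sqrt (2 ^ (l + d)) * (B / 2 ^ L1))) * Real.sqrt (ell / M)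
        ≤ 16 * (Real.sqrt (2 ^ l / M) * B) := by
  have f1 : Real.sqrt (2 ^ (l + d)) * Real.sqrt (ell / M)
      = Real.sqrt (2 ^ l / M) * Real.sqrt (2 ^ d * ell) := by
    rw [← Real.sqrt_mul (by positivity), ← Real.sqrt_mul (by positivity)]
    congr 1
    rw [pow_add]
    field_simp
  have f2 : 2 ^ Lp * Real.sqrt (2 ^ d * ell) ≤ 2 ^ L1 := by
    rw [sqrt_aux _ _ (by positivity), ← mul_assoc]
    refine (Real.sqrt_le_sqrt hell3).trans (le_of_eq ?_)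
    exact Real.sqrt_sq (by positivity)
  calc 16 * (2 ^ Lp * (Real.sqrt (2 ^ (l + d)) * (B / 2 ^ L1))) * Real.sqrt (ell / M)
      = 16 * (Real.sqrt (2 ^ (l + d)) * Real.sqrt (ell / M)) * (2 ^ Lp * (B / 2 ^ L1)) := by ring
    _ = 16 * (Real.sqrt (2 ^ l / M) * B) * ((2 ^ Lp * Real.sqrt (2 ^ d * ell)) / 2 ^ L1) := by
        rw [f1]
        ring
    _ ≤ 16 * (Real.sqrt (2 ^ l / M) * B) * 1 := by
        refine mul_le_mul_of_nonneg_left ?_ (by positivity)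
        exact (div_le_one (by positivity)).2 f2
    _ = _ := mul_one _

theorem layer (hd : 0 < d) (l : ℕ) (b : (Fin d → ℤ) → ℂ) (B : ℝ) (hB : 0 < B)
    (hsum : ∑ s ∈ Sl d l, en b s ≤ B) (L0 L1 L3 Lp M : ℕ) (hM : 0 < M)
    (hL0 : (2 : ℝ) ^ l / M ≤ 2 ^ L0) (hLp : #(Sl d l) ≤ 2 ^ Lp)
    (hZ : ∀ s ∈ Sl d l, ∃ Z ⊆ grid s, #Z ≤ 2 ^ L3
      ∧ (∑ ζ ∈ grid s \ Z, ‖fa b s ζ‖ ^ 2) / NT s ≤ (B / 2 ^ L1) ^ 2)
    (ell : ℝ) (hell : 0 < ell) (hell2 : Real.log (4 * ((26 * d * 2 ^ l : ℕ) : ℝ) ^ d) ≤ ell)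
    (hell3 : (2 ^ Lp) ^ 2 * 2 ^ d * ell ≤ (2 ^ L1) ^ 2)
    (hbig : d * (pm L0 L1 L3 Lp + pJ L0 L1 L3) ≤ l) (Y : ℕ)
    (hY : pm L0 L1 L3 Lp + pL d L0 L1 L3 Lp + 1 ≤ Y) :
    ∃ G, TP d (2 ^ (d + 3) * Y ^ 4 * M) G ∧ ∀ x, ‖∑ s ∈ Sl d l, fs b s x - G x‖
      ≤ 20000 * (Y : ℝ) ^ 7 * Real.sqrt (2 ^ l / M) * B := by
  have hM0 : (0 : ℝ) < M := by exact_mod_cast hM
  set ρ : ℝ := 2 ^ l / M with hρd
  have hρ : 0 < ρ := by positivity
  have hρM : (2 : ℝ) ^ l / ρ = M := by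
    rw [hρd]
    field_simp
  set δ := B / 2 ^ L1 with hδd
  have hδ : 0 ≤ δ := by positivity
  have hZ' : ∀ s : Fin d → ℕ, ∃ Z : Finset (Fin d → ℕ), s ∈ Sl d l → (Z ⊆ grid s ∧ #Z ≤ 2 ^ L3
      ∧ (∑ ζ ∈ grid s \ Z, ‖fa b s ζ‖ ^ 2) / NT s ≤ δ ^ 2) := by
    intro s
    by_cases hs : s ∈ Sl d l
    · obtain ⟨Z, h1, h2, h3⟩ := hZ s hs
      exact ⟨Z, fun _ => ⟨h1, h2, h3⟩⟩
    · exact ⟨∅, fun h => absurd h hs⟩
  choose Z hZZ using hZ'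
  set H := (Sl d l).filter (fun s => δ ≤ en b s) with hH
  set Lt := (Sl d l).filter (fun s => ¬ δ ≤ en b s) with hLt
  set H1 := H.filter (fun s => ρ * B < en b s) with hH1
  set H2 := H.filter (fun s => ¬ ρ * B < en b s) with hH2
  have hHsub : H ⊆ Sl d l := Finset.filter_subset _ _
  have hH1s : H1 ⊆ Sl d l := (Finset.filter_subset _ _).trans hHsub
  have hH2s : H2 ⊆ Sl d l := (Finset.filter_subset _ _).trans hHsub
  have hLts : Lt ⊆ Sl d l := Finset.filter_subset _ _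
  have hsub : ∀ S ⊆ Sl d l, ∑ s ∈ S, en b s ≤ B := fun S hS =>
    (Finset.sum_le_sum_of_subset_of_nonneg hS (fun s _ _ => en_nonneg b s)).trans hsum
  obtain ⟨N1, hN1, hT1⟩ := full_blocks l b B ρ hB hρ H1 hH1s (hsub H1 hH1s)
    (fun s hs => (mem_filter.1 hs).2)
  obtain ⟨N2, G2, hN2, hT2, hE2⟩ := heavy_part hd l b B ρ hB hρ L0 L1 L3 Lp H2 hH2s
    (hsub H2 hH2s) (fun s hs => (mem_filter.1 (mem_filter.1 hs).1).2)
    (fun s hs => not_lt.1 (mem_filter.1 hs).2) Z (fun s hs => (hZZ s (hH2s hs)).1)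
    (fun s hs => (hZZ s (hH2s hs)).2.1) hL0 hLp hbig
  have hdisj : Disjoint H2 Lt := by
    rw [Finset.disjoint_left]
    intro s h1 h2
    exact (mem_filter.1 h2).2 (mem_filter.1 (mem_filter.1 h1).1).2
  set Z' : (Fin d → ℕ) → Finset (Fin d → ℕ) := fun s => if s ∈ H2 then Z s else ∅ with hZ'd
  have hZ'1 : ∀ s ∈ H2, Z' s = Z s := fun s hs => by rw [hZ'd]; simp only; rw [if_pos hs]
  have hZ'2 : ∀ s ∈ Lt, Z' s = ∅ := fun s hs => by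
    rw [hZ'd]
    simp only
    rw [if_neg (fun h => (Finset.disjoint_left.1 hdisj) h hs)]
  set e : (Fin d → ℕ) → (Fin d → ℤ) → ℂ := fun s k => Ac s (grid s \ Z' s) (fa b s) k with he
  have hTsub : H2 ∪ Lt ⊆ Sl d l := Finset.union_subset hH2s hLts
  have hen : ∀ s ∈ H2 ∪ Lt, ∑ k ∈ Box s, ‖e s k‖ ^ 2 ≤ δ ^ 2 := by
    intro s hs
    rw [he]
    simp only
    refine (Ac_bessel s (grid s \ Z' s) Finset.sdiff_subset (fa b s)).trans ?_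
    rcases Finset.mem_union.1 hs with h | h
    · rw [hZ'1 s h]
      exact (hZZ s (hH2s h)).2.2
    · rw [hZ'2 s h, Finset.sdiff_empty, fa_energy]
      exact pow_le_pow_left₀ (en_nonneg b s) (not_le.1 (mem_filter.1 h).2).le 2
  have hl1 : ∑ s ∈ H2 ∪ Lt, ∑ k ∈ Box s, ‖e s k‖ ≤ 2 ^ Lp * (Real.sqrt (2 ^ (l + d)) * δ) := by
    have h1 : ∀ s ∈ H2 ∪ Lt, ∑ k ∈ Box s, ‖e s k‖ ≤ Real.sqrt (2 ^ (l + d)) * δ := by
      intro s hs
      have := box_l1 s (e s) δ hδ (hen s hs)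
      rwa [mem_Sl.1 (hTsub hs)] at this
    refine (Finset.sum_le_sum h1).trans ?_
    rw [Finset.sum_const, nsmul_eq_mul]
    have h2 : ((#(H2 ∪ Lt) : ℕ) : ℝ) ≤ 2 ^ Lp := by
      exact_mod_cast (Finset.card_le_card hTsub).trans hLp
    exact mul_le_mul_of_nonneg_right h2 (by positivity)
  obtain ⟨G3, hT3, hE3⟩ := rest hd (H2 ∪ Lt) l (by
    intro s hs i
    rw [← mem_Sl.1 (hTsub hs)]
    exact Finset.single_le_sum (fun _ _ => Nat.zero_le _) (mem_univ i)) e _ hl1 M hM ell hell hell2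
  -- the parameters
  have hd1 : (1 : ℝ) ≤ d := by exact_mod_cast hd
  have hYr : ((pm L0 L1 L3 Lp : ℕ) : ℝ) + ((pL d L0 L1 L3 Lp : ℕ) : ℝ) + 1 ≤ Y := by
    exact_mod_cast hY
  have hLn : pL d L0 L1 L3 Lp = d * (Lp + d + 7) + 2 * pJ L0 L1 L3 + L3 + 1 := rfl
  have hmn : pm L0 L1 L3 Lp = 2 * pJ L0 L1 L3 + L3 + (Lp + 1) := rfl
  have hJn : pJ L0 L1 L3 = 2 * (L3 + 2 * L1 + L0 + 9) + 10 := rfl
  have hdn : d ≤ d * (Lp + d + 7) := Nat.le_mul_of_pos_right d (by omega)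
  set Jm := pJ L0 L1 L3 with hJm
  set m := pm L0 L1 L3 Lp with hm
  set L := pL d L0 L1 L3 Lp with hL
  have b1 : Jm + 9 ≤ Y := by omega
  have b2 : m + 1 ≤ Y := by omega
  have b3 : L3 + 1 ≤ Y := by omega
  have b4 : L + 6 ≤ Y := by omega
  have b5 : d ≤ Y := by omega
  clear_value Jm m L
  have b1r : (Jm : ℝ) + 9 ≤ Y := by exact_mod_cast b1
  have b2r : (m : ℝ) + 1 ≤ Y := by exact_mod_cast b2
  have b3r : (L3 : ℝ) + 1 ≤ Y := by exact_mod_cast b3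
  have hJ0 : (0 : ℝ) ≤ Jm := Nat.cast_nonneg _
  have hY9 : (9 : ℝ) ≤ Y := by linarith
  refine ⟨fun x => (∑ s ∈ H1, fs b s x) + G2 x + G3 x, ?_, ?_⟩
  · refine ((hT1.add hT2).add hT3).mono ?_
    have h1 : ((N1 + N2 + M : ℕ) : ℝ) ≤ ((2 ^ (d + 3) * Y ^ 4 * M : ℕ) : ℝ) := by
      push_cast
      rw [hρM] at hN1 hN2
      refine count_aux d Y M N1 N2 hY9 hM0.le hN1 (hN2.trans ?_)
      gcongr
      linarith
    exact_mod_cast h1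
  · intro x
    have h1 : ∑ s ∈ Sl d l, fs b s x = (∑ s ∈ H1, fs b s x)
        + (∑ s ∈ H2, fbox s (Z s) (fa b s) x)
        + ∑ s ∈ H2 ∪ Lt, ∑ k ∈ Box s, e s k * ex k x := by
      rw [← Finset.sum_filter_add_sum_filter_not (Sl d l) (fun s => δ ≤ en b s), ← hH, ← hLt,
        ← Finset.sum_filter_add_sum_filter_not H (fun s => ρ * B < en b s), ← hH1, ← hH2,
        Finset.sum_union hdisj]
      have e1 : ∀ s ∈ H2, fs b s x = fbox s (Z s) (fa b s) x + ∑ k ∈ Box s, e s k * ex k x := by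
        intro s hs
        rw [fs_split b s (Z s) (hZZ s (hH2s hs)).1, add_comm]
        congr 1
        rw [he]
        simp only [hZ'1 s hs]
        rfl
      have e2 : ∀ s ∈ Lt, fs b s x = ∑ k ∈ Box s, e s k * ex k x := by
        intro s hs
        rw [fs_box, he]
        simp only [hZ'2 s hs, Finset.sdiff_empty]
        rfl
      rw [Finset.sum_congr rfl e1, Finset.sum_congr rfl e2, Finset.sum_add_distrib]
      ring
    have h2 : ∑ s ∈ Sl d l, fs b s x - ((∑ s ∈ H1, fs b s x) + G2 x + G3 x)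
        = (∑ s ∈ H2, fbox s (Z s) (fa b s) x - G2 x)
          + (∑ s ∈ H2 ∪ Lt, ∑ k ∈ Box s, e s k * ex k x - G3 x) := by
      rw [h1]
      ring
    rw [h2]
    refine (norm_add_le _ _).trans ((add_le_add (hE2 x) (hE3 x)).trans ?_)
    have hsq : 0 ≤ Real.sqrt ρ := Real.sqrt_nonneg _
    have e3 : 16 * (2 ^ Lp * (Real.sqrt (2 ^ (l + d)) * δ)) * Real.sqrt (ell / M)
        ≤ 16 * (Real.sqrt ρ * B) := sample_aux l d M ell B Lp L1 hM0 hell hB hell3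
    have e4 : Real.sqrt (512 * ((Jm : ℝ) + 9) * ρ) ≤ 32 * (Y : ℝ) * Real.sqrt ρ := by
      rw [Real.sqrt_mul (by positivity)]
      refine mul_le_mul_of_nonneg_right ?_ hsq
      refine Real.sqrt_le_iff.2 ⟨by positivity, ?_⟩
      nlinarith
    have e5 : ((Jm : ℝ) + 1) * (((L3 : ℝ) + 1) * E1 d (Real.sqrt (512 * ((Jm : ℝ) + 9) * ρ) * B)
        Jm L) ≤ 15360 * (Y : ℝ) ^ 7 * (Real.sqrt ρ * B) :=
      err_aux d Jm L3 L Y (Real.sqrt ρ) B _ hsq hB.le b1 b3 b4 b5 e4 (Real.sqrt_nonneg _)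
    have e6 : (1 : ℝ) ≤ (Y : ℝ) ^ 7 := one_le_pow₀ (by linarith)
    have e7 : 0 ≤ Real.sqrt ρ * B := by positivity
    calc _ ≤ 15360 * (Y : ℝ) ^ 7 * (Real.sqrt ρ * B) + 16 * (Real.sqrt ρ * B) := add_le_add e5 e3
      _ = (15360 * (Y : ℝ) ^ 7 + 16) * (Real.sqrt ρ * B) := by ring
      _ ≤ (20000 * (Y : ℝ) ^ 7) * (Real.sqrt ρ * B) := by
          refine mul_le_mul_of_nonneg_right ?_ e7
          linarith
      _ = _ := by ring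

end

end Pool.Agent.H75.UB
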