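import Pool.Agent.H75.UB.Par

set_option autoImplicit false
set_option linter.unusedSectionVars false

/-! The layers in the middle range. -/

open Finset ComplexConjugate MeasureTheory UnitAddTorus

open scoped Classical

namespace Pool.Agent.H75.UB

open Pool.Agent.H75.MT (ee ee_add ee_norm ee_conj ee_int ee_zero cr cr_neg ee_nat_mul)

noncomputable section

local instance : MeasureSpace UnitAddCircle := ⟨AddCircle.haarAddCircle⟩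

local instance : Measure.IsAddHaarMeasure (volume : Measure UnitAddCircle) :=
  inferInstanceAs (Measure.IsAddHaarMeasure AddCircle.haarAddCircle)

local instance : IsProbabilityMeasure (volume : Measure UnitAddCircle) :=
  inferInstanceAs (IsProbabilityMeasure AddCircle.haarAddCircle)

variable {d : ℕ}

/-- the logarithm -/
def lg (n : ℕ) : ℕ := Nat.log 2 n + 3

lemma lg_lo (n : ℕ) : 4 * n ≤ 2 ^ (lg n) := by
  unfold lg
  have h : n < 2 ^ (Nat.log 2 n + 1) := Nat.lt_pow_succ_log_self (by norm_num) n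
  have : 2 ^ (Nat.log 2 n + 3) = 4 * 2 ^ (Nat.log 2 n + 1) := by
    rw [pow_add, pow_add]
    ring
  omega

lemma lg_hi (n : ℕ) (hn : 1 ≤ n) : 2 ^ (lg n) ≤ 8 * n := by
  unfold lg
  have h : 2 ^ (Nat.log 2 n) ≤ n := Nat.pow_log_le_self 2 (by omega)
  rw [pow_add]
  omega

lemma lg_one (n : ℕ) : 1 ≤ lg n := by unfold lg; omega

lemma sq_le_pow (x : ℕ) : x ^ 2 ≤ 4 * 2 ^ x := by
  induction x with
  | zero => simp
  | succ x ih =>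
    rcases Nat.lt_or_ge x 3 with h | h
    · interval_cases x <;> norm_num
    · rw [pow_succ 2 x]
      nlinarith

lemma lg_small (K : ℕ) : ∀ n, 2 ^ (32 * K) ≤ n → K * lg n ≤ n := by
  intro n hn
  have h1 : 1 ≤ n := le_trans Nat.one_le_two_pow hn
  have h2 := lg_hi n h1
  have h3 := sq_le_pow (lg n)
  have h4 : 32 * K ≤ lg n := by
    have := lg_lo n
    have h5 : 2 ^ (32 * K) ≤ 2 ^ (lg n) := by omega
    exact (Nat.pow_le_pow_iff_right (by norm_num)).1 h5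
  nlinarith

/-- the target -/
def Un (d : ℕ) (p r : ℝ) (n : ℕ) : ℝ :=
  ((2 : ℝ) ^ n) ^ (-(r - (1 / p - 1 / 2))) * (((n : ℝ) + 1) ^ (d - 1)) ^ (-(1 / p - 1 / 2))

lemma Un_pos (d : ℕ) (p r : ℝ) (n : ℕ) : 0 < Un d p r n := by unfold Un; positivity

lemma Bl_pos (d : ℕ) (p r CB : ℝ) (hCB : 1 ≤ CB) (l : ℕ) : 0 < Bl d p r CB l := by
  unfold Bl
  positivity

lemma Bl_low (d : ℕ) (p r CB : ℝ) (hp1 : 1 < p) (hCB : 1 ≤ CB) (l : ℕ) :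
    ((2 : ℝ) ^ l) ^ (-(r - (1 / p - 1 / 2))) ≤ Bl d p r CB l := by
  unfold Bl
  have hexp : 0 ≤ 1 - 1 / p := by
    have : 1 / p ≤ 1 := by rw [div_le_one (by linarith)]; exact hp1.le
    linarith
  have h1 : (1 : ℝ) ≤ (((l : ℝ) + 1) ^ (d - 1)) ^ (1 - 1 / p) := by
    refine Real.one_le_rpow (one_le_pow₀ ?_) hexp
    have : (0 : ℝ) ≤ l := Nat.cast_nonneg _
    linarith
  have h2 : 0 < ((2 : ℝ) ^ l) ^ (-(r - (1 / p - 1 / 2))) := by positivity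
  have h3 : 1 * ((2 : ℝ) ^ l) ^ (-(r - (1 / p - 1 / 2)))
      ≤ CB * ((2 : ℝ) ^ l) ^ (-(r - (1 / p - 1 / 2))) := by gcongr
  calc ((2 : ℝ) ^ l) ^ (-(r - (1 / p - 1 / 2)))
      = 1 * ((2 : ℝ) ^ l) ^ (-(r - (1 / p - 1 / 2))) * 1 := by ring
    _ ≤ _ := by gcongr

lemma sqrt_Bl (d : ℕ) (p r CB : ℝ) (hp1 : 1 < p) (hr : 1 / p < r) (hCB : 1 ≤ CB)
    (n l : ℕ) (hnl : n ≤ l) (hl : l ≤ 2 * n) :
    Real.sqrt (2 ^ l / (((n + 1) ^ (d - 1) * 2 ^ n : ℕ) : ℝ)) * Bl d p r CB l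
      ≤ CB * 2 ^ (d - 1) * Un d p r n := by
  unfold Bl Un
  set η := 1 / p - 1 / 2 with hη
  set N : ℝ := 2 ^ l with hN
  set N0 : ℝ := 2 ^ n with hN0
  set P : ℝ := ((l : ℝ) + 1) ^ (d - 1) with hP
  set P0 : ℝ := ((n : ℝ) + 1) ^ (d - 1) with hP0
  have hN' : 0 < N := by positivity
  have hN0' : 0 < N0 := by positivity
  have hP' : 0 < P := by positivity
  have hP0' : 0 < P0 := by positivity
  have hexp : 0 ≤ 1 - 1 / p := by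
    have : 1 / p ≤ 1 := by rw [div_le_one (by linarith)]; exact hp1.le
    linarith
  have hexp1 : 1 - 1 / p ≤ 1 := by
    have : 0 < 1 / p := by positivity
    linarith
  have h1 : Real.sqrt (N / (((n + 1) ^ (d - 1) * 2 ^ n : ℕ) : ℝ))
      = N ^ (1 / 2 : ℝ) * P0 ^ (-(1 / 2) : ℝ) * N0 ^ (-(1 / 2) : ℝ) := by
    push_cast
    rw [← hP0, ← hN0, Real.sqrt_eq_rpow, Real.div_rpow hN'.le (by positivity),
      Real.mul_rpow hP0'.le hN0'.le, Real.rpow_neg hP0'.le, Real.rpow_neg hN0'.le]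
    field_simp
  have h2 : N ^ (1 / 2 : ℝ) * N ^ (-(r - η)) = N ^ (-(r - 1 / p)) := by
    rw [← Real.rpow_add hN']
    congr 1
    rw [hη]
    ring
  have h3 : N ^ (-(r - 1 / p)) ≤ N0 ^ (-(r - 1 / p)) :=
    Real.rpow_le_rpow_of_nonpos hN0' (pow_le_pow_right₀ (by norm_num) hnl) (by linarith)
  have h4 : N0 ^ (-(1 / 2) : ℝ) * N0 ^ (-(r - 1 / p)) = N0 ^ (-(r - η)) := by
    rw [← Real.rpow_add hN0']
    congr 1
    rw [hη]
    ring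
  have h5 : P ^ (1 - 1 / p) ≤ 2 ^ (d - 1) * P0 ^ (1 - 1 / p) := by
    have e1 : P ≤ 2 ^ (d - 1) * P0 := by
      rw [hP, hP0, ← mul_pow]
      refine pow_le_pow_left₀ (by positivity) ?_ _
      have : (l : ℝ) ≤ 2 * n := by exact_mod_cast hl
      linarith
    refine (Real.rpow_le_rpow hP'.le e1 hexp).trans ?_
    rw [Real.mul_rpow (by positivity) hP0'.le]
    have e2 : ((2 : ℝ) ^ (d - 1)) ^ (1 - 1 / p) ≤ (2 ^ (d - 1)) ^ (1 : ℝ) :=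
      Real.rpow_le_rpow_of_exponent_le (one_le_pow₀ (by norm_num)) hexp1
    rw [Real.rpow_one] at e2
    gcongr
  have h6 : P0 ^ (-(1 / 2) : ℝ) * P0 ^ (1 - 1 / p) = P0 ^ (-η) := by
    rw [← Real.rpow_add hP0']
    congr 1
    rw [hη]
    ring
  rw [h1]
  calc N ^ (1 / 2 : ℝ) * P0 ^ (-(1 / 2) : ℝ) * N0 ^ (-(1 / 2) : ℝ)
        * (CB * N ^ (-(r - η)) * P ^ (1 - 1 / p))
      = CB * P0 ^ (-(1 / 2) : ℝ) * N0 ^ (-(1 / 2) : ℝ) * (N ^ (1 / 2 : ℝ) * N ^ (-(r - η)))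
        * P ^ (1 - 1 / p) := by ring
    _ ≤ CB * P0 ^ (-(1 / 2) : ℝ) * N0 ^ (-(1 / 2) : ℝ) * N0 ^ (-(r - 1 / p))
        * (2 ^ (d - 1) * P0 ^ (1 - 1 / p)) := by
        rw [h2]
        gcongr
    _ = CB * 2 ^ (d - 1) * ((N0 ^ (-(1 / 2) : ℝ) * N0 ^ (-(r - 1 / p)))
        * (P0 ^ (-(1 / 2) : ℝ) * P0 ^ (1 - 1 / p))) := by ring
    _ = _ := by rw [h4, h6]

/-- the logarithm for the sampling theorem -/
lemma ell_le (d l : ℕ) (hd : 0 < d) :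
    Real.log (4 * ((26 * d * 2 ^ l : ℕ) : ℝ) ^ d) ≤ ((2 + d * (5 + d + l) : ℕ) : ℝ) := by
  have h0 : (0 : ℝ) < ((26 * d * 2 ^ l : ℕ) : ℝ) := by positivity
  have h1 : 4 * (26 * d * 2 ^ l) ^ d ≤ 2 ^ (2 + d * (5 + d + l)) := by
    have e1 : 26 * d * 2 ^ l ≤ 2 ^ (5 + d + l) := by
      rw [pow_add, pow_add]
      have : d < 2 ^ d := Nat.lt_two_pow_self
      have h2 : 26 * d ≤ 2 ^ 5 * 2 ^ d := by omega
      exact Nat.mul_le_mul_right _ h2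
    calc 4 * (26 * d * 2 ^ l) ^ d ≤ 4 * (2 ^ (5 + d + l)) ^ d :=
          Nat.mul_le_mul_left _ (Nat.pow_le_pow_left e1 d)
      _ = _ := by
          rw [← pow_mul, pow_add 2 2, mul_comm (5 + d + l) d]
          norm_num
  have h2 : 4 * ((26 * d * 2 ^ l : ℕ) : ℝ) ^ d ≤ 2 ^ (2 + d * (5 + d + l)) := by exact_mod_cast h1
  have h3 := Real.log_le_log (by positivity) h2
  rw [Real.log_pow] at h3
  refine h3.trans ?_
  have h4 : Real.log 2 ≤ 1 := by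
    have := Real.log_two_lt_d9
    linarith
  have h5 : (0 : ℝ) ≤ ((2 + d * (5 + d + l) : ℕ) : ℝ) := Nat.cast_nonneg _
  nlinarith

/-- the sum of the parameters -/
def pE (d c1 cr' ν Λ : ℕ) : ℕ :=
  let L1 := (d + 1) * Λ + (d + (2 + d * (5 + d)))
  let L3 := 2 * d + 2 * (d * (cr' + Λ) + ν * (L1 + d * (cr' + Λ)))
  pm (c1 * Λ) L1 L3 (d * Λ) + pL d (c1 * Λ) L1 L3 (d * Λ) + 1

lemma pE_le (d c1 cr' ν Λ : ℕ) (hΛ : 1 ≤ Λ) : pE d c1 cr' ν Λ ≤ pE d c1 cr' ν 1 * Λ := by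
  have key : ∃ a b : ℕ, ∀ x, pE d c1 cr' ν x = a * x + b := by
    refine ⟨4 * (2 * (2 * (d + ν * (d + 1 + d)) + 2 * (d + 1) + c1)) + 2 * (2 * (d + ν * (d + 1 + d)))
      + d + d * d, 4 * (2 * ((2 * d + 2 * (d * cr' + ν * ((d + (2 + d * (5 + d))) + d * cr')))
      + 2 * (d + (2 + d * (5 + d))) + 9) + 10)
      + 2 * (2 * d + 2 * (d * cr' + ν * ((d + (2 + d * (5 + d))) + d * cr')))
      + d * (d + 7) + 3, ?_⟩
    intro x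
    unfold pE pm pL pJ
    ring
  obtain ⟨a, b, h⟩ := key
  rw [h, h]
  nlinarith

lemma par_Lp (d l Λ : ℕ) (hd : 0 < d) (hl : l + 1 ≤ 2 ^ Λ) : #(Sl d l) ≤ 2 ^ (d * Λ) := by
  calc #(Sl d l) ≤ (l + 1) ^ (d - 1) := Sl_card hd l
    _ ≤ (2 ^ Λ) ^ (d - 1) := Nat.pow_le_pow_left hl _
    _ = 2 ^ (Λ * (d - 1)) := (pow_mul _ _ _).symm
    _ ≤ 2 ^ (d * Λ) := by
        refine Nat.pow_le_pow_right (by norm_num) ?_
        rw [mul_comm]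
        exact Nat.mul_le_mul_right _ (by omega)

lemma par_ell (d l Λ L1 : ℕ) (hl : l + 1 ≤ 2 ^ Λ)
    (hL1 : L1 = (d + 1) * Λ + (d + (2 + d * (5 + d)))) :
    (2 ^ (d * Λ)) ^ 2 * 2 ^ d * (2 + d * (5 + d + l)) ≤ (2 ^ L1) ^ 2 := by
  have h1 : 2 + d * (5 + d + l) ≤ 2 ^ (2 + d * (5 + d) + Λ) := by
    have e1 : 2 + d * (5 + d) < 2 ^ (2 + d * (5 + d)) := Nat.lt_two_pow_self
    rw [pow_add]
    have e2 : 2 + d * (5 + d + l) ≤ (2 + d * (5 + d)) * (l + 1) := by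
      have e3 : (2 + d * (5 + d)) * (l + 1)
          = (2 + d * (5 + d + l)) + (2 * l + 4 * (d * l) + d * d * l) := by ring
      rw [e3]
      exact Nat.le_add_right _ _
    exact e2.trans (Nat.mul_le_mul e1.le hl)
  have h3 : d * Λ * 2 + d + (2 + d * (5 + d) + Λ) ≤ L1 * 2 := by
    have e4 : L1 * 2 = (d * Λ * 2 + d + (2 + d * (5 + d) + Λ)) + (Λ + d + (2 + d * (5 + d))) := by
      rw [hL1]
      ring
    rw [e4]
    exact Nat.le_add_right _ _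
  calc (2 ^ (d * Λ)) ^ 2 * 2 ^ d * (2 + d * (5 + d + l))
      ≤ (2 ^ (d * Λ)) ^ 2 * 2 ^ d * 2 ^ (2 + d * (5 + d) + Λ) := Nat.mul_le_mul_left _ h1
    _ = 2 ^ (d * Λ * 2 + d + (2 + d * (5 + d) + Λ)) := by
        rw [← pow_mul, ← pow_add, ← pow_add]
    _ ≤ 2 ^ (L1 * 2) := Nat.pow_le_pow_right (by norm_num) h3
    _ = _ := pow_mul _ _ _

lemma par_big (d c1 L1 L3 Λ CY : ℕ)
    (hpE : pm (c1 * Λ) L1 L3 (d * Λ) + pL d (c1 * Λ) L1 L3 (d * Λ) + 1 ≤ CY * Λ) (n l : ℕ)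
    (hsm2 : d * (CY * Λ) ≤ n) (hnl : n ≤ l) :
    d * (pm (c1 * Λ) L1 L3 (d * Λ) + pJ (c1 * Λ) L1 L3) ≤ l := by
  have h1 : pJ (c1 * Λ) L1 L3 ≤ pL d (c1 * Λ) L1 L3 (d * Λ) := by
    unfold pL
    omega
  refine le_trans (Nat.mul_le_mul_left _ ?_) (hsm2.trans hnl)
  omega

lemma par_M (d n : ℕ) : (2 : ℝ) ^ n ≤ (((n + 1) ^ (d - 1) * 2 ^ n : ℕ) : ℝ) := by
  push_cast
  have : (1 : ℝ) ≤ ((n : ℝ) + 1) ^ (d - 1) := one_le_pow₀ (by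
    have : (0 : ℝ) ≤ n := Nat.cast_nonneg _
    linarith)
  have h2 : (0 : ℝ) < 2 ^ n := by positivity
  nlinarith

theorem middle (d : ℕ) (hd : 0 < d) (p r : ℝ) (hp1 : 1 < p) (hp2 : p < 2) (hr : 1 / p < r)
    (CB : ℝ) (hCB : 1 ≤ CB) (c1 : ℕ) : ∃ (C : ℝ) (CY n0 : ℕ), 0 < C ∧ ∀ n, n0 ≤ n →
    ∀ φ : TT d → ℂ, MemLp φ (ENNReal.ofReal p) volume → ∫ x, ‖φ x‖ ^ p ≤ 1 →
    (∀ l : ℕ, ∑ s ∈ Sl d l, en (bc r φ) s ≤ Bl d p r CB l) →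
    ∀ l, n ≤ l → l ≤ n + c1 * lg n →
    ∃ G, TP d (2 ^ (d + 3) * (CY * lg n) ^ 4 * ((n + 1) ^ (d - 1) * 2 ^ n)) G ∧
      ∀ x, ‖∑ s ∈ Sl d l, fs (bc r φ) s x - G x‖ ≤ C * (lg n : ℝ) ^ 7 * Un d p r n := by
  have hr0 : 0 < r := by
    have : 0 < 1 / p := by positivity
    linarith
  obtain ⟨cr', hcr⟩ : ∃ cr' : ℕ, 6 * (2 : ℝ) ^ r ≤ 2 ^ cr' := by
    obtain ⟨n, hn⟩ := pow_unbounded_of_one_lt (6 * (2 : ℝ) ^ r) (by norm_num : (1 : ℝ) < 2)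
    exact ⟨n, hn.le⟩
  obtain ⟨ν, hν⟩ : ∃ ν : ℕ, 2 ≤ (ν : ℝ) * (2 - p) := by
    obtain ⟨n, hn⟩ := exists_nat_ge (2 / (2 - p))
    refine ⟨n, ?_⟩
    rwa [div_le_iff₀ (by linarith)] at hn
  set CY := pE d c1 cr' ν 1 with hCY
  refine ⟨20000 * (CY : ℝ) ^ 7 * (CB * 2 ^ (d - 1)), CY, 2 ^ (32 * (c1 + d * CY)), ?_, ?_⟩
  · have hCY0 : 0 < CY := by
      rw [hCY]
      unfold pE
      positivity
    positivity
  intro n hn φ hφ hφ1 hE l hnl hln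
  have hn1 : 1 ≤ n := le_trans Nat.one_le_two_pow hn
  have hsm := lg_small (c1 + d * CY) n hn
  set Λ := lg n with hΛ
  have hΛ1 : 1 ≤ Λ := lg_one n
  have hsm1 : c1 * Λ ≤ n := le_trans (Nat.mul_le_mul_right _ (by omega)) hsm
  have hsm2 : d * (CY * Λ) ≤ n := by
    rw [← mul_assoc]
    exact le_trans (Nat.mul_le_mul_right _ (by omega)) hsm
  have hl2 : l ≤ 2 * n := by omega
  have hlΛ : l + 1 ≤ 2 ^ Λ := by
    have := lg_lo n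
    rw [← hΛ] at this
    omega
  set M := (n + 1) ^ (d - 1) * 2 ^ n with hM
  have hM0 : 0 < M := by positivity
  set L1 := (d + 1) * Λ + (d + (2 + d * (5 + d))) with hL1
  set L3 := 2 * d + 2 * (d * (cr' + Λ) + ν * (L1 + d * (cr' + Λ))) with hL3
  have hpE : pm (c1 * Λ) L1 L3 (d * Λ) + pL d (c1 * Λ) L1 L3 (d * Λ) + 1 ≤ CY * Λ :=
    pE_le d c1 cr' ν Λ hΛ1
  have hlay := layer hd l (bc r φ) (Bl d p r CB l) (Bl_pos d p r CB hCB l) (hE l) (c1 * Λ) L1 L3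
    (d * Λ) M hM0 ?_ ?_ ?_ ((2 + d * (5 + d + l) : ℕ) : ℝ) (by positivity) (ell_le d l hd) ?_ ?_
    (CY * Λ) hpE
  · obtain ⟨G, hG1, hG2⟩ := hlay
    refine ⟨G, hG1, fun x => (hG2 x).trans ?_⟩
    have h1 := sqrt_Bl d p r CB hp1 hr hCB n l hnl hl2
    rw [← hM] at h1
    calc 20000 * ((CY * Λ : ℕ) : ℝ) ^ 7 * Real.sqrt (2 ^ l / (M : ℝ)) * Bl d p r CB l
        = 20000 * ((CY * Λ : ℕ) : ℝ) ^ 7 * (Real.sqrt (2 ^ l / (M : ℝ)) * Bl d p r CB l) := by ring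
      _ ≤ 20000 * ((CY * Λ : ℕ) : ℝ) ^ 7 * (CB * 2 ^ (d - 1) * Un d p r n) := by gcongr
      _ = _ := by
          push_cast
          ring
  · -- `hL0`
    have hMr := par_M d n
    rw [← hM] at hMr
    rw [div_le_iff₀ (by exact_mod_cast hM0)]
    calc (2 : ℝ) ^ l ≤ 2 ^ (c1 * Λ + n) := pow_le_pow_right₀ (by norm_num) (by omega)
      _ = 2 ^ (c1 * Λ) * 2 ^ n := pow_add _ _ _
      _ ≤ _ := by gcongr
  · exact par_Lp d l Λ hd hlΛ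
  · -- `hZ`
    intro s hs
    exact samples p r hp1 hp2 hr0 cr' ν hcr hν φ hφ hφ1 l Λ L1 hlΛ s hs _
      (Bl_low d p r CB hp1 hCB l)
  · exact_mod_cast par_ell d l Λ L1 hlΛ hL1
  · exact par_big d c1 L1 L3 Λ CY hpE n l hsm2 hnl

end

end Pool.Agent.H75.UB
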