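import Pool.Agent.H75.UB.Blk
import Pool.Agent.H75.UB.Full

set_option autoImplicit false
set_option linter.unusedSectionVars false

/-! One dyadic block: the selection of the offsets. -/

open Finset ComplexConjugate

open scoped Classical

namespace Pool.Agent.H75.UB

open Pool.Agent.H75.MT

noncomputable section

variable {d : ℕ}

/-- coefficients of a sampled function -/
def Ac (s : Fin d → ℕ) (Z : Finset (Fin d → ℕ)) (a : (Fin d → ℕ) → ℂ) (k : Fin d → ℤ) : ℂ :=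
  ∑ ζ ∈ Z, (a ζ / NT s) * ex k (-gp (NN s) ζ)

/-- the function with the samples `a` on `Z` -/
def fbox (s : Fin d → ℕ) (Z : Finset (Fin d → ℕ)) (a : (Fin d → ℕ) → ℂ) (x : Fin d → ℝ) : ℂ :=
  ∑ k ∈ Box s, Ac s Z a k * ex k x

/-- the windowed function -/
def fwin (s : Fin d → ℕ) (i0 : Fin d) (J m : ℕ) (Z : Finset (Fin d → ℕ)) (a : (Fin d → ℕ) → ℂ)
    (x : Fin d → ℝ) : ℂ :=
  ∑ C ∈ KK s i0 J m, ∑ u : Fin (m + 1) → Fin (2 ^ J),
    (1 / (2 ^ J : ℕ) ^ m : ℂ) * Ac s Z a (fr i0 J C (tot u)) * ex (fr i0 J C (tot u)) x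

lemma fwin_sub (s : Fin d → ℕ) (i0 : Fin d) (J m : ℕ) (hJ : J ≤ s i0) (Z : Finset (Fin d → ℕ))
    (a : (Fin d → ℕ) → ℂ) :
    TP d (#(Thin s i0 J m)) (fun x => fbox s Z a x - fwin s i0 J m Z a x) := by
  set q : ℕ := 2 ^ J with hq
  set mu : (Fin d → ℤ) → ℂ := fun k => (1 / (q : ℂ) ^ m) * ((∑ C ∈ KK s i0 J m,
    ∑ u : Fin (m + 1) → Fin q, (if fr i0 J C (tot u) = k then 1 else 0 : ℕ) : ℕ) : ℂ) with hmu
  refine ⟨Thin s i0 J m, fun k => -(mu k * Ac s Z a k), le_rfl, ?_⟩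
  intro x
  have e1 : fwin s i0 J m Z a x = ∑ k ∈ RR s i0 J m, mu k * Ac s Z a k * ex k x := by
    unfold fwin
    simp only [← hq]
    have h1 : ∀ k ∈ RR s i0 J m, mu k * Ac s Z a k * ex k x
        = ∑ C ∈ KK s i0 J m, ∑ u : Fin (m + 1) → Fin q, (if fr i0 J C (tot u) = k then
          (1 / (q : ℂ) ^ m) * Ac s Z a (fr i0 J C (tot u)) * ex (fr i0 J C (tot u)) x else 0) := by
      intro k _
      simp only [hmu]
      push_cast
      rw [mul_assoc, Finset.mul_sum, Finset.sum_mul]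
      refine Finset.sum_congr rfl (fun C _ => ?_)
      rw [Finset.mul_sum, Finset.sum_mul]
      refine Finset.sum_congr rfl (fun u _ => ?_)
      split_ifs with h
      · rw [h]
        ring
      · ring
    rw [Finset.sum_congr rfl h1]
    symm
    rw [Finset.sum_comm]
    refine Finset.sum_congr rfl (fun C hC => ?_)
    rw [Finset.sum_comm]
    refine Finset.sum_congr rfl (fun u _ => ?_)
    rw [Finset.sum_ite_eq, if_pos (fr_mem_RR hJ hC u)]
  have hsub : Box s ⊆ RR s i0 J m := by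
    intro k hk
    rw [mem_Box] at hk
    rw [mem_RR]
    have h2 : (0 : ℤ) ≤ m * 2 ^ J := by positivity
    refine ⟨⟨?_, ?_⟩, fun i _ => hk i⟩
    · linarith [(hk i0).1]
    · linarith [(hk i0).2]
  have e2 : ∀ k ∈ Box s, mu k = 1 := by
    intro k hk
    simp only [hmu]
    rw [mult_one hJ hk]
    have hqn : q ≠ 0 := by
      rw [hq]
      positivity
    have hqc : (q : ℂ) ≠ 0 := by exact_mod_cast hqn
    have he : (((2 ^ J) ^ m : ℕ) : ℂ) = (q : ℂ) ^ m := by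
      rw [hq]
      push_cast
      rfl
    rw [he]
    field_simp
  simp only
  rw [e1, ← Finset.sum_sdiff hsub]
  unfold Thin fbox
  have e3 : ∑ k ∈ Box s, mu k * Ac s Z a k * ex k x = ∑ k ∈ Box s, Ac s Z a k * ex k x :=
    Finset.sum_congr rfl (fun k hk => by rw [e2 k hk, one_mul])
  rw [e3]
  have e4 : ∑ k ∈ RR s i0 J m \ Box s, -(mu k * Ac s Z a k) * ex k x
      = -∑ k ∈ RR s i0 J m \ Box s, mu k * Ac s Z a k * ex k x := by
    rw [← Finset.sum_neg_distrib]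
    exact Finset.sum_congr rfl (fun k _ => by ring)
  rw [e4]
  ring

/-- the contribution of a cell with option `α` -/
def Phi (s : Fin d → ℕ) (i0 : Fin d) (J g m b : ℕ) (Z : Finset (Fin d → ℕ)) (a : (Fin d → ℕ) → ℂ)
    (x : Fin d → ℝ) (C : Fin d → ℤ) (α : ℕ) : ℂ :=
  ∑ u : Fin (m + 1) → Fin (2 ^ J), (1 / (2 ^ J : ℕ) ^ m : ℂ)
    * psi (2 ^ J) (2 ^ (J - g)) (m + 1) (b * ((tot u : ℕ) : ℤ) + α)
    * (Ac s Z a (fr i0 J C (tot u)) * ex (fr i0 J C (tot u)) x)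

lemma Phi_avg (s : Fin d → ℕ) (i0 : Fin d) (J g m b : ℕ) (hJ : 1 ≤ J) (Z : Finset (Fin d → ℕ))
    (a : (Fin d → ℕ) → ℂ) (x : Fin d → ℝ) (C : Fin d → ℤ) :
    ∑ α : Fin (2 ^ J), Phi s i0 J g m b Z a x C α = (2 ^ J : ℕ) *
      ∑ u : Fin (m + 1) → Fin (2 ^ J),
        (1 / (2 ^ J : ℕ) ^ m : ℂ) * Ac s Z a (fr i0 J C (tot u)) * ex (fr i0 J C (tot u)) x := by
  unfold Phi
  rw [Finset.sum_comm, Finset.mul_sum]
  refine Finset.sum_congr rfl (fun u _ => ?_)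
  have h := psi_avg (2 ^ J) (2 ^ (J - g)) (m + 1) (by positivity) (by positivity)
    (dvd_pow_self 2 (by omega)) (b * ((tot u : ℕ) : ℤ))
  rw [← Finset.sum_mul, ← Finset.mul_sum, h]
  ring

/-- position of a grid point -/
def pos (s : Fin d → ℕ) (i0 : Fin d) (ζ : Fin d → ℕ) : ℝ := (ζ i0 : ℝ) / NN s i0

/-- the window kernel -/
def Wk (J m b : ℕ) (h : ℤ) (t : ℝ) : ℂ :=
  (1 / (2 ^ J : ℕ) ^ m : ℂ) * (∑ c ∈ range (2 ^ J), ee (c * (t + h * b / (2 ^ J : ℕ)))) ^ (m + 1)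

lemma Wk_le (J m b : ℕ) (h : ℤ) (t : ℝ) : ‖Wk J m b h t‖ ≤ 2 ^ J := by
  unfold Wk
  rw [norm_mul, norm_pow]
  have h1 := dir_le (2 ^ J) (t + h * b / (2 ^ J : ℕ))
  have h2 : ‖(1 / (2 ^ J : ℕ) ^ m : ℂ)‖ = 1 / (2 ^ J) ^ m := by
    rw [norm_div, norm_one, norm_pow, Complex.norm_natCast]
    push_cast
    rfl
  rw [h2]
  push_cast at h1 ⊢
  calc 1 / ((2 : ℝ) ^ J) ^ m * ‖∑ c ∈ range (2 ^ J), ee (c * (t + h * b / 2 ^ J))‖ ^ (m + 1)
      ≤ 1 / ((2 : ℝ) ^ J) ^ m * (2 ^ J) ^ (m + 1) := by gcongr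
    _ = 2 ^ J := by
        rw [pow_succ]
        field_simp

lemma Wk_far (J m b : ℕ) (h : ℤ) (t : ℝ) (hn : ¬ near (t + h * b / (2 ^ J : ℕ)) (1 / 2 ^ J)) :
    ‖Wk J m b h t‖ ≤ 2 ^ J * (1 / 2) ^ (m + 1) := by
  unfold Wk
  rw [norm_mul, norm_pow]
  have h1 := dir_far (2 ^ J) (t + h * b / (2 ^ J : ℕ)) (1 / 2 ^ J) (by positivity) (by
    intro n
    unfold near at hn
    push Not at hn
    exact (hn n).le)
  have h2 : ‖(1 / (2 ^ J : ℕ) ^ m : ℂ)‖ = 1 / (2 ^ J) ^ m := by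
    rw [norm_div, norm_one, norm_pow, Complex.norm_natCast]
    push_cast
    rfl
  rw [h2]
  have h3 : 1 / (2 * (1 / (2 : ℝ) ^ J)) = 2 ^ J * (1 / 2) := by
    field_simp
  rw [h3] at h1
  push_cast at h1 ⊢
  calc 1 / ((2 : ℝ) ^ J) ^ m * ‖∑ c ∈ range (2 ^ J), ee (c * (t + h * b / 2 ^ J))‖ ^ (m + 1)
      ≤ 1 / ((2 : ℝ) ^ J) ^ m * (2 ^ J * (1 / 2)) ^ (m + 1) := by gcongr
    _ = 2 ^ J * (1 / 2) ^ (m + 1) := by
        rw [mul_pow, pow_succ ((2 : ℝ) ^ J)]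
        field_simp

lemma Phi_expand (s : Fin d → ℕ) (i0 : Fin d) (J g m b : ℕ) (Z : Finset (Fin d → ℕ))
    (a : (Fin d → ℕ) → ℂ) (x : Fin d → ℝ) (C : Fin d → ℤ) (α : ℕ) :
    Phi s i0 J g m b Z a x C α = ∑ h ∈ Hs (2 ^ J), psh (2 ^ J) (2 ^ (J - g)) (m + 1) h
      * ee (h * ((α : ℝ) / (2 ^ J : ℕ))) * ∑ ζ ∈ Z, (a ζ / NT s)
        * Wk J m b h (x i0 - pos s i0 ζ) * ex (fr i0 J C 0) (x - gp (NN s) ζ) := by
  have e1 : Phi s i0 J g m b Z a x C α = ∑ ζ ∈ Z, (a ζ / NT s)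
      * ex (fr i0 J C 0) (x - gp (NN s) ζ) * ((1 / (2 ^ J : ℕ) ^ m : ℂ)
      * ∑ u : Fin (m + 1) → Fin (2 ^ J),
        psi (2 ^ J) (2 ^ (J - g)) (m + 1) (b * ((tot u : ℕ) : ℤ) + α)
        * ee (tot u * (x i0 - pos s i0 ζ))) := by
    unfold Phi Ac
    simp only [Finset.mul_sum]
    rw [Finset.sum_comm]
    refine Finset.sum_congr rfl (fun u _ => ?_)
    rw [Finset.sum_mul, Finset.mul_sum]
    refine Finset.sum_congr rfl (fun ζ _ => ?_)
    have h1 : ex (fr i0 J C (tot u)) (-gp (NN s) ζ) * ex (fr i0 J C (tot u)) x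
        = ex (fr i0 J C 0) (x - gp (NN s) ζ) * ee (tot u * (x i0 - pos s i0 ζ)) := by
      rw [mul_comm, ← ex_sub, ex_fr]
      congr 2
    calc (1 / (2 ^ J : ℕ) ^ m : ℂ) * psi (2 ^ J) (2 ^ (J - g)) (m + 1) (b * ((tot u : ℕ) : ℤ) + α)
          * ((a ζ / NT s) * ex (fr i0 J C (tot u)) (-gp (NN s) ζ) * ex (fr i0 J C (tot u)) x)
        = (1 / (2 ^ J : ℕ) ^ m : ℂ) * psi (2 ^ J) (2 ^ (J - g)) (m + 1) (b * ((tot u : ℕ) : ℤ) + α)
          * (a ζ / NT s) * (ex (fr i0 J C (tot u)) (-gp (NN s) ζ) * ex (fr i0 J C (tot u)) x) := by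
          ring
      _ = _ := by
          rw [h1]
          ring
  rw [e1]
  have e2 : ∀ ζ ∈ Z, (a ζ / NT s) * ex (fr i0 J C 0) (x - gp (NN s) ζ) * ((1 / (2 ^ J : ℕ) ^ m : ℂ)
      * ∑ u : Fin (m + 1) → Fin (2 ^ J),
        psi (2 ^ J) (2 ^ (J - g)) (m + 1) (b * ((tot u : ℕ) : ℤ) + α)
        * ee (tot u * (x i0 - pos s i0 ζ)))
      = ∑ h ∈ Hs (2 ^ J), psh (2 ^ J) (2 ^ (J - g)) (m + 1) h
        * ee (h * ((α : ℝ) / (2 ^ J : ℕ))) * ((a ζ / NT s)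
        * Wk J m b h (x i0 - pos s i0 ζ) * ex (fr i0 J C 0) (x - gp (NN s) ζ)) := by
    intro ζ _
    have h2 := window_expand (2 ^ J) (2 ^ (J - g)) (m + 1) b α (x i0 - pos s i0 ζ)
    rw [h2, Finset.mul_sum, Finset.mul_sum]
    refine Finset.sum_congr rfl (fun h _ => ?_)
    unfold Wk
    push_cast
    ring
  rw [Finset.sum_congr rfl e2, Finset.sum_comm]
  refine Finset.sum_congr rfl (fun h _ => ?_)
  rw [← Finset.mul_sum]

/-- the active grid points -/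
def At (s : Fin d → ℕ) (i0 : Fin d) (J b : ℕ) (Z : Finset (Fin d → ℕ)) (t : ℝ) (h : ℤ) :
    Finset (Fin d → ℕ) :=
  Z.filter (fun ζ => near (t - pos s i0 ζ + h * b / (2 ^ J : ℕ)) (1 / 2 ^ J))

/-- the active frequencies -/
def Hx (s : Fin d → ℕ) (i0 : Fin d) (J g b : ℕ) (Z : Finset (Fin d → ℕ)) (t : ℝ) : Finset ℤ :=
  (Hs (2 ^ J)).filter (fun h => h ≠ 0 ∧ |h| < (2 ^ g : ℕ) ∧ (At s i0 J b Z t h).Nonempty)

/-- the main part of the functional -/
def Ta (s : Fin d → ℕ) (i0 : Fin d) (J m b : ℕ) (Z : Finset (Fin d → ℕ)) (a : (Fin d → ℕ) → ℂ)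
    (x : Fin d → ℝ) (h : ℤ) (C : Fin d → ℤ) : ℂ :=
  ∑ ζ ∈ At s i0 J b Z (x i0) h, (a ζ / NT s)
        * Wk J m b h (x i0 - pos s i0 ζ) * ex (fr i0 J C 0) (x - gp (NN s) ζ)

/-- the `ℓ_1` norm of the samples -/
def S1 (s : Fin d → ℕ) (Z : Finset (Fin d → ℕ)) (a : (Fin d → ℕ) → ℂ) : ℝ := ∑ ζ ∈ Z, ‖a ζ‖ / NT s

lemma S1_nonneg (s : Fin d → ℕ) (Z : Finset (Fin d → ℕ)) (a : (Fin d → ℕ) → ℂ) : 0 ≤ S1 s Z a :=
  Finset.sum_nonneg (fun _ _ => by positivity)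

/-- the bound of the oscillation of the options -/
def FF (s : Fin d → ℕ) (i0 : Fin d) (J g m b : ℕ) (Z : Finset (Fin d → ℕ)) (a : (Fin d → ℕ) → ℂ)
    (x : Fin d → ℝ) (C : Fin d → ℤ) : ℝ :=
  ∑ h ∈ Hx s i0 J g b Z (x i0), ‖Ta s i0 J m b Z a x h C‖
    + 2 ^ J * (2 ^ J * (1 / 2) ^ (m + 1) * S1 s Z a)

lemma term_bound (s : Fin d → ℕ) (i0 : Fin d) (J m b : ℕ) (Z S : Finset (Fin d → ℕ)) (hS : S ⊆ Z)
    (a : (Fin d → ℕ) → ℂ) (x : Fin d → ℝ) (h : ℤ) (C : Fin d → ℤ) (B : ℝ) (hB0 : 0 ≤ B)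
    (hB : ∀ ζ ∈ S, ‖Wk J m b h (x i0 - pos s i0 ζ)‖ ≤ B) :
    ‖∑ ζ ∈ S, (a ζ / NT s) * Wk J m b h (x i0 - pos s i0 ζ)
      * ex (fr i0 J C 0) (x - gp (NN s) ζ)‖ ≤ B * S1 s Z a := by
  refine (norm_sum_le _ _).trans ?_
  have h1 : ∀ ζ ∈ S, ‖(a ζ / NT s) * Wk J m b h (x i0 - pos s i0 ζ)
      * ex (fr i0 J C 0) (x - gp (NN s) ζ)‖ ≤ B * (‖a ζ‖ / NT s) := by
    intro ζ hζ
    rw [norm_mul, norm_mul, ex_norm, mul_one, norm_div, Complex.norm_natCast, mul_comm]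
    exact mul_le_mul_of_nonneg_right (hB ζ hζ) (by positivity)
  refine (Finset.sum_le_sum h1).trans ?_
  rw [← Finset.mul_sum]
  refine mul_le_mul_of_nonneg_left ?_ hB0
  unfold S1
  exact Finset.sum_le_sum_of_subset_of_nonneg hS (fun ζ _ _ => by positivity)

lemma Hs_card (J : ℕ) : #(Hs (2 ^ J)) ≤ 2 ^ J := by
  unfold Hs
  rw [Int.card_Ico]
  have := Nat.div_mul_le_self (2 ^ J) 2
  omega

lemma diff_bound (s : Fin d → ℕ) (i0 : Fin d) (J g m b : ℕ) (hg : g ≤ J) (Z : Finset (Fin d → ℕ))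
    (a : (Fin d → ℕ) → ℂ) (x : Fin d → ℝ) (C : Fin d → ℤ) (α α' : ℕ) :
    ‖Phi s i0 J g m b Z a x C α - Phi s i0 J g m b Z a x C α'‖ ≤ 2 * FF s i0 J g m b Z a x C := by
  set q : ℕ := 2 ^ J with hq
  have hq0 : 0 < q := by positivity
  set V : ℕ := 2 ^ (J - g) with hV
  have hQV : 2 ^ g * V = q := by
    rw [hV, hq, ← pow_add, Nat.add_sub_cancel' hg]
  rw [Phi_expand, Phi_expand, ← Finset.sum_sub_distrib]
  set Tt : ℤ → ℂ := fun h => ∑ ζ ∈ Z, (a ζ / NT s)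
        * Wk J m b h (x i0 - pos s i0 ζ) * ex (fr i0 J C 0) (x - gp (NN s) ζ) with hTt
  have h1 : ∀ h ∈ Hs q, ‖psh q V (m + 1) h * ee (h * ((α : ℝ) / (q : ℕ))) * Tt h
      - psh q V (m + 1) h * ee (h * ((α' : ℝ) / (q : ℕ))) * Tt h‖
      ≤ 2 * ((if h ∈ Hx s i0 J g b Z (x i0) then ‖Ta s i0 J m b Z a x h C‖ else 0)
        + 2 ^ J * (1 / 2) ^ (m + 1) * S1 s Z a) := by
    intro h hh
    have hS1 := S1_nonneg s Z a
    have hc0 : 0 ≤ 2 ^ J * (1 / 2) ^ (m + 1) * S1 s Z a := by positivity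
    by_cases h0 : h = 0
    · rw [h0]
      simp only [Int.cast_zero, zero_mul, ee_zero, mul_one, sub_self, norm_zero]
      have : 0 ≤ (if (0 : ℤ) ∈ Hx s i0 J g b Z (x i0) then ‖Ta s i0 J m b Z a x 0 C‖ else 0) := by
        split_ifs
        · exact norm_nonneg _
        · exact le_rfl
      linarith
    · have e1 : psh q V (m + 1) h * ee (h * ((α : ℝ) / (q : ℕ))) * Tt h
          - psh q V (m + 1) h * ee (h * ((α' : ℝ) / (q : ℕ))) * Tt h
          = (ee (h * ((α : ℝ) / (q : ℕ))) - ee (h * ((α' : ℝ) / (q : ℕ))))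
            * (psh q V (m + 1) h * Tt h) := by ring
      rw [e1, norm_mul]
      have e2 : ‖ee (h * ((α : ℝ) / (q : ℕ))) - ee (h * ((α' : ℝ) / (q : ℕ)))‖ ≤ 2 := by
        refine (norm_sub_le _ _).trans ?_
        rw [ee_norm, ee_norm]
        norm_num
      have e3 : ‖psh q V (m + 1) h * Tt h‖
          ≤ (if h ∈ Hx s i0 J g b Z (x i0) then ‖Ta s i0 J m b Z a x h C‖ else 0)
        + 2 ^ J * (1 / 2) ^ (m + 1) * S1 s Z a := by
        rw [norm_mul]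
        by_cases hQ : ((2 ^ g : ℕ) : ℤ) ≤ |h|
        · have h2 := psh_far q V (m + 1) (2 ^ g) hq0 (by positivity) hQV h hh hQ
          have h3 : ‖Tt h‖ ≤ 2 ^ J * S1 s Z a :=
            term_bound s i0 J m b Z Z (Finset.Subset.refl _) a x h C (2 ^ J) (by positivity)
              (fun ζ _ => Wk_le J m b h _)
          have h4 : ‖psh q V (m + 1) h‖ * ‖Tt h‖ ≤ (1 / 2) ^ (m + 1) * (2 ^ J * S1 s Z a) :=
            mul_le_mul h2 h3 (norm_nonneg _) (by positivity)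
          have : 0 ≤ (if h ∈ Hx s i0 J g b Z (x i0) then ‖Ta s i0 J m b Z a x h C‖ else 0) := by
            split_ifs
            · exact norm_nonneg _
            · exact le_rfl
          linarith
        · push Not at hQ
          have h2 := psh_le q V (m + 1) h
          have h3 : Tt h = Ta s i0 J m b Z a x h C + ∑ ζ ∈ Z \ At s i0 J b Z (x i0) h, (a ζ / NT s)
              * Wk J m b h (x i0 - pos s i0 ζ) * ex (fr i0 J C 0) (x - gp (NN s) ζ) := by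
            simp only [hTt]
            unfold Ta
            rw [add_comm]
            exact (Finset.sum_sdiff (Finset.filter_subset _ _)).symm
          have h4 : ‖∑ ζ ∈ Z \ At s i0 J b Z (x i0) h, (a ζ / NT s)
              * Wk J m b h (x i0 - pos s i0 ζ) * ex (fr i0 J C 0) (x - gp (NN s) ζ)‖
              ≤ (2 ^ J * (1 / 2) ^ (m + 1)) * S1 s Z a := by
            refine term_bound s i0 J m b Z _ Finset.sdiff_subset a x h C _ (by positivity) ?_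
            intro ζ hζ
            refine Wk_far J m b h _ ?_
            intro hn
            rw [mem_sdiff] at hζ
            apply hζ.2
            unfold At
            rw [mem_filter]
            exact ⟨hζ.1, hn⟩
          have h5 : ‖Ta s i0 J m b Z a x h C‖
              ≤ (if h ∈ Hx s i0 J g b Z (x i0) then ‖Ta s i0 J m b Z a x h C‖ else 0) := by
            split_ifs with hc
            · exact le_rfl
            · have : ¬ (At s i0 J b Z (x i0) h).Nonempty := by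
                intro hne
                apply hc
                unfold Hx
                rw [mem_filter]
                exact ⟨hh, h0, hQ, hne⟩
              rw [Finset.not_nonempty_iff_eq_empty] at this
              unfold Ta
              rw [this]
              simp
          have h6 : ‖Tt h‖ ≤ ‖Ta s i0 J m b Z a x h C‖ + (2 ^ J * (1 / 2) ^ (m + 1)) * S1 s Z a := by
            rw [h3]
            exact (norm_add_le _ _).trans (by linarith)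
          calc ‖psh q V (m + 1) h‖ * ‖Tt h‖ ≤ 1 * ‖Tt h‖ :=
                mul_le_mul_of_nonneg_right h2 (norm_nonneg _)
            _ ≤ _ := by linarith
      calc _ ≤ 2 * ((if h ∈ Hx s i0 J g b Z (x i0) then ‖Ta s i0 J m b Z a x h C‖ else 0)
        + 2 ^ J * (1 / 2) ^ (m + 1) * S1 s Z a) :=
            mul_le_mul e2 e3 (norm_nonneg _) (by norm_num)
        _ = _ := rfl
  refine (norm_sum_le _ _).trans ((Finset.sum_le_sum h1).trans ?_)
  rw [← Finset.mul_sum, Finset.sum_add_distrib, Finset.sum_const, nsmul_eq_mul]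
  unfold FF
  have h2 : ∑ h ∈ Hs q, (if h ∈ Hx s i0 J g b Z (x i0) then ‖Ta s i0 J m b Z a x h C‖ else 0)
      = ∑ h ∈ Hx s i0 J g b Z (x i0), ‖Ta s i0 J m b Z a x h C‖ := by
    rw [← Finset.sum_filter]
    congr 1
    ext h
    rw [mem_filter]
    constructor
    · rintro ⟨_, h⟩
      exact h
    · intro hh
      refine ⟨?_, hh⟩
      unfold Hx at hh
      exact (mem_filter.1 hh).1
  rw [h2]
  have h3 : (#(Hs q) : ℝ) ≤ 2 ^ J := by exact_mod_cast Hs_card J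
  have hS1 := S1_nonneg s Z a
  have h4 : (#(Hs q) : ℝ) * (2 ^ J * (1 / 2) ^ (m + 1) * S1 s Z a)
      ≤ 2 ^ J * (2 ^ J * (1 / 2) ^ (m + 1) * S1 s Z a) :=
    mul_le_mul_of_nonneg_right h3 (by positivity)
  linarith

lemma Ta_sq (s : Fin d → ℕ) (i0 : Fin d) (J m b : ℕ) (hJ : J ≤ s i0) (hm : m ≤ 2 ^ (s i0 - J + 1))
    (Z : Finset (Fin d → ℕ)) (hZ : ∀ ζ ∈ Z, ∀ i, ζ i < NN s i) (a : (Fin d → ℕ) → ℂ)
    (x : Fin d → ℝ) (h : ℤ) (τ : ℝ)
    (hE : (∑ ζ ∈ At s i0 J b Z (x i0) h, ‖a ζ‖ ^ 2) / NT s ≤ τ ^ 2 / 2 ^ J) :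
    ∑ C ∈ KK s i0 J m, ‖Ta s i0 J m b Z a x h C‖ ^ 2 ≤ 3 * τ ^ 2 := by
  set S := At s i0 J b Z (x i0) h with hS
  set c : (Fin d → ℕ) → ℂ := fun ζ => (a ζ / NT s) * Wk J m b h (x i0 - pos s i0 ζ) with hc
  have h1 : ∀ C, ‖Ta s i0 J m b Z a x h C‖ = ‖∑ ζ ∈ S, c ζ * ex (fr i0 J C 0) (-gp (NN s) ζ)‖ := by
    intro C
    unfold Ta
    have e1 : ∑ ζ ∈ S, (a ζ / NT s) * Wk J m b h (x i0 - pos s i0 ζ)
        * ex (fr i0 J C 0) (x - gp (NN s) ζ)
        = ex (fr i0 J C 0) x * ∑ ζ ∈ S, c ζ * ex (fr i0 J C 0) (-gp (NN s) ζ) := by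
      rw [Finset.mul_sum]
      refine Finset.sum_congr rfl (fun ζ _ => ?_)
      rw [ex_sub]
      simp only [hc]
      ring
    rw [e1, norm_mul, ex_norm, one_mul]
  simp only [h1]
  have hb := bessel_block s i0 J m hJ hm S
    (fun ζ hζ => hZ ζ (Finset.mem_of_mem_filter ζ hζ)) (x i0 + h * b / (2 ^ J : ℕ)) (by
      intro ζ hζ
      have := (Finset.mem_filter.1 hζ).2
      unfold pos at this
      convert this using 1
      ring) c
  refine hb.trans ?_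
  have h2 : ∑ ζ ∈ S, ‖c ζ‖ ^ 2 ≤ (2 ^ J) ^ 2 / (NT s : ℝ) ^ 2 * ∑ ζ ∈ S, ‖a ζ‖ ^ 2 := by
    rw [Finset.mul_sum]
    refine Finset.sum_le_sum (fun ζ _ => ?_)
    simp only [hc]
    rw [norm_mul, norm_div, Complex.norm_natCast, mul_pow, div_pow]
    have h3 := Wk_le J m b h (x i0 - pos s i0 ζ)
    have h4 : ‖Wk J m b h (x i0 - pos s i0 ζ)‖ ^ 2 ≤ (2 ^ J) ^ 2 :=
      pow_le_pow_left₀ (norm_nonneg _) h3 2
    calc ‖a ζ‖ ^ 2 / (NT s : ℝ) ^ 2 * ‖Wk J m b h (x i0 - pos s i0 ζ)‖ ^ 2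
        ≤ ‖a ζ‖ ^ 2 / (NT s : ℝ) ^ 2 * (2 ^ J) ^ 2 := by gcongr
      _ = _ := by ring
  have hNT : (0 : ℝ) < NT s := by exact_mod_cast NT_pos s
  have hA : (2 : ℝ) ^ J * ((∏ i, AA s i0 J i : ℕ) : ℝ) = NT s := by
    exact_mod_cast AA_prod s i0 J hJ
  have hA0 : (0 : ℝ) ≤ ((∏ i, AA s i0 J i : ℕ) : ℝ) := by positivity
  calc ((∏ i, AA s i0 J i : ℕ) : ℝ) * 3 * ∑ ζ ∈ S, ‖c ζ‖ ^ 2
      ≤ ((∏ i, AA s i0 J i : ℕ) : ℝ) * 3 * ((2 ^ J) ^ 2 / (NT s : ℝ) ^ 2 * ∑ ζ ∈ S, ‖a ζ‖ ^ 2) := by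
        refine mul_le_mul_of_nonneg_left h2 (by positivity)
    _ = 3 * ((2 : ℝ) ^ J * ((∏ i, AA s i0 J i : ℕ) : ℝ)) * 2 ^ J / (NT s : ℝ)
        * ((∑ ζ ∈ S, ‖a ζ‖ ^ 2) / NT s) := by
        field_simp
    _ = 3 * 2 ^ J * ((∑ ζ ∈ S, ‖a ζ‖ ^ 2) / NT s) := by
        rw [hA]
        field_simp
    _ ≤ 3 * 2 ^ J * (τ ^ 2 / 2 ^ J) := by gcongr
    _ = 3 * τ ^ 2 := by field_simp

/-- hypotheses on the parameters of a block -/
structure Hyp (s : Fin d → ℕ) (i0 : Fin d) (J g m b L L2 : ℕ) (Z : Finset (Fin d → ℕ))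
    (a : (Fin d → ℕ) → ℂ) (τ R0 : ℝ) : Prop where
  hJ1 : 1 ≤ J
  hJ : J ≤ s i0
  hg : g ≤ J
  hm : m * 2 ^ J ≤ 2 ^ (s i0)
  hJm : J ≤ m + 1
  hb : Odd b
  hL : d * L2 + J + 1 ≤ L
  hL2 : J ≤ s i0 + L2
  hθ : 26 * (d : ℝ) / 2 ^ L2 ≤ 1 / 2
  hZ : ∀ ζ ∈ Z, ∀ i, ζ i < NN s i
  hτ : 0 < τ
  hR0 : 0 < R0
  hRτ : R0 ≤ τ
  hH : ∀ t, #(Hx s i0 J g b Z t) ≤ 2
  hE : ∀ (t : ℝ) (h : ℤ), h ≠ 0 → |h| < (2 ^ g : ℕ) →
    (∑ ζ ∈ At s i0 J b Z t h, ‖a ζ‖ ^ 2) / NT s ≤ τ ^ 2 / 2 ^ J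
  hs0 : NT s * (2 ^ J * (2 ^ J * (1 / 2) ^ (m + 1) * S1 s Z a)) ^ 2 ≤ R0 ^ 2
  hsup : NT s * (2 ^ J * S1 s Z a) ^ 2 ≤ 2 ^ L * τ ^ 2

variable {s : Fin d → ℕ} {i0 : Fin d} {J g m b L L2 : ℕ} {Z : Finset (Fin d → ℕ)}
  {a : (Fin d → ℕ) → ℂ} {τ R0 : ℝ}

lemma Hyp.hm' (H : Hyp s i0 J g m b L L2 Z a τ R0) : m ≤ 2 ^ (s i0 - J + 1) := by
  have h1 := H.hm
  have h2 : 2 ^ (s i0) = 2 ^ (s i0 - J) * 2 ^ J := by rw [← pow_add, Nat.sub_add_cancel H.hJ]
  rw [h2] at h1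
  have h3 : m ≤ 2 ^ (s i0 - J) := Nat.le_of_mul_le_mul_right h1 (by positivity)
  rw [pow_succ]
  omega

lemma KK_le_NT (H : Hyp s i0 J g m b L L2 Z a τ R0) : #(KK s i0 J m) ≤ NT s := by
  have h1 := KK_upper s i0 J m H.hJ H.hm'
  rw [NT_eq]
  have hd : 1 ≤ d := by
    have := i0.2
    omega
  have h2 : 2 ^ (∑ i, s i + d + 1) ≤ 2 ^ (∑ i, s i + 2 * d) :=
    Nat.pow_le_pow_right (by norm_num) (by omega)
  have h3 : 1 ≤ 2 ^ J := Nat.one_le_two_pow
  nlinarith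

/-- the radius -/
def rad (s : Fin d → ℕ) (i0 : Fin d) (J g b : ℕ) (Z : Finset (Fin d → ℕ)) (τ R0 t : ℝ) : ℝ :=
  if (Hx s i0 J g b Z t).Nonempty then 5 * τ else R0

lemma FF_sq (H : Hyp s i0 J g m b L L2 Z a τ R0) (x : Fin d → ℝ) :
    ∑ C ∈ KK s i0 J m, (FF s i0 J g m b Z a x C) ^ 2 ≤ (rad s i0 J g b Z τ R0 (x i0)) ^ 2 := by
  set s0 := 2 ^ J * (2 ^ J * (1 / 2) ^ (m + 1) * S1 s Z a) with hs0
  have hK : (#(KK s i0 J m) : ℝ) ≤ NT s := by exact_mod_cast KK_le_NT H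
  have h0 : (#(KK s i0 J m) : ℝ) * s0 ^ 2 ≤ R0 ^ 2 :=
    (mul_le_mul_of_nonneg_right hK (sq_nonneg _)).trans H.hs0
  unfold rad
  split_ifs with hne
  · have h1 : ∀ C ∈ KK s i0 J m, (FF s i0 J g m b Z a x C) ^ 2
        ≤ 3 * (∑ h ∈ Hx s i0 J g b Z (x i0), ‖Ta s i0 J m b Z a x h C‖ ^ 2 + s0 ^ 2) := by
      intro C _
      unfold FF
      rw [← hs0]
      have h2 := H.hH (x i0)
      set A := ∑ h ∈ Hx s i0 J g b Z (x i0), ‖Ta s i0 J m b Z a x h C‖ with hA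
      set B := ∑ h ∈ Hx s i0 J g b Z (x i0), ‖Ta s i0 J m b Z a x h C‖ ^ 2 with hB
      have h3 : A ^ 2 ≤ 2 * B := by
        have h4 : A ^ 2 ≤ #(Hx s i0 J g b Z (x i0)) * B := sq_sum_le_card_mul_sum_sq
        have h5 : (#(Hx s i0 J g b Z (x i0)) : ℝ) ≤ 2 := by exact_mod_cast h2
        have h6 : 0 ≤ B := Finset.sum_nonneg (fun _ _ => sq_nonneg _)
        nlinarith
      nlinarith [sq_nonneg (A - 2 * s0)]
    refine (Finset.sum_le_sum h1).trans ?_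
    rw [← Finset.mul_sum, Finset.sum_add_distrib, Finset.sum_comm, Finset.sum_const, nsmul_eq_mul]
    have h2 : ∀ h ∈ Hx s i0 J g b Z (x i0),
        ∑ C ∈ KK s i0 J m, ‖Ta s i0 J m b Z a x h C‖ ^ 2 ≤ 3 * τ ^ 2 := by
      intro h hh
      have h3 := (Finset.mem_filter.1 hh).2
      exact Ta_sq s i0 J m b H.hJ H.hm' Z H.hZ a x h τ (H.hE (x i0) h h3.1 h3.2.1)
    have h3 := Finset.sum_le_sum h2
    rw [Finset.sum_const, nsmul_eq_mul] at h3
    have h4 : (#(Hx s i0 J g b Z (x i0)) : ℝ) ≤ 2 := by exact_mod_cast H.hH (x i0)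
    have h5 : R0 ^ 2 ≤ τ ^ 2 := pow_le_pow_left₀ H.hR0.le H.hRτ 2
    have h6 := H.hτ
    nlinarith [sq_nonneg τ]
  · rw [Finset.not_nonempty_iff_eq_empty] at hne
    have h1 : ∀ C ∈ KK s i0 J m, (FF s i0 J g m b Z a x C) ^ 2 = s0 ^ 2 := by
      intro C _
      unfold FF
      rw [hne, ← hs0]
      simp
    rw [Finset.sum_congr rfl h1, Finset.sum_const, nsmul_eq_mul]
    exact h0

lemma FF_sup (H : Hyp s i0 J g m b L L2 Z a τ R0) (x : Fin d → ℝ) (C : Fin d → ℤ) :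
    (FF s i0 J g m b Z a x C) ^ 2 * #(KK s i0 J m) ≤ 2 ^ L * (rad s i0 J g b Z τ R0 (x i0)) ^ 2 := by
  set s0 := 2 ^ J * (2 ^ J * (1 / 2) ^ (m + 1) * S1 s Z a) with hs0
  have hS1 := S1_nonneg s Z a
  have hs00 : 0 ≤ s0 := by positivity
  have hK : (#(KK s i0 J m) : ℝ) ≤ NT s := by exact_mod_cast KK_le_NT H
  have hK0 : (0 : ℝ) ≤ #(KK s i0 J m) := by positivity
  have h0 : (#(KK s i0 J m) : ℝ) * s0 ^ 2 ≤ R0 ^ 2 :=
    (mul_le_mul_of_nonneg_right hK (sq_nonneg _)).trans H.hs0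
  have hL1 : (1 : ℝ) ≤ 2 ^ L := one_le_pow₀ (by norm_num)
  unfold rad
  split_ifs with hne
  · have h1 : FF s i0 J g m b Z a x C ≤ 3 * (2 ^ J * S1 s Z a) := by
      unfold FF
      have h2 : ∀ h ∈ Hx s i0 J g b Z (x i0), ‖Ta s i0 J m b Z a x h C‖ ≤ 2 ^ J * S1 s Z a := by
        intro h _
        exact term_bound s i0 J m b Z _ (Finset.filter_subset _ _) a x h C (2 ^ J) (by positivity)
          (fun ζ _ => Wk_le J m b h _)
      have h3 := Finset.sum_le_sum h2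
      rw [Finset.sum_const, nsmul_eq_mul] at h3
      have h4 : (#(Hx s i0 J g b Z (x i0)) : ℝ) ≤ 2 := by exact_mod_cast H.hH (x i0)
      have h5 : (2 : ℝ) ^ J * (1 / 2) ^ (m + 1) ≤ 1 := by
        have h6 : (2 : ℝ) ^ J ≤ 2 ^ (m + 1) := pow_le_pow_right₀ (by norm_num) H.hJm
        calc (2 : ℝ) ^ J * (1 / 2) ^ (m + 1) ≤ 2 ^ (m + 1) * (1 / 2) ^ (m + 1) := by gcongr
          _ = 1 := by
              rw [← mul_pow]
              norm_num
      have h6 : 0 ≤ 2 ^ J * S1 s Z a := by positivity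
      have h7 : 2 ^ J * (2 ^ J * (1 / 2) ^ (m + 1) * S1 s Z a) ≤ 2 ^ J * S1 s Z a := by
        have : 2 ^ J * (2 ^ J * (1 / 2) ^ (m + 1) * S1 s Z a)
            = (2 ^ J * (1 / 2) ^ (m + 1)) * (2 ^ J * S1 s Z a) := by ring
        rw [this]
        nlinarith
      nlinarith
    have h2 : 0 ≤ FF s i0 J g m b Z a x C := by
      unfold FF
      have : 0 ≤ ∑ h ∈ Hx s i0 J g b Z (x i0), ‖Ta s i0 J m b Z a x h C‖ :=
        Finset.sum_nonneg (fun _ _ => norm_nonneg _)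
      rw [← hs0]
      linarith
    have h3 : (FF s i0 J g m b Z a x C) ^ 2 ≤ (3 * (2 ^ J * S1 s Z a)) ^ 2 :=
      pow_le_pow_left₀ h2 h1 2
    have h4 := H.hsup
    calc (FF s i0 J g m b Z a x C) ^ 2 * #(KK s i0 J m)
        ≤ (3 * (2 ^ J * S1 s Z a)) ^ 2 * NT s := by gcongr
      _ = 9 * (NT s * (2 ^ J * S1 s Z a) ^ 2) := by ring
      _ ≤ 9 * (2 ^ L * τ ^ 2) := by gcongr
      _ ≤ 2 ^ L * (5 * τ) ^ 2 := by
          have : 0 ≤ 2 ^ L * τ ^ 2 := by positivity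
          nlinarith
  · rw [Finset.not_nonempty_iff_eq_empty] at hne
    have h1 : FF s i0 J g m b Z a x C = s0 := by
      unfold FF
      rw [hne, ← hs0]
      simp
    rw [h1]
    have : 0 ≤ R0 ^ 2 := sq_nonneg _
    nlinarith

/-- thinning of one block -/
theorem block_thin (H : Hyp s i0 J g m b L L2 Z a τ R0) :
    ∃ G, TP d (#(KK s i0 J m) * ((m + 1) * ((m + 1) * 2 ^ (J - g))) + #(Thin s i0 J m)) G ∧
      ∀ x, ‖fbox s Z a x - G x‖ ≤ (if ∃ ζ ∈ Z, hitB (2 ^ J) (2 ^ g) (x i0 - pos s i0 ζ) (2 / 2 ^ J) b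
        then 480 * ((L : ℝ) + 6) ^ 2 * τ else 0) + 96 * ((L : ℝ) + 6) ^ 2 * R0
        + 26 * d / 2 ^ L2 * (960 * ((L : ℝ) + 6) ^ 2 * τ) := by
  set q : ℕ := 2 ^ J with hq
  have hq0 : 0 < q := by positivity
  set Gn : Fin d → ℕ := fun i => 2 ^ (s i + L2) with hGn
  have hGpos : ∀ i, 0 < Gn i := fun i => by simp only [hGn]; positivity
  set Tt := ((i : Fin d) → Fin (Gn i)) × Bool with hTt
  set Φ : Tt → (KK s i0 J m) → Fin q → ℝ := fun t C α =>
    if t.2 then (Phi s i0 J g m b Z a (gp Gn (fun i => t.1 i)) C α).re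
    else (Phi s i0 J g m b Z a (gp Gn (fun i => t.1 i)) C α).im with hΦ
  set lam := 96 * ((L : ℝ) + 6) ^ 2 with hlam
  have hlam0 : 0 < lam := by positivity
  have hradpos : ∀ t, 0 < rad s i0 J g b Z τ R0 t := by
    intro t
    unfold rad
    split_ifs
    · have := H.hτ
      positivity
    · exact H.hR0
  obtain ⟨f, hf⟩ := options (T := Tt) (K := (KK s i0 J m)) L
    (by
      show (Fintype.card (((i : Fin d) → Fin (Gn i)) × Bool) : ℝ) ≤ _
      rw [Fintype.card_prod, Fintype.card_bool, Fintype.card_pi, Fintype.card_coe]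
      simp only [Fintype.card_fin]
      have h1 : ∏ i, Gn i = 2 ^ (∑ i, s i + d * L2) := by
        simp only [hGn]
        rw [Finset.prod_pow_eq_pow_sum, Finset.sum_add_distrib]
        simp
      rw [h1]
      have h2 := KK_lower s i0 J m H.hJ
      have h3 : 2 ^ (∑ i, s i + d * L2) * 2 ≤ 2 ^ L * #(KK s i0 J m) := by
        calc 2 ^ (∑ i, s i + d * L2) * 2 = 2 ^ (∑ i, s i) * 2 ^ (d * L2 + 1) := by
              rw [← pow_succ, ← pow_add]
              congr 1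
          _ ≤ (#(KK s i0 J m) * 2 ^ J) * 2 ^ (d * L2 + 1) := Nat.mul_le_mul_right _ h2
          _ = #(KK s i0 J m) * 2 ^ (d * L2 + J + 1) := by
              rw [mul_assoc, ← pow_add]
              congr 2
              ring
          _ ≤ #(KK s i0 J m) * 2 ^ L :=
              Nat.mul_le_mul_left _ (Nat.pow_le_pow_right (by norm_num) H.hL)
          _ = _ := by ring
      exact_mod_cast h3)
    (fun t C => FF s i0 J g m b Z a (gp Gn (fun i => t.1 i)) C)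
    (fun t => rad s i0 J g b Z τ R0 (gp Gn (fun i => t.1 i) i0))
    (fun t => hradpos _)
    (by
      intro t
      have := FF_sq H (gp Gn (fun i => t.1 i))
      rw [Finset.sum_coe_sort (KK s i0 J m)
        (fun C => (FF s i0 J g m b Z a (gp Gn (fun i => (t.1 i : ℕ))) C) ^ 2)]
      exact this)
    (by
      intro t C
      rw [Fintype.card_coe]
      exact FF_sup H (gp Gn (fun i => t.1 i)) C)
    J (Fin q) (by rw [Fintype.card_fin]) Φ
    (by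
      intro t C α α'
      have h1 := diff_bound s i0 J g m b H.hg Z a (gp Gn (fun i => (t.1 i : ℕ))) C α α'
      simp only [hΦ]
      split_ifs
      · rw [← Complex.sub_re]
        exact (Complex.abs_re_le_norm _).trans h1
      · rw [← Complex.sub_im]
        exact (Complex.abs_im_le_norm _).trans h1)
  -- extend the choice to all cells
  set al : (Fin d → ℤ) → ℕ := fun C => if h : C ∈ KK s i0 J m then (f ⟨C, h⟩ : ℕ) else 0 with hal
  have hal1 : ∀ C : (KK s i0 J m), al C = (f C : ℕ) := by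
    intro C
    simp only [hal, dif_pos C.2]
  set U := Fin (m + 1) → Fin q with hU
  set idx : Finset ((Fin d → ℤ) × U) := (KK s i0 J m) ×ˢ univ with hidx
  set kf : (Fin d → ℤ) × U → Fin d → ℤ := fun p => fr i0 J p.1 (tot p.2) with hkf
  set c1 : (Fin d → ℤ) × U → ℂ := fun p => (1 / (q : ℕ) ^ m : ℂ)
    * psi q (2 ^ (J - g)) (m + 1) (b * ((tot p.2 : ℕ) : ℤ) + al p.1) * Ac s Z a (kf p) with hc1
  set c0 : (Fin d → ℤ) × U → ℂ := fun p => (1 / (q : ℕ) ^ m : ℂ) * Ac s Z a (kf p) with hc0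
  set g1 : (Fin d → ℝ) → ℂ := fun x => ∑ p ∈ idx, c1 p * ex (kf p) x with hg1
  have hfwin : ∀ x, fwin s i0 J m Z a x = ∑ p ∈ idx, c0 p * ex (kf p) x := by
    intro x
    unfold fwin
    rw [hidx, Finset.sum_product]
  have hg1eq : ∀ x, g1 x = ∑ C ∈ KK s i0 J m, Phi s i0 J g m b Z a x C (al C) := by
    intro x
    simp only [hg1]
    rw [hidx, Finset.sum_product]
    refine Finset.sum_congr rfl (fun C _ => ?_)
    unfold Phi
    refine Finset.sum_congr rfl (fun u _ => ?_)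
    simp only [hc1, hkf]
    ring
  have havg : ∀ x, fwin s i0 J m Z a x
      = (1 / 2 ^ J : ℂ) * ∑ C ∈ KK s i0 J m, ∑ α : Fin q, Phi s i0 J g m b Z a x C α := by
    intro x
    unfold fwin
    rw [Finset.mul_sum]
    refine Finset.sum_congr rfl (fun C _ => ?_)
    rw [Phi_avg s i0 J g m b H.hJ1 Z a x C, ← mul_assoc]
    push_cast
    field_simp
  -- the grid bound
  have hgrid : ∀ ξ : Fin d → ℕ, (∀ i, ξ i < Gn i) →
      ‖g1 (gp Gn ξ) - fwin s i0 J m Z a (gp Gn ξ)‖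
        ≤ lam * rad s i0 J g b Z τ R0 (gp Gn ξ i0) := by
    intro ξ hξ
    set y := gp Gn ξ with hy
    set t1 : (i : Fin d) → Fin (Gn i) := fun i => ⟨ξ i, hξ i⟩ with ht1
    have hy1 : gp Gn (fun i => ((t1 i : ℕ))) = y := rfl
    have hre := hf (t1, true)
    have him := hf (t1, false)
    simp only [hΦ, if_true, Bool.false_eq_true, if_false, hy1] at hre him
    have hh4 := hs_le J
    have hhs0 : 0 ≤ hs J := Finset.sum_nonneg (fun _ _ => by positivity)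
    have hrp := hradpos (y i0)
    have hb1 : 12 * ((L : ℝ) + 6) ^ 2 * rad s i0 J g b Z τ R0 (y i0) * hs J
        ≤ lam / 2 * rad s i0 J g b Z τ R0 (y i0) := by
      rw [hlam]
      have h5 : 0 ≤ 12 * ((L : ℝ) + 6) ^ 2 * rad s i0 J g b Z τ R0 (y i0) := by positivity
      nlinarith
    have hD : g1 y - fwin s i0 J m Z a y
        = ∑ C : (KK s i0 J m), Phi s i0 J g m b Z a y C (f C : ℕ)
          - (1 / 2 ^ J : ℂ) * ∑ C : (KK s i0 J m), ∑ α : Fin q, Phi s i0 J g m b Z a y C α := by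
      rw [hg1eq, havg]
      congr 1
      · rw [← Finset.sum_coe_sort (KK s i0 J m) (fun C => Phi s i0 J g m b Z a y C (al C))]
        exact Finset.sum_congr rfl (fun C _ => by rw [hal1])
      · rw [← Finset.sum_coe_sort (KK s i0 J m)
          (fun C => ∑ α : Fin q, Phi s i0 J g m b Z a y C α)]
    have hcast : (1 / 2 ^ J : ℂ) = ((1 / 2 ^ J : ℝ) : ℂ) := by push_cast; rfl
    have hDre : (g1 y - fwin s i0 J m Z a y).re
        = ∑ C : (KK s i0 J m), (Phi s i0 J g m b Z a y C (f C : ℕ)).re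
          - (1 / 2 ^ J) * ∑ C : (KK s i0 J m), ∑ α : Fin q, (Phi s i0 J g m b Z a y C α).re := by
      rw [hD, Complex.sub_re, hcast, Complex.re_ofReal_mul, Complex.re_sum, Complex.re_sum]
      simp only [Complex.re_sum]
    have hDim : (g1 y - fwin s i0 J m Z a y).im
        = ∑ C : (KK s i0 J m), (Phi s i0 J g m b Z a y C (f C : ℕ)).im
          - (1 / 2 ^ J) * ∑ C : (KK s i0 J m), ∑ α : Fin q, (Phi s i0 J g m b Z a y C α).im := by
      rw [hD, Complex.sub_im, hcast, Complex.im_ofReal_mul, Complex.im_sum, Complex.im_sum]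
      simp only [Complex.im_sum]
    rw [← hDre] at hre
    rw [← hDim] at him
    refine (Complex.norm_le_abs_re_add_abs_im _).trans ?_
    have := add_le_add (hre.trans hb1) (him.trans hb1)
    linarith
  -- the difference as an indexed sum
  have hdiff : ∀ x, ∑ p ∈ idx, (c1 p - c0 p) * ex (kf p) x = g1 x - fwin s i0 J m Z a x := by
    intro x
    rw [hfwin, ← Finset.sum_sub_distrib]
    exact Finset.sum_congr rfl (fun p _ => by ring)
  have hrange : ∀ p ∈ idx, ∀ i, |kf p i| ≤ ((2 ^ (s i + 1) : ℕ) : ℤ) := by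
    intro p hp i
    rw [hidx, mem_product] at hp
    have h1 := fr_mem_RR H.hJ hp.1 p.2
    rw [mem_RR] at h1
    have h2 : (m : ℤ) * 2 ^ J ≤ 2 ^ (s i0) := by exact_mod_cast H.hm
    have h3 : ((2 ^ (s i + 1) : ℕ) : ℤ) = 2 * 2 ^ (s i) := by
      push_cast
      rw [pow_succ]
      ring
    rw [h3, abs_le]
    by_cases hi : i = i0
    · rw [hi]
      simp only [hkf]
      constructor <;> linarith [h1.1.1, h1.1.2]
    · have h4 := h1.2 i hi
      have h5 : (0 : ℤ) < 2 ^ (s i) := by positivity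
      simp only [hkf]
      constructor <;> linarith [h4.1, h4.2]
  have hθ : ∑ i, 13 * ((2 ^ (s i + 1) : ℕ) : ℝ) / Gn i ≤ 26 * d / 2 ^ L2 := by
    have h1 : ∀ i ∈ (univ : Finset (Fin d)), 13 * ((2 ^ (s i + 1) : ℕ) : ℝ) / Gn i = 26 / 2 ^ L2 := by
      intro i _
      simp only [hGn]
      push_cast
      rw [pow_add, pow_add]
      field_simp
      norm_num
    rw [Finset.sum_congr rfl h1, Finset.sum_const, Finset.card_univ, Fintype.card_fin,
      nsmul_eq_mul]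
    refine le_of_eq ?_
    ring
  have hsup : ∀ x, ‖∑ p ∈ idx, (c1 p - c0 p) * ex (kf p) x‖ ≤ 2 * (lam * (5 * τ)) := by
    refine grid_sup idx (fun p => c1 p - c0 p) kf (fun i => 2 ^ (s i + 1)) Gn
      (fun i => by positivity) hGpos hrange (hθ.trans H.hθ) _ ?_
    intro ξ hξ
    rw [hdiff]
    refine (hgrid ξ hξ).trans ?_
    refine mul_le_mul_of_nonneg_left ?_ hlam0.le
    unfold rad
    have h1 := H.hτ
    have h2 := H.hRτ
    split_ifs <;> linarith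
  have hloc : ∀ x, ‖g1 x - fwin s i0 J m Z a x‖
      ≤ (if ∃ ζ ∈ Z, hitB (2 ^ J) (2 ^ g) (x i0 - pos s i0 ζ) (2 / 2 ^ J) b
        then 5 * lam * τ else 0) + lam * R0 + 26 * d / 2 ^ L2 * (2 * (lam * (5 * τ))) := by
    intro x
    obtain ⟨ξ, hξ, ⟨n, hn⟩, h1⟩ := grid_local idx (fun p => c1 p - c0 p) kf
      (fun i => 2 ^ (s i + 1)) Gn (fun i => by positivity) hGpos hrange _ _ hsup hθ x
    rw [hdiff, hdiff] at h1
    refine h1.trans ?_
    refine add_le_add_left ?_ _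
    refine (hgrid ξ hξ).trans ?_
    unfold rad
    split_ifs with hA hB hB
    · have := H.hR0
      have : 0 ≤ lam * R0 := by positivity
      linarith
    · exfalso
      apply hB
      obtain ⟨h, hh⟩ := hA
      rw [Hx, mem_filter] at hh
      obtain ⟨_, h0, hQ, ζ, hζ⟩ := hh
      rw [At, mem_filter] at hζ
      refine ⟨ζ, hζ.1, h, h0, hQ.le, ?_⟩
      have h2 := (near_add_int _ _ (n i0)).2 hζ.2
      have h3 : near (x i0 - (gp Gn ξ i0 + n i0)) (1 / 2 ^ J) := by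
        refine near_of_abs ((hn i0).trans ?_)
        have h4 : (2 : ℝ) ^ J ≤ (Gn i0 : ℝ) := by
          simp only [hGn]
          push_cast
          exact pow_le_pow_right₀ (by norm_num) H.hL2
        exact one_div_le_one_div_of_le (by positivity) h4
      have h5 := h2.add h3
      have h6 : (1 : ℝ) / 2 ^ J + 1 / 2 ^ J = 2 / 2 ^ J := by ring
      rw [h6] at h5
      convert h5 using 1
      ring
    · have := H.hτ
      have : 0 ≤ 5 * lam * τ := by positivity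
      linarith
    · linarith
  -- the thin part
  have hthin := fwin_sub s i0 J m H.hJ Z a
  have hcard : TP d (#(KK s i0 J m) * ((m + 1) * ((m + 1) * 2 ^ (J - g)))) g1 := by
    refine TP_index idx c1 kf ((KK s i0 J m).biUnion (fun C =>
      ((Finset.range ((m + 1) * q)).filter (fun y : ℕ =>
        psi q (2 ^ (J - g)) (m + 1) (b * (y : ℤ) + al C) ≠ 0)).image
          (fun y : ℕ => fr i0 J C y))) ?_ ?_
    · refine Finset.card_biUnion_le_card_mul _ _ _ (fun C _ => ?_)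
      exact Finset.card_image_le.trans (offset_card J g m b H.hb H.hJ1 (al C))
    · intro p hp hne
      rw [hidx, mem_product] at hp
      rw [mem_biUnion]
      refine ⟨p.1, hp.1, ?_⟩
      rw [mem_image]
      refine ⟨tot p.2, ?_, rfl⟩
      rw [mem_filter, mem_range]
      constructor
      · have h1 := tot_le hq0 p.2
        have h2 : (m + 1) * (q - 1) < (m + 1) * q :=
          Nat.mul_lt_mul_of_pos_left (by omega) (by omega)
        omega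
      · intro h0
        apply hne
        simp only [hc1]
        rw [h0]
        ring
  refine ⟨fun x => g1 x + (fbox s Z a x - fwin s i0 J m Z a x), hcard.add hthin, ?_⟩
  intro x
  have h1 : fbox s Z a x - (g1 x + (fbox s Z a x - fwin s i0 J m Z a x))
      = -(g1 x - fwin s i0 J m Z a x) := by ring
  rw [h1, norm_neg]
  refine (hloc x).trans (le_of_eq ?_)
  have h2 : (5 : ℝ) * lam * τ = 480 * ((L : ℝ) + 6) ^ 2 * τ := by rw [hlam]; ring
  have h3 : 2 * (lam * (5 * τ)) = 960 * ((L : ℝ) + 6) ^ 2 * τ := by rw [hlam]; ring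
  rw [h2, h3]

end

end Pool.Agent.H75.UB
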