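import Pool.Agent.H75.UB.Ker
import Pool.Agent.H75.UB.Thin

set_option autoImplicit false
set_option linter.unusedSectionVars false

/-! Sampling on the grid of a block: reproducing formula, Parseval and Bessel. -/

open Finset ComplexConjugate

open scoped Classical

namespace Pool.Agent.H75.UB

open Pool.Agent.H75.MT (ee ee_add ee_norm ee_conj ee_int ee_zero)

noncomputable section

variable {d : ℕ}

lemma ex_conj (k : Fin d → ℤ) (x : Fin d → ℝ) : conj (ex k x) = ex k (-x) := by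
  unfold ex
  rw [ee_conj]
  congr 1
  rw [← Finset.sum_neg_distrib]
  refine Finset.sum_congr rfl (fun i _ => ?_)
  rw [Pi.neg_apply]
  ring

lemma grid_orth (s : Fin d → ℕ) (k k' : Fin d → ℤ) (hk : k ∈ Box s) (hk' : k' ∈ Box s) :
    ∑ ζ ∈ grid s, ex k (gp (NN s) ζ) * ex k' (-gp (NN s) ζ) = if k = k' then (NT s : ℂ) else 0 := by
  have h1 : ∀ ζ ∈ grid s, ex k (gp (NN s) ζ) * ex k' (-gp (NN s) ζ)
      = ∏ i, ee (((k i - k' i : ℤ) : ℝ) * ((ζ i : ℝ) / NN s i)) := by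
    intro ζ _
    unfold ex
    rw [← ee_add, ← ee_prod', ← Finset.sum_add_distrib]
    congr 1
    refine Finset.sum_congr rfl (fun i _ => ?_)
    rw [Pi.neg_apply]
    unfold gp
    push_cast
    ring
  rw [Finset.sum_congr rfl h1]
  unfold grid
  rw [← Finset.prod_univ_sum (fun i => range (NN s i))
    (fun i u => ee (((k i - k' i : ℤ) : ℝ) * ((u : ℝ) / NN s i)))]
  simp only [sum_ee' _ (NN_pos s _)]
  by_cases h : k = k'
  · rw [if_pos h]
    unfold NT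
    push_cast
    refine Finset.prod_congr rfl (fun i _ => ?_)
    rw [if_pos]
    rw [h, sub_self]
    exact dvd_zero _
  · rw [if_neg h]
    obtain ⟨i, hi⟩ : ∃ i, k i ≠ k' i := by
      by_contra hc
      push Not at hc
      exact h (funext hc)
    refine Finset.prod_eq_zero (mem_univ i) ?_
    rw [if_neg]
    intro hd
    have e1 := mem_Box.1 hk i
    have e2 := mem_Box.1 hk' i
    have e3 : |k i - k' i| < (NN s i : ℤ) := by
      unfold NN
      push_cast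
      rw [abs_lt, pow_add]
      have : (0 : ℤ) < 2 ^ (s i) := by positivity
      constructor <;> linarith [e1.1, e1.2, e2.1, e2.2]
    have e4 := Int.eq_zero_of_abs_lt_dvd hd e3
    omega

/-- reproducing formula -/
lemma reproduce (s : Fin d → ℕ) (b : (Fin d → ℤ) → ℂ) (k : Fin d → ℤ) (hk : k ∈ Box s) :
    Ac s (grid s) (fun ζ => ∑ k' ∈ Box s, b k' * ex k' (gp (NN s) ζ)) k = b k := by
  unfold Ac
  have hN : (NT s : ℂ) ≠ 0 := by
    have := NT_pos s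
    exact_mod_cast this.ne'
  have h1 : ∀ ζ ∈ grid s, (∑ k' ∈ Box s, b k' * ex k' (gp (NN s) ζ)) / NT s * ex k (-gp (NN s) ζ)
      = ∑ k' ∈ Box s, b k' / NT s * (ex k' (gp (NN s) ζ) * ex k (-gp (NN s) ζ)) := by
    intro ζ _
    rw [Finset.sum_div, Finset.sum_mul]
    refine Finset.sum_congr rfl (fun k' _ => ?_)
    ring
  rw [Finset.sum_congr rfl h1, Finset.sum_comm]
  simp only [← Finset.mul_sum]
  have h2 : ∀ k' ∈ Box s, b k' / NT s * ∑ ζ ∈ grid s, ex k' (gp (NN s) ζ) * ex k (-gp (NN s) ζ)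
      = if k' = k then b k' else 0 := by
    intro k' hk'
    rw [grid_orth s k' k hk' hk]
    split_ifs
    · field_simp
    · ring
  rw [Finset.sum_congr rfl h2, Finset.sum_ite_eq', if_pos hk]

/-- Parseval on the grid -/
lemma grid_parseval (s : Fin d → ℕ) (b : (Fin d → ℤ) → ℂ) :
    (∑ ζ ∈ grid s, ‖∑ k ∈ Box s, b k * ex k (gp (NN s) ζ)‖ ^ 2) / NT s
      = ∑ k ∈ Box s, ‖b k‖ ^ 2 := by
  have hN : (NT s : ℂ) ≠ 0 := by
    have := NT_pos s
    exact_mod_cast this.ne'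
  have h : (((∑ ζ ∈ grid s, ‖∑ k ∈ Box s, b k * ex k (gp (NN s) ζ)‖ ^ 2) / NT s : ℝ) : ℂ)
      = ((∑ k ∈ Box s, ‖b k‖ ^ 2 : ℝ) : ℂ) := by
    push_cast
    have h1 : ∀ k ∈ Box s, (‖b k‖ : ℂ) ^ 2 = conj (b k) * b k := by
      intro k _
      rw [mul_comm, Complex.mul_conj']
    rw [Finset.sum_congr rfl h1]
    have h2 : ∀ k ∈ Box s, conj (b k) * b k = conj (b k) *
        Ac s (grid s) (fun ζ => ∑ k' ∈ Box s, b k' * ex k' (gp (NN s) ζ)) k := by
      intro k hk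
      rw [reproduce s b k hk]
    rw [Finset.sum_congr rfl h2]
    unfold Ac
    simp only [Finset.mul_sum]
    rw [Finset.sum_comm, Finset.sum_div]
    refine Finset.sum_congr rfl (fun ζ _ => ?_)
    rw [← Complex.mul_conj', map_sum, Finset.mul_sum, Finset.sum_div]
    refine Finset.sum_congr rfl (fun k _ => ?_)
    rw [map_mul, ex_conj]
    ring
  exact_mod_cast h

/-- Bessel inequality for the coefficients of a part of the grid -/
lemma Ac_bessel (s : Fin d → ℕ) (Z : Finset (Fin d → ℕ)) (hZ : Z ⊆ grid s)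
    (a : (Fin d → ℕ) → ℂ) :
    ∑ k ∈ Box s, ‖Ac s Z a k‖ ^ 2 ≤ (∑ ζ ∈ Z, ‖a ζ‖ ^ 2) / NT s := by
  have hN0 : (0 : ℝ) < NT s := by exact_mod_cast NT_pos s
  set F : (Fin d → ℕ) → ℂ := fun ζ => ∑ k ∈ Box s, Ac s Z a k * ex k (gp (NN s) ζ) with hF
  set X := ∑ k ∈ Box s, ‖Ac s Z a k‖ ^ 2 with hX
  have hX0 : 0 ≤ X := Finset.sum_nonneg (fun _ _ => by positivity)
  have h1 : (X : ℂ) = ∑ ζ ∈ Z, (a ζ / NT s) * conj (F ζ) := by
    rw [hX, hF]
    push_cast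
    have e1 : ∀ k ∈ Box s, (‖Ac s Z a k‖ : ℂ) ^ 2
        = ∑ ζ ∈ Z, (a ζ / NT s) * (conj (Ac s Z a k) * ex k (-gp (NN s) ζ)) := by
      intro k _
      rw [← Complex.mul_conj']
      conv_lhs => rw [show Ac s Z a k * conj (Ac s Z a k)
        = (∑ ζ ∈ Z, (a ζ / NT s) * ex k (-gp (NN s) ζ)) * conj (Ac s Z a k) from rfl]
      rw [Finset.sum_mul]
      refine Finset.sum_congr rfl (fun ζ _ => ?_)
      ring
    rw [Finset.sum_congr rfl e1, Finset.sum_comm]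
    refine Finset.sum_congr rfl (fun ζ _ => ?_)
    rw [← Finset.mul_sum, map_sum]
    congr 1
    refine Finset.sum_congr rfl (fun k _ => ?_)
    rw [map_mul, ex_conj]
  have h2 : X ≤ ∑ ζ ∈ Z, (‖a ζ‖ / NT s) * ‖F ζ‖ := by
    calc X = ‖(X : ℂ)‖ := by rw [Complex.norm_real, Real.norm_eq_abs, abs_of_nonneg hX0]
      _ ≤ ∑ ζ ∈ Z, ‖(a ζ / NT s) * conj (F ζ)‖ := by
          rw [h1]
          exact norm_sum_le _ _
      _ = _ := by
          refine Finset.sum_congr rfl (fun ζ _ => ?_)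
          rw [norm_mul, norm_div, RCLike.norm_conj, Complex.norm_natCast]
  have h3 : (∑ ζ ∈ Z, (‖a ζ‖ / NT s) * ‖F ζ‖) ^ 2
      ≤ ((∑ ζ ∈ Z, ‖a ζ‖ ^ 2) / NT s) * X := by
    have e1 : (∑ ζ ∈ Z, ‖F ζ‖ ^ 2) / NT s ≤ X := by
      rw [hX, ← grid_parseval s (Ac s Z a)]
      refine div_le_div_of_nonneg_right ?_ hN0.le
      exact Finset.sum_le_sum_of_subset_of_nonneg hZ (fun _ _ _ => by positivity)
    have e2 := Finset.sum_mul_sq_le_sq_mul_sq Z (fun ζ => ‖a ζ‖ / NT s) (fun ζ => ‖F ζ‖)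
    refine e2.trans ?_
    have e3 : ∑ ζ ∈ Z, (‖a ζ‖ / NT s) ^ 2 = ((∑ ζ ∈ Z, ‖a ζ‖ ^ 2) / NT s) / NT s := by
      rw [Finset.sum_div, Finset.sum_div]
      refine Finset.sum_congr rfl (fun ζ _ => ?_)
      rw [div_pow]
      field_simp
    rw [e3, div_mul_eq_mul_div, mul_div_assoc]
    exact mul_le_mul_of_nonneg_left e1 (by positivity)
  have h4 : X ^ 2 ≤ ((∑ ζ ∈ Z, ‖a ζ‖ ^ 2) / NT s) * X :=
    (pow_le_pow_left₀ hX0 h2 2).trans h3
  rcases hX0.eq_or_lt with h0 | h0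
  · rw [← h0]
    positivity
  · nlinarith

lemma Ac_add (s : Fin d → ℕ) (Z Z' : Finset (Fin d → ℕ)) (h : Z' ⊆ Z) (a : (Fin d → ℕ) → ℂ)
    (k : Fin d → ℤ) : Ac s Z a k = Ac s (Z \ Z') a k + Ac s Z' a k := by
  unfold Ac
  exact (Finset.sum_sdiff h).symm

/-- a sum over a block is a sum over the box -/
lemma sum_rho_box (s : Fin d → ℕ) (b : (Fin d → ℤ) → ℂ) (x : Fin d → ℝ) :
    ∑ k ∈ rho s, b k * ex k x
      = ∑ k ∈ Box s, (if k ∈ rho s then b k else 0) * ex k x := by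
  simp only [ite_mul, zero_mul]
  rw [← Finset.sum_filter]
  refine Finset.sum_congr ?_ (fun _ _ => rfl)
  ext k
  rw [mem_filter]
  exact ⟨fun h => ⟨rho_sub s h, h⟩, fun h => h.2⟩

lemma sum_rho_box' (s : Fin d → ℕ) (b : (Fin d → ℤ) → ℂ) :
    ∑ k ∈ Box s, ‖(if k ∈ rho s then b k else 0)‖ ^ 2 = ∑ k ∈ rho s, ‖b k‖ ^ 2 := by
  have h1 : ∀ k ∈ Box s, ‖(if k ∈ rho s then b k else 0)‖ ^ 2
      = if k ∈ rho s then ‖b k‖ ^ 2 else 0 := by
    intro k _
    split_ifs <;> simp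
  rw [Finset.sum_congr rfl h1, ← Finset.sum_filter]
  refine Finset.sum_congr ?_ (fun _ _ => rfl)
  ext k
  rw [mem_filter]
  exact ⟨fun h => h.2, fun h => ⟨rho_sub s h, h⟩⟩

end

end Pool.Agent.H75.UB
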