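import Pool.Agent.H75.UB.Thin

set_option autoImplicit false
set_option linter.unusedSectionVars false

/-! One dyadic block: stopping scales and good multipliers. -/

open Finset ComplexConjugate

open scoped Classical

namespace Pool.Agent.H75.UB

open Pool.Agent.H75.MT

noncomputable section

variable {d : ℕ}

/-- modified energies -/
def eh (s : Fin d → ℕ) (Z : Finset (Fin d → ℕ)) (a : (Fin d → ℕ) → ℂ) (β : ℝ)
    (ζ : Fin d → ℕ) : ℝ := ‖a ζ‖ ^ 2 / NT s + β ^ 2 / #Z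

lemma eh_nonneg (s : Fin d → ℕ) (Z : Finset (Fin d → ℕ)) (a : (Fin d → ℕ) → ℂ) (β : ℝ)
    (ζ : Fin d → ℕ) : 0 ≤ eh s Z a β ζ := by unfold eh; positivity

lemma eh_sum (s : Fin d → ℕ) (Z : Finset (Fin d → ℕ)) (a : (Fin d → ℕ) → ℂ) (β : ℝ)
    (h : (∑ ζ ∈ Z, ‖a ζ‖ ^ 2) / NT s ≤ β ^ 2) : ∑ ζ ∈ Z, eh s Z a β ζ ≤ 2 * β ^ 2 := by
  unfold eh
  rw [Finset.sum_add_distrib, ← Finset.sum_div, Finset.sum_const, nsmul_eq_mul]
  have h1 : (#Z : ℝ) * (β ^ 2 / #Z) ≤ β ^ 2 := by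
    rcases Nat.eq_zero_or_pos #Z with h0 | h0
    · rw [h0]
      simp
      positivity
    · have : (0 : ℝ) < #Z := by exact_mod_cast h0
      refine le_of_eq ?_
      field_simp
  linarith

/-- the ball at scale `J` -/
def ball (s : Fin d → ℕ) (i0 : Fin d) (Z : Finset (Fin d → ℕ)) (J : ℕ) (ζ : Fin d → ℕ) :
    Finset (Fin d → ℕ) := Z.filter (fun ζ' => near (pos s i0 ζ' - pos s i0 ζ) (2 / 2 ^ J))

/-- energy of the ball -/
def eb (s : Fin d → ℕ) (i0 : Fin d) (Z : Finset (Fin d → ℕ)) (a : (Fin d → ℕ) → ℂ) (β : ℝ)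
    (J : ℕ) (ζ : Fin d → ℕ) : ℝ := ∑ ζ' ∈ ball s i0 Z J ζ, eh s Z a β ζ'

/-- the stopping scale -/
def Jl (s : Fin d → ℕ) (i0 : Fin d) (Z : Finset (Fin d → ℕ)) (a : (Fin d → ℕ) → ℂ) (β τ : ℝ)
    (Jm : ℕ) (ζ : Fin d → ℕ) : ℕ :=
  Nat.findGreatest (fun J => 2 ^ J * eb s i0 Z a β J ζ ≤ τ ^ 2) Jm

/-- standing assumptions on one block -/
structure BH (s : Fin d → ℕ) (i0 : Fin d) (g : ℕ) (Z : Finset (Fin d → ℕ))
    (a : (Fin d → ℕ) → ℂ) (β τ : ℝ) (Jm L3 : ℕ) : Prop where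
  hZ : ∀ ζ ∈ Z, ∀ i, ζ i < NN s i
  hβ : 0 < β
  hen : (∑ ζ ∈ Z, ‖a ζ‖ ^ 2) / NT s ≤ β ^ 2
  hcard : #Z ≤ 2 ^ L3
  hτ : 0 < τ
  hτ2 : 256 * ((Jm : ℝ) + 9) * (2 ^ g * β ^ 2) ≤ τ ^ 2
  hstart : ∃ J0 ≤ Jm, 64 * 2 ^ g * (Jm + 9) ≤ 2 ^ J0 ∧ 2 ^ J0 * (2 * β ^ 2) ≤ τ ^ 2
  hstop : 2 ^ L3 * τ ^ 2 < 2 ^ Jm * β ^ 2

variable {s : Fin d → ℕ} {i0 : Fin d} {g : ℕ} {Z : Finset (Fin d → ℕ)}
  {a : (Fin d → ℕ) → ℂ} {β τ : ℝ} {Jm L3 : ℕ}

lemma eb_le (B : BH s i0 g Z a β τ Jm L3) (J : ℕ) (ζ : Fin d → ℕ) :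
    eb s i0 Z a β J ζ ≤ 2 * β ^ 2 := by
  refine le_trans ?_ (eh_sum s Z a β B.hen)
  unfold eb ball
  exact Finset.sum_le_sum_of_subset_of_nonneg (Finset.filter_subset _ _)
    (fun ζ _ _ => eh_nonneg s Z a β ζ)

lemma Jl_spec (B : BH s i0 g Z a β τ Jm L3) (ζ : Fin d → ℕ) :
    2 ^ (Jl s i0 Z a β τ Jm ζ) * eb s i0 Z a β (Jl s i0 Z a β τ Jm ζ) ζ ≤ τ ^ 2 := by
  obtain ⟨J0, h1, _, h3⟩ := B.hstart
  unfold Jl
  refine Nat.findGreatest_spec (P := fun J => 2 ^ J * eb s i0 Z a β J ζ ≤ τ ^ 2) h1 ?_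
  refine le_trans ?_ h3
  exact mul_le_mul_of_nonneg_left (eb_le B J0 ζ) (by positivity)

lemma Jl_ge (B : BH s i0 g Z a β τ Jm L3) (ζ : Fin d → ℕ) :
    64 * 2 ^ g * (Jm + 9) ≤ 2 ^ (Jl s i0 Z a β τ Jm ζ) := by
  obtain ⟨J0, h1, h2, h3⟩ := B.hstart
  refine h2.trans (Nat.pow_le_pow_right (by norm_num) ?_)
  unfold Jl
  refine Nat.le_findGreatest h1 ?_
  refine le_trans ?_ h3
  exact mul_le_mul_of_nonneg_left (eb_le B J0 ζ) (by positivity)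

lemma Jl_le (ζ : Fin d → ℕ) : Jl s i0 Z a β τ Jm ζ ≤ Jm := Nat.findGreatest_le _

lemma Jl_next (B : BH s i0 g Z a β τ Jm L3) (ζ : Fin d → ℕ) (hζ : ζ ∈ Z) :
    τ ^ 2 < 2 ^ (Jl s i0 Z a β τ Jm ζ + 1) * eb s i0 Z a β (Jl s i0 Z a β τ Jm ζ + 1) ζ := by
  have hτ2 : 0 < τ ^ 2 := by
    have := B.hτ
    positivity
  have hmem : ∀ J, ζ ∈ ball s i0 Z J ζ := by
    intro J
    unfold ball
    rw [mem_filter]
    refine ⟨hζ, near_of_abs ?_⟩
    rw [sub_self, abs_zero]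
    positivity
  have hbig : ∀ J, β ^ 2 / #Z ≤ eb s i0 Z a β J ζ := by
    intro J
    unfold eb
    refine le_trans ?_ (Finset.single_le_sum (f := fun ζ' => eh s Z a β ζ')
      (fun ζ' _ => eh_nonneg s Z a β ζ') (hmem J))
    simp only [eh]
    have : 0 ≤ ‖a ζ‖ ^ 2 / (NT s : ℝ) := by positivity
    linarith
  have hZ0 : (0 : ℝ) < #Z := by exact_mod_cast Finset.card_pos.2 ⟨ζ, hζ⟩
  have hZL : (#Z : ℝ) ≤ 2 ^ L3 := by exact_mod_cast B.hcard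
  have hstop : ∀ J, Jm ≤ J → τ ^ 2 < 2 ^ J * eb s i0 Z a β J ζ := by
    intro J hJ
    have h1 : (2 : ℝ) ^ Jm ≤ 2 ^ J := pow_le_pow_right₀ (by norm_num) hJ
    have h2 : τ ^ 2 * #Z < 2 ^ J * β ^ 2 := by
      calc τ ^ 2 * #Z ≤ 2 ^ L3 * τ ^ 2 := by
            rw [mul_comm]
            gcongr
        _ < 2 ^ Jm * β ^ 2 := B.hstop
        _ ≤ 2 ^ J * β ^ 2 := by gcongr
    calc τ ^ 2 = τ ^ 2 * #Z / #Z := by field_simp
      _ < 2 ^ J * β ^ 2 / #Z := by gcongr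
      _ = 2 ^ J * (β ^ 2 / #Z) := by ring
      _ ≤ 2 ^ J * eb s i0 Z a β J ζ := by
          refine mul_le_mul_of_nonneg_left (hbig J) (by positivity)
  rcases Nat.lt_or_ge (Jl s i0 Z a β τ Jm ζ) Jm with h | h
  · by_contra hcon
    push Not at hcon
    have h1 : ¬ (2 ^ (Jl s i0 Z a β τ Jm ζ + 1) * eb s i0 Z a β (Jl s i0 Z a β τ Jm ζ + 1) ζ
        ≤ τ ^ 2) := by
      exact Nat.findGreatest_is_greatest (P := fun J => 2 ^ J * eb s i0 Z a β J ζ ≤ τ ^ 2)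
        (Nat.lt_succ_self _) (by
          show Jl s i0 Z a β τ Jm ζ + 1 ≤ Jm
          omega)
    exact h1 hcon
  · exact hstop _ (by omega)

/-! ### good multipliers -/

/-- colliding energy -/
def cb (s : Fin d → ℕ) (i0 : Fin d) (g J : ℕ) (Z : Finset (Fin d → ℕ)) (a : (Fin d → ℕ) → ℂ)
    (β : ℝ) (b : ℕ) (ζ : Fin d → ℕ) : ℝ :=
  ∑ ζ' ∈ Z.filter (fun ζ' => hitB (2 ^ J) (2 * 2 ^ g) (pos s i0 ζ' - pos s i0 ζ) (3 / 2 ^ J) b),
    eh s Z a β ζ'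

/-- the bad grid points -/
def badZ (s : Fin d → ℕ) (i0 : Fin d) (g J : ℕ) (Z : Finset (Fin d → ℕ)) (a : (Fin d → ℕ) → ℂ)
    (β τ : ℝ) (R : Finset (Fin d → ℕ)) (b : ℕ) : Finset (Fin d → ℕ) :=
  R.filter (fun ζ => τ ^ 2 / 2 ^ J < cb s i0 g J Z a β b ζ)

/-- good multipliers -/
def goodB (s : Fin d → ℕ) (i0 : Fin d) (g J : ℕ) (Z : Finset (Fin d → ℕ)) (a : (Fin d → ℕ) → ℂ)
    (β τ : ℝ) (R : Finset (Fin d → ℕ)) : Finset ℕ :=
  (Finset.range (2 ^ J)).filter (fun b => Odd b ∧ ¬ hitB (2 ^ J) (2 * 2 ^ g) 0 (4 / 2 ^ J) b ∧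
    2 * #(badZ s i0 g J Z a β τ R b) ≤ #R)

lemma odd_card (J : ℕ) (hJ : 1 ≤ J) :
    2 * #((Finset.range (2 ^ J)).filter (fun b => Odd b)) = 2 ^ J := by
  obtain ⟨k, rfl⟩ : ∃ k, J = k + 1 := ⟨J - 1, by omega⟩
  have h1 : #((Finset.range (2 ^ (k + 1))).filter (fun b => Odd b)) = #(Finset.range (2 ^ k)) := by
    symm
    refine Finset.card_bij (fun c _ => 2 * c + 1) ?_ ?_ ?_
    · intro c hc
      rw [mem_range] at hc
      rw [mem_filter, mem_range, pow_succ]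
      exact ⟨by omega, ⟨c, rfl⟩⟩
    · intro c _ c' _ h
      omega
    · intro b hb
      rw [mem_filter, mem_range, pow_succ] at hb
      obtain ⟨c, hc⟩ := hb.2
      exact ⟨c, by rw [mem_range]; omega, hc.symm⟩
  rw [h1, card_range, pow_succ]
  ring

lemma hitB_count_real (J g : ℕ) (t κ : ℝ) (c : ℕ) (hκ : 0 ≤ κ) (hκ4 : κ ≤ 4) (hJm : J ≤ Jm) :
    (#((Finset.range (2 ^ J)).filter (fun b => hitB (2 ^ J) (c * 2 ^ g) t (κ / 2 ^ J) b)) : ℝ)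
      ≤ 2 * (c * 2 ^ g) * ((Jm : ℝ) + 9) := by
  have h := hit_count J (c * 2 ^ g) t κ hκ
  refine h.trans ?_
  push_cast
  have h1 : (J : ℝ) ≤ Jm := by exact_mod_cast hJm
  have h2 : (0 : ℝ) ≤ 2 * (c * 2 ^ g) := by positivity
  have h3 : 2 * κ + J + 1 ≤ (Jm : ℝ) + 9 := by linarith
  exact mul_le_mul_of_nonneg_left h3 h2

lemma goodB_card (B : BH s i0 g Z a β τ Jm L3) (J : ℕ) (hJm : J ≤ Jm)
    (hJ : 64 * 2 ^ g * (Jm + 9) ≤ 2 ^ J) (R : Finset (Fin d → ℕ)) (hR : R.Nonempty) :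
    (3 / 8 : ℝ) * 2 ^ J ≤ #(goodB s i0 g J Z a β τ R) := by
  have hτ0 : τ ≠ 0 := B.hτ.ne'
  have hJ1 : 1 ≤ J := by
    by_contra h
    have : J = 0 := by omega
    rw [this] at hJ
    have h2 : 1 ≤ 2 ^ g := Nat.one_le_two_pow
    simp only [pow_zero] at hJ
    nlinarith
  have hJr : 64 * 2 ^ g * ((Jm : ℝ) + 9) ≤ 2 ^ J := by exact_mod_cast hJ
  set Od := (Finset.range (2 ^ J)).filter (fun b => Odd b) with hOd
  set B1 := (Finset.range (2 ^ J)).filter (fun b => hitB (2 ^ J) (2 * 2 ^ g) 0 (4 / 2 ^ J) b)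
    with hB1
  set B2 := (Finset.range (2 ^ J)).filter (fun b => ¬ (2 * #(badZ s i0 g J Z a β τ R b) ≤ #R))
    with hB2
  have hsub : Od ⊆ goodB s i0 g J Z a β τ R ∪ (B1 ∪ B2) := by
    intro b hb
    rw [hOd, mem_filter] at hb
    rw [mem_union, mem_union, hB1, hB2, mem_filter, mem_filter, goodB, mem_filter]
    by_cases h1 : hitB (2 ^ J) (2 * 2 ^ g) 0 (4 / 2 ^ J) b
    · right; left
      exact ⟨hb.1, h1⟩
    · by_cases h2 : 2 * #(badZ s i0 g J Z a β τ R b) ≤ #R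
      · left
        exact ⟨hb.1, hb.2, h1, h2⟩
      · right; right
        exact ⟨hb.1, h2⟩
  have hc := (Finset.card_le_card hsub).trans ((Finset.card_union_le _ _).trans
    (Nat.add_le_add_left (Finset.card_union_le _ _) _))
  have hc' : (#Od : ℝ) ≤ #(goodB s i0 g J Z a β τ R) + (#B1 + #B2) := by exact_mod_cast hc
  have hO : 2 * (#Od : ℝ) = 2 ^ J := by exact_mod_cast odd_card J hJ1
  have h1 : (#B1 : ℝ) ≤ 2 ^ J / 16 := by
    have h := hitB_count_real (Jm := Jm) J g 0 4 2 (by norm_num) le_rfl hJm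
    push_cast at h
    rw [hB1]
    linarith
  have h2 : (#B2 : ℝ) ≤ 2 ^ J / 16 := by
    have hRr : (0 : ℝ) < #R := by exact_mod_cast hR.card_pos
    have hτ2 : 0 < τ ^ 2 := by
      have := B.hτ
      positivity
    -- the sum of the bad points
    have e1 : ∑ b ∈ Finset.range (2 ^ J), (#(badZ s i0 g J Z a β τ R b) : ℝ) ≤ #R * 2 ^ J / 32 := by
      have f1 : ∀ b ∈ Finset.range (2 ^ J), (#(badZ s i0 g J Z a β τ R b) : ℝ)
          ≤ ∑ ζ ∈ R, (2 ^ J / τ ^ 2) * cb s i0 g J Z a β b ζ := by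
        intro b _
        unfold badZ
        rw [Finset.card_filter]
        push_cast
        refine Finset.sum_le_sum (fun ζ _ => ?_)
        have hcb0 : 0 ≤ cb s i0 g J Z a β b ζ :=
          Finset.sum_nonneg (fun ζ _ => eh_nonneg s Z a β ζ)
        split_ifs with h
        · calc (1 : ℝ) = (2 ^ J / τ ^ 2) * (τ ^ 2 / 2 ^ J) := by field_simp
            _ ≤ (2 ^ J / τ ^ 2) * cb s i0 g J Z a β b ζ := by gcongr
        · positivity
      refine (Finset.sum_le_sum f1).trans ?_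
      rw [Finset.sum_comm]
      have f2 : ∀ ζ ∈ R, ∑ b ∈ Finset.range (2 ^ J), (2 ^ J / τ ^ 2) * cb s i0 g J Z a β b ζ
          ≤ 2 ^ J / 32 := by
        intro ζ _
        rw [← Finset.mul_sum]
        have f3 : ∑ b ∈ Finset.range (2 ^ J), cb s i0 g J Z a β b ζ
            ≤ (2 * β ^ 2) * (2 * (2 * 2 ^ g) * ((Jm : ℝ) + 9)) := by
          unfold cb
          simp only [Finset.sum_filter]
          rw [Finset.sum_comm]
          have f4 : ∀ ζ' ∈ Z, ∑ b ∈ Finset.range (2 ^ J),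
              (if hitB (2 ^ J) (2 * 2 ^ g) (pos s i0 ζ' - pos s i0 ζ) (3 / 2 ^ J) b
                then eh s Z a β ζ' else 0)
              ≤ eh s Z a β ζ' * (2 * (2 * 2 ^ g) * ((Jm : ℝ) + 9)) := by
            intro ζ' _
            rw [← Finset.sum_filter, Finset.sum_const, nsmul_eq_mul, mul_comm]
            refine mul_le_mul_of_nonneg_left ?_ (eh_nonneg s Z a β ζ')
            have := hitB_count_real (Jm := Jm) J g (pos s i0 ζ' - pos s i0 ζ) 3 2 (by norm_num)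
              (by norm_num) hJm
            push_cast at this
            exact this
          refine (Finset.sum_le_sum f4).trans ?_
          rw [← Finset.sum_mul]
          refine mul_le_mul_of_nonneg_right (eh_sum s Z a β B.hen) (by positivity)
        have f5 := B.hτ2
        calc (2 : ℝ) ^ J / τ ^ 2 * ∑ b ∈ Finset.range (2 ^ J), cb s i0 g J Z a β b ζ
            ≤ 2 ^ J / τ ^ 2 * ((2 * β ^ 2) * (2 * (2 * 2 ^ g) * ((Jm : ℝ) + 9))) := by gcongr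
          _ = 2 ^ J * (256 * ((Jm : ℝ) + 9) * (2 ^ g * β ^ 2)) / (32 * τ ^ 2) := by
              field_simp
              ring
          _ ≤ 2 ^ J * τ ^ 2 / (32 * τ ^ 2) := by gcongr
          _ = 2 ^ J / 32 := by field_simp
      refine (Finset.sum_le_sum f2).trans (le_of_eq ?_)
      rw [Finset.sum_const, nsmul_eq_mul]
      ring
    have e2 : (#B2 : ℝ) * (#R / 2) ≤ ∑ b ∈ Finset.range (2 ^ J), (#(badZ s i0 g J Z a β τ R b) : ℝ) := by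
      rw [← nsmul_eq_mul, ← Finset.sum_const]
      have f1 : ∑ b ∈ B2, (#R / 2 : ℝ) ≤ ∑ b ∈ B2, (#(badZ s i0 g J Z a β τ R b) : ℝ) := by
        refine Finset.sum_le_sum (fun b hb => ?_)
        rw [hB2, mem_filter] at hb
        have h3 : #R < 2 * #(badZ s i0 g J Z a β τ R b) := by omega
        have h4 : (#R : ℝ) < 2 * #(badZ s i0 g J Z a β τ R b) := by exact_mod_cast h3
        linarith
      refine f1.trans ?_
      exact Finset.sum_le_sum_of_subset_of_nonneg (Finset.filter_subset _ _)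
        (fun b _ _ => by positivity)
    have e3 : (#B2 : ℝ) * (#R / 2) ≤ (2 ^ J / 16) * (#R / 2) := by linarith
    exact le_of_mul_le_mul_right e3 (by positivity)
  linarith

/-- the number of hits of a given point -/
lemma hit_R (B : BH s i0 g Z a β τ Jm L3) (J : ℕ) (hJm : J ≤ Jm) (R : Finset (Fin d → ℕ))
    (hR : ∀ ζ ∈ R, ζ ∈ Z ∧ Jl s i0 Z a β τ Jm ζ = J) (t : ℝ) :
    (#((Finset.range (2 ^ J)).filter (fun b => ∃ ζ ∈ R, hitB (2 ^ J) (2 ^ g) (t - pos s i0 ζ)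
      (3 / 2 ^ J) b)) : ℝ) ≤ 2 ^ J * (8 * (2 ^ g * β ^ 2) * ((Jm : ℝ) + 9) / τ ^ 2) := by
  have hτ0 : τ ≠ 0 := B.hτ.ne'
  have hτ2 : 0 < τ ^ 2 := by
    have := B.hτ
    positivity
  rw [Finset.card_filter]
  push_cast
  have f1 : ∀ b ∈ Finset.range (2 ^ J), (if ∃ ζ ∈ R, hitB (2 ^ J) (2 ^ g) (t - pos s i0 ζ)
      (3 / 2 ^ J) b then (1 : ℝ) else 0) ≤ (2 * 2 ^ J / τ ^ 2) *
      ∑ ζ' ∈ Z, (if hitB (2 ^ J) (1 * 2 ^ g) (t - pos s i0 ζ') (4 / 2 ^ J) b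
        then eh s Z a β ζ' else 0) := by
    intro b _
    have hpos : 0 ≤ ∑ ζ' ∈ Z, (if hitB (2 ^ J) (1 * 2 ^ g) (t - pos s i0 ζ') (4 / 2 ^ J) b
        then eh s Z a β ζ' else 0) := by
      refine Finset.sum_nonneg (fun ζ' _ => ?_)
      split_ifs
      · exact eh_nonneg s Z a β ζ'
      · exact le_rfl
    split_ifs with h
    · obtain ⟨ζ, hζ, hhit⟩ := h
      obtain ⟨hζZ, hζJ⟩ := hR ζ hζ
      have h1 := Jl_next B ζ hζZ
      rw [hζJ] at h1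
      have h2 : eb s i0 Z a β (J + 1) ζ
          ≤ ∑ ζ' ∈ Z, (if hitB (2 ^ J) (1 * 2 ^ g) (t - pos s i0 ζ') (4 / 2 ^ J) b
            then eh s Z a β ζ' else 0) := by
        rw [← Finset.sum_filter]
        unfold eb
        refine Finset.sum_le_sum_of_subset_of_nonneg ?_ (fun ζ _ _ => eh_nonneg s Z a β ζ)
        intro ζ' hζ'
        rw [ball, mem_filter] at hζ'
        rw [mem_filter]
        refine ⟨hζ'.1, ?_⟩
        obtain ⟨h, h0, hH, hn⟩ := hhit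
        refine ⟨h, h0, by rw [one_mul]; exact hH, ?_⟩
        have h3 := hn.sub hζ'.2
        have h4 : (3 : ℝ) / 2 ^ J + 2 / 2 ^ (J + 1) = 4 / 2 ^ J := by
          rw [pow_succ]
          field_simp
          norm_num
        rw [h4] at h3
        convert h3 using 1
        ring
      calc (1 : ℝ) = (2 * 2 ^ J / τ ^ 2) * (τ ^ 2 / (2 * 2 ^ J)) := by field_simp
        _ ≤ (2 * 2 ^ J / τ ^ 2) * eb s i0 Z a β (J + 1) ζ := by
            refine mul_le_mul_of_nonneg_left ?_ (by positivity)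
            rw [div_le_iff₀ (by positivity)]
            rw [pow_succ (2 : ℝ) J] at h1
            linarith
        _ ≤ _ := mul_le_mul_of_nonneg_left h2 (by positivity)
    · positivity
  refine (Finset.sum_le_sum f1).trans ?_
  rw [← Finset.mul_sum, Finset.sum_comm]
  have f4 : ∀ ζ' ∈ Z, ∑ b ∈ Finset.range (2 ^ J),
      (if hitB (2 ^ J) (1 * 2 ^ g) (t - pos s i0 ζ') (4 / 2 ^ J) b
        then eh s Z a β ζ' else 0)
      ≤ eh s Z a β ζ' * (2 * (1 * 2 ^ g) * ((Jm : ℝ) + 9)) := by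
    intro ζ' _
    rw [← Finset.sum_filter, Finset.sum_const, nsmul_eq_mul, mul_comm]
    refine mul_le_mul_of_nonneg_left ?_ (eh_nonneg s Z a β ζ')
    have := hitB_count_real (Jm := Jm) J g (t - pos s i0 ζ') 4 1 (by norm_num) le_rfl hJm
    push_cast at this
    exact this
  have f5 : ∑ ζ' ∈ Z, ∑ b ∈ Finset.range (2 ^ J),
      (if hitB (2 ^ J) (1 * 2 ^ g) (t - pos s i0 ζ') (4 / 2 ^ J) b then eh s Z a β ζ' else 0)
      ≤ (2 * β ^ 2) * (2 * (1 * 2 ^ g) * ((Jm : ℝ) + 9)) := by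
    refine (Finset.sum_le_sum f4).trans ?_
    rw [← Finset.sum_mul]
    exact mul_le_mul_of_nonneg_right (eh_sum s Z a β B.hen) (by positivity)
  calc (2 * 2 ^ J / τ ^ 2 : ℝ) * ∑ ζ' ∈ Z, ∑ b ∈ Finset.range (2 ^ J),
      (if hitB (2 ^ J) (1 * 2 ^ g) (t - pos s i0 ζ') (4 / 2 ^ J) b then eh s Z a β ζ' else 0)
      ≤ (2 * 2 ^ J / τ ^ 2) * ((2 * β ^ 2) * (2 * (1 * 2 ^ g) * ((Jm : ℝ) + 9))) := by gcongr
    _ = _ := by
        field_simp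
        ring

/-- at most two active frequencies -/
lemma good_H (B : BH s i0 g Z a β τ Jm L3) (J : ℕ) (R : Finset (Fin d → ℕ))
    (hR : ∀ ζ ∈ R, ζ ∈ Z ∧ Jl s i0 Z a β τ Jm ζ = J) (b : ℕ)
    (hb : ¬ hitB (2 ^ J) (2 * 2 ^ g) 0 (4 / 2 ^ J) b) (t : ℝ) :
    #(Hx s i0 J g b (R \ badZ s i0 g J Z a β τ R b) t) ≤ 2 := by
  by_contra hcon
  push Not at hcon
  rw [Finset.two_lt_card_iff] at hcon
  obtain ⟨h1, h2, h3, m1, m2, m3, n12, n13, n23⟩ := hcon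
  rw [Hx, mem_filter] at m1 m2 m3
  obtain ⟨_, _, q1, ζ1, z1⟩ := m1
  obtain ⟨_, _, q2, ζ2, z2⟩ := m2
  obtain ⟨_, _, q3, ζ3, z3⟩ := m3
  rw [At, mem_filter, mem_sdiff] at z1 z2 z3
  obtain ⟨⟨r1, g1⟩, a1⟩ := z1
  obtain ⟨⟨r2, g2⟩, a2⟩ := z2
  obtain ⟨⟨r3, g3⟩, a3⟩ := z3
  have hc1 : cb s i0 g J Z a β b ζ1 ≤ τ ^ 2 / 2 ^ J := by
    by_contra h
    push Not at h
    exact g1 (mem_filter.2 ⟨r1, h⟩)
  have hQ : ∀ {h h' : ℤ}, |h| < (2 ^ g : ℕ) → |h'| < (2 ^ g : ℕ) → |h - h'| ≤ (2 * 2 ^ g : ℕ) := by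
    intro h h' hh hh'
    have := abs_sub h h'
    push_cast at *
    have h4 := abs_sub_le h 0 h'
    rw [sub_zero, zero_sub, abs_neg] at h4
    linarith
  -- containment of the small balls
  have hsub : ∀ {hk : ℤ} {ζk : Fin d → ℕ}, h1 ≠ hk → |hk| < (2 ^ g : ℕ) →
      near (t - pos s i0 ζk + hk * b / (2 ^ J : ℕ)) (1 / 2 ^ J) →
      ball s i0 Z (J + 1) ζk ⊆ Z.filter (fun ζ' =>
        hitB (2 ^ J) (2 * 2 ^ g) (pos s i0 ζ' - pos s i0 ζ1) (3 / 2 ^ J) b) := by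
    intro hk ζk hne hqk hak ζ' hζ'
    rw [ball, mem_filter] at hζ'
    rw [mem_filter]
    refine ⟨hζ'.1, h1 - hk, sub_ne_zero.2 hne, hQ q1 hqk, ?_⟩
    have e1 := (a1.sub hak).add hζ'.2
    have e2 : (1 : ℝ) / 2 ^ J + 1 / 2 ^ J + 2 / 2 ^ (J + 1) = 3 / 2 ^ J := by
      rw [pow_succ]
      field_simp
      norm_num
    rw [e2] at e1
    convert e1 using 1
    push_cast
    ring
  have hdisj : Disjoint (ball s i0 Z (J + 1) ζ2) (ball s i0 Z (J + 1) ζ3) := by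
    rw [Finset.disjoint_left]
    intro ζ' h2' h3'
    rw [ball, mem_filter] at h2' h3'
    apply hb
    refine ⟨h2 - h3, sub_ne_zero.2 n23, hQ q2 q3, ?_⟩
    have e1 := ((a2.sub a3).add h3'.2).sub h2'.2
    have e2 : (1 : ℝ) / 2 ^ J + 1 / 2 ^ J + 2 / 2 ^ (J + 1) + 2 / 2 ^ (J + 1) = 4 / 2 ^ J := by
      rw [pow_succ]
      field_simp
      norm_num
    rw [e2] at e1
    convert e1 using 1
    push_cast
    ring
  have hle : eb s i0 Z a β (J + 1) ζ2 + eb s i0 Z a β (J + 1) ζ3 ≤ cb s i0 g J Z a β b ζ1 := by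
    unfold eb cb
    rw [← Finset.sum_union hdisj]
    refine Finset.sum_le_sum_of_subset_of_nonneg ?_ (fun ζ _ _ => eh_nonneg s Z a β ζ)
    exact Finset.union_subset (hsub n12 q2 a2) (hsub n13 q3 a3)
  have k2 := Jl_next B ζ2 (hR ζ2 r2).1
  rw [(hR ζ2 r2).2] at k2
  have k3 := Jl_next B ζ3 (hR ζ3 r3).1
  rw [(hR ζ3 r3).2] at k3
  rw [pow_succ (2 : ℝ) J] at k2 k3
  rw [le_div_iff₀ (by positivity)] at hc1
  have h4 : (0 : ℝ) < 2 ^ J := by positivity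
  nlinarith

/-- energy of the active points -/
lemma good_E (B : BH s i0 g Z a β τ Jm L3) (J : ℕ) (R R' : Finset (Fin d → ℕ)) (hR' : R' ⊆ R)
    (hR : ∀ ζ ∈ R, ζ ∈ Z ∧ Jl s i0 Z a β τ Jm ζ = J) (b : ℕ) (t : ℝ) (h : ℤ) :
    (∑ ζ ∈ At s i0 J b R' t h, ‖a ζ‖ ^ 2) / NT s ≤ τ ^ 2 / 2 ^ J := by
  rcases (At s i0 J b R' t h).eq_empty_or_nonempty with h0 | ⟨ζ0, hζ0⟩
  · rw [h0]
    simp
    positivity
  · rw [At, mem_filter] at hζ0
    have h1 := Jl_spec B ζ0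
    rw [(hR ζ0 (hR' hζ0.1)).2] at h1
    have h2 : (∑ ζ ∈ At s i0 J b R' t h, ‖a ζ‖ ^ 2) / NT s ≤ eb s i0 Z a β J ζ0 := by
      rw [Finset.sum_div]
      unfold eb
      have h3 : ∑ ζ ∈ At s i0 J b R' t h, ‖a ζ‖ ^ 2 / (NT s : ℝ)
          ≤ ∑ ζ ∈ At s i0 J b R' t h, eh s Z a β ζ := by
        refine Finset.sum_le_sum (fun ζ _ => ?_)
        unfold eh
        have : 0 ≤ β ^ 2 / (#Z : ℝ) := by positivity
        linarith
      refine h3.trans ?_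
      refine Finset.sum_le_sum_of_subset_of_nonneg ?_ (fun ζ _ _ => eh_nonneg s Z a β ζ)
      intro ζ hζ
      rw [At, mem_filter] at hζ
      rw [ball, mem_filter]
      refine ⟨(hR ζ (hR' hζ.1)).1, ?_⟩
      have e1 := hζ0.2.sub hζ.2
      have e2 : (1 : ℝ) / 2 ^ J + 1 / 2 ^ J = 2 / 2 ^ J := by ring
      rw [e2] at e1
      convert e1 using 1
      ring
    rw [le_div_iff₀ (by positivity)]
    have h4 : (0 : ℝ) < 2 ^ J := by positivity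
    nlinarith

end

end Pool.Agent.H75.UB
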