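import Pool.Agent.H75.UB.Asm

set_option autoImplicit false
set_option linter.unusedSectionVars false

/-! The high layers, and the approximation of the sums of layers. -/

open Finset ComplexConjugate MeasureTheory UnitAddTorus Filter

open scoped Classical

namespace Pool.Agent.H75.UB

open Pool.Agent.H75.MT (ee ee_add ee_norm ee_conj ee_int ee_zero cr cr_neg ee_nat_mul)

noncomputable section

local instance : MeasureSpace UnitAddCircle := ⟨AddCircle.haarAddCircle⟩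

local instance : Measure.IsAddHaarMeasure (volume : Measure UnitAddCircle) :=
  inferInstanceAs (Measure.IsAddHaarMeasure AddCircle.haarAddCircle)

local instance : IsProbabilityMeasure (volume : Measure UnitAddCircle) :=
  inferInstanceAs (IsProbabilityMeasure AddCircle.haarAddCircle)

variable {d : ℕ}

/-- the high layers are sampled -/
lemma high_part (d : ℕ) (hd : 0 < d) (p r : ℝ) (hp1 : 1 < p) (hp2 : p < 2) (hr : 1 / p < r)
    (CB : ℝ) (hCB : 1 ≤ CB) (c1 C2 : ℕ) (hc1 : 2 * (d : ℝ) + 2 ≤ c1 * (r - 1 / p)) :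
    ∃ C : ℝ, 0 < C ∧ ∀ n, 1 ≤ n →
    ∀ b : (Fin d → ℤ) → ℂ, (∀ l : ℕ, ∑ s ∈ Sl d l, en b s ≤ Bl d p r CB l) →
    ∃ G, TP d ((n + 1) ^ (d - 1) * 2 ^ n) G ∧
      ∀ x, ‖∑ l ∈ Finset.Ico (n + c1 * lg n) (C2 * n), ∑ s ∈ Sl d l, fs b s x - G x‖
        ≤ C * Un d p r n := by
  set θ := r - 1 / p with hθ
  have hθ0 : 0 < θ := by linarith
  refine ⟨16 * (2 ^ d * CB * ((C2 : ℝ) + 1) ^ (d + 1)) * ((2 + d * (5 + d + C2) : ℕ) : ℝ),
    by positivity, ?_⟩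
  intro n hn b hE
  set l0 := n + c1 * lg n with hl0
  set l1 := C2 * n with hl1
  set T : Finset (Fin d → ℕ) := (Finset.Ico l0 l1).biUnion (Sl d) with hT
  set M := (n + 1) ^ (d - 1) * 2 ^ n with hM
  have hM0 : 0 < M := by positivity
  have hMr : (2 : ℝ) ^ n ≤ (M : ℝ) := par_M d n
  have hdisj : Set.PairwiseDisjoint (↑(Finset.Ico l0 l1) : Set ℕ) (Sl d) := by
    intro a _ c _ hac
    rw [Function.onFun, Finset.disjoint_left]
    intro s hs hs'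
    exact hac ((mem_Sl.1 hs).symm.trans (mem_Sl.1 hs'))
  set A : ℝ := (2 ^ d * CB * ((C2 : ℝ) + 1) ^ (d + 1))
    * (((2 : ℝ) ^ n) ^ (-θ) * (((n : ℝ) + 1) ^ (d + 1) / ((n : ℝ) + 1) ^ (2 * d + 2))) with hA
  have hn1 : (1 : ℝ) ≤ (n : ℝ) + 1 := by
    have : (0 : ℝ) ≤ n := Nat.cast_nonneg _
    linarith
  have hpow : ((2 : ℝ) ^ l0) ^ (-θ) ≤ ((2 : ℝ) ^ n) ^ (-θ) / ((n : ℝ) + 1) ^ (2 * d + 2) := by
    have e1 : ((2 : ℝ) ^ l0) ^ (-θ) = ((2 : ℝ) ^ n) ^ (-θ) * ((2 : ℝ) ^ (lg n)) ^ (-(c1 * θ)) := by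
      rw [hl0, pow_add, Real.mul_rpow (by positivity) (by positivity)]
      congr 1
      rw [mul_comm c1, pow_mul, ← Real.rpow_natCast ((2 : ℝ) ^ lg n) c1,
        ← Real.rpow_mul (by positivity)]
      congr 1
      ring
    have e2 : (n : ℝ) + 1 ≤ 2 ^ (lg n) := by
      have h1 := lg_lo n
      have h2 : n + 1 ≤ 2 ^ (lg n) := by omega
      exact_mod_cast h2
    have e3 : ((2 : ℝ) ^ (lg n)) ^ (-(c1 * θ)) ≤ (((n : ℝ) + 1) ^ (2 * d + 2))⁻¹ := by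
      calc ((2 : ℝ) ^ (lg n)) ^ (-(c1 * θ)) ≤ ((n : ℝ) + 1) ^ (-(c1 * θ)) :=
            Real.rpow_le_rpow_of_nonpos (by positivity) e2 (by
              have : 0 ≤ (c1 : ℝ) * θ := by positivity
              linarith)
        _ ≤ ((n : ℝ) + 1) ^ (-(((2 * d + 2 : ℕ) : ℝ))) := by
            refine Real.rpow_le_rpow_of_exponent_le hn1 ?_
            push_cast
            linarith
        _ = _ := by rw [Real.rpow_neg (by positivity), Real.rpow_natCast]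
    rw [e1, div_eq_mul_inv]
    gcongr
  have hAle : ∑ s ∈ T, ∑ k ∈ Box s, ‖eb' b s k‖ ≤ A := by
    rw [hT, Finset.sum_biUnion hdisj]
    have h1 : ∀ l ∈ Finset.Ico l0 l1, ∑ s ∈ Sl d l, ∑ k ∈ Box s, ‖eb' b s k‖
        ≤ 2 ^ d * CB * ((2 : ℝ) ^ l0) ^ (-θ) * ((C2 : ℝ) + 1) ^ d * ((n : ℝ) + 1) ^ d := by
      intro l hl
      rw [Finset.mem_Ico] at hl
      refine (lay_l1 b l _ (hE l)).trans ((al_le d p r CB hp1 hCB l).trans ?_)
      have e1 : ((2 : ℝ) ^ l) ^ (-θ) ≤ ((2 : ℝ) ^ l0) ^ (-θ) :=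
        Real.rpow_le_rpow_of_nonpos (by positivity) (pow_le_pow_right₀ (by norm_num) hl.1)
          (by linarith)
      have e2 : ((l : ℝ) + 1) ^ d ≤ ((C2 : ℝ) + 1) ^ d * ((n : ℝ) + 1) ^ d := by
        rw [← mul_pow]
        refine pow_le_pow_left₀ (by positivity) ?_ d
        have : (l : ℝ) ≤ C2 * n := by exact_mod_cast hl.2.le
        have h0 : (0 : ℝ) ≤ n := Nat.cast_nonneg _
        have h1 : (0 : ℝ) ≤ C2 := Nat.cast_nonneg _
        nlinarith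
      calc 2 ^ d * CB * ((2 : ℝ) ^ l) ^ (-(r - 1 / p)) * ((l : ℝ) + 1) ^ d
          ≤ 2 ^ d * CB * ((2 : ℝ) ^ l0) ^ (-θ) * (((C2 : ℝ) + 1) ^ d * ((n : ℝ) + 1) ^ d) := by
            gcongr
        _ = _ := by ring
    refine (Finset.sum_le_sum h1).trans ?_
    rw [Finset.sum_const, Nat.card_Ico, nsmul_eq_mul]
    have e3 : ((l1 - l0 : ℕ) : ℝ) ≤ ((C2 : ℝ) + 1) * ((n : ℝ) + 1) := by
      have h2 : ((l1 - l0 : ℕ) : ℝ) ≤ (l1 : ℝ) := by exact_mod_cast Nat.sub_le _ _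
      rw [hl1] at h2
      push_cast at h2
      have h0 : (0 : ℝ) ≤ n := Nat.cast_nonneg _
      have h1 : (0 : ℝ) ≤ C2 := Nat.cast_nonneg _
      nlinarith
    calc ((l1 - l0 : ℕ) : ℝ)
          * (2 ^ d * CB * ((2 : ℝ) ^ l0) ^ (-θ) * ((C2 : ℝ) + 1) ^ d * ((n : ℝ) + 1) ^ d)
        ≤ (((C2 : ℝ) + 1) * ((n : ℝ) + 1)) * (2 ^ d * CB
          * (((2 : ℝ) ^ n) ^ (-θ) / ((n : ℝ) + 1) ^ (2 * d + 2))
          * ((C2 : ℝ) + 1) ^ d * ((n : ℝ) + 1) ^ d) := by gcongr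
      _ = A := by
          rw [hA, pow_succ ((C2 : ℝ) + 1) d, pow_succ ((n : ℝ) + 1) d]
          ring
  obtain ⟨G, hG1, hG2⟩ := rest hd T l1 (by
    intro s hs i
    rw [hT, Finset.mem_biUnion] at hs
    obtain ⟨l, hl, hs⟩ := hs
    rw [Finset.mem_Ico] at hl
    have h1 : s i ≤ ∑ i, s i := Finset.single_le_sum (fun _ _ => Nat.zero_le _) (mem_univ i)
    rw [mem_Sl.1 hs] at h1
    omega) (eb' b) A hAle M hM0 ((2 + d * (5 + d + l1) : ℕ) : ℝ) (by positivity)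
    (ell_le d l1 hd)
  refine ⟨G, hG1, fun x => ?_⟩
  have h1 : ∑ l ∈ Finset.Ico l0 l1, ∑ s ∈ Sl d l, fs b s x
      = ∑ s ∈ T, ∑ k ∈ Box s, eb' b s k * ex k x := by
    rw [hT, Finset.sum_biUnion hdisj]
    refine Finset.sum_congr rfl (fun l _ => Finset.sum_congr rfl (fun s _ => fs_eb b s x))
  rw [h1]
  refine (hG2 x).trans ?_
  have hE0 : (0 : ℝ) ≤ ((2 + d * (5 + d + C2) : ℕ) : ℝ) := Nat.cast_nonneg _
  have hsq : Real.sqrt (((2 + d * (5 + d + l1) : ℕ) : ℝ) / M)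
      ≤ (((2 + d * (5 + d + C2) : ℕ) : ℝ) * ((n : ℝ) + 1)) * ((2 : ℝ) ^ n) ^ (-(1 / 2) : ℝ) := by
    have e1 : ((2 + d * (5 + d + l1) : ℕ) : ℝ)
        ≤ ((2 + d * (5 + d + C2) : ℕ) : ℝ) * ((n : ℝ) + 1) := by
      have : 2 + d * (5 + d + l1) ≤ (2 + d * (5 + d + C2)) * (n + 1) := by
        have e3 : (2 + d * (5 + d + C2)) * (n + 1)
            = (2 + d * (5 + d + C2 * n)) + (2 * n + d * (5 + d) * n + d * C2) := by ring
        rw [e3, ← hl1]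
        exact Nat.le_add_right _ _
      exact_mod_cast this
    set X := ((2 + d * (5 + d + C2) : ℕ) : ℝ) * ((n : ℝ) + 1) with hX
    have hX1 : 1 ≤ X := by
      refine le_trans ?_ e1
      have : 1 ≤ 2 + d * (5 + d + l1) := by omega
      exact_mod_cast this
    have e2 : ((2 + d * (5 + d + l1) : ℕ) : ℝ) / M ≤ X / 2 ^ n := by gcongr
    refine (Real.sqrt_le_sqrt e2).trans ?_
    rw [Real.sqrt_div (by linarith), Real.rpow_neg (by positivity), ← Real.sqrt_eq_rpow,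
      div_eq_mul_inv]
    refine mul_le_mul_of_nonneg_right ?_ (by positivity)
    refine Real.sqrt_le_iff.2 ⟨by linarith, ?_⟩
    nlinarith
  have hA0 : 0 ≤ A := by positivity
  have hcomb : ((2 : ℝ) ^ n) ^ (-θ) * ((2 : ℝ) ^ n) ^ (-(1 / 2) : ℝ)
      = ((2 : ℝ) ^ n) ^ (-(r - (1 / p - 1 / 2))) := by
    rw [← Real.rpow_add (by positivity)]
    congr 1
    rw [hθ]
    ring
  have hUl := Un_low d p r hp1 hp2 n
  calc 16 * A * Real.sqrt (((2 + d * (5 + d + l1) : ℕ) : ℝ) / M)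
      ≤ 16 * A * ((((2 + d * (5 + d + C2) : ℕ) : ℝ) * ((n : ℝ) + 1))
        * ((2 : ℝ) ^ n) ^ (-(1 / 2) : ℝ)) := by gcongr
    _ = 16 * (2 ^ d * CB * ((C2 : ℝ) + 1) ^ (d + 1)) * ((2 + d * (5 + d + C2) : ℕ) : ℝ)
        * ((((2 : ℝ) ^ n) ^ (-θ) * ((2 : ℝ) ^ n) ^ (-(1 / 2) : ℝ)) / ((n : ℝ) + 1) ^ d) := by
        rw [hA]
        have hne : ((n : ℝ) + 1) ≠ 0 := by positivity
        have e1 : ((n : ℝ) + 1) ^ (2 * d + 2) = ((n : ℝ) + 1) ^ (d + 1) * (((n : ℝ) + 1)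
            * ((n : ℝ) + 1) ^ d) := by
          rw [← pow_succ', ← pow_add]
          congr 1
          ring
        rw [e1]
        field_simp
    _ ≤ _ := by
        rw [hcomb]
        gcongr

/-- the tail of the series -/
lemma tail_part (d : ℕ) (p r : ℝ) (hp1 : 1 < p) (hp2 : p < 2) (hr : 1 / p < r)
    (CB : ℝ) (hCB : 1 ≤ CB) (C2 : ℕ) (hC2 : r - (1 / p - 1 / 2) + 1 ≤ C2 * ((r - 1 / p) / 2)) :
    ∃ C : ℝ, 0 < C ∧ ∀ n : ℕ,
    ∀ b : (Fin d → ℤ) → ℂ, (∀ l : ℕ, ∑ s ∈ Sl d l, en b s ≤ Bl d p r CB l) →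
      ∀ N, C2 * n ≤ N → ∀ x, ‖Fp b N x - Fp b (C2 * n) x‖ ≤ C * Un d p r n := by
  set θ := r - 1 / p with hθ
  have hθ0 : 0 < θ := by linarith
  set y := (2 : ℝ) ^ (θ / 2) with hy
  have hy1 : 1 < y := Real.one_lt_rpow (by norm_num) (by positivity)
  obtain ⟨K, hK0, hK⟩ := poly_exp d y hy1
  obtain ⟨K', hK'0, hK'⟩ := poly_exp d 2 (by norm_num)
  set z := (2 : ℝ) ^ (-(θ / 2)) with hz
  have hz0 : 0 < z := by positivity
  have hz1 : z < 1 := Real.rpow_lt_one_of_one_lt_of_neg (by norm_num) (by linarith)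
  have h1z : 0 < 1 - z := by linarith
  refine ⟨2 ^ d * CB * K / (1 - z) * K', by positivity, ?_⟩
  intro n b hE N hN x
  have hlay : ∀ l, ‖∑ s ∈ Sl d l, fs b s x‖ ≤ 2 ^ d * CB * K * z ^ l := by
    intro l
    refine (lay_sup b l _ (hE l) x).trans ((al_le d p r CB hp1 hCB l).trans ?_)
    have e1 : ((2 : ℝ) ^ l) ^ (-(r - 1 / p)) * y ^ l = z ^ l := by
      rw [rpow_pow_swap, ← mul_pow]
      congr 1
      rw [hy, hz, ← Real.rpow_add (by norm_num)]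
      congr 1
      rw [hθ]
      ring
    calc 2 ^ d * CB * ((2 : ℝ) ^ l) ^ (-(r - 1 / p)) * ((l : ℝ) + 1) ^ d
        ≤ 2 ^ d * CB * ((2 : ℝ) ^ l) ^ (-(r - 1 / p)) * (K * y ^ l) := by
          have := hK l
          gcongr
      _ = 2 ^ d * CB * K * (((2 : ℝ) ^ l) ^ (-(r - 1 / p)) * y ^ l) := by ring
      _ = _ := by rw [e1]
  have hdiff : Fp b N x - Fp b (C2 * n) x
      = ∑ l ∈ Finset.Ico (C2 * n) N, ∑ s ∈ Sl d l, fs b s x := by
    unfold Fp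
    rw [Finset.sum_Ico_eq_sub _ hN]
  rw [hdiff]
  refine (norm_sum_le _ _).trans ((Finset.sum_le_sum (fun l _ => hlay l)).trans ?_)
  rw [← Finset.mul_sum]
  have hgeo : ∑ l ∈ Finset.Ico (C2 * n) N, z ^ l ≤ z ^ (C2 * n) / (1 - z) := by
    rw [Finset.sum_Ico_eq_sum_range]
    have e1 : ∑ k ∈ range (N - C2 * n), z ^ (C2 * n + k)
        = z ^ (C2 * n) * ∑ k ∈ range (N - C2 * n), z ^ k := by
      rw [Finset.mul_sum]
      refine Finset.sum_congr rfl (fun k _ => ?_)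
      rw [pow_add]
    rw [e1, div_eq_mul_inv]
    refine mul_le_mul_of_nonneg_left ?_ (by positivity)
    rw [geom_sum_eq (by linarith : z ≠ 1), show (z ^ (N - C2 * n) - 1) / (z - 1)
      = (1 - z ^ (N - C2 * n)) / (1 - z) by
        rw [← neg_div_neg_eq]
        congr 1 <;> ring, ← one_div]
    have : 0 ≤ z ^ (N - C2 * n) := by positivity
    exact div_le_div_of_nonneg_right (by linarith) h1z.le
  have hzp : z ^ (C2 * n) ≤ ((2 : ℝ) ^ n) ^ (-(r - (1 / p - 1 / 2))) / 2 ^ n := by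
    have e1 : z ^ (C2 * n) = ((2 : ℝ) ^ n) ^ (-(C2 * (θ / 2))) := by
      rw [pow_mul, hz, rpow_pow_swap (-(C2 * (θ / 2))) n]
      congr 1
      rw [← Real.rpow_natCast, ← Real.rpow_mul (by norm_num)]
      congr 1
      ring
    have e2 : ((2 : ℝ) ^ n) ^ (-(r - (1 / p - 1 / 2))) / 2 ^ n
        = ((2 : ℝ) ^ n) ^ (-(r - (1 / p - 1 / 2) + 1)) := by
      rw [neg_add, ← sub_eq_add_neg, Real.rpow_sub_one (by positivity)]
    rw [e1, e2]
    refine Real.rpow_le_rpow_of_exponent_le (one_le_pow₀ (by norm_num)) ?_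
    linarith
  have hUl := Un_low d p r hp1 hp2 n
  have hK'n := hK' n
  have hn0 : (0 : ℝ) < ((n : ℝ) + 1) ^ d := by positivity
  have e5 : ((2 : ℝ) ^ n) ^ (-(r - (1 / p - 1 / 2))) / 2 ^ n
      ≤ K' * (((2 : ℝ) ^ n) ^ (-(r - (1 / p - 1 / 2))) / ((n : ℝ) + 1) ^ d) := by
    rw [mul_div_assoc', div_le_div_iff₀ (by positivity) hn0]
    have : (0 : ℝ) ≤ ((2 : ℝ) ^ n) ^ (-(r - (1 / p - 1 / 2))) := by positivity
    calc ((2 : ℝ) ^ n) ^ (-(r - (1 / p - 1 / 2))) * ((n : ℝ) + 1) ^ d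
        ≤ ((2 : ℝ) ^ n) ^ (-(r - (1 / p - 1 / 2))) * (K' * 2 ^ n) := by gcongr
      _ = _ := by ring
  calc 2 ^ d * CB * K * ∑ l ∈ Finset.Ico (C2 * n) N, z ^ l
      ≤ 2 ^ d * CB * K * (z ^ (C2 * n) / (1 - z)) := by gcongr
    _ = 2 ^ d * CB * K / (1 - z) * z ^ (C2 * n) := by ring
    _ ≤ 2 ^ d * CB * K / (1 - z) * (K' * Un d p r n) := by
        refine mul_le_mul_of_nonneg_left ?_ (by positivity)
        refine hzp.trans (e5.trans ?_)
        gcongr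
    _ = _ := by ring

/-- approximation of the sums of layers -/
theorem poly_part (d : ℕ) (hd : 0 < d) (p r : ℝ) (hp1 : 1 < p) (hp2 : p < 2) (hr : 1 / p < r) :
    ∃ (C : ℝ) (CN n0 : ℕ), 0 < C ∧ ∀ n, n0 ≤ n →
    ∀ φ : TT d → ℂ, MemLp φ (ENNReal.ofReal p) volume → ∫ x, ‖φ x‖ ^ p ≤ 1 →
    ∃ G, TP d (CN * (lg n) ^ 5 * ((n + 1) ^ (d - 1) * 2 ^ n)) G ∧
      ∃ N0, ∀ N, N0 ≤ N → ∀ x, ‖Fp (bc r φ) N x - G x‖ ≤ C * (lg n : ℝ) ^ 8 * Un d p r n := by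
  set θ := r - 1 / p with hθ
  have hθ0 : 0 < θ := by linarith
  have hr0 : 0 < r := by
    have : 0 < 1 / p := by positivity
    linarith
  obtain ⟨CB, hCB, hE⟩ := energies_b d hd p r hp1 hp2 hr0
  obtain ⟨c1, hc1⟩ := exists_nat_ge ((2 * (d : ℝ) + 2) / θ)
  rw [div_le_iff₀ hθ0] at hc1
  obtain ⟨C2, hC2⟩ := exists_nat_ge (max 2 ((r - (1 / p - 1 / 2) + 1) / (θ / 2)))
  have hC2a : 2 ≤ C2 := by
    have := (le_max_left _ _).trans hC2
    exact_mod_cast this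
  have hC2b := (le_max_right _ _).trans hC2
  rw [div_le_iff₀ (by positivity)] at hC2b
  obtain ⟨Cm, CN, nm, hCm, hmid⟩ := mid_part d hd p r hp1 hp2 hr CB hCB c1
  obtain ⟨Ch, hCh, hhigh⟩ := high_part d hd p r hp1 hp2 hr CB hCB c1 C2 hc1
  obtain ⟨Ct, hCt, htail⟩ := tail_part d p r hp1 hp2 hr CB hCB C2 hC2b
  refine ⟨Cm + Ch + Ct, 2 ^ d + CN + 1, max nm (2 ^ (32 * c1)), by positivity, ?_⟩
  intro n hn φ hφ hφ1
  have hn1 : 1 ≤ n := le_trans Nat.one_le_two_pow ((le_max_right _ _).trans hn)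
  have hsm := lg_small c1 n ((le_max_right _ _).trans hn)
  have hEφ := hE φ hφ hφ1
  set b := bc r φ with hb
  obtain ⟨G2, hT2, hE2⟩ := hmid n ((le_max_left _ _).trans hn) φ hφ hφ1 hEφ
  obtain ⟨G3, hT3, hE3⟩ := hhigh n hn1 b hEφ
  have hT1 := low_part hd b n
  set M := (n + 1) ^ (d - 1) * 2 ^ n with hM
  have hΛ : 1 ≤ (lg n) ^ 5 := Nat.one_le_pow _ _ (lg_one n)
  have hΛr : (1 : ℝ) ≤ (lg n : ℝ) ^ 8 := one_le_pow₀ (by exact_mod_cast lg_one n)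
  refine ⟨fun x => Fp b n x + G2 x + G3 x, ?_, C2 * n, ?_⟩
  · refine ((hT1.add hT2).add hT3).mono ?_
    have e1 : 2 ^ d * M ≤ 2 ^ d * (lg n) ^ 5 * M := by
      calc 2 ^ d * M = 2 ^ d * 1 * M := by ring
        _ ≤ _ := by gcongr
    have e2 : M ≤ (lg n) ^ 5 * M := by
      calc M = 1 * M := by ring
        _ ≤ _ := by gcongr
    calc 2 ^ d * M + CN * (lg n) ^ 5 * M + M
        ≤ 2 ^ d * (lg n) ^ 5 * M + CN * (lg n) ^ 5 * M + (lg n) ^ 5 * M := by gcongr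
      _ = _ := by ring
  · intro N hN x
    have e1 : Fp b (C2 * n) x = Fp b n x
        + (∑ l ∈ Finset.Ico n (n + c1 * lg n), ∑ s ∈ Sl d l, fs b s x)
        + ∑ l ∈ Finset.Ico (n + c1 * lg n) (C2 * n), ∑ s ∈ Sl d l, fs b s x := by
      unfold Fp
      rw [Finset.sum_range_add_sum_Ico (fun l => ∑ s ∈ Sl d l, fs b s x) (Nat.le_add_right _ _),
        Finset.sum_range_add_sum_Ico (fun l => ∑ s ∈ Sl d l, fs b s x) (by nlinarith)]
    have e2 : Fp b N x - (Fp b n x + G2 x + G3 x) = (Fp b N x - Fp b (C2 * n) x)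
        + (∑ l ∈ Finset.Ico n (n + c1 * lg n), ∑ s ∈ Sl d l, fs b s x - G2 x)
        + (∑ l ∈ Finset.Ico (n + c1 * lg n) (C2 * n), ∑ s ∈ Sl d l, fs b s x - G3 x) := by
      rw [e1]
      ring
    rw [e2]
    have hU := Un_pos d p r n
    have f1 := htail n b hEφ N hN x
    have f2 := hE2 x
    have f3 := hE3 x
    have f4 : Ct * Un d p r n ≤ Ct * (lg n : ℝ) ^ 8 * Un d p r n := by
      calc Ct * Un d p r n = Ct * 1 * Un d p r n := by ring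
        _ ≤ _ := by gcongr
    have f5 : Ch * Un d p r n ≤ Ch * (lg n : ℝ) ^ 8 * Un d p r n := by
      calc Ch * Un d p r n = Ch * 1 * Un d p r n := by ring
        _ ≤ _ := by gcongr
    calc _ ≤ ‖Fp b N x - Fp b (C2 * n) x‖
        + ‖∑ l ∈ Finset.Ico n (n + c1 * lg n), ∑ s ∈ Sl d l, fs b s x - G2 x‖
        + ‖∑ l ∈ Finset.Ico (n + c1 * lg n) (C2 * n), ∑ s ∈ Sl d l, fs b s x - G3 x‖ :=
          (norm_add_le _ _).trans (add_le_add_left (norm_add_le _ _) _)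
      _ ≤ Ct * (lg n : ℝ) ^ 8 * Un d p r n + Cm * (lg n : ℝ) ^ 8 * Un d p r n
          + Ch * (lg n : ℝ) ^ 8 * Un d p r n := by linarith
      _ = _ := by ring

end

end Pool.Agent.H75.UB
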