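import Pool.Agent.H75.UB.Tail

set_option autoImplicit false
set_option linter.unusedSectionVars false

/-! The Fourier series of a function of the class. -/

open Finset ComplexConjugate MeasureTheory UnitAddTorus Filter

open scoped Classical Topology NNReal

namespace Pool.Agent.H75.UB

open Pool.Agent.H75.MT (ee ee_add ee_norm ee_conj ee_int ee_zero cr cr_neg ee_nat_mul)

noncomputable section

local instance : MeasureSpace UnitAddCircle := ⟨AddCircle.haarAddCircle⟩

local instance : Measure.IsAddHaarMeasure (volume : Measure UnitAddCircle) :=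
  inferInstanceAs (Measure.IsAddHaarMeasure AddCircle.haarAddCircle)

local instance : IsProbabilityMeasure (volume : Measure UnitAddCircle) :=
  inferInstanceAs (IsProbabilityMeasure AddCircle.haarAddCircle)

variable {d : ℕ}

lemma int_mul (u : TT d → ℂ) (hu : Integrable u volume) (g : C(TT d, ℂ)) :
    Integrable (fun x => g x * u x) volume := by
  refine hu.bdd_mul (c := ‖g‖) g.continuous.aestronglyMeasurable ?_
  exact Filter.Eventually.of_forall (fun x => g.norm_coe_le_norm x)

/-- pairing with an integrable function -/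
def pairL (u : TT d → ℂ) (hu : Integrable u volume) : C(TT d, ℂ) →L[ℂ] ℂ :=
  LinearMap.mkContinuous
    { toFun := fun g => ∫ x, g x * u x
      map_add' := by
        intro g h
        rw [← integral_add (int_mul u hu g) (int_mul u hu h)]
        congr 1
        funext x
        rw [ContinuousMap.add_apply, add_mul]
      map_smul' := by
        intro c g
        rw [RingHom.id_apply, smul_eq_mul, ← integral_const_mul]
        congr 1
        funext x
        rw [ContinuousMap.smul_apply, smul_eq_mul, mul_assoc] } (∫ x, ‖u x‖) (by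
    intro g
    refine (norm_integral_le_integral_norm _).trans ?_
    rw [← integral_mul_const]
    refine integral_mono (int_mul u hu g).norm (hu.norm.mul_const _) (fun x => ?_)
    show ‖g x * u x‖ ≤ ‖u x‖ * ‖g‖
    rw [norm_mul, mul_comm]
    exact mul_le_mul_of_nonneg_left (g.norm_coe_le_norm x) (norm_nonneg _))

lemma pairL_apply (u : TT d → ℂ) (hu : Integrable u volume) (g : C(TT d, ℂ)) :
    pairL u hu g = ∫ x, g x * u x := rfl

lemma pair_zero (u : TT d → ℂ) (hu : Integrable u volume)
    (h : ∀ k : Fin d → ℤ, mFourierCoeff u k = 0) (g : C(TT d, ℂ)) : ∫ x, g x * u x = 0 := by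
  have h1 : Submodule.span ℂ (Set.range (mFourier (d := Fin d)))
      ≤ (pairL u hu).toLinearMap.ker := by
    rw [Submodule.span_le]
    rintro _ ⟨k, rfl⟩
    show pairL u hu (mFourier k) = 0
    rw [pairL_apply, ← h (-k)]
    unfold mFourierCoeff
    rw [neg_neg]
    rfl
  have h2 : (⊤ : Submodule ℂ C(TT d, ℂ)) ≤ (pairL u hu).toLinearMap.ker := by
    rw [← span_mFourier_closure_eq_top]
    refine Submodule.topologicalClosure_minimal _ h1 ?_
    exact (pairL u hu).isClosed_ker
  have h3 : g ∈ (pairL u hu).toLinearMap.ker := h2 trivial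
  exact h3

/-- uniqueness of Fourier coefficients -/
lemma ae_zero (u : TT d → ℂ) (hu : Integrable u volume)
    (h : ∀ k : Fin d → ℤ, mFourierCoeff u k = 0) : u =ᵐ[volume] 0 := by
  refine ae_eq_zero_of_forall_setIntegral_isClosed_eq_zero hu (fun s hs => ?_)
  have hz : ∀ n, ∫ x, (((hs.apprSeq n x : ℝ≥0) : ℝ) : ℂ) * u x = 0 := by
    intro n
    have hc : Continuous (fun x => (((hs.apprSeq n x : ℝ≥0) : ℝ) : ℂ)) := by
      have := (hs.apprSeq n).continuous
      fun_prop
    exact pair_zero u hu h ⟨_, hc⟩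
  have hlim := tendsto_integral_of_dominated_convergence (μ := (volume : Measure (TT d)))
    (F := fun n x => (((hs.apprSeq n x : ℝ≥0) : ℝ) : ℂ) * u x) (f := s.indicator u)
    (fun x => ‖u x‖) (fun n => by
      have hc : Continuous (fun x => (((hs.apprSeq n x : ℝ≥0) : ℝ) : ℂ)) := by
        have := (hs.apprSeq n).continuous
        fun_prop
      exact hc.aestronglyMeasurable.mul hu.aestronglyMeasurable) hu.norm (fun n => by
      refine Filter.Eventually.of_forall (fun x => ?_)
      rw [norm_mul]
      have h1 : ‖(((hs.apprSeq n x : ℝ≥0) : ℝ) : ℂ)‖ ≤ 1 := by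
        rw [Complex.norm_real, Real.norm_eq_abs, abs_of_nonneg (NNReal.coe_nonneg _)]
        exact_mod_cast HasOuterApproxClosed.apprSeq_apply_le_one hs n x
      calc _ ≤ 1 * ‖u x‖ := mul_le_mul_of_nonneg_right h1 (norm_nonneg _)
        _ = _ := one_mul _) (by
      refine Filter.Eventually.of_forall (fun x => ?_)
      have h1 := (tendsto_pi_nhds.1 (HasOuterApproxClosed.tendsto_apprSeq hs)) x
      have h2 : Tendsto (fun n => (((hs.apprSeq n x : ℝ≥0) : ℝ) : ℂ) * u x) atTop
          (𝓝 ((((s.indicator (fun _ => (1 : ℝ≥0)) x : ℝ≥0) : ℝ) : ℂ) * u x)) := by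
        refine Tendsto.mul_const _ ?_
        exact ((Complex.continuous_ofReal.comp NNReal.continuous_coe).tendsto _).comp h1
      convert h2 using 2
      by_cases hx : x ∈ s
      · simp [hx]
      · simp [hx])
  simp only [hz] at hlim
  rw [integral_indicator hs.measurableSet] at hlim
  exact (tendsto_nhds_unique tendsto_const_nhds hlim).symm

/-- one layer on the torus -/
def ul (b : (Fin d → ℤ) → ℂ) (l : ℕ) : C(TT d, ℂ) := ∑ s ∈ Sl d l, tp (rho s) b

lemma ul_pt (b : (Fin d → ℤ) → ℂ) (l : ℕ) (x : Fin d → ℝ) :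
    ul b l (pt x) = ∑ s ∈ Sl d l, fs b s x := by
  unfold ul
  rw [ContinuousMap.coe_sum, Finset.sum_apply]
  refine Finset.sum_congr rfl (fun s _ => ?_)
  rw [tp_apply]
  unfold fs
  refine Finset.sum_congr rfl (fun k _ => ?_)
  rw [show (pt x : TT d) = fun i => (x i : UnitAddCircle) from rfl, mF_coe]

lemma ul_norm (b : (Fin d → ℤ) → ℂ) (l : ℕ) (B : ℝ) (hB : 0 ≤ B)
    (hsum : ∑ s ∈ Sl d l, en b s ≤ B) : ‖ul b l‖ ≤ Real.sqrt (2 ^ (l + d)) * B := by
  rw [ContinuousMap.norm_le _ (by positivity)]
  intro y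
  obtain ⟨x, rfl⟩ := exists_real y
  have := ul_pt b l x
  unfold pt at this
  rw [this]
  exact lay_sup b l B hsum x

lemma co_ul (b : (Fin d → ℤ) → ℂ) (l : ℕ) (k : Fin d → ℤ) :
    co (ul b l) k = if ∑ i, sz k i = l then b k else 0 := by
  unfold ul
  rw [co_sum]
  simp only [co_tp, mem_rho]
  by_cases h : ∑ i, sz k i = l
  · rw [if_pos h, Finset.sum_ite_eq, if_pos (mem_Sl.2 h)]
  · rw [if_neg h]
    refine Finset.sum_eq_zero (fun s hs => ?_)
    rw [if_neg]
    intro h'
    rw [h'] at h
    exact h (mem_Sl.1 hs)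

lemma co_norm (G : C(TT d, ℂ)) (k : Fin d → ℤ) : ‖co G k‖ ≤ ‖G‖ := by
  rw [co_def]
  refine (norm_integral_le_integral_norm _).trans ?_
  calc ∫ x, ‖(mFourier (-k) * G : C(TT d, ℂ)) x‖ ≤ ∫ _x : TT d, ‖G‖ := by
        refine integral_mono (rint _ (by fun_prop)) (rint _ continuous_const) (fun x => ?_)
        show ‖(mFourier (-k) * G : C(TT d, ℂ)) x‖ ≤ ‖G‖
        rw [ContinuousMap.mul_apply, norm_mul, mF_norm, one_mul]
        exact G.norm_coe_le_norm x
    _ = _ := by
        rw [integral_const]
        simp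

/-- the sum of the series is continuous and has the right coefficients -/
theorem series (b : (Fin d → ℤ) → ℂ) (hs : Summable (fun l => ‖ul b l‖)) :
    ∃ F : C(TT d, ℂ), (∀ k, co F k = b k) ∧
      ∀ x, Tendsto (fun N => Fp b N x) atTop (𝓝 (F (pt x))) := by
  have hs' : Summable (ul b) := hs.of_norm
  have ht := hs'.hasSum.tendsto_sum_nat
  refine ⟨∑' l, ul b l, ?_, ?_⟩
  · intro k
    have h1 : Tendsto (fun N => co (∑ l ∈ range N, ul b l) k) atTop (𝓝 (co (∑' l, ul b l) k)) := by
      rw [tendsto_iff_norm_sub_tendsto_zero] at ht ⊢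
      refine squeeze_zero (fun _ => norm_nonneg _) (fun N => ?_) ht
      have e1 : co (∑ l ∈ range N, ul b l) k - co (∑' l, ul b l) k
          = co (∑ l ∈ range N, ul b l - ∑' l, ul b l) k := by
        have e2 := co_add (∑ l ∈ range N, ul b l - ∑' l, ul b l) (∑' l, ul b l) k
        rw [sub_add_cancel] at e2
        rw [e2]
        ring
      rw [e1]
      exact co_norm _ k
    have h2 : ∀ᶠ N in atTop, co (∑ l ∈ range N, ul b l) k = b k := by
      filter_upwards [eventually_gt_atTop (∑ i, sz k i)] with N hN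
      rw [co_sum]
      simp only [co_ul]
      rw [Finset.sum_ite_eq, if_pos (mem_range.2 hN)]
    exact tendsto_nhds_unique (h1.congr' h2) tendsto_const_nhds |>.symm ▸ rfl
  · intro x
    have h1 : ∀ N, Fp b N x = (∑ l ∈ range N, ul b l) (pt x) := by
      intro N
      rw [ContinuousMap.coe_sum, Finset.sum_apply]
      unfold Fp
      exact Finset.sum_congr rfl (fun l _ => (ul_pt b l x).symm)
    simp only [h1]
    exact ((continuous_eval_const (F := C(TT d, ℂ)) (pt x)).tendsto _).comp ht

end

end Pool.Agent.H75.UB
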