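import Pool.Agent.H75.UB.Samp
import Pool.Agent.H75.UB.Arc

set_option autoImplicit false
set_option linter.unusedSectionVars false

/-! Smooth windows and bumps on a cyclic group, given by iterated sums. -/

open Finset ComplexConjugate

namespace Pool.Agent.H75.UB

open Pool.Agent.H75.MT

noncomputable section

lemma ee_sub_one (t : ℝ) (δ : ℝ) (h : ∀ n : ℤ, δ ≤ |t - n|) : 4 * δ ≤ ‖ee t - 1‖ := by
  have h1 : ee t = ee (t - round t) := by
    have : t = (t - round t) + ((round t : ℤ) : ℝ) := by ring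
    conv_lhs => rw [this]
    rw [ee_add, ee_int, mul_one]
  rw [h1]
  set x := t - round t with hx
  have hx2 : |x| ≤ 1 / 2 := abs_sub_round t
  have hδ : δ ≤ |x| := h (round t)
  have h2 : ee x = Complex.exp (Complex.I * ((2 * Real.pi * x : ℝ) : ℂ)) := by
    unfold ee
    congr 1
    push_cast
    ring
  rw [h2, Complex.norm_exp_I_mul_ofReal_sub_one]
  have h3 : 2 * Real.pi * x / 2 = Real.pi * x := by ring
  rw [h3, Real.norm_eq_abs, abs_mul, abs_of_pos (by norm_num : (0 : ℝ) < 2)]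
  have h4 : |Real.pi * x| ≤ Real.pi / 2 := by
    rw [abs_mul, abs_of_pos Real.pi_pos]
    nlinarith [Real.pi_pos]
  have h5 := Real.mul_abs_le_abs_sin h4
  rw [abs_mul, abs_of_pos Real.pi_pos] at h5
  have h6 : 2 / Real.pi * (Real.pi * |x|) = 2 * |x| := by
    have := Real.pi_ne_zero
    field_simp
  rw [h6] at h5
  linarith

lemma dir_le (n : ℕ) (t : ℝ) : ‖∑ c ∈ range n, ee (c * t)‖ ≤ n := by
  refine (norm_sum_le _ _).trans ?_
  simp [ee_norm]

lemma dir_far (n : ℕ) (t δ : ℝ) (hδ : 0 < δ) (h : ∀ m : ℤ, δ ≤ |t - m|) :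
    ‖∑ c ∈ range n, ee (c * t)‖ ≤ 1 / (2 * δ) := by
  have h1 : ∑ c ∈ range n, ee (c * t) = ∑ c ∈ range n, (ee t) ^ c :=
    Finset.sum_congr rfl (fun c _ => ee_nat_mul t c)
  rw [h1]
  have h2 := geom_sum_mul (ee t) n
  have h3 := ee_sub_one t δ h
  have h4 : ‖(∑ c ∈ range n, (ee t) ^ c)‖ * ‖ee t - 1‖ ≤ 2 := by
    rw [← norm_mul, h2]
    refine (norm_sub_le _ _).trans ?_
    rw [norm_pow, ee_norm, one_pow, norm_one]
    norm_num
  have h5 : ‖(∑ c ∈ range n, (ee t) ^ c)‖ * (4 * δ) ≤ 2 :=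
    (mul_le_mul_of_nonneg_left h3 (norm_nonneg _)).trans h4
  rw [le_div_iff₀ (by positivity)]
  linarith

/-- the sum of a tuple -/
def tot {m q : ℕ} (u : Fin m → Fin q) : ℕ := ∑ i, (u i : ℕ)

lemma tot_le {m q : ℕ} (hq : 0 < q) (u : Fin m → Fin q) : tot u ≤ m * (q - 1) := by
  unfold tot
  refine (Finset.sum_le_sum (fun i _ => ?_ : ∀ i ∈ univ, (u i : ℕ) ≤ q - 1)).trans ?_
  · have := (u i).2
    omega
  · simp

lemma sum_tot (m q : ℕ) (t : ℝ) :
    ∑ u : Fin m → Fin q, ee (tot u * t) = (∑ c ∈ range q, ee (c * t)) ^ m := by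
  have h1 : ∑ c ∈ range q, ee (c * t) = ∑ c : Fin q, ee ((c : ℕ) * t) :=
    (Fin.sum_univ_eq_sum_range (fun c => ee (c * t)) q).symm
  rw [h1]
  have h2 := Finset.prod_univ_sum (fun _ : Fin m => (univ : Finset (Fin q)))
    (fun _ c => ee ((c : ℕ) * t))
  rw [Fintype.piFinset_univ, Finset.prod_const, Finset.card_univ, Fintype.card_fin] at h2
  rw [h2]
  refine Finset.sum_congr rfl (fun u _ => ?_)
  have h3 : ∀ s : Finset (Fin m), ee (((∑ i ∈ s, (u i : ℕ) : ℕ) : ℝ) * t)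
      = ∏ i ∈ s, ee ((u i : ℕ) * t) := by
    classical
    intro s
    induction s using Finset.induction_on with
    | empty => simp [ee_zero]
    | insert a s ha ih =>
      rw [Finset.sum_insert ha, Finset.prod_insert ha, ← ih, ← ee_add]
      congr 1
      push_cast
      ring
  exact h3 univ

lemma tile_one (q : ℕ) (hq : 0 < q) (a b k : ℤ) (h1 : q * a ≤ k) (h2 : k < q * b) :
    ∑ w ∈ Finset.Ico a b, ∑ u : Fin q, (if (q : ℤ) * w + (u : ℕ) = k then 1 else 0 : ℕ) = 1 := by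
  have hq' : (0 : ℤ) < q := by exact_mod_cast hq
  have hmem : k / q ∈ Finset.Ico a b := by
    rw [mem_Ico]
    constructor
    · rw [Int.le_ediv_iff_mul_le hq']
      linarith
    · rw [Int.ediv_lt_iff_lt_mul hq']
      linarith
  have e := Int.mul_ediv_add_emod k q
  have h0 := Int.emod_nonneg k hq'.ne'
  have hlt := Int.emod_lt_of_pos k hq'
  rw [Finset.sum_eq_single (k / q)]
  · set u0 : Fin q := ⟨(k % q).toNat, by omega⟩ with hu0
    rw [Finset.sum_eq_single u0]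
    · rw [if_pos]
      simp only [hu0]
      omega
    · intro u _ hu
      rw [if_neg]
      intro h
      apply hu
      ext
      simp only [hu0]
      omega
    · simp
  · intro w _ hw
    refine Finset.sum_eq_zero (fun u _ => ?_)
    rw [if_neg]
    intro h
    apply hw
    have hu := u.2
    have : k / q = w := by
      rw [← h]
      rw [Int.mul_add_ediv_left _ _ hq'.ne']
      have : ((u : ℕ) : ℤ) / q = 0 := Int.ediv_eq_zero_of_lt (by positivity) (by exact_mod_cast hu)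
      rw [this]
      ring
    exact this.symm
  · intro h
    exact absurd hmem h

lemma tile (m q : ℕ) (hq : 0 < q) (a b k : ℤ) (h1 : q * a + m * q ≤ k) (h2 : k < q * b) :
    ∑ w ∈ Finset.Ico a b, ∑ u : Fin (m + 1) → Fin q, (if (q : ℤ) * w + tot u = k then 1 else 0 : ℕ)
      = q ^ m := by
  have e1 : ∀ w : ℤ, ∑ u : Fin (m + 1) → Fin q, (if (q : ℤ) * w + tot u = k then 1 else 0 : ℕ)
      = ∑ u' : Fin m → Fin q, ∑ u0 : Fin q,
        (if (q : ℤ) * w + (u0 : ℕ) = k - tot u' then 1 else 0 : ℕ) := by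
    intro w
    rw [← Equiv.sum_comp (Fin.consEquiv (fun _ => Fin q)), Fintype.sum_prod_type, Finset.sum_comm]
    refine Finset.sum_congr rfl (fun u' _ => Finset.sum_congr rfl (fun u0 _ => ?_))
    have : tot ((Fin.consEquiv (fun _ => Fin q)) (u0, u') : Fin (m + 1) → Fin q)
        = (u0 : ℕ) + tot u' := by
      unfold tot
      rw [Fin.sum_univ_succ]
      simp [Fin.consEquiv]
    simp only [this]
    congr 1
    simp only [eq_iff_iff]
    push_cast
    constructor <;> intro h <;> linarith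
  rw [Finset.sum_congr rfl (fun w _ => e1 w), Finset.sum_comm]
  have e2 : ∀ u' ∈ (univ : Finset (Fin m → Fin q)), ∑ w ∈ Finset.Ico a b, ∑ u0 : Fin q,
        (if (q : ℤ) * w + (u0 : ℕ) = k - tot u' then 1 else 0 : ℕ) = 1 := by
    intro u' _
    have h3 := tot_le hq u'
    have h4 : m * (q - 1) ≤ m * q := Nat.mul_le_mul_left _ (Nat.sub_le _ _)
    have h5 : ((tot u' : ℕ) : ℤ) ≤ m * q := by exact_mod_cast h3.trans h4
    refine tile_one q hq a b _ (by linarith) ?_
    have : (0 : ℤ) ≤ (tot u' : ℕ) := by positivity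
    linarith
  rw [Finset.sum_congr rfl e2, Finset.sum_const, Finset.card_univ, Fintype.card_fun,
    Fintype.card_fin, Fintype.card_fin, smul_eq_mul, mul_one]

/-! ### the bump -/

/-- the frequencies of the bump -/
def Hs (q : ℕ) : Finset ℤ := Finset.Ico (-((q / 2 : ℕ) : ℤ)) ((q / 2 : ℕ) : ℤ)

/-- the coefficients of the bump -/
def psh (q V m : ℕ) (h : ℤ) : ℂ := ((1 / V : ℂ) * ∑ v ∈ range V, ee (v * (-(h : ℝ) / q))) ^ m

/-- the bump -/
def psi (q V m : ℕ) (y : ℤ) : ℂ := ∑ h ∈ Hs q, psh q V m h * ee (h * ((y : ℝ) / q))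

lemma psh_zero (q V m : ℕ) (hV : 0 < V) : psh q V m 0 = 1 := by
  unfold psh
  have : (V : ℂ) ≠ 0 := by exact_mod_cast hV.ne'
  simp [ee_zero, this]

lemma psh_le (q V m : ℕ) (h : ℤ) : ‖psh q V m h‖ ≤ 1 := by
  unfold psh
  rw [norm_pow]
  refine pow_le_one₀ (norm_nonneg _) ?_
  rw [norm_mul]
  have h1 := dir_le V (-(h : ℝ) / q)
  have h2 : ‖(1 / V : ℂ)‖ = 1 / V := by simp
  rw [h2]
  rcases Nat.eq_zero_or_pos V with h0 | h0
  · simp [h0]
  · have : (0 : ℝ) < V := by exact_mod_cast h0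
    calc 1 / (V : ℝ) * ‖∑ c ∈ range V, ee (c * (-(h : ℝ) / q))‖ ≤ 1 / V * V := by gcongr
      _ = 1 := by field_simp

lemma psh_far (q V m Q : ℕ) (hq : 0 < q) (hV : 0 < V) (hQV : Q * V = q) (h : ℤ) (hh : h ∈ Hs q)
    (hQ : (Q : ℤ) ≤ |h|) : ‖psh q V m h‖ ≤ (1 / 2) ^ m := by
  unfold psh
  rw [norm_pow]
  refine pow_le_pow_left₀ (norm_nonneg _) ?_ m
  have hVr : (0 : ℝ) < V := by exact_mod_cast hV
  have hqr : (0 : ℝ) < q := by exact_mod_cast hq
  have hQ0 : 0 < Q := by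
    rcases Nat.eq_zero_or_pos Q with h0 | h0
    · rw [h0, zero_mul] at hQV
      omega
    · exact h0
  have hQr : (0 : ℝ) < Q := by exact_mod_cast hQ0
  unfold Hs at hh
  rw [mem_Ico] at hh
  have hfar := dir_far V (-(h : ℝ) / q) (Q / q) (by positivity) (by
    intro n
    have e : -(h : ℝ) / q - n = (((-h - n * q : ℤ) : ℝ)) / q := by
      push_cast
      field_simp
    rw [e, abs_div, abs_of_pos hqr, div_le_div_iff_of_pos_right hqr, ← Int.cast_abs]
    have : (Q : ℤ) ≤ |(-h - n * q)| := by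
      have hq2 : ((q / 2 : ℕ) : ℤ) * 2 ≤ q := by
        have := Nat.div_mul_le_self q 2
        exact_mod_cast this
      rcases eq_or_ne n 0 with rfl | hn
      · simp only [zero_mul, sub_zero, abs_neg]
        exact hQ
      · have habs : |h| * 2 ≤ q := by
          rcases abs_cases h with ⟨h1, _⟩ | ⟨h1, _⟩ <;> rw [h1] <;> omega
        have hn1 : (1 : ℤ) ≤ |n| := Int.one_le_abs hn
        have h3 : |n * q| - |h| ≤ |(-h - n * q)| := by
          have := abs_sub_abs_le_abs_sub (n * (q : ℤ)) (-h)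
          rw [abs_neg] at this
          rw [abs_sub_comm]
          exact this
        have h4 : (q : ℤ) ≤ |n * q| := by
          rw [abs_mul, Nat.abs_cast]
          have : (0 : ℤ) ≤ q := by positivity
          nlinarith
        omega
    exact_mod_cast this)
  rw [norm_mul]
  have h2 : ‖(1 / V : ℂ)‖ = 1 / V := by simp
  rw [h2]
  have h3 : (q : ℝ) = Q * V := by exact_mod_cast hQV.symm
  calc 1 / (V : ℝ) * ‖∑ c ∈ range V, ee (c * (-(h : ℝ) / q))‖ ≤ 1 / V * (1 / (2 * (Q / q))) := by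
        gcongr
    _ = 1 / 2 := by
        rw [h3]
        field_simp

lemma sum_Hs (q : ℕ) (hq : 0 < q) (h2 : 2 ∣ q) (n : ℤ) :
    ∑ h ∈ Hs q, ee (h * ((n : ℝ) / q)) = if (q : ℤ) ∣ n then (q : ℂ) else 0 := by
  have h1 : ∑ h ∈ Hs q, ee (h * ((n : ℝ) / q))
      = ee (-((q / 2 : ℕ) : ℝ) * ((n : ℝ) / q)) * ∑ u ∈ range q, ee (n * ((u : ℝ) / q)) := by
    rw [Finset.mul_sum]
    unfold Hs
    symm
    refine Finset.sum_bij' (fun u _ => (u : ℤ) - ((q / 2 : ℕ) : ℤ))
      (fun h _ => (h + ((q / 2 : ℕ) : ℤ)).toNat) ?_ ?_ ?_ ?_ ?_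
    · intro u hu
      rw [mem_range] at hu
      rw [mem_Ico]
      omega
    · intro h hh
      rw [mem_Ico] at hh
      rw [mem_range]
      omega
    · intro u _
      simp
    · intro h hh
      rw [mem_Ico] at hh
      omega
    · intro u _
      rw [← ee_add]
      congr 1
      simp only [Int.cast_sub, Int.cast_natCast]
      ring
  rw [h1, sum_ee' q hq]
  split_ifs with hd
  · obtain ⟨c, hc⟩ := hd
    have : -((q / 2 : ℕ) : ℝ) * ((n : ℝ) / q) = ((-((q / 2 : ℕ) : ℤ) * c : ℤ) : ℝ) := by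
      rw [hc]
      have : (q : ℝ) ≠ 0 := by positivity
      simp only [Int.cast_mul, Int.cast_neg, Int.cast_natCast]
      field_simp
    rw [this, ee_int, one_mul]
  · rw [mul_zero]

lemma psh_expand (q V m : ℕ) (h : ℤ) :
    psh q V m h = (1 / V : ℂ) ^ m * ∑ v : Fin m → Fin V, ee (tot v * (-(h : ℝ) / q)) := by
  unfold psh
  rw [mul_pow, sum_tot]

lemma psi_expand (q V m : ℕ) (hq : 0 < q) (h2 : 2 ∣ q) (y : ℤ) :
    psi q V m y = (1 / V : ℂ) ^ m * ∑ v : Fin m → Fin V,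
      (if (q : ℤ) ∣ (y - tot v) then (q : ℂ) else 0) := by
  unfold psi
  simp only [psh_expand]
  have h1 : ∀ h ∈ Hs q, (1 / V : ℂ) ^ m * (∑ v : Fin m → Fin V, ee (tot v * (-(h : ℝ) / q)))
      * ee (h * ((y : ℝ) / q))
      = ∑ v : Fin m → Fin V, (1 / V : ℂ) ^ m * ee (h * (((y - tot v : ℤ) : ℝ) / q)) := by
    intro h _
    rw [mul_assoc, Finset.sum_mul, Finset.mul_sum]
    refine Finset.sum_congr rfl (fun v _ => ?_)
    rw [← ee_add]
    congr 2
    push_cast
    ring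
  rw [Finset.sum_congr rfl h1, Finset.sum_comm, Finset.mul_sum]
  refine Finset.sum_congr rfl (fun v _ => ?_)
  rw [← Finset.mul_sum, sum_Hs q hq h2]

lemma psi_supp (q V m : ℕ) (hq : 0 < q) (h2 : 2 ∣ q) (y : ℤ) (h : psi q V m y ≠ 0) :
    ∃ v : Fin m → Fin V, (q : ℤ) ∣ (y - tot v) := by
  by_contra hcon
  push Not at hcon
  apply h
  rw [psi_expand q V m hq h2]
  rw [Finset.sum_eq_zero (fun v _ => if_neg (hcon v)), mul_zero]

lemma psi_avg (q V m : ℕ) (hq : 0 < q) (hV : 0 < V) (h2 : 2 ∣ q) (y : ℤ) :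
    ∑ a : Fin q, psi q V m (y + (a : ℕ)) = q := by
  unfold psi
  rw [Finset.sum_comm]
  have h1 : ∀ h ∈ Hs q, ∑ a : Fin q, psh q V m h * ee (h * (((y + (a : ℕ) : ℤ) : ℝ) / q))
      = psh q V m h * ee (h * ((y : ℝ) / q)) * (if (q : ℤ) ∣ h then (q : ℂ) else 0) := by
    intro h _
    rw [← sum_ee q hq h, Finset.mul_sum]
    refine Finset.sum_congr rfl (fun a _ => ?_)
    rw [mul_assoc, ← ee_add]
    congr 2
    push_cast
    ring
  rw [Finset.sum_congr rfl h1]
  have h0 : (0 : ℤ) ∈ Hs q := by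
    unfold Hs
    rw [mem_Ico]
    omega
  rw [Finset.sum_eq_single (0 : ℤ)]
  · rw [psh_zero q V m hV, if_pos (dvd_zero _)]
    simp [ee_zero]
  · intro h hh hne
    rw [if_neg, mul_zero]
    intro hd
    apply hne
    refine Int.eq_zero_of_abs_lt_dvd hd ?_
    unfold Hs at hh
    rw [mem_Ico] at hh
    rw [abs_lt]
    omega
  · intro h
    exact absurd h0 h

/-- expansion of a window with the bump -/
lemma window_expand (q V m : ℕ) (b : ℤ) (a : ℤ) (t : ℝ) :
    ∑ u : Fin m → Fin q, psi q V m (b * tot u + a) * ee (tot u * t)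
      = ∑ h ∈ Hs q, psh q V m h * ee (h * ((a : ℝ) / q))
        * (∑ c ∈ range q, ee (c * (t + h * b / q))) ^ m := by
  unfold psi
  have h1 : ∀ u : Fin m → Fin q, (∑ h ∈ Hs q, psh q V m h * ee (h * (((b * tot u + a : ℤ) : ℝ) / q)))
      * ee (tot u * t) = ∑ h ∈ Hs q, psh q V m h * ee (h * ((a : ℝ) / q))
        * ee (tot u * (t + h * b / q)) := by
    intro u
    rw [Finset.sum_mul]
    refine Finset.sum_congr rfl (fun h _ => ?_)
    rw [mul_assoc, mul_assoc, ← ee_add, ← ee_add]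
    congr 2
    push_cast
    ring
  rw [Finset.sum_congr rfl (fun u _ => h1 u), Finset.sum_comm]
  refine Finset.sum_congr rfl (fun h _ => ?_)
  rw [← Finset.mul_sum, sum_tot]

end

end Pool.Agent.H75.UB
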